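import Pool.Agent.Bog.Heis

/-!
Sylow subgroups of absolute Galois groups: the standing data, and the two class-two theorems.
-/

set_option autoImplicit false
set_option linter.unusedVariables false
set_option linter.unusedSectionVars false
set_option linter.style.haveILetI false

namespace Pool.Agent.Bog

open IntermediateField

/-- `P` is a Sylow pro-`ℓ` subgroup (as in the frozen statement; closedness is separate) -/
def IsSyl {G : Type*} [Group G] [TopologicalSpace G] (ℓ : ℕ) (P : Subgroup G) : Prop :=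
  ∀ (U : Subgroup G) [U.Normal], IsOpen (U : Set G) →
    IsPGroup ℓ (P.map (QuotientGroup.mk' U)) ∧ ¬ ℓ ∣ (P.map (QuotientGroup.mk' U)).index

/-- the closed commutator subgroup -/
def dP {G : Type*} [Group G] [TopologicalSpace G] [IsTopologicalGroup G] (P : Subgroup G) :
    Subgroup G := (⁅P, P⁆).topologicalClosure

/-- the Frattini subgroup `closure (P^ℓ [P,P])` -/
def frat {G : Type*} [Group G] [TopologicalSpace G] [IsTopologicalGroup G] (ℓ : ℕ)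
    (P : Subgroup G) : Subgroup G :=
  (⁅P, P⁆ ⊔ Subgroup.closure {x | ∃ g ∈ P, x = g ^ ℓ}).topologicalClosure

section

variable {G : Type*} [Group G] [TopologicalSpace G] [IsTopologicalGroup G] {P : Subgroup G}
  (hPc : IsClosed (P : Set G))

include hPc

lemma dP_le : dP P ≤ P :=
  Subgroup.topologicalClosure_minimal _ (Subgroup.commutator_le_self P) hPc

omit hPc in
lemma dP_le_frat (ℓ : ℕ) : dP P ≤ frat ℓ P := Subgroup.topologicalClosure_mono le_sup_left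

lemma frat_le (ℓ : ℕ) : frat ℓ P ≤ P := by
  apply Subgroup.topologicalClosure_minimal _ _ hPc
  rw [sup_le_iff]
  refine ⟨Subgroup.commutator_le_self P, ?_⟩
  rw [Subgroup.closure_le]
  rintro _ ⟨g, hg, rfl⟩
  exact P.pow_mem hg ℓ

omit hPc in
lemma pow_mem_frat (ℓ : ℕ) {g : G} (hg : g ∈ P) : g ^ ℓ ∈ frat ℓ P := by
  apply Subgroup.le_topologicalClosure
  exact (le_sup_right : Subgroup.closure {x | ∃ g ∈ P, x = g ^ ℓ} ≤ _)
    (Subgroup.subset_closure ⟨g, hg, rfl⟩)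

end

variable {K Ω : Type*} [Field K] [Field Ω] [Algebra K Ω] [Algebra.IsAlgebraic K Ω]
  [IsAlgClosed Ω]

/-- elements of a Sylow pro-`ℓ` subgroup have orbits of `ℓ`-power length -/
lemma sp_of_syl {ℓ : ℕ} {P : Subgroup (Ω ≃ₐ[K] Ω)} (hP : IsSyl ℓ P) :
    ∀ g ∈ P, ∀ x : Ω, ∃ n, (g ^ (ℓ ^ n)) x = x := by
  intro g hg x
  haveI : IsAlgClosure K Ω := ⟨inferInstance, inferInstance⟩
  haveI : Normal K Ω := IsAlgClosure.normal K Ω
  have hnh := (isOpen_stab (K := K) x).mem_nhds (show (1 : Ω ≃ₐ[K] Ω) ∈ _ from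
    (MulAction.stabilizer (Ω ≃ₐ[K] Ω) x).one_mem)
  rw [krullTopology_mem_nhds_one_iff_of_normal] at hnh
  obtain ⟨E, hE, hEn, hEx⟩ := hnh
  haveI : (E.fixingSubgroup).Normal := by
    rw [← IntermediateField.restrictNormalHom_ker]
    infer_instance
  obtain ⟨h1, -⟩ := hP E.fixingSubgroup (IntermediateField.fixingSubgroup_isOpen E)
  obtain ⟨n, hn⟩ := h1 ⟨QuotientGroup.mk' E.fixingSubgroup g, Subgroup.mem_map_of_mem _ hg⟩
  refine ⟨n, ?_⟩
  have h2 := congrArg Subtype.val hn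
  change (QuotientGroup.mk' E.fixingSubgroup g) ^ (ℓ ^ n) = 1 at h2
  rw [← map_pow] at h2
  have h3 : g ^ (ℓ ^ n) ∈ E.fixingSubgroup := by
    rw [← QuotientGroup.eq_one_iff]
    exact h2
  exact hEx h3

lemma std_of_syl {ℓ : ℕ} (hℓ : ℓ.Prime) {P : Subgroup (Ω ≃ₐ[K] Ω)}
    (hPc : IsClosed (P : Set (Ω ≃ₐ[K] Ω))) (hP : IsSyl ℓ P) : Std ℓ P (dP P) :=
  ⟨hℓ, dP_le hPc, Subgroup.le_topologicalClosure _, sp_of_syl hP⟩

/-- roots of unity in a field containing an algebraically closed field of characteristic `≠ ℓ` -/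
lemma roots_of_algClosed {k K : Type*} [Field k] [IsAlgClosed k] [Field K] [Algebra k K] {ℓ : ℕ}
    (hℓ : ℓ.Prime) (hk : ringChar k ≠ ℓ) (m : ℕ) : ∃ ζ : K, IsPrimitiveRoot ζ (ℓ ^ m) := by
  haveI : NeZero (ℓ : k) := by
    refine ⟨fun h => ?_⟩
    have h1 : ringChar k ∣ ℓ := ringChar.dvd h
    rcases (Nat.dvd_prime hℓ).mp h1 with h2 | h2
    · exact CharP.ringChar_ne_one h2
    · exact hk h2
  haveI := IsSepClosed.hasEnoughRootsOfUnity_pow k ℓ m
  obtain ⟨ζ, hζ⟩ := HasEnoughRootsOfUnity.exists_primitiveRoot k (ℓ ^ m)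
  exact ⟨algebraMap k K ζ, hζ.map_of_injective (algebraMap k K).injective⟩

/-- reduction of the class-two embedding property to the cyclic layers of order at least `ℓ²` -/
theorem classTwo_reduction {ℓ : ℕ} (hℓ : ℓ.Prime) {P U : Subgroup (Ω ≃ₐ[K] Ω)}
    (hroots : ∀ m : ℕ, ∃ ζ : K, IsPrimitiveRoot ζ (ℓ ^ m))
    (hPc : IsClosed (P : Set (Ω ≃ₐ[K] Ω))) (hP : IsSyl ℓ P)
    (hNU : dP P ≤ U) (hUP : U ≤ P)
    (hcyc : ∀ (V : Subgroup (Ω ≃ₐ[K] Ω)) (hNV : dP P ≤ V), U ≤ V → V ≤ P →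
      IsOpen ((V.subgroupOf P : Subgroup P) : Set P) →
      (∃ ρ ∈ P, P ≤ V ⊔ Subgroup.zpowers ρ ∧ ρ ^ ℓ ∉ V) → ClassTwo (dP P) V hNV) :
    ClassTwo (dP P) U hNU := by
  haveI : NeZero ℓ := ⟨hℓ.ne_zero⟩
  have hS := std_of_syl hℓ hPc hP
  have hcup := kills_reduction hS le_rfl hroots hNU hUP
    (fun V hNV hUV hVP ho hρ m => cup_of_classTwo (hcyc V hNV hUV hVP ho hρ) (ℓ ^ m))
  intro A B _ _ _ α hsurj hα φ hφ
  exact embed_of_cup hℓ hNU (fun g hg => hS.sp g (hUP hg)) hroots hcup α hsurj hα φ hφ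

/-- the Frattini layer -/
theorem classTwo_frat {ℓ : ℕ} (hℓ : ℓ.Prime) {P : Subgroup (Ω ≃ₐ[K] Ω)}
    (hroots : ∀ m : ℕ, ∃ ζ : K, IsPrimitiveRoot ζ (ℓ ^ m))
    (hPc : IsClosed (P : Set (Ω ≃ₐ[K] Ω))) (hP : IsSyl ℓ P) :
    ClassTwo (dP P) (frat ℓ P) (dP_le_frat ℓ) := by
  apply classTwo_reduction hℓ hroots hPc hP (dP_le_frat ℓ) (frat_le hPc ℓ)
  rintro V hNV hUV hVP ho ⟨ρ, hρ, -, hρV⟩
  exact absurd (hUV (pow_mem_frat ℓ hρ)) hρV

end Pool.Agent.Bog
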