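import Pool.Agent.Bog.Abs

/-!
`ℓ = 2`: the layer `P/U` cyclic of order four, modulo `2`.
-/

set_option autoImplicit false
set_option linter.unusedVariables false
set_option linter.unusedSectionVars false
set_option linter.style.haveILetI false

namespace Pool.Agent.Bog

open IntermediateField

variable {K Ω : Type*} [Field K] [Field Ω] [Algebra K Ω] [Algebra.IsAlgebraic K Ω]
  [IsAlgClosed Ω]

lemma z2 (i : ZMod 2) : i = 0 ∨ i = 1 := by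
  fin_cases i
  · left; rfl
  · right; rfl

lemma ex2 (i : ZMod 2) : ex (-1 : Ω) i = if i = 0 then 1 else -1 := by
  rcases z2 i with h | h
  · subst h
    simp [ex]
  · subst h
    rw [if_neg (by decide)]
    change (-1 : Ω) ^ (1 : ZMod 2).val = -1
    rw [ZMod.val_one, pow_one]

section

variable (h2 : (2 : K) ≠ 0)

include h2

lemma prim2 : IsPrimitiveRoot (-1 : K) 2 := by
  refine IsPrimitiveRoot.mk_of_lt _ (by norm_num) (by norm_num) ?_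
  intro l hl0 hl2 h
  have : l = 1 := by omega
  subst this
  rw [pow_one] at h
  apply h2
  have h3 : (1 : K) - (-1) = 0 := by rw [h]; ring
  linear_combination h3

lemma neg_ne {ξ : Ω} (hξ : ξ ≠ 0) : -ξ ≠ ξ := by
  intro h
  apply h2
  have h3 : (algebraMap K Ω 2) * ξ = 0 := by
    rw [map_ofNat]
    linear_combination -h
  rcases mul_eq_zero.mp h3 with h4 | h4
  · exact (map_eq_zero _).mp h4
  · exact absurd h4 hξ

/-- value of the character in terms of the action on the square root -/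
lemma kap2_zero {ξ : Ω} (hξ : ξ ≠ 0) {σ : Ω ≃ₐ[K] Ω} (h : σ ξ = ξ) :
    kap 2 (algebraMap K Ω (-1)) ξ σ = 0 := by
  apply kap_eq (prim2 h2) hξ
  rw [ex_zero (hzΩ (Ω := Ω) (prim2 h2)), one_mul, h]

lemma kap2_one {ξ : Ω} (hξ : ξ ≠ 0) {σ : Ω ≃ₐ[K] Ω} (h : σ ξ = -ξ) :
    kap 2 (algebraMap K Ω (-1)) ξ σ = 1 := by
  apply kap_eq (prim2 h2) hξ
  rw [map_neg, map_one, ex2, if_neg (by decide), h]
  ring

lemma kap2_act {ξ : Ω} (hξ : ξ ≠ 0) {σ : Ω ≃ₐ[K] Ω} (h : σ (ξ ^ 2) = ξ ^ 2) :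
    σ ξ = ex (-1 : Ω) (kap 2 (algebraMap K Ω (-1)) ξ σ) * ξ := by
  have h3 := kap_spec (prim2 h2) hξ h
  have hm : algebraMap K Ω (-1) = -1 := by rw [map_neg, map_one]
  have h4 := congrArg (fun t => ex t (kap 2 (algebraMap K Ω (-1)) ξ σ)) hm
  rw [← h4]
  exact h3

omit h2 in
lemma sq_cases {ξ : Ω} {σ : Ω ≃ₐ[K] Ω} (h : σ (ξ ^ 2) = ξ ^ 2) : σ ξ = ξ ∨ σ ξ = -ξ := by
  rw [map_pow] at h
  exact sq_eq_sq_iff_eq_or_eq_neg.mp h

/-- from the vanishing of the cup product to a norm equation -/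
lemma norm_of_cob {Φ : Subgroup (Ω ≃ₐ[K] Ω)} {ξ β : Ω} (hξ : ξ ≠ 0) (hβ : β ≠ 0)
    (hx : ξ ^ 2 ∈ fixedField Φ) (hz : β ^ 2 ∈ fixedField Φ)
    (hc : (fun σ τ : Φ => kap 2 (algebraMap K Ω (-1)) ξ (σ : Ω ≃ₐ[K] Ω) *
      kap 2 (algebraMap K Ω (-1)) β (τ : Ω ≃ₐ[K] Ω)) ∈ cob Φ 2)
    {τ : Ω ≃ₐ[K] Ω} (hτ : τ ∈ Φ) (hτξ : τ ξ = -ξ) :
    ∃ w : Ω, w ≠ 0 ∧ (∀ h ∈ Φ, h ξ = ξ → h w = w) ∧ w * τ w = β ^ 2 := by
  obtain ⟨ψ, hψ, hψe⟩ := hc
  set kξ : (Ω ≃ₐ[K] Ω) → ZMod 2 := kap 2 (algebraMap K Ω (-1)) ξ with hkξ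
  set kβ : (Ω ≃ₐ[K] Ω) → ZMod 2 := kap 2 (algebraMap K Ω (-1)) β with hkβ
  simp only at hψe
  have hβfix : ∀ h ∈ Φ, h (β ^ 2) = β ^ 2 := fun h hh => (mem_fx.mp hz) h hh
  have hξfix : ∀ h ∈ Φ, h (ξ ^ 2) = ξ ^ 2 := fun h hh => (mem_fx.mp hx) h hh
  have hkβm : ∀ g ∈ Φ, ∀ h ∈ Φ, kβ (g * h) = kβ g + kβ h := fun g hg h hh =>
    kap_mul_right (prim2 h2) hβ (hβfix g hg) (hβfix h hh)
  -- the subgroup fixing `ξ`
  set Φx : Subgroup (Ω ≃ₐ[K] Ω) := Φ ⊓ MulAction.stabilizer (Ω ≃ₐ[K] Ω) ξ with hΦx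
  have hle : Φx ≤ Φ := inf_le_left
  have hfixξ : ∀ g : Φx, (g : Ω ≃ₐ[K] Ω) ξ = ξ := fun g => g.2.2
  have hψx : IsChar (fun g : Φx => ψ (Subgroup.inclusion hle g)) := by
    refine ⟨fun g h => ?_, hψ.comp_continuous (continuous_subtype_val.subtype_mk _)⟩
    have h3 := hψe (Subgroup.inclusion hle g) (Subgroup.inclusion hle h)
    have h4 : kξ ((Subgroup.inclusion hle g : Φ) : Ω ≃ₐ[K] Ω) = 0 :=
      kap2_zero h2 hξ (hfixξ g)
    rw [h4, zero_mul] at h3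
    change ψ (Subgroup.inclusion hle (g * h)) = ψ (Subgroup.inclusion hle g) +
      ψ (Subgroup.inclusion hle h)
    rw [map_mul]
    exact (sub_eq_zero.mp h3.symm).symm
  obtain ⟨ω, hω0, hω⟩ := kummer (Ω := Ω) (prim2 h2) Φx _ hψx.1 hψx.2
  have hmone : (algebraMap K Ω (-1)) = -1 := by rw [map_neg, map_one]
  rw [hmone] at hω
  -- conjugation
  have hτinv : τ⁻¹ ξ = -ξ := by
    have : τ (-ξ) = ξ := by rw [map_neg, hτξ, neg_neg]
    calc τ⁻¹ ξ = τ⁻¹ (τ (-ξ)) := by rw [this]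
      _ = (τ⁻¹ * τ) (-ξ) := rfl
      _ = -ξ := by rw [inv_mul_cancel]; rfl
  have hconj : ∀ g ∈ Φx, τ⁻¹ * g * τ ∈ Φx := by
    intro g hg
    refine ⟨Φ.mul_mem (Φ.mul_mem (Φ.inv_mem hτ) hg.1) hτ, ?_⟩
    change τ⁻¹ (g (τ ξ)) = ξ
    have hgξ : g ξ = ξ := hg.2
    rw [hτξ, map_neg, hgξ, map_neg, hτinv, neg_neg]
  have hψconj : ∀ (g : Ω ≃ₐ[K] Ω) (hg : g ∈ Φx),
      ψ ⟨τ⁻¹ * g * τ, (hconj g hg).1⟩ = ψ ⟨g, hg.1⟩ + kβ g := by
    intro g hg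
    have e1 := hψe ⟨g, hg.1⟩ ⟨τ, hτ⟩
    have e2 := hψe ⟨τ, hτ⟩ ⟨τ⁻¹ * g * τ, (hconj g hg).1⟩
    have h4 : kξ g = 0 := kap2_zero h2 hξ hg.2
    have h5 : kξ τ = 1 := kap2_one h2 hξ hτξ
    have h6 : kβ (τ⁻¹ * g * τ) = kβ g := by
      have h7 : kβ (τ⁻¹ * g * τ) = kβ τ⁻¹ + kβ g + kβ τ := by
        rw [hkβm _ (Φ.mul_mem (Φ.inv_mem hτ) hg.1) _ hτ, hkβm _ (Φ.inv_mem hτ) _ hg.1]
      have h8 : kβ τ⁻¹ + kβ τ = 0 := by
        rw [← hkβm _ (Φ.inv_mem hτ) _ hτ, inv_mul_cancel]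
        exact kap2_zero h2 hβ rfl
      rw [h7]
      linear_combination h8
    have e3 : (⟨g, hg.1⟩ : Φ) * ⟨τ, hτ⟩ = ⟨τ, hτ⟩ * ⟨τ⁻¹ * g * τ, (hconj g hg).1⟩ := by
      apply Subtype.ext
      change g * τ = τ * (τ⁻¹ * g * τ)
      group
    simp only at e1 e2
    rw [h4, zero_mul, e3] at e1
    rw [h5, one_mul, h6] at e2
    linear_combination e1 - e2
  have hτ2 : τ * τ ∈ Φx := by
    refine ⟨Φ.mul_mem hτ hτ, ?_⟩
    change τ (τ ξ) = ξ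
    rw [hτξ, map_neg, hτξ, neg_neg]
  have hψτ2 : ψ ⟨τ * τ, hτ2.1⟩ = kβ τ := by
    have e1 := hψe ⟨τ, hτ⟩ ⟨τ, hτ⟩
    have h5 : kξ τ = 1 := kap2_one h2 hξ hτξ
    simp only at e1
    rw [h5, one_mul] at e1
    have e2 : ψ ⟨τ, hτ⟩ + ψ ⟨τ, hτ⟩ = 0 := by
      rcases z2 (ψ ⟨τ, hτ⟩) with h | h <;> rw [h] <;> decide
    have e3 : (⟨τ, hτ⟩ : Φ) * ⟨τ, hτ⟩ = ⟨τ * τ, hτ2.1⟩ := rfl
    rw [e3, e2, zero_sub] at e1
    rw [e1]
    exact (neg_eq_of_add_eq_zero_left (by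
      rcases z2 (ψ ⟨τ * τ, hτ2.1⟩) with h | h <;> rw [h] <;> decide)).symm
  -- the element `u`
  have hexsq : ∀ i : ZMod 2, ex (-1 : Ω) i * ex (-1 : Ω) i = 1 := by
    intro i
    rw [ex2]
    split_ifs <;> ring
  have hexadd : ∀ i j : ZMod 2, ex (-1 : Ω) (i + j) = ex (-1 : Ω) i * ex (-1 : Ω) j := by
    intro i j
    have := ex_add (hzΩ (Ω := Ω) (prim2 h2)) i j
    rwa [hmone] at this
  have hexfix : ∀ (g : Ω ≃ₐ[K] Ω) (i : ZMod 2), g (ex (-1 : Ω) i) = ex (-1 : Ω) i := by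
    intro g i
    have := ex_fixed (ζ := (-1 : K)) (Ω := Ω) g i
    rwa [hmone] at this
  have hexne : ∀ i : ZMod 2, ex (-1 : Ω) i ≠ 0 := by
    intro i h
    have := hexsq i
    rw [h, zero_mul] at this
    exact zero_ne_one this
  set u : Ω := ω * τ ω / β with hu
  have hτω0 : τ ω ≠ 0 := act_ne_zero _ hω0
  have hu0 : u ≠ 0 := div_ne_zero (mul_ne_zero hω0 hτω0) hβ
  have hgω : ∀ (g : Ω ≃ₐ[K] Ω) (hg : g ∈ Φx), g ω = ex (-1 : Ω) (ψ ⟨g, hg.1⟩) * ω :=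
    fun g hg => hω ⟨g, hg⟩
  have hgτω : ∀ (g : Ω ≃ₐ[K] Ω) (hg : g ∈ Φx),
      g (τ ω) = ex (-1 : Ω) (ψ ⟨g, hg.1⟩ + kβ g) * τ ω := by
    intro g hg
    have e1 : g (τ ω) = τ ((τ⁻¹ * g * τ) ω) := by
      change (g * τ) ω = (τ * (τ⁻¹ * g * τ)) ω
      congr 1
      group
    rw [e1, hgω _ (hconj g hg), hψconj g hg, map_mul, hexfix]
  have hgβ : ∀ g ∈ Φ, g β = ex (-1 : Ω) (kβ g) * β := fun g hg => kap2_act h2 hβ (hβfix g hg)
  have hgu : ∀ g ∈ Φx, g u = u := by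
    intro g hg
    rw [hu, map_div₀, map_mul, hgω g hg, hgτω g hg, hgβ g hg.1, hexadd]
    have h7 := hexsq (ψ ⟨g, hg.1⟩)
    have h8 := hexne (kβ g)
    rw [div_eq_div_iff (mul_ne_zero h8 hβ) hβ]
    linear_combination (ex (-1 : Ω) (kβ g) * ω * τ ω * β) * h7
  have hτu : τ u = u := by
    have e1 : τ (τ ω) = ex (-1 : Ω) (kβ τ) * ω := by
      have := hgω (τ * τ) hτ2
      rw [hψτ2] at this
      exact this
    rw [hu, map_div₀, map_mul, e1, hgβ τ hτ]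
    have h8 := hexne (kβ τ)
    rw [div_eq_div_iff (mul_ne_zero h8 hβ) hβ]
    ring
  refine ⟨ω ^ 2 / u, div_ne_zero (pow_ne_zero 2 hω0) hu0, ?_, ?_⟩
  · intro h hh hhξ
    have hhx : h ∈ Φx := ⟨hh, hhξ⟩
    rw [map_div₀, map_pow, hgu h hhx, hgω h hhx, mul_pow, pow_two (ex (-1 : Ω) _), hexsq, one_mul]
  · rw [map_div₀, map_pow, hτu, div_mul_div_comm, div_eq_iff (mul_ne_zero hu0 hu0), hu]
    field_simp

/-- square roots of elements of the ground field are fixed by the Frattini subgroup -/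
lemma frat_fixed {P : Subgroup (Ω ≃ₐ[K] Ω)} {γ : Ω} (hγ : γ ≠ 0) (hγP : γ ^ 2 ∈ fixedField P) :
    ∀ g ∈ frat 2 P, g γ = γ := by
  have h1 : ⁅P, P⁆ ⊔ Subgroup.closure {x | ∃ g ∈ P, x = g ^ 2} ≤
      MulAction.stabilizer (Ω ≃ₐ[K] Ω) γ := by
    rw [sup_le_iff]
    constructor
    · intro g hg
      exact root_fixed (prim2 h2) hγ hγP g (Subgroup.le_topologicalClosure _ hg)
    · rw [Subgroup.closure_le]
      rintro _ ⟨g, hg, rfl⟩
      change (g ^ 2) γ = γ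
      rw [pow_two]
      change g (g γ) = γ
      rcases sq_cases ((mem_fx.mp hγP) g hg) with h | h
      · rw [h, h]
      · rw [h, map_neg, h, neg_neg]
  have h3 := Subgroup.topologicalClosure_minimal _ h1 (isClosed_stab (K := K) γ)
  intro g hg
  exact h3 hg

/-- the subfield fixed by an index two layer is fixed by the Frattini subgroup -/
lemma fx_le_frat {P V : Subgroup (Ω ≃ₐ[K] Ω)} (hS : Std 2 P (dP P)) (hNV : dP P ≤ V)
    (hVP : V ≤ P) {ρ : Ω ≃ₐ[K] Ω} (hρ : ρ ∈ P) (hPρ : P ≤ V ⊔ Subgroup.zpowers ρ)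
    (hρ2 : ρ ^ 2 ∈ V) : fixedField V ≤ fixedField (frat 2 P) := by
  -- the subgroup of elements whose square acts trivially
  let S : Subgroup (Ω ≃ₐ[K] Ω) :=
    { carrier := {g | g ∈ P ∧ ∀ x ∈ fixedField V, g (g x) = x}
      one_mem' := ⟨P.one_mem, fun x _ => rfl⟩
      mul_mem' := by
        rintro g h ⟨hg, hg2⟩ ⟨hh, hh2⟩
        refine ⟨P.mul_mem hg hh, fun x hx => ?_⟩
        change g (h (g (h x))) = x
        rw [hS.comm_act hNV hh hg (hS.act_mem hNV hVP hh hx), hh2 x hx, hg2 x hx]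
      inv_mem' := by
        rintro g ⟨hg, hg2⟩
        refine ⟨P.inv_mem hg, fun x hx => ?_⟩
        have h3 := hg2 _ (hS.act_mem hNV hVP (P.inv_mem hg) (hS.act_mem hNV hVP
          (P.inv_mem hg) hx))
        have h4 : g (g (g⁻¹ (g⁻¹ x))) = x := by
          change (g * (g * (g⁻¹ * g⁻¹))) x = x
          have : g * (g * (g⁻¹ * g⁻¹)) = 1 := by group
          rw [this]
          rfl
        exact h3.symm.trans h4 }
  have hVS : V ≤ S := by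
    intro g hg
    refine ⟨hVP hg, fun x hx => ?_⟩
    rw [(mem_fx.mp hx) g hg, (mem_fx.mp hx) g hg]
  have hρS : ρ ∈ S := by
    refine ⟨hρ, fun x hx => ?_⟩
    have := (mem_fx.mp hx) _ hρ2
    rw [pow_two] at this
    exact this
  have hPS : P ≤ S := hPρ.trans (by
    rw [sup_le_iff, Subgroup.zpowers_le]
    exact ⟨hVS, hρS⟩)
  intro x hx
  rw [mem_fx]
  have h1 : ⁅P, P⁆ ⊔ Subgroup.closure {x | ∃ g ∈ P, x = g ^ 2} ≤
      MulAction.stabilizer (Ω ≃ₐ[K] Ω) x := by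
    rw [sup_le_iff]
    constructor
    · intro g hg
      exact (mem_fx.mp hx) g (hNV (Subgroup.le_topologicalClosure _ hg))
    · rw [Subgroup.closure_le]
      rintro _ ⟨g, hg, rfl⟩
      change (g ^ 2) x = x
      rw [pow_two]
      exact (hPS hg).2 x hx
  have h3 := Subgroup.topologicalClosure_minimal _ h1 (isClosed_stab (K := K) x)
  intro g hg
  exact h3 hg

/-- **The layer `P/U` cyclic of order dividing four, modulo two.** -/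
theorem kills_c4 {P U : Subgroup (Ω ≃ₐ[K] Ω)} (hroots : ∀ m : ℕ, ∃ ζ : K, IsPrimitiveRoot ζ (2 ^ m))
    (hPc : IsClosed (P : Set (Ω ≃ₐ[K] Ω))) (hP : IsSyl 2 P) (hNU : dP P ≤ U) (hUP : U ≤ P)
    {ρ : Ω ≃ₐ[K] Ω} (hρ : ρ ∈ P) (hPρ : P ≤ U ⊔ Subgroup.zpowers ρ) (hρ4 : ρ ^ 4 ∈ U) :
    Kills (fixedField U) (sN (dP P) 2 (-1 : K)) := by
  classical
  have hS := std_of_syl Nat.prime_two hPc hP
  have hζ := prim2 (K := K) h2
  set N := dP P with hN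
  set Φ := frat 2 P with hΦ
  have hNΦ : N ≤ Φ := dP_le_frat 2
  have hΦP : Φ ≤ P := frat_le hPc 2
  have hs := sN_symb (Ω := Ω) N hζ
  set σ₀ : Ω ≃ₐ[K] Ω := ρ ^ 2 with hσ₀
  have hσ₀Φ : σ₀ ∈ Φ := pow_mem_frat 2 hρ
  have hσ₀P : σ₀ ∈ P := hΦP hσ₀Φ
  have hσ₀2 : σ₀ ^ 2 ∈ U := by rw [hσ₀, ← pow_mul]; exact hρ4
  set U₁ := U ⊔ Subgroup.zpowers σ₀ with hU₁
  have hU₁P : U₁ ≤ P := by
    rw [hU₁, sup_le_iff, Subgroup.zpowers_le]
    exact ⟨hUP, hσ₀P⟩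
  have hNU₁ : N ≤ U₁ := hNU.trans le_sup_left
  have hρ2U₁ : ρ ^ 2 ∈ U₁ := (le_sup_right : Subgroup.zpowers σ₀ ≤ _) (Subgroup.mem_zpowers σ₀)
  have hPU₁ : P ≤ U₁ ⊔ Subgroup.zpowers ρ := hPρ.trans (sup_le_sup_right le_sup_left _)
  have hF₁Φ : fixedField U₁ ≤ fixedField Φ := fx_le_frat h2 hS hNU₁ hU₁P hρ hPU₁ hρ2U₁
  -- Theorem B modulo two
  have hB : Kills (fixedField Φ) (sN N 2 (-1 : K)) :=
    kills_of_cup hζ hNΦ (cup_of_classTwo (classTwo_frat Nat.prime_two hroots hPc hP) 2)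
  -- the symbol on the Frattini subgroup kills `F₁`
  have hΦk : Kills (fixedField U₁) (sN Φ 2 (-1 : K)) := by
    have hsΦ := (sN_symb (Ω := Ω) Φ hζ).mono hF₁Φ
    apply kills_of_layer 2 Nat.prime_two U₁ ρ (fun x hx => hS.act_mem hNU₁ hU₁P hρ hx)
      (fun x hx => (mem_fx.mp hx) _ hρ2U₁)
      (fun g hg x => hS.sp g ((sup_le hU₁P (by rw [Subgroup.zpowers_le]; exact hρ)) hg) x)
      _ hsΦ
    intro c y hc hy hc0 hy0
    have hcP : c ∈ fixedField P := fx_anti hPU₁ hc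
    rw [sN_eq_zero]
    refine ⟨fun _ => 0, IsLocallyConstant.const 0, fun σ τ => ?_⟩
    have h1 : (σ : Ω ≃ₐ[K] Ω) (rt 2 c) = rt 2 c :=
      frat_fixed h2 (rt_ne_zero 2 hc0) (by rw [rt_pow]; exact hcP) σ σ.2
    have h3 : kap 2 (algebraMap K Ω (-1)) (rt 2 c) (σ : Ω ≃ₐ[K] Ω) = 0 :=
      kap2_zero h2 (rt_ne_zero 2 hc0) h1
    simp only [h3, zero_mul]
    ring
  -- Bass–Tate
  apply kills_of_layer 2 Nat.prime_two U σ₀ (fun x hx => hS.act_mem hNU hUP hσ₀P hx)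
    (fun x hx => (mem_fx.mp hx) _ hσ₀2) (fun g hg x => hS.sp g (hU₁P hg) x) _
    (hs.mono (fx_anti hNU))
  intro x y hx hy hx0 hy0
  have hxΦ : x ∈ fixedField Φ := hF₁Φ hx
  have hxN : x ∈ fixedField N := fx_anti hNΦ hxΦ
  have hyN : y ∈ fixedField N := fx_anti hNU hy
  by_cases hyσ : σ₀ y = y
  · exact kills_small hS _ hs (fun a b ha hb ha0 hb0 => sN_zero_of_ground N hζ le_rfl ha ha0)
      U₁ hNU₁ hU₁P ρ hρ hPU₁ hρ2U₁ x y hx (mem_fx_sup_zpowers.mpr ⟨hy, hyσ⟩) hx0 hy0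
  set ξ : Ω := rt 2 x with hξ
  have hξ2 : ξ ^ 2 = x := rt_pow 2 x
  have hξ0 : ξ ≠ 0 := rt_ne_zero 2 hx0
  by_cases hD : ∀ d ∈ Φ, d y = y → d ξ = ξ
  · rw [sN_eq_zero]
    refine ⟨fun _ => 0, IsLocallyConstant.const 0, fun σ τ => ?_⟩
    have h1 : (σ : Ω ≃ₐ[K] Ω) (rt 2 x) = rt 2 x :=
      hD σ (hNΦ σ.2) ((mem_fx.mp hyN) σ σ.2)
    have h3 : kap 2 (algebraMap K Ω (-1)) (rt 2 x) (σ : Ω ≃ₐ[K] Ω) = 0 :=
      kap2_zero h2 (rt_ne_zero 2 hx0) h1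
    simp only [h3, zero_mul]
    ring
  push Not at hD
  obtain ⟨τ, hτ, hτy, hτξ'⟩ := hD
  have hξfix : ∀ h ∈ Φ, h (ξ ^ 2) = ξ ^ 2 := fun h hh => by
    rw [hξ2]; exact (mem_fx.mp hxΦ) h hh
  have hτξ : τ ξ = -ξ := (sq_cases (hξfix τ hτ)).resolve_left hτξ'
  set y' : Ω := σ₀ y with hy'
  have hy'0 : y' ≠ 0 := act_ne_zero _ hy0
  have hy'U : y' ∈ fixedField U := hS.act_mem hNU hUP hσ₀P hy
  have hσ₀y' : σ₀ y' = y := by
    have := (mem_fx.mp hy) _ hσ₀2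
    rw [pow_two] at this
    exact this
  have hzF₁ : y * y' ∈ fixedField U₁ := by
    rw [hU₁, mem_fx_sup_zpowers]
    refine ⟨mul_mem hy hy'U, ?_⟩
    rw [map_mul, hσ₀y', mul_comm, ← hy']
  have htF₁ : y + y' ∈ fixedField U₁ := by
    rw [hU₁, mem_fx_sup_zpowers]
    refine ⟨add_mem hy hy'U, ?_⟩
    rw [map_add, hσ₀y', add_comm, ← hy']
  have hz0 : y * y' ≠ 0 := mul_ne_zero hy0 hy'0
  -- the action of `Φ` on `y`
  have hΦy : ∀ h ∈ Φ, (h y = y ∧ h y' = y') ∨ (h y = y' ∧ h y' = y) := by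
    intro h hh
    have e1 := (mem_fx.mp (hF₁Φ hzF₁)) h hh
    have e2 := (mem_fx.mp (hF₁Φ htF₁)) h hh
    rw [map_mul] at e1
    rw [map_add] at e2
    have e3 : (h y - y) * (h y - y') = 0 := by
      have : h y' = y + y' - h y := by linear_combination e2
      rw [this] at e1
      linear_combination -e1
    rcases mul_eq_zero.mp e3 with e4 | e4
    · left
      have e5 : h y = y := by linear_combination e4
      exact ⟨e5, by linear_combination e2 - e5⟩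
    · right
      have e5 : h y = y' := by linear_combination e4
      exact ⟨e5, by linear_combination e2 - e5⟩
  -- the norm equation
  set β : Ω := rt 2 (y * y') with hβ
  have hβ2 : β ^ 2 = y * y' := rt_pow 2 _
  have hβ0 : β ≠ 0 := rt_ne_zero 2 hz0
  have hcob := (sN_eq_zero Φ (-1 : K) x (y * y')).mp (hΦk x (y * y') hx hzF₁ hx0 hz0)
  obtain ⟨w, hw0, hwfix, hww⟩ := norm_of_cob h2 hξ0 hβ0 (by rw [hξ2]; exact hxΦ)
    (by rw [hβ2]; exact hF₁Φ hzF₁) hcob hτ hτξ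
  rw [hβ2] at hww
  set w' : Ω := τ w with hw'
  -- the action of `Φ` on `w`
  have hτinv : τ⁻¹ ξ = -ξ := by
    have : τ (-ξ) = ξ := by rw [map_neg, hτξ, neg_neg]
    calc τ⁻¹ ξ = τ⁻¹ (τ (-ξ)) := by rw [this]
      _ = (τ⁻¹ * τ) (-ξ) := rfl
      _ = -ξ := by rw [inv_mul_cancel]; rfl
  have hΦw1 : ∀ h ∈ Φ, h ξ = ξ → h w = w ∧ h w' = w' := by
    intro h hh hhξ
    refine ⟨hwfix h hh hhξ, ?_⟩
    have e1 : (τ⁻¹ * h * τ) w = w := by
      apply hwfix _ (Φ.mul_mem (Φ.mul_mem (Φ.inv_mem hτ) hh) hτ)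
      change τ⁻¹ (h (τ ξ)) = ξ
      rw [hτξ, map_neg, hhξ, map_neg, hτinv, neg_neg]
    have e2 : h w' = τ ((τ⁻¹ * h * τ) w) := by
      change (h * τ) w = (τ * (τ⁻¹ * h * τ)) w
      congr 1
      group
    rw [e2, e1]
  have hΦw2 : ∀ h ∈ Φ, h ξ = -ξ → h w = w' ∧ h w' = w := by
    intro h hh hhξ
    constructor
    · have e1 : (τ⁻¹ * h) w = w := by
        apply hwfix _ (Φ.mul_mem (Φ.inv_mem hτ) hh)
        change τ⁻¹ (h ξ) = ξ
        rw [hhξ, map_neg, hτinv, neg_neg]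
      have e2 : h w = τ ((τ⁻¹ * h) w) := by
        change h w = (τ * (τ⁻¹ * h)) w
        congr 1
        group
      rw [e2, e1]
    · have e1 : (h * τ) w = w := by
        apply hwfix _ (Φ.mul_mem hh hτ)
        change h (τ ξ) = ξ
        rw [hτξ, map_neg, hhξ, neg_neg]
      exact e1
  -- an element moving `y` and fixing `ξ`
  have hσ : ∃ σ ∈ Φ, σ y = y' ∧ σ ξ = ξ := by
    rcases sq_cases (hξfix σ₀ hσ₀Φ) with h | h
    · exact ⟨σ₀, hσ₀Φ, rfl, h⟩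
    · refine ⟨σ₀ * τ, Φ.mul_mem hσ₀Φ hτ, ?_, ?_⟩
      · change σ₀ (τ y) = y'
        rw [hτy]
      · change σ₀ (τ ξ) = ξ
        rw [hτξ, map_neg, h, neg_neg]
  obtain ⟨σ, hσΦ, hσy, hσξ⟩ := hσ
  have hwy0 : w + y ≠ 0 := by
    intro h
    have e1 : w = -y := eq_neg_of_add_eq_zero_left h
    have e2 := (hΦw1 σ hσΦ hσξ).1
    rw [e1, map_neg, hσy] at e2
    exact hyσ (neg_injective e2)
  have hw'y0 : w' + y ≠ 0 := by
    have : w' + y = τ (w + y) := by rw [map_add, hτy]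
    rw [this]
    exact act_ne_zero _ hwy0
  set S : Ω := y + y' + w + w' with hSd
  have hyS : y * S = (w + y) * (w' + y) := by
    rw [hSd]
    linear_combination -hww
  have hS0 : S ≠ 0 := by
    intro h
    rw [h, mul_zero] at hyS
    exact (mul_ne_zero hwy0 hw'y0) hyS.symm
  have hSΦ : S ∈ fixedField Φ := by
    rw [mem_fx]
    intro h hh
    rw [hSd, map_add, map_add, map_add]
    rcases hΦy h hh with ⟨a1, a2⟩ | ⟨a1, a2⟩ <;>
      rcases sq_cases (hξfix h hh) with hx' | hx'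
    · obtain ⟨b1, b2⟩ := hΦw1 h hh hx'
      rw [a1, a2, b1, b2]
    · obtain ⟨b1, b2⟩ := hΦw2 h hh hx'
      rw [a1, a2, b1, b2]
      ring
    · obtain ⟨b1, b2⟩ := hΦw1 h hh hx'
      rw [a1, a2, b1, b2]
      ring
    · obtain ⟨b1, b2⟩ := hΦw2 h hh hx'
      rw [a1, a2, b1, b2]
      ring
  have hSN : S ∈ fixedField N := fx_anti hNΦ hSΦ
  have hyS0 : y * S ≠ 0 := mul_ne_zero hy0 hS0
  have hySN : y * S ∈ fixedField N := mul_mem hyN hSN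
  -- `(y S, x) = 0` by the norm lemma
  have hnorm : sN N 2 (-1 : K) (y * S) x = 0 := by
    rw [sN_eq_zero]
    apply norm_cob N hζ (α := rt 2 x) (β := rt 2 (y * S)) (rt_ne_zero 2 hx0)
      (fun g hg => by rw [rt_pow]; exact (mem_fx.mp hxN) g hg)
      (fun i : ZMod 2 => if i = 0 then w + y else w' + y)
    · intro i
      split_ifs
      · exact hwy0
      · exact hw'y0
    · intro g hg i
      have hgy : g y = y := (mem_fx.mp hyN) g hg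
      have hgΦ : g ∈ Φ := hNΦ hg
      rcases sq_cases (hξfix g hgΦ) with hgξ | hgξ
      · have hk : kap 2 (algebraMap K Ω (-1)) (rt 2 x) g = 0 := kap2_zero h2 hξ0 hgξ
        obtain ⟨b1, b2⟩ := hΦw1 g hgΦ hgξ
        rw [hk, add_zero]
        split_ifs
        · rw [map_add, hgy, b1]
        · rw [map_add, hgy, b2]
      · have hk : kap 2 (algebraMap K Ω (-1)) (rt 2 x) g = 1 := kap2_one h2 hξ0 hgξ
        obtain ⟨b1, b2⟩ := hΦw2 g hgΦ hgξ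
        rw [hk]
        rcases z2 i with hi | hi
        · subst hi
          rw [if_pos rfl, if_neg (by decide), map_add, hgy, b1]
        · subst hi
          rw [if_neg (by decide), if_pos (by decide), map_add, hgy, b2]
    · rw [rt_pow, hyS]
      have : (Finset.univ : Finset (ZMod 2)) = {0, 1} := by decide
      rw [this, Finset.prod_pair (by decide)]
      simp
  have hnorm' : sN N 2 (-1 : K) x (y * S) = 0 := by
    have := hs.skew hxN hySN hx0 hyS0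
    rw [hnorm, add_zero] at this
    exact this
  rw [hs.mul_right x y S hxN hyN hSN hx0 hy0 hS0, hB x S hxΦ hSΦ hx0 hS0, add_zero] at hnorm'
  exact hnorm'

end

end Pool.Agent.Bog
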