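import Pool.Agent.Bog.Radon
import Pool.Agent.Bog.Abs

/-!
The symbols `(1 - ξ, 1 - η)`, where `ξ`, `η` are `ℓ`-power roots of elements of the fixed field of
`P`, vanish over the commutator subgroup.
-/

set_option autoImplicit false
set_option linter.unusedVariables false
set_option linter.unusedSectionVars false
set_option linter.style.haveILetI false

namespace Pool.Agent.Bog

open IntermediateField Finset

section Tri

variable {K Ω : Type*} [Field K] [Field Ω] [Algebra K Ω] {A : Type*} [AddCommGroup A]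
  {E : IntermediateField K Ω} {s : Ω → Ω → A}

/-- the triangle identity -/
lemma IsSymb.triangle (hs : IsSymb E s) {w v : Ω} (hw : w ∈ E) (hv : v ∈ E) (hw0 : w ≠ 0)
    (hv0 : v ≠ 0) (hw1 : w ≠ 1) (hv1 : v ≠ 1) (hwv : w * v ≠ 1)
    (hz : ∀ b, b ∈ E → b ≠ 0 → s b w = 0) (hm : ∀ b, b ∈ E → b ≠ 0 → s b (-1) = 0) :
    s (1 - w) (1 - v) = s (1 - w) (1 - w * v) + s (1 - w * v) (1 - v) := by
  have ha0 : 1 - w ≠ 0 := sub_ne_zero.mpr (Ne.symm hw1)
  have hb0 : 1 - v ≠ 0 := sub_ne_zero.mpr (Ne.symm hv1)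
  have hc0 : 1 - w * v ≠ 0 := sub_ne_zero.mpr (Ne.symm hwv)
  have haE : 1 - w ∈ E := E.sub_mem E.one_mem hw
  have hbE : 1 - v ∈ E := E.sub_mem E.one_mem hv
  have hcE : 1 - w * v ∈ E := E.sub_mem E.one_mem (E.mul_mem hw hv)
  have hciE : (1 - w * v)⁻¹ ∈ E := E.inv_mem hcE
  have hci0 : (1 - w * v)⁻¹ ≠ 0 := inv_ne_zero hc0
  have hwb0 : w * (1 - v) ≠ 0 := mul_ne_zero hw0 hb0
  have hwbE : w * (1 - v) ∈ E := E.mul_mem hw hbE
  have e1 : 1 - (1 - w) * (1 - w * v)⁻¹ = w * (1 - v) * (1 - w * v)⁻¹ := by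
    field_simp
    ring
  have hne1 : (1 - w) * (1 - w * v)⁻¹ ≠ 1 := by
    intro h
    rw [h, sub_self] at e1
    exact mul_ne_zero hwb0 hci0 e1.symm
  have hst := hs.st ((1 - w) * (1 - w * v)⁻¹) (E.mul_mem haE hciE) (mul_ne_zero ha0 hci0) hne1
  rw [e1, hs.mul_left _ _ _ haE hciE (E.mul_mem hwbE hciE) ha0 hci0 (mul_ne_zero hwb0 hci0),
    hs.inv_left hcE (E.mul_mem hwbE hciE) hc0 (mul_ne_zero hwb0 hci0),
    hs.mul_right _ _ _ haE hwbE hciE ha0 hwb0 hci0, hs.inv_right hcE haE hc0 ha0,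
    hs.mul_right _ _ _ hcE hwbE hciE hc0 hwb0 hci0, hs.inv_right hcE hcE hc0 hc0,
    hs.mul_right _ _ _ haE hw hbE ha0 hw0 hb0, hs.mul_right _ _ _ hcE hw hbE hc0 hw0 hb0,
    hz _ haE ha0, hz _ hcE hc0] at hst
  have hcc : s (1 - w * v) (1 - w * v) = 0 := by
    have h1 := hs.self_neg hcE hc0
    have e2 : -(1 - w * v) = (-1) * (1 - w * v) := by ring
    rw [e2, hs.mul_right _ _ _ hcE (E.neg_mem E.one_mem) hcE hc0 (by simp) hc0, hm _ hcE hc0,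
      zero_add] at h1
    exact h1
  rw [hcc] at hst
  have h3 : s (1 - w) (1 - v) - s (1 - w) (1 - w * v) - s (1 - w * v) (1 - v) = 0 := by
    have : s (1 - w) (1 - v) - s (1 - w) (1 - w * v) - s (1 - w * v) (1 - v) =
      0 + s (1 - w) (1 - v) + -s (1 - w) (1 - w * v) + -(0 + s (1 - w * v) (1 - v) + -0) := by
      abel
    rw [this]
    exact hst
  rw [sub_sub, sub_eq_zero] at h3
  exact h3

lemma IsSymb.sum_left (hs : IsSymb E s) {ι : Type*} (R : Finset ι) (f : ι → Ω) {y : Ω}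
    (hy : y ∈ E) (hy0 : y ≠ 0) (hf : ∀ r ∈ R, f r ∈ E) (hf0 : ∀ r ∈ R, f r ≠ 0) :
    ∑ r ∈ R, s (f r) y = s (∏ r ∈ R, f r) y := by
  classical
  induction R using Finset.induction_on with
  | empty => rw [Finset.sum_empty, Finset.prod_empty, hs.one_left hy hy0]
  | insert a R ha ih =>
    rw [Finset.sum_insert ha, Finset.prod_insert ha,
      ih (fun r hr => hf r (Finset.mem_insert_of_mem hr))
        (fun r hr => hf0 r (Finset.mem_insert_of_mem hr)),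
      hs.mul_left _ _ _ (hf a (Finset.mem_insert_self a R))
        (E.prod_mem (fun r hr => hf r (Finset.mem_insert_of_mem hr))) hy
        (hf0 a (Finset.mem_insert_self a R))
        (Finset.prod_ne_zero_iff.mpr (fun r hr => hf0 r (Finset.mem_insert_of_mem hr))) hy0]

lemma IsSymb.sum_right (hs : IsSymb E s) {ι : Type*} (R : Finset ι) (f : ι → Ω) {y : Ω}
    (hy : y ∈ E) (hy0 : y ≠ 0) (hf : ∀ r ∈ R, f r ∈ E) (hf0 : ∀ r ∈ R, f r ≠ 0) :
    ∑ r ∈ R, s y (f r) = s y (∏ r ∈ R, f r) := by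
  classical
  induction R using Finset.induction_on with
  | empty => rw [Finset.sum_empty, Finset.prod_empty, hs.one_right hy hy0]
  | insert a R ha ih =>
    rw [Finset.sum_insert ha, Finset.prod_insert ha,
      ih (fun r hr => hf r (Finset.mem_insert_of_mem hr))
        (fun r hr => hf0 r (Finset.mem_insert_of_mem hr)),
      hs.mul_right _ _ _ hy (hf a (Finset.mem_insert_self a R))
        (E.prod_mem (fun r hr => hf r (Finset.mem_insert_of_mem hr))) hy0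
        (hf0 a (Finset.mem_insert_self a R))
        (Finset.prod_ne_zero_iff.mpr (fun r hr => hf0 r (Finset.mem_insert_of_mem hr)))]

end Tri

section Roots

variable {K Ω : Type*} [Field K] [Field Ω] [Algebra K Ω] [Algebra.IsAlgebraic K Ω]
  [IsAlgClosed Ω] {N P : Subgroup (Ω ≃ₐ[K] Ω)} {ℓ : ℕ}

/-- elements of the base field are fixed -/
lemma base_mem (U : Subgroup (Ω ≃ₐ[K] Ω)) (c : K) : algebraMap K Ω c ∈ fixedField U :=
  (fixedField U).algebraMap_mem c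

/-- the fixed field of `P` is closed under `m`-th roots, `m` prime to `ℓ` -/
lemma prime_root_mem (hsp : ∀ g ∈ P, ∀ x : Ω, ∃ n, (g ^ (ℓ ^ n)) x = x) {m : ℕ} [NeZero m]
    (hm : m.Coprime ℓ) {ω : K} (hω : IsPrimitiveRoot ω m) {y : Ω} (hy0 : y ≠ 0)
    (hy : y ^ m ∈ fixedField P) : y ∈ fixedField P := by
  rw [mem_fx]
  intro g hg
  have h1 : g (y ^ m) = y ^ m := (mem_fx.mp hy) g hg
  have h2 := kap_spec (Ω := Ω) hω hy0 h1
  set i := kap m (algebraMap K Ω ω) y g with hi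
  obtain ⟨n, hn⟩ := hsp g hg y
  have hc : algebraMap K Ω (ω ^ i.val) = ex (algebraMap K Ω ω) i := by
    unfold ex; rw [map_pow]
  have h3 : ∀ j : ℕ, (g ^ j) y = (ex (algebraMap K Ω ω) i) ^ j * y := by
    intro j
    induction j with
    | zero => simp
    | succ j ih =>
      have : (g ^ (j + 1)) y = g ((g ^ j) y) := by
        rw [pow_succ']
        rfl
      rw [this, ih, map_mul, map_pow, ex_fixed, h2]
      ring
  have h4 : (ex (algebraMap K Ω ω) i) ^ (ℓ ^ n) = 1 := by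
    have h5 := h3 (ℓ ^ n)
    rw [hn] at h5
    exact (mul_right_cancel₀ hy0 (by rw [one_mul]; exact h5)).symm
  have h5 : (ex (algebraMap K Ω ω) i) ^ m = 1 := ex_pow (hzΩ (Ω := Ω) hω) i
  have h6 : orderOf (ex (algebraMap K Ω ω) i) ∣ Nat.gcd m (ℓ ^ n) :=
    Nat.dvd_gcd (orderOf_dvd_of_pow_eq_one h5) (orderOf_dvd_of_pow_eq_one h4)
  have h7 : Nat.gcd m (ℓ ^ n) = 1 := Nat.Coprime.pow_right n hm
  rw [h7, Nat.dvd_one, orderOf_eq_one_iff] at h6
  rw [h2, h6, one_mul]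

lemma ex_pow_nat {n : ℕ} [NeZero n] {z : Ω} (hz : IsPrimitiveRoot z n) (a : ZMod n) (m : ℕ) :
    ex z a ^ m = ex z ((m : ZMod n) * a) := by
  induction m with
  | zero => rw [pow_zero, Nat.cast_zero, zero_mul, ex_zero hz]
  | succ m ih =>
    rw [pow_succ, ih, ← ex_add hz]
    congr 1
    push_cast
    ring

/-- `u` is an `ℓ`-power root of a nonzero element of the fixed field of `P` -/
def IsD (P : Subgroup (Ω ≃ₐ[K] Ω)) (ℓ : ℕ) (u : Ω) : Prop :=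
  u ≠ 0 ∧ ∃ n, u ^ (ℓ ^ n) ∈ fixedField P

lemma IsD.fixed (hroots : ∀ m : ℕ, ∃ ζ : K, IsPrimitiveRoot ζ (ℓ ^ m)) [NeZero ℓ] {u : Ω}
    (hu : IsD P ℓ u) (hN : N ≤ (⁅P, P⁆).topologicalClosure) : u ∈ fixedField N := by
  obtain ⟨hu0, n, hn⟩ := hu
  obtain ⟨ζ, hζ⟩ := hroots n
  rw [mem_fx]
  intro g hg
  exact root_fixed hζ hu0 hn g (hN hg)

lemma IsD.symbol_zero (hroots : ∀ m : ℕ, ∃ ζ : K, IsPrimitiveRoot ζ (ℓ ^ m)) [NeZero ℓ] {u b : Ω}
    (hu : IsD P ℓ u) (hN : N ≤ (⁅P, P⁆).topologicalClosure) {q : ℕ} [NeZero q] {k : ℕ}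
    (hq : q = ℓ ^ k) {ζ : K} (hζ : IsPrimitiveRoot ζ q) : sN N q ζ u b = 0 := by
  obtain ⟨hu0, n, hn⟩ := hu
  rw [sN_eq_zero]
  refine ⟨fun _ => 0, IsLocallyConstant.const 0, fun σ τ => ?_⟩
  have h1 : (σ : Ω ≃ₐ[K] Ω) (rt q u) = rt q u := by
    obtain ⟨ζ', hζ'⟩ := hroots (k + n)
    apply root_fixed (n := ℓ ^ (k + n)) hζ' (rt_ne_zero q hu0) (P := P) _ σ (hN σ.2)
    rw [pow_add, pow_mul, ← hq, rt_pow]
    exact hn
  have h2 : kap q (algebraMap K Ω ζ) (rt q u) (σ : Ω ≃ₐ[K] Ω) = 0 := by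
    apply kap_eq hζ (rt_ne_zero q hu0)
    rw [h1, ex_zero (hzΩ (Ω := Ω) hζ), one_mul]
  simp only [h2, zero_mul]
  ring

end Roots

section Line

variable {K Ω : Type*} [Field K] [Field Ω] [Algebra K Ω] [Algebra.IsAlgebraic K Ω]
  [IsAlgClosed Ω] {N P : Subgroup (Ω ≃ₐ[K] Ω)} {ℓ : ℕ} [NeZero ℓ]
  (hroots : ∀ m : ℕ, ∃ ζ : K, IsPrimitiveRoot ζ (ℓ ^ m))
  (hN : N ≤ (⁅P, P⁆).topologicalClosure) {q k : ℕ} [NeZero q] (hq : q = ℓ ^ k) {ζ : K}
  (hζ : IsPrimitiveRoot ζ q)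

include hroots hN hq hζ

lemma line_one {ξ η : Ω} (hξ0 : ξ ≠ 0) (hη0 : η ≠ 0) (hξ : ξ ^ q ∈ fixedField P)
    (hη : η ^ q ∈ fixedField P) (hξ1 : ξ ^ q ≠ 1) (hη1 : η ^ q ≠ 1) (r : ZMod q) :
    ∑ t : ZMod q, sN N q ζ (1 - ex (algebraMap K Ω ζ) (r - t) * ξ)
      (1 - ex (algebraMap K Ω ζ) t * η) = 0 := by
  set z : Ω := algebraMap K Ω ζ with hz
  have hzp : IsPrimitiveRoot z q := hzΩ hζ
  have hs := sN_symb (Ω := Ω) N hζ
  have hPle : ∀ {x : Ω}, x ∈ fixedField P → x ≠ 0 → ∀ b, sN N q ζ x b = 0 := fun hx hx0 b =>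
    sN_zero_of_ground N hζ hN hx hx0
  have hDmem : ∀ {x : Ω}, x ≠ 0 → x ^ q ∈ fixedField P → IsD P ℓ x := by
    intro x hx0 hx
    refine ⟨hx0, k, ?_⟩
    rw [← hq]
    exact hx
  have hex : ∀ (i : ZMod q) (x : Ω), (ex z i * x) ^ q = x ^ q := by
    intro i x
    rw [mul_pow, ex_pow hzp, one_mul]
  have hexD : ∀ (i : ZMod q) {x : Ω}, x ≠ 0 → x ^ q ∈ fixedField P → IsD P ℓ (ex z i * x) := by
    intro i x hx0 hx
    exact hDmem (mul_ne_zero (ex_ne_zero hzp i) hx0) (by rw [hex]; exact hx)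
  have hsr : ∀ {u b : Ω}, IsD P ℓ u → b ∈ fixedField N → b ≠ 0 → sN N q ζ b u = 0 := by
    intro u b hu hb hb0
    have h1 := hs.skew (hu.fixed hroots hN) hb hu.1 hb0
    rw [hu.symbol_zero hroots hN hq hζ, zero_add] at h1
    exact h1
  have hPN : ∀ {x : Ω}, x ∈ fixedField P → x ≠ 0 → x ∈ fixedField N := by
    intro x hx hx0
    exact IsD.fixed hroots (P := P) ⟨hx0, 0, by rw [pow_zero, pow_one]; exact hx⟩ hN
  have hPr : ∀ {x b : Ω}, x ∈ fixedField P → x ≠ 0 → b ∈ fixedField N → b ≠ 0 →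
      sN N q ζ b x = 0 := by
    intro x b hx hx0 hb hb0
    have h1 := hs.skew (hPN hx hx0) hb hx0 hb0
    rw [hPle hx hx0, zero_add] at h1
    exact h1
  have hm1 : ∀ b, b ∈ fixedField N → b ≠ 0 → sN N q ζ b (-1) = 0 := by
    intro b hb hb0
    exact hPr ((fixedField P).neg_mem (fixedField P).one_mem) (by simp) hb hb0
  have hξN : ∀ i, ex z i * ξ ∈ fixedField N := fun i => (hexD i hξ0 hξ).fixed hroots hN
  have hηN : ∀ i, ex z i * η ∈ fixedField N := fun i => (hexD i hη0 hη).fixed hroots hN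
  have hξne : ∀ i : ZMod q, ex z i * ξ ≠ 1 := by
    intro i h
    apply hξ1
    rw [← hex i ξ, h, one_pow]
  have hηne : ∀ i : ZMod q, ex z i * η ≠ 1 := by
    intro i h
    apply hη1
    rw [← hex i η, h, one_pow]
  have hpξ : ∏ t : ZMod q, (1 - ex z (r - t) * ξ) = 1 - ξ ^ q := by
    have h1 : ∏ t : ZMod q, (1 - ex z (r - t) * ξ) = ∏ t : ZMod q, (1 - ex z t * ξ) :=
      Fintype.prod_equiv (Equiv.subLeft r) _ _ (fun t => by simp)
    rw [h1, prod_sub hzp, one_pow]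
  have hpη : ∏ t : ZMod q, (1 - ex z t * η) = 1 - η ^ q := by
    rw [prod_sub hzp, one_pow]
  set W : Ω := ex z r * (ξ * η) with hW
  have hWuv : ∀ t, (ex z (r - t) * ξ) * (ex z t * η) = W := by
    intro t
    have h1 : ex z (r - t) * ex z t = ex z r := by
      rw [← ex_add hzp, sub_add_cancel]
    rw [hW, ← h1]
    ring
  have hWD : IsD P ℓ W := by
    apply hexD
    · exact mul_ne_zero hξ0 hη0
    · rw [mul_pow]
      exact (fixedField P).mul_mem hξ hη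
  have hWN := hWD.fixed hroots hN
  have h1ξ : 1 - ξ ^ q ∈ fixedField P := (fixedField P).sub_mem (fixedField P).one_mem hξ
  have h1η : 1 - η ^ q ∈ fixedField P := (fixedField P).sub_mem (fixedField P).one_mem hη
  have h1ξ0 : 1 - ξ ^ q ≠ 0 := sub_ne_zero.mpr (Ne.symm hξ1)
  have h1η0 : 1 - η ^ q ≠ 0 := sub_ne_zero.mpr (Ne.symm hη1)
  by_cases hW1 : W = 1
  · apply Finset.sum_eq_zero
    intro t _
    set u := ex z (r - t) * ξ with hu
    set v := ex z t * η with hv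
    have huv : u * v = 1 := by rw [hWuv, hW1]
    have hu0 : u ≠ 0 := left_ne_zero_of_mul_eq_one huv
    have huD : IsD P ℓ u := hexD (r - t) hξ0 hξ
    have h1u0 : 1 - u ≠ 0 := sub_ne_zero.mpr (Ne.symm (hξne _))
    have h1uN : 1 - u ∈ fixedField N := (fixedField N).sub_mem (fixedField N).one_mem (hξN _)
    have e1 : 1 - v = (-(1 - u)) * u⁻¹ := by
      rw [eq_mul_inv_iff_mul_eq₀ hu0]
      linear_combination -huv
    rw [e1, hs.mul_right _ _ _ h1uN ((fixedField N).neg_mem h1uN)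
      ((fixedField N).inv_mem (hξN _)) h1u0 (neg_ne_zero.mpr h1u0) (inv_ne_zero hu0),
      hs.self_neg h1uN h1u0, hs.inv_right (hξN _) h1uN hu0 h1u0, hsr huD h1uN h1u0, neg_zero,
      add_zero]
  · have h1W0 : 1 - W ≠ 0 := sub_ne_zero.mpr (Ne.symm hW1)
    have h1WN : 1 - W ∈ fixedField N := (fixedField N).sub_mem (fixedField N).one_mem hWN
    have hterm : ∀ t : ZMod q, sN N q ζ (1 - ex z (r - t) * ξ) (1 - ex z t * η) =
        sN N q ζ (1 - ex z (r - t) * ξ) (1 - W) + sN N q ζ (1 - W) (1 - ex z t * η) := by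
      intro t
      have huD : IsD P ℓ (ex z (r - t) * ξ) := hexD (r - t) hξ0 hξ
      have h1 := hs.triangle (w := ex z (r - t) * ξ) (v := ex z t * η) (hξN _) (hηN _) huD.1
        (hexD t hη0 hη).1 (hξne _) (hηne _) (by rw [hWuv]; exact hW1)
        (fun b hb hb0 => hsr huD hb hb0) hm1
      rw [hWuv] at h1
      exact h1
    rw [Finset.sum_congr rfl (fun t _ => hterm t), Finset.sum_add_distrib,
      hs.sum_left Finset.univ (fun t => 1 - ex z (r - t) * ξ) h1WN h1W0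
        (fun t _ => (fixedField N).sub_mem (fixedField N).one_mem (hξN _))
        (fun t _ => sub_ne_zero.mpr (Ne.symm (hξne _))),
      hs.sum_right Finset.univ (fun t => 1 - ex z t * η) h1WN h1W0
        (fun t _ => (fixedField N).sub_mem (fixedField N).one_mem (hηN _))
        (fun t _ => sub_ne_zero.mpr (Ne.symm (hηne _))), hpξ, hpη, hPle h1ξ h1ξ0,
      hPr h1η h1η0 h1WN h1W0, add_zero]

lemma line_m (hsp : ∀ g ∈ P, ∀ x : Ω, ∃ n, (g ^ (ℓ ^ n)) x = x) {m : ℕ} (hm0 : m ≠ 0)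
    (hm : m.Coprime ℓ) {ω : K} (hω : IsPrimitiveRoot ω m)
    {ξ η : Ω} (hξ0 : ξ ≠ 0) (hη0 : η ≠ 0) (hξ : ξ ^ q ∈ fixedField P)
    (hη : η ^ q ∈ fixedField P) (hξ1 : ξ ^ q ≠ 1) (hη1 : η ^ q ≠ 1) (r : ZMod q) :
    ∑ t : ZMod q, sN N q ζ (1 - ex (algebraMap K Ω ζ) (r - (m : ZMod q) * t) * ξ)
      (1 - ex (algebraMap K Ω ζ) t * η) = 0 := by
  haveI : NeZero m := ⟨hm0⟩
  set z : Ω := algebraMap K Ω ζ with hz
  have hzp : IsPrimitiveRoot z q := hzΩ hζ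
  have hωp : IsPrimitiveRoot (algebraMap K Ω ω) m := hzΩ hω
  have hs := sN_symb (Ω := Ω) N hζ
  have hcop : m.Coprime q := by rw [hq]; exact Nat.Coprime.pow_right k hm
  obtain ⟨m', hm'⟩ : ∃ m' : ZMod q, (m : ZMod q) * m' = 1 := by
    refine ⟨((ZMod.unitOfCoprime m hcop)⁻¹ : (ZMod q)ˣ), ?_⟩
    rw [← ZMod.coe_unitOfCoprime m hcop]
    exact Units.mul_inv _
  set y : Ω := rt m ξ with hy
  have hym : y ^ m = ξ := rt_pow m ξ
  have hy0 : y ≠ 0 := rt_ne_zero m hξ0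
  -- the roots
  have hroot : ∀ i : ZMod m, (ex (algebraMap K Ω ω) i * y) ^ q ∈ fixedField P ∧
      (ex (algebraMap K Ω ω) i * y) ^ q ≠ 1 ∧ ex (algebraMap K Ω ω) i * y ≠ 0 := by
    intro i
    have hne : ex (algebraMap K Ω ω) i * y ≠ 0 := mul_ne_zero (ex_ne_zero hωp i) hy0
    have h1 : ((ex (algebraMap K Ω ω) i * y) ^ q) ^ m = ξ ^ q := by
      rw [← pow_mul, mul_comm q m, pow_mul, mul_pow, ex_pow hωp, one_mul, hym]
    refine ⟨prime_root_mem hsp hm hω (pow_ne_zero q hne) (by rw [h1]; exact hξ), ?_, hne⟩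
    intro h
    rw [h, one_pow] at h1
    exact hξ1 h1.symm
  have hfac : ∀ t : ZMod q, 1 - ex z (r - (m : ZMod q) * t) * ξ =
      ∏ i : ZMod m, (1 - ex z (m' * r - t) * (ex (algebraMap K Ω ω) i * y)) := by
    intro t
    have h1 : ex z (r - (m : ZMod q) * t) * ξ = (ex z (m' * r - t) * y) ^ m := by
      rw [mul_pow, hym, ex_pow_nat hzp]
      congr 2
      linear_combination (-r) * hm'
    have h2 := prod_sub hωp 1 (ex z (m' * r - t) * y)
    rw [one_pow] at h2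
    rw [h1, ← h2]
    apply Finset.prod_congr rfl
    intro i _
    ring
  have hqD : ∀ (i : ZMod q) {x : Ω}, x ≠ 0 → x ^ q ∈ fixedField P → x ^ q ≠ 1 →
      (1 - ex z i * x ∈ fixedField N ∧ 1 - ex z i * x ≠ 0) := by
    intro i x hx0 hx hx1
    have h1 : (ex z i * x) ^ q = x ^ q := by rw [mul_pow, ex_pow hzp, one_mul]
    have h2 : IsD P ℓ (ex z i * x) := ⟨mul_ne_zero (ex_ne_zero hzp i) hx0, k, by
      rw [← hq, h1]; exact hx⟩
    refine ⟨(fixedField N).sub_mem (fixedField N).one_mem (h2.fixed hroots hN), ?_⟩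
    intro h3
    rw [sub_eq_zero] at h3
    rw [← h3, one_pow] at h1
    exact hx1 h1.symm
  have hterm : ∀ t : ZMod q, sN N q ζ (1 - ex z (r - (m : ZMod q) * t) * ξ)
      (1 - ex z t * η) = ∑ i : ZMod m, sN N q ζ
        (1 - ex z (m' * r - t) * (ex (algebraMap K Ω ω) i * y)) (1 - ex z t * η) := by
    intro t
    rw [hfac t, hs.sum_left Finset.univ
      (fun i : ZMod m => 1 - ex z (m' * r - t) * (ex (algebraMap K Ω ω) i * y))
      (hqD t hη0 hη hη1).1 (hqD t hη0 hη hη1).2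
      (fun i _ => (hqD _ (hroot i).2.2 (hroot i).1 (hroot i).2.1).1)
      (fun i _ => (hqD _ (hroot i).2.2 (hroot i).1 (hroot i).2.1).2)]
  rw [Finset.sum_congr rfl (fun t _ => hterm t), Finset.sum_comm]
  apply Finset.sum_eq_zero
  intro i _
  exact line_one hroots hN hq hζ (hroot i).2.2 hη0 (hroot i).1 hη (hroot i).2.1 hη1 (m' * r)

end Line

section Main

variable {K Ω : Type*} [Field K] [Field Ω] [Algebra K Ω] [Algebra.IsAlgebraic K Ω]
  [IsAlgClosed Ω]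

lemma prod_filter_eq {a b : ℕ} [NeZero a] [NeZero b] {q : ℕ} [NeZero q] (hq : q = a * b) {z : Ω}
    (hz : IsPrimitiveRoot z q) (ρ : Ω) :
    ∏ s ∈ univ.filter (fun s : ZMod q => s.val % a = a - 1), (1 - ex z s * (z * ρ)) =
      1 - ρ ^ b := by
  classical
  have ha : 0 < a := Nat.pos_of_ne_zero (NeZero.ne a)
  have hb : 0 < b := Nat.pos_of_ne_zero (NeZero.ne b)
  have hw : IsPrimitiveRoot (z ^ a) b := hz.pow (Nat.pos_of_ne_zero (NeZero.ne q)) hq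
  have h1 := prod_sub hw 1 (z ^ a * ρ)
  rw [one_pow, mul_pow, hw.pow_eq_one, one_mul] at h1
  rw [← h1]
  have hlt : ∀ j : ZMod b, a * j.val + (a - 1) < q := by
    intro j
    have h2 := ZMod.val_lt j
    rw [hq]
    calc a * j.val + (a - 1) < a * j.val + a := by omega
      _ = a * (j.val + 1) := by ring
      _ ≤ a * b := Nat.mul_le_mul_left a h2
  symm
  apply Finset.prod_bij' (fun (j : ZMod b) _ => ((a * j.val + (a - 1) : ℕ) : ZMod q))
    (fun (s : ZMod q) _ => ((s.val / a : ℕ) : ZMod b))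
  · intro j _
    rw [Finset.mem_filter]
    refine ⟨Finset.mem_univ _, ?_⟩
    rw [ZMod.val_natCast, Nat.mod_eq_of_lt (hlt j), Nat.mul_add_mod]
    exact Nat.mod_eq_of_lt (by omega)
  · intro s _
    exact Finset.mem_univ _
  · intro j _
    rw [ZMod.val_natCast, Nat.mod_eq_of_lt (hlt j), Nat.mul_add_div ha,
      Nat.div_eq_of_lt (by omega : a - 1 < a), add_zero, ZMod.natCast_zmod_val]
  · intro s hs
    rw [Finset.mem_filter] at hs
    have h2 : s.val / a < b := by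
      rw [Nat.div_lt_iff_lt_mul ha, mul_comm, ← hq]
      exact ZMod.val_lt s
    rw [ZMod.val_natCast, Nat.mod_eq_of_lt h2]
    have h3 := Nat.div_add_mod s.val a
    rw [hs.2] at h3
    rw [h3, ZMod.natCast_zmod_val]
  · intro j _
    rw [ex_natCast hz]
    unfold ex
    have h3 : a * j.val + (a - 1) + 1 = a * (j.val + 1) := by
      rw [Nat.mul_add, mul_one]
      omega
    have h4 : z ^ (a * j.val + (a - 1)) * z = (z ^ a) ^ j.val * z ^ a := by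
      rw [← pow_succ, h3, pow_mul, pow_succ]
    rw [← mul_assoc, ← mul_assoc, h4]

/-- the ground case: `ξ` is a root of unity -/
lemma root_one_mem {n : ℕ} [NeZero n] {ζ : K} (hζ : IsPrimitiveRoot ζ n) {ξ : Ω}
    (h : ξ ^ n = 1) (U : Subgroup (Ω ≃ₐ[K] Ω)) : ξ ∈ fixedField U := by
  obtain ⟨i, hi⟩ := ex_surj (hzΩ (Ω := Ω) hζ) h
  rw [hi, mem_fx]
  intro g _
  exact ex_fixed g i

/-- **Classical symbols vanish over the commutator subgroup.** -/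
theorem classical_symbol {N P : Subgroup (Ω ≃ₐ[K] Ω)} {ℓ : ℕ} (hℓ : ℓ.Prime)
    (hroots : ∀ m : ℕ, ∃ ζ : K, IsPrimitiveRoot ζ (ℓ ^ m))
    (hN : N ≤ (⁅P, P⁆).topologicalClosure)
    (hsp : ∀ g ∈ P, ∀ x : Ω, ∃ n, (g ^ (ℓ ^ n)) x = x)
    {c : ℕ → ℕ} (hc : Function.Injective c) (hcop : ∀ j, (c j).Coprime ℓ)
    (hcω : ∀ j, ∃ ω : K, IsPrimitiveRoot ω (c j)) {ξ η : Ω} (hξ : IsD P ℓ ξ) (hη : IsD P ℓ η)
    (hξ1 : ξ ≠ 1) (hη1 : η ≠ 1) (m : ℕ) [NeZero (ℓ ^ m)] {ζ : K} (hζ : IsPrimitiveRoot ζ (ℓ ^ m)) :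
    sN N (ℓ ^ m) ζ (1 - ξ) (1 - η) = 0 := by
  haveI hℓn : NeZero ℓ := ⟨hℓ.ne_zero⟩
  have hξN := hξ.fixed hroots hN
  have hηN := hη.fixed hroots hN
  have h1ξ0 : 1 - ξ ≠ 0 := sub_ne_zero.mpr (Ne.symm hξ1)
  have h1η0 : 1 - η ≠ 0 := sub_ne_zero.mpr (Ne.symm hη1)
  have h1ξN : 1 - ξ ∈ fixedField N := (fixedField N).sub_mem (fixedField N).one_mem hξN
  have h1ηN : 1 - η ∈ fixedField N := (fixedField N).sub_mem (fixedField N).one_mem hηN
  -- a common level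
  obtain ⟨k, hξk, hηk⟩ : ∃ k, ξ ^ (ℓ ^ k) ∈ fixedField P ∧ η ^ (ℓ ^ k) ∈ fixedField P := by
    obtain ⟨-, a, ha⟩ := hξ
    obtain ⟨-, b, hb⟩ := hη
    refine ⟨a + b, ?_, ?_⟩
    · rw [pow_add, pow_mul]
      exact pow_mem ha _
    · rw [add_comm a b, pow_add, pow_mul]
      exact pow_mem hb _
  obtain ⟨ζk, hζk⟩ := hroots k
  haveI : NeZero (ℓ ^ k) := inferInstance
  by_cases hx1 : ξ ^ (ℓ ^ k) = 1
  · exact sN_zero_of_ground N hζ hN ((fixedField P).sub_mem (fixedField P).one_mem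
      (root_one_mem hζk hx1 P)) h1ξ0
  by_cases hy1 : η ^ (ℓ ^ k) = 1
  · have h1 := (sN_symb (Ω := Ω) N hζ).skew h1ηN h1ξN h1η0 h1ξ0
    rw [sN_zero_of_ground N hζ hN ((fixedField P).sub_mem (fixedField P).one_mem
      (root_one_mem hζk hy1 P)) h1η0, zero_add] at h1
    exact h1
  obtain ⟨D, hD0, hD⟩ := radon hℓ hc k (k + m)
  obtain ⟨v, D', hD', hDv⟩ := Nat.exists_eq_pow_mul_and_not_dvd hD0 ℓ hℓ.ne_one
  -- the level
  haveI i1 : NeZero (ℓ ^ v) := inferInstance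
  haveI i2 : NeZero (ℓ ^ (k + m)) := inferInstance
  haveI i3 : NeZero (ℓ ^ v * ℓ ^ (k + m)) := ⟨mul_ne_zero (NeZero.ne _) (NeZero.ne _)⟩
  haveI i4 : NeZero (ℓ ^ v * ℓ ^ m) := ⟨mul_ne_zero (NeZero.ne _) (NeZero.ne _)⟩
  set q : ℕ := ℓ ^ v * ℓ ^ (k + m) with hq
  have hq2 : q = ℓ ^ (v + (k + m)) := by rw [hq, ← pow_add]
  have hqab : q = ℓ ^ k * (ℓ ^ v * ℓ ^ m) := by rw [hq, pow_add]; ring
  obtain ⟨ζ', hζ'⟩ := hroots (v + (k + m))
  rw [← hq2] at hζ'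
  set z : Ω := algebraMap K Ω ζ' with hz
  have hzp : IsPrimitiveRoot z q := hzΩ hζ'
  have hs := sN_symb (Ω := Ω) N hζ'
  set ρ : Ω := rt (ℓ ^ v * ℓ ^ m) ξ with hρ
  set τ : Ω := rt (ℓ ^ v * ℓ ^ m) η with hτ
  have hρ1 : ρ ^ (ℓ ^ v * ℓ ^ m) = ξ := rt_pow _ ξ
  have hτ1 : τ ^ (ℓ ^ v * ℓ ^ m) = η := rt_pow _ η
  have hρ0 : ρ ≠ 0 := rt_ne_zero _ hξ.1
  have hτ0 : τ ≠ 0 := rt_ne_zero _ hη.1
  have hz0 : z ≠ 0 := hzp.ne_zero (NeZero.ne q)
  have hρq : (z * ρ) ^ q = ξ ^ (ℓ ^ k) := by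
    rw [mul_pow, hzp.pow_eq_one, one_mul, hqab, mul_comm, pow_mul, hρ1]
  have hτq : (z * τ) ^ q = η ^ (ℓ ^ k) := by
    rw [mul_pow, hzp.pow_eq_one, one_mul, hqab, mul_comm, pow_mul, hτ1]
  letI imod : Module (ZMod q) ((N → N → ZMod q) ⧸ cob N q) := AddCommGroup.zmodModule (by
    intro x
    induction x using QuotientAddGroup.induction_on with | _ f => ?_
    rw [← QuotientAddGroup.mk_nsmul]
    have : q • f = 0 := by
      funext a b
      simp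
    rw [this]
    rfl)
  have hline : ∀ (j : ℕ) (r : ZMod q), ∑ t : ZMod q,
      sN N q ζ' (1 - ex z (r - (c j : ZMod q) * t) * (z * ρ)) (1 - ex z t * (z * τ)) = 0 := by
    intro j r
    obtain ⟨ω, hω⟩ := hcω j
    have hj0 : c j ≠ 0 := by
      intro h
      have := hcop j
      rw [h, Nat.coprime_zero_left] at this
      exact hℓ.ne_one this
    exact line_m hroots hN hq2 hζ' hsp hj0 (hcop j) hω (mul_ne_zero hz0 hρ0)
      (mul_ne_zero hz0 hτ0) (by rw [hρq]; exact hξk) (by rw [hτq]; exact hηk)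
      (by rw [hρq]; exact hx1) (by rw [hτq]; exact hy1) r
  have hqD : q ∣ D * ℓ ^ (k + m) := by
    rw [hDv, hq, mul_assoc, mul_comm D', ← mul_assoc]
    exact dvd_mul_right _ _
  have hrad := hD q ((N → N → ZMod q) ⧸ cob N q)
    (fun s t => sN N q ζ' (1 - ex z s * (z * ρ)) (1 - ex z t * (z * τ))) hqD hline
  -- evaluate
  have hmem : ∀ (i : ZMod q) {x y : Ω}, y ≠ 0 → y ^ q = x ^ (ℓ ^ k) → x ^ (ℓ ^ k) ∈ fixedField P →
      x ^ (ℓ ^ k) ≠ 1 → (1 - ex z i * y ∈ fixedField N ∧ 1 - ex z i * y ≠ 0) := by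
    intro i x y hy0 hyx hx hx1
    have h1 : (ex z i * y) ^ q = x ^ (ℓ ^ k) := by rw [mul_pow, ex_pow hzp, one_mul, hyx]
    have h2 : IsD P ℓ (ex z i * y) := ⟨mul_ne_zero (ex_ne_zero hzp i) hy0, v + (k + m), by
      rw [← hq2, h1]; exact hx⟩
    refine ⟨(fixedField N).sub_mem (fixedField N).one_mem (h2.fixed hroots hN), ?_⟩
    intro h3
    rw [sub_eq_zero] at h3
    rw [← h3, one_pow] at h1
    exact hx1 h1.symm
  have hρm := fun i : ZMod q => hmem i (mul_ne_zero hz0 hρ0) hρq hξk hx1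
  have hτm := fun i : ZMod q => hmem i (mul_ne_zero hz0 hτ0) hτq hηk hy1
  have hev : ∑ s ∈ univ.filter (fun s : ZMod q => s.val % ℓ ^ k = ℓ ^ k - 1),
        ∑ t ∈ univ.filter (fun t : ZMod q => t.val % ℓ ^ k = ℓ ^ k - 1),
          sN N q ζ' (1 - ex z s * (z * ρ)) (1 - ex z t * (z * τ)) =
      sN N q ζ' (1 - ξ) (1 - η) := by
    have e1 : ∀ s : ZMod q, ∑ t ∈ univ.filter (fun t : ZMod q => t.val % ℓ ^ k = ℓ ^ k - 1),
          sN N q ζ' (1 - ex z s * (z * ρ)) (1 - ex z t * (z * τ)) =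
        sN N q ζ' (1 - ex z s * (z * ρ)) (1 - η) := by
      intro s
      rw [hs.sum_right _ (fun t : ZMod q => 1 - ex z t * (z * τ)) (hρm s).1 (hρm s).2
        (fun t _ => (hτm t).1) (fun t _ => (hτm t).2), prod_filter_eq hqab hzp τ, hτ1]
    rw [Finset.sum_congr rfl (fun s _ => e1 s),
      hs.sum_left _ (fun s : ZMod q => 1 - ex z s * (z * ρ)) h1ηN h1η0
        (fun s _ => (hρm s).1) (fun s _ => (hρm s).2), prod_filter_eq hqab hzp ρ, hρ1]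
  rw [hev] at hrad
  -- remove the part prime to `ℓ`
  have hkill : q • sN N q ζ' (1 - ξ) (1 - η) = 0 := by
    rw [← Nat.cast_smul_eq_nsmul (ZMod q), ZMod.natCast_self, zero_smul]
  have hcopD : D'.Coprime q := by
    rw [hq2]
    apply Nat.Coprime.pow_right
    rw [Nat.coprime_comm, Nat.Prime.coprime_iff_not_dvd hℓ]
    exact hD'
  have hv0 : ℓ ^ v • sN N q ζ' (1 - ξ) (1 - η) = 0 := by
    rw [hDv, mul_comm, mul_smul] at hrad
    set x := ℓ ^ v • sN N q ζ' (1 - ξ) (1 - η) with hx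
    have hqx : q • x = 0 := by rw [hx, smul_comm, hkill, smul_zero]
    have h1 : addOrderOf x ∣ Nat.gcd D' q :=
      Nat.dvd_gcd (addOrderOf_dvd_of_nsmul_eq_zero hrad) (addOrderOf_dvd_of_nsmul_eq_zero hqx)
    rw [hcopD, Nat.dvd_one, AddMonoid.addOrderOf_eq_one_iff] at h1
    exact h1
  have h2 := lift_symbol N (c := ℓ ^ v) (n := ℓ ^ (k + m)) hζ' h1ξN h1ηN h1ξ0 h1η0 hv0
  -- lower the level
  haveI i5 : NeZero (ℓ ^ k * ℓ ^ m) := ⟨mul_ne_zero (NeZero.ne _) (NeZero.ne _)⟩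
  obtain ⟨ζ₂, hζ₂⟩ := hroots (k + m)
  have hζ₃ : IsPrimitiveRoot (ζ' ^ (ℓ ^ v)) (ℓ ^ (k + m)) :=
    hζ'.pow (Nat.pos_of_ne_zero (NeZero.ne _)) rfl
  have h3 : sN N (ℓ ^ (k + m)) ζ₂ (1 - ξ) (1 - η) = 0 :=
    sN_root_indep N hζ₂ hζ₃ h1ξN h1ηN h1ξ0 h1η0 h2
  have hkm : ∀ (n : ℕ) (hn : n = ℓ ^ (k + m)) [NeZero n] (hζn : IsPrimitiveRoot ζ₂ n),
      sN N n ζ₂ (1 - ξ) (1 - η) = 0 := by
    intro n hn _ hζn
    subst hn
    exact h3
  have h4 := hkm (ℓ ^ k * ℓ ^ m) (pow_add ℓ k m).symm (by rw [← pow_add]; exact hζ₂)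
  have h5 := lift_symbol N (c := ℓ ^ k) (n := ℓ ^ m) (ζ' := ζ₂) (by rw [← pow_add]; exact hζ₂)
    h1ξN h1ηN h1ξ0 h1η0 (by rw [h4, smul_zero])
  have hζ₄ : IsPrimitiveRoot (ζ₂ ^ (ℓ ^ k)) (ℓ ^ m) :=
    hζ₂.pow (Nat.pos_of_ne_zero (NeZero.ne _)) (pow_add ℓ k m)
  exact sN_root_indep N hζ hζ₄ h1ξN h1ηN h1ξ0 h1η0 h5

end Main

end Pool.Agent.Bog
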