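import Pool.Agent.Bog.Gen

/-!
The Galois symbol with values in locally constant cochains modulo coboundaries.
-/

set_option autoImplicit false
set_option linter.unusedVariables false
set_option linter.unusedSectionVars false

namespace Pool.Agent.Bog

open IntermediateField

section Exp

variable {Ω : Type*} [Field Ω] {n : ℕ} [NeZero n]

/-- `z ^ i` for `i : ZMod n` -/
def ex (z : Ω) (i : ZMod n) : Ω := z ^ i.val

variable {z : Ω} (hz : IsPrimitiveRoot z n)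

include hz

lemma ex_natCast (k : ℕ) : ex z (k : ZMod n) = z ^ k := by
  unfold ex
  rw [ZMod.val_natCast, ← pow_mod_orderOf z k, ← pow_mod_orderOf z (k % n), ← hz.eq_orderOf,
    Nat.mod_mod]

lemma ex_add (i j : ZMod n) : ex z (i + j) = ex z i * ex z j := by
  have h : i + j = ((i.val + j.val : ℕ) : ZMod n) := by
    rw [Nat.cast_add, ZMod.natCast_zmod_val, ZMod.natCast_zmod_val]
  rw [h, ex_natCast hz, pow_add]
  rfl

lemma ex_zero : ex z (0 : ZMod n) = 1 := by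
  unfold ex
  rw [ZMod.val_zero, pow_zero]

lemma ex_ne_zero (i : ZMod n) : ex z i ≠ 0 :=
  pow_ne_zero _ (hz.ne_zero (NeZero.ne n))

lemma ex_inj {i j : ZMod n} (h : ex z i = ex z j) : i = j := by
  unfold ex at h
  exact ZMod.val_injective n (hz.pow_inj (ZMod.val_lt i) (ZMod.val_lt j) h)

lemma ex_pow (i : ZMod n) : ex z i ^ n = 1 := by
  unfold ex
  rw [← pow_mul, mul_comm, pow_mul, hz.pow_eq_one, one_pow]

lemma ex_surj {x : Ω} (hx : x ^ n = 1) : ∃ i : ZMod n, x = ex z i := by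
  obtain ⟨i, hi, h⟩ := hz.eq_pow_of_pow_eq_one hx
  exact ⟨(i : ZMod n), by rw [ex_natCast hz, h]⟩

lemma ex_sum {ι : Type*} (s : Finset ι) (f : ι → ZMod n) :
    ex z (∑ i ∈ s, f i) = ∏ i ∈ s, ex z (f i) := by
  classical
  induction s using Finset.induction_on with
  | empty => rw [Finset.sum_empty, Finset.prod_empty, ex_zero hz]
  | insert a s ha ih => rw [Finset.sum_insert ha, Finset.prod_insert ha, ex_add hz, ih]

omit hz in
open Classical in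
/-- discrete logarithm -/
noncomputable def dl (n : ℕ) (z x : Ω) : ZMod n :=
  if h : ∃ i : ZMod n, x = ex z i then h.choose else 0

lemma dl_spec {x : Ω} (hx : x ^ n = 1) : x = ex z (dl n z x) := by
  have h := ex_surj hz hx
  unfold dl
  rw [dif_pos h]
  exact h.choose_spec

lemma dl_eq {x : Ω} {i : ZMod n} (h : x = ex z i) : dl n z x = i := by
  have hx : x ^ n = 1 := by rw [h, ex_pow hz]
  exact ex_inj hz ((dl_spec hz hx).symm.trans h)

/-- `x ^ n - y ^ n` as a product over `ZMod n` -/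
lemma prod_sub (x y : Ω) : ∏ i : ZMod n, (x - ex z i * y) = x ^ n - y ^ n := by
  classical
  have hn : 0 < n := Nat.pos_of_ne_zero (NeZero.ne n)
  rw [IsPrimitiveRoot.pow_sub_pow_eq_prod_sub_mul x y hn hz]
  symm
  apply Finset.prod_bij' (fun a _ => dl n z a) (fun i _ => ex z i)
  · intro a ha
    exact Finset.mem_univ _
  · intro i _
    rw [Polynomial.mem_nthRootsFinset hn, ex_pow hz]
  · intro a ha
    rw [Polynomial.mem_nthRootsFinset hn] at ha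
    exact (dl_spec hz ha).symm
  · intro i _
    exact dl_eq hz rfl
  · intro a ha
    rw [Polynomial.mem_nthRootsFinset hn] at ha
    rw [← dl_spec hz ha]

end Exp

variable {K Ω : Type*} [Field K] [Field Ω] [Algebra K Ω] {n : ℕ}

/-- the Kummer character of `α` (for those `σ` with `σ α / α` an `n`-th root of unity) -/
noncomputable def kap (n : ℕ) (z α : Ω) (σ : Ω ≃ₐ[K] Ω) : ZMod n := dl n z (σ α / α)

section Kap

variable [NeZero n] {ζ : K} (hζ : IsPrimitiveRoot ζ n)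

include hζ

lemma hzΩ : IsPrimitiveRoot (algebraMap K Ω ζ) n :=
  hζ.map_of_injective (algebraMap K Ω).injective

omit hζ in
lemma ex_fixed (σ : Ω ≃ₐ[K] Ω) (i : ZMod n) :
    σ (ex (algebraMap K Ω ζ) i) = ex (algebraMap K Ω ζ) i := by
  unfold ex
  rw [map_pow, AlgEquiv.commutes]

lemma kap_spec {α : Ω} (hα : α ≠ 0) {σ : Ω ≃ₐ[K] Ω} (h : σ (α ^ n) = α ^ n) :
    σ α = ex (algebraMap K Ω ζ) (kap n (algebraMap K Ω ζ) α σ) * α := by
  have h1 : (σ α / α) ^ n = 1 := by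
    rw [div_pow, ← map_pow, h, div_self (pow_ne_zero _ hα)]
  have h2 := dl_spec (hzΩ (Ω := Ω) hζ) h1
  unfold kap
  rw [← h2, div_mul_cancel₀ _ hα]

lemma kap_eq {α : Ω} (hα : α ≠ 0) {σ : Ω ≃ₐ[K] Ω} {i : ZMod n}
    (h : σ α = ex (algebraMap K Ω ζ) i * α) : kap n (algebraMap K Ω ζ) α σ = i := by
  unfold kap
  apply dl_eq (hzΩ (Ω := Ω) hζ)
  rw [h, mul_div_cancel_right₀ _ hα]

lemma pow_fixed_iff {α : Ω} (hα : α ≠ 0) {σ : Ω ≃ₐ[K] Ω} {i : ZMod n}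
    (h : σ α = ex (algebraMap K Ω ζ) i * α) : σ (α ^ n) = α ^ n := by
  rw [map_pow, h, mul_pow, ex_pow (hzΩ (Ω := Ω) hζ), one_mul]

lemma kap_mul_right {α : Ω} (hα : α ≠ 0) {σ τ : Ω ≃ₐ[K] Ω} (hσ : σ (α ^ n) = α ^ n)
    (hτ : τ (α ^ n) = α ^ n) : kap n (algebraMap K Ω ζ) α (σ * τ) =
      kap n (algebraMap K Ω ζ) α σ + kap n (algebraMap K Ω ζ) α τ := by
  apply kap_eq hζ hα
  change σ (τ α) = _
  rw [kap_spec hζ hα hτ, map_mul, ex_fixed, kap_spec hζ hα hσ, ex_add (hzΩ (Ω := Ω) hζ)]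
  rw [kap_eq hζ hα (kap_spec hζ hα hσ), kap_eq hζ hα (kap_spec hζ hα hτ)]
  ring

lemma kap_mul {α β : Ω} (hα : α ≠ 0) (hβ : β ≠ 0) {σ : Ω ≃ₐ[K] Ω} (h1 : σ (α ^ n) = α ^ n)
    (h2 : σ (β ^ n) = β ^ n) : kap n (algebraMap K Ω ζ) (α * β) σ =
      kap n (algebraMap K Ω ζ) α σ + kap n (algebraMap K Ω ζ) β σ := by
  apply kap_eq hζ (mul_ne_zero hα hβ)
  rw [map_mul, ex_add (hzΩ (Ω := Ω) hζ)]
  conv_lhs => rw [kap_spec hζ hα h1, kap_spec hζ hβ h2]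
  ring

/-- the character only depends on `α ^ n` -/
lemma kap_congr {α β : Ω} (hα : α ≠ 0) (hβ : β ≠ 0) (hab : α ^ n = β ^ n) {σ : Ω ≃ₐ[K] Ω}
    (h1 : σ (α ^ n) = α ^ n) : kap n (algebraMap K Ω ζ) α σ = kap n (algebraMap K Ω ζ) β σ := by
  have h3 : (α / β) ^ n = 1 := by rw [div_pow, hab, div_self (pow_ne_zero _ hβ)]
  obtain ⟨i, hi⟩ := ex_surj (hzΩ (Ω := Ω) hζ) h3
  have h4 : α = ex (algebraMap K Ω ζ) i * β := by
    rw [← hi, div_mul_cancel₀ _ hβ]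
  symm
  apply kap_eq hζ hβ
  have h5 : σ α = ex (algebraMap K Ω ζ) (kap n (algebraMap K Ω ζ) α σ) * α := kap_spec hζ hα h1
  have h6 : σ α = ex (algebraMap K Ω ζ) i * σ β := by
    conv_lhs => rw [h4]
    rw [map_mul, ex_fixed]
  have h7 : ex (algebraMap K Ω ζ) i ≠ 0 := ex_ne_zero (hzΩ (Ω := Ω) hζ) i
  apply mul_left_cancel₀ h7
  calc ex (algebraMap K Ω ζ) i * σ β = σ α := h6.symm
    _ = ex (algebraMap K Ω ζ) (kap n (algebraMap K Ω ζ) α σ) * α := h5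
    _ = ex (algebraMap K Ω ζ) (kap n (algebraMap K Ω ζ) α σ) *
        (ex (algebraMap K Ω ζ) i * β) := by rw [← h4]
    _ = ex (algebraMap K Ω ζ) i * (ex (algebraMap K Ω ζ)
        (kap n (algebraMap K Ω ζ) α σ) * β) := by ring

end Kap

section Top

variable [Algebra.IsAlgebraic K Ω] (N : Subgroup (Ω ≃ₐ[K] Ω))

/-- `σ ↦ σ x` is locally constant -/
lemma lc_apply (x : Ω) : IsLocallyConstant (fun σ : N => (σ : Ω ≃ₐ[K] Ω) x) := by
  rw [IsLocallyConstant.iff_exists_open]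
  intro σ
  have hfd : FiniteDimensional K K⟮x⟯ :=
    IntermediateField.adjoin.finiteDimensional (Algebra.IsIntegral.isIntegral x)
  have ho := IntermediateField.fixingSubgroup_isOpen K⟮x⟯
  have hc : Continuous (fun τ : N => (σ : Ω ≃ₐ[K] Ω)⁻¹ * (τ : Ω ≃ₐ[K] Ω)) :=
    continuous_const.mul continuous_subtype_val
  refine ⟨(fun τ : N => (σ : Ω ≃ₐ[K] Ω)⁻¹ * (τ : Ω ≃ₐ[K] Ω)) ⁻¹'
    ((K⟮x⟯).fixingSubgroup : Set (Ω ≃ₐ[K] Ω)), ho.preimage hc, ?_, ?_⟩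
  · change (σ : Ω ≃ₐ[K] Ω)⁻¹ * (σ : Ω ≃ₐ[K] Ω) ∈ (K⟮x⟯).fixingSubgroup
    rw [inv_mul_cancel]
    exact Subgroup.one_mem _
  · intro τ hτ
    have h1 : (σ : Ω ≃ₐ[K] Ω)⁻¹ * τ ∈ (K⟮x⟯).fixingSubgroup := hτ
    have h2 : ((σ : Ω ≃ₐ[K] Ω)⁻¹ * τ) x = x := by
      rw [IntermediateField.mem_fixingSubgroup_iff] at h1
      exact h1 x (IntermediateField.mem_adjoin_simple_self K x)
    have h3 : (τ : Ω ≃ₐ[K] Ω) = σ * ((σ : Ω ≃ₐ[K] Ω)⁻¹ * τ) := by group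
    calc (τ : Ω ≃ₐ[K] Ω) x = ((σ : Ω ≃ₐ[K] Ω) * ((σ : Ω ≃ₐ[K] Ω)⁻¹ * τ)) x := by rw [← h3]
      _ = (σ : Ω ≃ₐ[K] Ω) (((σ : Ω ≃ₐ[K] Ω)⁻¹ * τ) x) := rfl
      _ = (σ : Ω ≃ₐ[K] Ω) x := by rw [h2]

lemma lc_sum {X M ι : Type*} [TopologicalSpace X] [AddCommMonoid M] (s : Finset ι)
    (f : ι → X → M) (h : ∀ i ∈ s, IsLocallyConstant (f i)) :
    IsLocallyConstant (fun x => ∑ i ∈ s, f i x) := by
  classical
  induction s using Finset.induction_on with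
  | empty =>
    simp only [Finset.sum_empty]
    exact IsLocallyConstant.const (0 : M)
  | insert a s ha ih =>
    have h1 := h a (Finset.mem_insert_self a s)
    have h2 := ih (fun i hi => h i (Finset.mem_insert_of_mem hi))
    have h3 := h1.add h2
    have e : (fun x => ∑ i ∈ insert a s, f i x) = f a + fun x => ∑ i ∈ s, f i x := by
      funext x
      rw [Finset.sum_insert ha]
      rfl
    rw [e]
    exact h3

/-- coboundaries of locally constant functions -/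
def cob (n : ℕ) : AddSubgroup (N → N → ZMod n) where
  carrier := {f | ∃ ψ : N → ZMod n, IsLocallyConstant ψ ∧
    ∀ σ τ : N, f σ τ = ψ σ + ψ τ - ψ (σ * τ)}
  zero_mem' := ⟨fun _ => 0, IsLocallyConstant.const 0, fun σ τ => by simp⟩
  add_mem' := by
    rintro f g ⟨ψ, hψ, hf⟩ ⟨φ, hφ, hg⟩
    refine ⟨ψ + φ, hψ.add hφ, fun σ τ => ?_⟩
    simp only [Pi.add_apply, hf, hg]
    ring
  neg_mem' := by
    rintro f ⟨ψ, hψ, hf⟩
    refine ⟨-ψ, hψ.neg, fun σ τ => ?_⟩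
    simp only [Pi.neg_apply, hf]
    ring

/-- the norm lemma: if `N` permutes the family `w` as it permutes the conjugates of `α`, then the
cup product of the characters of `∏ w i` and of `α ^ n` is a coboundary -/
lemma norm_cob [NeZero n] {ζ : K} (hζ : IsPrimitiveRoot ζ n) [IsAlgClosed Ω] {α β : Ω}
    (hα : α ≠ 0) (hαN : ∀ σ ∈ N, σ (α ^ n) = α ^ n) (w : ZMod n → Ω) (hw0 : ∀ i, w i ≠ 0)
    (hw : ∀ σ ∈ N, ∀ i, σ (w i) = w (i + kap n (algebraMap K Ω ζ) α σ))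
    (hβ : β ^ n = ∏ i, w i) :
    (fun σ τ : N => kap n (algebraMap K Ω ζ) β (σ : Ω ≃ₐ[K] Ω) *
      kap n (algebraMap K Ω ζ) α (τ : Ω ≃ₐ[K] Ω)) ∈ cob N n := by
  classical
  set z : Ω := algebraMap K Ω ζ with hz
  have hzp : IsPrimitiveRoot z n := hzΩ hζ
  have hn : 0 < n := Nat.pos_of_ne_zero (NeZero.ne n)
  choose γ hγ using fun i : ZMod n => IsAlgClosed.exists_pow_nat_eq (w i) hn
  have hγ0 : ∀ i, γ i ≠ 0 := by
    intro i h
    have := hγ i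
    rw [h, zero_pow (NeZero.ne n)] at this
    exact hw0 i this.symm
  -- the exponents
  set e : N → ZMod n → ZMod n := fun σ i =>
    dl n z ((σ : Ω ≃ₐ[K] Ω) (γ i) / γ (i + kap n z α (σ : Ω ≃ₐ[K] Ω))) with he
  have he1 : ∀ (σ : N) (i : ZMod n), (σ : Ω ≃ₐ[K] Ω) (γ i) =
      ex z (e σ i) * γ (i + kap n z α (σ : Ω ≃ₐ[K] Ω)) := by
    intro σ i
    have h1 : ((σ : Ω ≃ₐ[K] Ω) (γ i) / γ (i + kap n z α (σ : Ω ≃ₐ[K] Ω))) ^ n = 1 := by
      rw [div_pow, ← map_pow, hγ, hw σ σ.2, hγ, div_self (hw0 _)]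
    have h2 := dl_spec hzp h1
    rw [he]
    simp only
    rw [← h2, div_mul_cancel₀ _ (hγ0 _)]
  have hkm : ∀ σ τ : N, kap n z α ((σ * τ : N) : Ω ≃ₐ[K] Ω) =
      kap n z α (σ : Ω ≃ₐ[K] Ω) + kap n z α (τ : Ω ≃ₐ[K] Ω) := fun σ τ =>
    kap_mul_right hζ hα (hαN σ σ.2) (hαN τ τ.2)
  have he2 : ∀ (σ τ : N) (i : ZMod n), e (σ * τ) i =
      e τ i + e σ (i + kap n z α (τ : Ω ≃ₐ[K] Ω)) := by
    intro σ τ i
    apply ex_inj hzp
    apply mul_right_cancel₀ (hγ0 (i + kap n z α ((σ * τ : N) : Ω ≃ₐ[K] Ω)))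
    rw [← he1 (σ * τ) i]
    change (σ : Ω ≃ₐ[K] Ω) ((τ : Ω ≃ₐ[K] Ω) (γ i)) = _
    rw [he1 τ i, map_mul, ex_fixed, he1 σ, ex_add hzp, hkm]
    have e1 : i + kap n z α (τ : Ω ≃ₐ[K] Ω) + kap n z α (σ : Ω ≃ₐ[K] Ω) =
        i + (kap n z α (σ : Ω ≃ₐ[K] Ω) + kap n z α (τ : Ω ≃ₐ[K] Ω)) := by ring
    rw [e1]
    ring
  -- the character of `β`
  have hprod0 : (∏ i, γ i) ≠ 0 := Finset.prod_ne_zero_iff.mpr fun i _ => hγ0 i
  have hβ0 : β ≠ 0 := by
    intro h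
    rw [h, zero_pow (NeZero.ne n)] at hβ
    exact (Finset.prod_ne_zero_iff.mpr fun i _ => hw0 i) hβ.symm
  have hβγ : (∏ i, γ i) ^ n = β ^ n := by
    rw [hβ, ← Finset.prod_pow]
    exact Finset.prod_congr rfl fun i _ => hγ i
  have hkβ : ∀ σ : N, kap n z β (σ : Ω ≃ₐ[K] Ω) = ∑ i, e σ i := by
    intro σ
    have h1 : (σ : Ω ≃ₐ[K] Ω) (∏ i, γ i) = ex z (∑ i, e σ i) * ∏ i, γ i := by
      rw [map_prod, Finset.prod_congr rfl fun i _ => he1 σ i, Finset.prod_mul_distrib,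
        ex_sum hzp]
      congr 1
      exact Fintype.prod_equiv (Equiv.addRight (kap n z α (σ : Ω ≃ₐ[K] Ω))) _ _ fun i => rfl
    rw [← kap_eq hζ hprod0 h1]
    symm
    exact kap_congr hζ hprod0 hβ0 hβγ (pow_fixed_iff hζ hprod0 h1)
  -- the cochain
  refine ⟨fun σ => ∑ i, i * e σ i, ?_, ?_⟩
  · apply lc_sum
    intro i _
    have h1 : IsLocallyConstant (fun σ : N => ((σ : Ω ≃ₐ[K] Ω) (γ i), (σ : Ω ≃ₐ[K] Ω) α)) :=
      (lc_apply N (γ i)).prodMk (lc_apply N α)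
    have h2 := h1.comp (fun p : Ω × Ω => i * dl n z (p.1 / γ (i + dl n z (p.2 / α))))
    exact h2
  · intro σ τ
    have h1 : ∑ i, i * e (σ * τ) i = ∑ i, i * e τ i + ∑ i, i * e σ i -
        kap n z α (τ : Ω ≃ₐ[K] Ω) * ∑ i, e σ i := by
      have h2 : ∑ i, i * e (σ * τ) i = ∑ i, i * e τ i +
          ∑ i, i * e σ (i + kap n z α (τ : Ω ≃ₐ[K] Ω)) := by
        rw [← Finset.sum_add_distrib]
        apply Finset.sum_congr rfl
        intro i _
        rw [he2]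
        ring
      have h3 : ∑ i, i * e σ (i + kap n z α (τ : Ω ≃ₐ[K] Ω)) =
          ∑ i, (i - kap n z α (τ : Ω ≃ₐ[K] Ω)) * e σ i :=
        Fintype.sum_equiv (Equiv.addRight (kap n z α (τ : Ω ≃ₐ[K] Ω))) _ _ fun i => by
          simp
      rw [h2, h3, add_sub_assoc]
      congr 1
      rw [Finset.mul_sum, ← Finset.sum_sub_distrib]
      apply Finset.sum_congr rfl
      intro i _
      ring
    simp only
    rw [h1, hkβ]
    ring

end Top

end Pool.Agent.Bog
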