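import Pool.Agent.Bog.Red

/-!
Central embedding problems with abelian quotient from the vanishing of cup products.
-/

set_option autoImplicit false
set_option linter.unusedVariables false
set_option linter.unusedSectionVars false
set_option linter.style.haveILetI false

namespace Pool.Agent.Bog

open IntermediateField

/-! ### Powers with exponent in `ZMod M` -/

section Pw

variable {C : Type*} [Group C] {M : ℕ} [NeZero M]

lemma pow_val_natCast {c : C} (hc : c ^ M = 1) (k : ℕ) : c ^ ((k : ZMod M)).val = c ^ k := by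
  rw [ZMod.val_natCast]
  exact (pow_eq_pow_mod k hc).symm

lemma pow_val_add {c : C} (hc : c ^ M = 1) (x y : ZMod M) :
    c ^ (x + y).val = c ^ x.val * c ^ y.val := by
  have h : x + y = ((x.val + y.val : ℕ) : ZMod M) := by
    rw [Nat.cast_add, ZMod.natCast_zmod_val, ZMod.natCast_zmod_val]
  rw [h, pow_val_natCast hc, pow_add]

lemma pow_val_mul {c : C} (hc : c ^ M = 1) (x y : ZMod M) :
    c ^ (x * y).val = (c ^ y.val) ^ x.val := by
  have h : x * y = ((y.val * x.val : ℕ) : ZMod M) := by
    rw [Nat.cast_mul, ZMod.natCast_zmod_val, ZMod.natCast_zmod_val, mul_comm]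
  rw [h, pow_val_natCast hc, pow_mul]

lemma pow_val_neg {c : C} (hc : c ^ M = 1) (x : ZMod M) :
    c ^ (-x).val = (c ^ x.val)⁻¹ := by
  have h := pow_val_add hc (-x) x
  rw [neg_add_cancel, ZMod.val_zero, pow_zero] at h
  exact eq_inv_of_mul_eq_one_left h.symm

end Pw

/-! ### The abelian lemma -/

section Ab

variable {G : Type*} [Group G] [TopologicalSpace G] {N U : Subgroup G} {M : ℕ} [NeZero M]

lemma exists_z {C : Type*} [CommGroup C] (hNU : N ≤ U) (hcup : Cup hNU M) (X : U → ZMod M)
    (hX : IsChar X) (D : Subgroup C) (L : List (C × (U → ZMod M)))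
    (hL : ∀ p ∈ L, p.1 ^ M = 1 ∧ IsChar p.2 ∧ p.1 ∈ D) :
    ∃ z : N → C, IsLocallyConstant z ∧ (∀ g, z g ∈ D) ∧ ∀ g h : N, z (g * h) = z g * z h *
      (L.map (fun p => p.1 ^ (X (Subgroup.inclusion hNU g) *
        p.2 (Subgroup.inclusion hNU h)).val)).prod := by
  induction L with
  | nil =>
    exact ⟨fun _ => 1, IsLocallyConstant.const 1, fun _ => D.one_mem, fun g h => by simp⟩
  | cons p L ih =>
    obtain ⟨z, hz, hzD, hze⟩ := ih (fun q hq => hL q (List.mem_cons_of_mem p hq))
    obtain ⟨hp1, hp2, hp3⟩ := hL p List.mem_cons_self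
    obtain ⟨ψ, hψ, hψe⟩ := hcup X p.2 hX hp2
    refine ⟨fun g => z g * p.1 ^ (- ψ g).val, ?_, fun g => D.mul_mem (hzD g) (D.pow_mem hp3 _),
      fun g h => ?_⟩
    · exact hz.mul (hψ.comp (fun y => p.1 ^ (-y).val))
    · simp only [List.map_cons, List.prod_cons]
      rw [hze, hψe g h, sub_eq_add_neg, pow_val_add hp1, pow_val_add hp1, pow_val_neg hp1,
        pow_val_neg hp1, pow_val_neg hp1]
      have e : ∀ a b c u v w r : C, a * b * r * w⁻¹ = a * u⁻¹ * (b * v⁻¹) * (u * v * w⁻¹ * r) := by
        intro a b c u v w r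
        rw [mul_comm (a * u⁻¹ * (b * v⁻¹))]
        have : u * v * w⁻¹ * r * (a * u⁻¹ * (b * v⁻¹)) =
            (u * u⁻¹) * (v * v⁻¹) * (a * b * r * w⁻¹) := by
          ac_rfl
        rw [this, mul_inv_cancel, mul_inv_cancel, one_mul, one_mul]
      exact e _ _ 1 _ _ _ _

end Ab

/-! ### Commutators in a central extension of an abelian group -/

/-- the center is commutative -/
instance centerCommGroup (B : Type*) [Group B] : CommGroup (Subgroup.center B) :=
  { (inferInstance : Group (Subgroup.center B)) with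
    mul_comm := fun a b => Subtype.ext ((Subgroup.mem_center_iff.mp b.2) a) }

section Comm

variable {A B : Type*} [CommGroup A] [Group B] (α : B →* A) (hα : α.ker ≤ Subgroup.center B)

include hα

lemma comm_mem_center (b y : B) : b * y * b⁻¹ * y⁻¹ ∈ Subgroup.center B := by
  apply hα
  rw [MonoidHom.mem_ker]
  simp only [map_mul, map_inv]
  rw [mul_comm (α b) (α y), mul_inv_cancel_right, mul_inv_cancel]

/-- `y ↦ [b, y]` -/
def cm (b : B) : B →* Subgroup.center B where
  toFun y := ⟨b * y * b⁻¹ * y⁻¹, comm_mem_center α hα b y⟩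
  map_one' := by
    apply Subtype.ext
    simp
  map_mul' y y' := by
    apply Subtype.ext
    change b * (y * y') * b⁻¹ * (y * y')⁻¹ = (b * y * b⁻¹ * y⁻¹) * (b * y' * b⁻¹ * y'⁻¹)
    have hc := (Subgroup.mem_center_iff.mp (comm_mem_center α hα b y')) y
    have e : b * (y * y') * b⁻¹ * (y * y')⁻¹ =
        (b * y * b⁻¹ * y⁻¹) * (y * (b * y' * b⁻¹ * y'⁻¹) * y⁻¹) := by group
    rw [e, hc]
    group

lemma cm_mem_ker (b y : B) : ((cm α hα b y : Subgroup.center B) : B) ∈ α.ker := by
  change b * y * b⁻¹ * y⁻¹ ∈ α.ker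
  rw [MonoidHom.mem_ker]
  simp only [map_mul, map_inv]
  rw [mul_comm (α b) (α y), mul_inv_cancel_right, mul_inv_cancel]

lemma cm_mul_left (b b' y : B) : cm α hα (b * b') y = cm α hα b y * cm α hα b' y := by
  apply Subtype.ext
  change (b * b') * y * (b * b')⁻¹ * y⁻¹ = (b * y * b⁻¹ * y⁻¹) * (b' * y * b'⁻¹ * y⁻¹)
  have hc := (Subgroup.mem_center_iff.mp (comm_mem_center α hα b' y)) b
  have hc2 := (Subgroup.mem_center_iff.mp (comm_mem_center α hα b' y)) (b * y * b⁻¹ * y⁻¹)
  have e : (b * b') * y * (b * b')⁻¹ * y⁻¹ =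
      (b * (b' * y * b'⁻¹ * y⁻¹)) * (y * b⁻¹ * y⁻¹) := by group
  rw [e, hc, hc2]
  group

lemma cm_pow_left (b y : B) (k : ℕ) : cm α hα (b ^ k) y = cm α hα b y ^ k := by
  induction k with
  | zero =>
    rw [pow_zero, pow_zero]
    apply Subtype.ext
    change (1 : B) * y * (1 : B)⁻¹ * y⁻¹ = 1
    group
  | succ k ih => rw [pow_succ, pow_succ, cm_mul_left, ih]

/-- `[b, y]` only depends on `α y` -/
lemma cm_congr (b y y' : B) (h : α y = α y') : cm α hα b y = cm α hα b y' := by
  have h1 : y'⁻¹ * y ∈ Subgroup.center B := by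
    apply hα
    rw [MonoidHom.mem_ker, map_mul, map_inv, h, inv_mul_cancel]
  have h2 : cm α hα b (y'⁻¹ * y) = 1 := by
    apply Subtype.ext
    change b * (y'⁻¹ * y) * b⁻¹ * (y'⁻¹ * y)⁻¹ = 1
    have := (Subgroup.mem_center_iff.mp h1) b
    rw [this]
    group
  have h3 : y = y' * (y'⁻¹ * y) := by group
  rw [h3, map_mul, h2, mul_one]

lemma swap (b y : B) : b * y = ((cm α hα b y : Subgroup.center B) : B) * y * b := by
  change b * y = (b * y * b⁻¹ * y⁻¹) * y * b
  group

end Comm

section Emb

variable {G : Type*} [Group G] [TopologicalSpace G] [IsTopologicalGroup G]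
  {N U : Subgroup G} {M : ℕ} [NeZero M]

/-- the list form of the embedding problem -/
lemma embed_list {A B : Type*} [CommGroup A] [Group B] (α : B →* A)
    (hα : α.ker ≤ Subgroup.center B) (hNU : N ≤ U) (hcup : Cup hNU M)
    (L : List (B × (U → ZMod M))) (hL : ∀ p ∈ L, p.1 ^ M = 1 ∧ IsChar p.2) :
    ∃ ψ : N →* B, IsLocallyConstant ψ ∧ ∀ g : N, α (ψ g) =
      (L.map (fun p => (α p.1) ^ (p.2 (Subgroup.inclusion hNU g)).val)).prod := by
  induction L with
  | nil =>
    exact ⟨1, IsLocallyConstant.const 1, fun g => by simp⟩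
  | cons p L ih =>
    obtain ⟨ψ', hψ', hψe⟩ := ih (fun q hq => hL q (List.mem_cons_of_mem p hq))
    obtain ⟨hp1, hp2⟩ := hL p List.mem_cons_self
    obtain ⟨b, X⟩ := p
    simp only at hp1 hp2
    -- the list of commutators
    set D : Subgroup (Subgroup.center B) := α.ker.comap (Subgroup.center B).subtype with hD
    set L' : List (Subgroup.center B × (U → ZMod M)) :=
      L.map (fun q => (cm α hα b q.1, q.2)) with hL'
    have hLp : ∀ q ∈ L', q.1 ^ M = 1 ∧ IsChar q.2 ∧ q.1 ∈ D := by
      intro q hq
      rw [hL', List.mem_map] at hq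
      obtain ⟨r, hr, rfl⟩ := hq
      obtain ⟨hr1, hr2⟩ := hL r (List.mem_cons_of_mem _ hr)
      refine ⟨?_, hr2, cm_mem_ker α hα b r.1⟩
      rw [← map_pow, hr1, map_one]
    obtain ⟨z, hz, hzD, hze⟩ := exists_z hNU hcup X hp2 D L' hLp
    -- the commutator of `b` with `ψ' h`
    have hγ : ∀ h : N, cm α hα b (ψ' h) =
        (L.map (fun q => (cm α hα b q.1) ^ (q.2 (Subgroup.inclusion hNU h)).val)).prod := by
      intro h
      have h1 : α (ψ' h) =
          α ((L.map (fun q => q.1 ^ (q.2 (Subgroup.inclusion hNU h)).val)).prod) := by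
        rw [hψe, map_list_prod, List.map_map]
        congr 1
        apply List.map_congr_left
        intro q _
        simp
      rw [cm_congr α hα b _ _ h1, map_list_prod, List.map_map]
      congr 1
      apply List.map_congr_left
      intro q _
      simp
    have hkey : ∀ g h : N, z (g * h) = z g * z h *
        (cm α hα b (ψ' h)) ^ (X (Subgroup.inclusion hNU g)).val := by
      intro g h
      rw [hze, hγ, hL', List.map_map]
      congr 1
      have hgen : ∀ (L0 : List (B × (U → ZMod M))) (hL0 : ∀ q ∈ L0, q.1 ^ M = 1),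
          (L0.map ((fun p : Subgroup.center B × (U → ZMod M) =>
            p.1 ^ (X (Subgroup.inclusion hNU g) *
            p.2 (Subgroup.inclusion hNU h)).val) ∘ fun q => (cm α hα b q.1, q.2))).prod =
          ((L0.map (fun q => (cm α hα b q.1) ^
            (q.2 (Subgroup.inclusion hNU h)).val)).prod) ^
              (X (Subgroup.inclusion hNU g)).val := by
        intro L0
        induction L0 with
        | nil => intro _; simp
        | cons q L0 ih0 =>
          intro hL0
          rw [List.map_cons, List.prod_cons, List.map_cons, List.prod_cons, mul_pow,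
            ih0 (fun r hr => hL0 r (List.mem_cons_of_mem _ hr))]
          congr 1
          simp only [Function.comp_apply]
          apply pow_val_mul
          rw [← map_pow, hL0 q List.mem_cons_self, map_one]
      exact hgen L (fun q hq => (hL q (List.mem_cons_of_mem _ hq)).1)
    -- the homomorphism
    have hmul : ∀ g h : N,
        ψ' (g * h) * b ^ (X (Subgroup.inclusion hNU (g * h))).val * (z (g * h) : B) =
        (ψ' g * b ^ (X (Subgroup.inclusion hNU g)).val * (z g : B)) *
        (ψ' h * b ^ (X (Subgroup.inclusion hNU h)).val * (z h : B)) := by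
      intro g h
      have hXm : X (Subgroup.inclusion hNU (g * h)) =
          X (Subgroup.inclusion hNU g) + X (Subgroup.inclusion hNU h) := by
        rw [map_mul]
        exact hp2.1 _ _
      rw [hXm, pow_val_add hp1, hkey g h, map_mul]
      have hs := swap α hα (b ^ (X (Subgroup.inclusion hNU g)).val) (ψ' h)
      rw [cm_pow_left] at hs
      set x := (X (Subgroup.inclusion hNU g)).val with hx
      set y := (X (Subgroup.inclusion hNU h)).val with hy
      set c : Subgroup.center B := cm α hα b (ψ' h) ^ x with hc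
      have hcen : ∀ (u : Subgroup.center B) (v : B), v * (u : B) = (u : B) * v := fun u v =>
        (Subgroup.mem_center_iff.mp u.2) v
      calc ψ' g * ψ' h * (b ^ x * b ^ y) * ((z g * z h * c : Subgroup.center B) : B)
          = ψ' g * ((c : B) * ψ' h * b ^ x) * b ^ y * (z g : B) * (z h : B) := by
            have h1 : ((z g * z h * c : Subgroup.center B) : B) = (z g : B) * (z h : B) * (c : B) :=
              rfl
            rw [h1]
            have h2 : (z g : B) * (z h : B) * (c : B) = (c : B) * ((z g : B) * (z h : B)) :=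
              hcen c _
            rw [h2]
            have h3 : ψ' g * ψ' h * (b ^ x * b ^ y) * (c : B) =
                (c : B) * (ψ' g * ψ' h * (b ^ x * b ^ y)) := hcen c _
            have h4 : ψ' g * ((c : B) * ψ' h * b ^ x) * b ^ y =
                (c : B) * (ψ' g * ψ' h * (b ^ x * b ^ y)) := by
              have := hcen c (ψ' g)
              calc ψ' g * ((c : B) * ψ' h * b ^ x) * b ^ y
                  = (ψ' g * (c : B)) * (ψ' h * (b ^ x * b ^ y)) := by group
                _ = ((c : B) * ψ' g) * (ψ' h * (b ^ x * b ^ y)) := by rw [this]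
                _ = _ := by group
            rw [h4, ← h3]
            group
        _ = ψ' g * (b ^ x * ψ' h) * b ^ y * (z g : B) * (z h : B) := by rw [hs]
        _ = (ψ' g * b ^ x * (z g : B)) * (ψ' h * b ^ y * (z h : B)) := by
            have h5 : ψ' h * b ^ y * (z g : B) = (z g : B) * (ψ' h * b ^ y) := hcen _ _
            calc ψ' g * (b ^ x * ψ' h) * b ^ y * (z g : B) * (z h : B)
                = ψ' g * b ^ x * (ψ' h * b ^ y * (z g : B)) * (z h : B) := by group
              _ = ψ' g * b ^ x * ((z g : B) * (ψ' h * b ^ y)) * (z h : B) := by rw [h5]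
              _ = _ := by group
    refine ⟨MonoidHom.mk' (fun g => ψ' g * b ^ (X (Subgroup.inclusion hNU g)).val * (z g : B))
      hmul, ?_, ?_⟩
    · have hXlc : IsLocallyConstant (fun g : N => X (Subgroup.inclusion hNU g)) :=
        hp2.2.comp_continuous (continuous_subtype_val.subtype_mk _)
      have h1 := hψ'.prodMk (hXlc.prodMk hz)
      exact h1.comp (fun q : B × ZMod M × Subgroup.center B =>
        q.1 * b ^ q.2.1.val * (q.2.2 : B))
    · intro g
      change α (ψ' g * b ^ (X (Subgroup.inclusion hNU g)).val * (z g : B)) = _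
      have h1 : α (z g : B) = 1 := hzD g
      rw [map_mul, map_mul, h1, mul_one, map_pow, hψe, List.map_cons, List.prod_cons, mul_comm]

end Emb

end Pool.Agent.Bog
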