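import Pool.Agent.Bog.Emb

/-!
Central embedding problems with abelian quotient: the general case.
-/

set_option autoImplicit false
set_option linter.unusedVariables false
set_option linter.unusedSectionVars false
set_option linter.style.haveILetI false

namespace Pool.Agent.Bog

open IntermediateField

section

variable {K Ω : Type*} [Field K] [Field Ω] [Algebra K Ω] [Algebra.IsAlgebraic K Ω]
  [IsAlgClosed Ω]

/-- characters lift to higher level -/
lemma char_lift (U : Subgroup (Ω ≃ₐ[K] Ω)) {c M : ℕ} [NeZero c] [NeZero M] (hcM : c ∣ M)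
    {ζ' : K} (hζ' : IsPrimitiveRoot ζ' M) (χ : U → ZMod c) (hχ : IsChar χ) :
    ∃ Ψ : U → ZMod M, IsChar Ψ ∧ ∀ σ, (((Ψ σ).val : ℕ) : ZMod c) = χ σ := by
  obtain ⟨n, rfl⟩ := hcM
  haveI hn : NeZero n := ⟨right_ne_zero_of_mul (NeZero.ne (c * n))⟩
  have hcn : 0 < c * n := Nat.pos_of_ne_zero (NeZero.ne _)
  have hζc : IsPrimitiveRoot (ζ' ^ n) c := hζ'.pow hcn (mul_comm c n)
  set z' : Ω := algebraMap K Ω ζ' with hz'
  obtain ⟨γ, hγ0, hγ⟩ := kummer (Ω := Ω) hζc U χ hχ.1 hχ.2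
  set γ' : Ω := rt n γ with hγ'
  have hγ'n : γ' ^ n = γ := rt_pow n γ
  have hγ'0 : γ' ≠ 0 := rt_ne_zero n hγ0
  have hγ'N : ∀ σ : U, (σ : Ω ≃ₐ[K] Ω) (γ' ^ (c * n)) = γ' ^ (c * n) := by
    intro σ
    rw [mul_comm c n, pow_mul, hγ'n, map_pow, hγ σ, mul_pow, ex_pow (hzΩ (Ω := Ω) hζc), one_mul]
  refine ⟨fun σ => kap (c * n) z' γ' (σ : Ω ≃ₐ[K] Ω),
    ⟨fun σ τ => kap_mul_right hζ' hγ'0 (hγ'N σ) (hγ'N τ),
      (lc_apply U γ').comp (fun y => dl (c * n) z' (y / γ'))⟩, fun σ => ?_⟩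
  simp only
  apply ex_inj (hzΩ (Ω := Ω) hζc)
  apply mul_right_cancel₀ hγ0
  rw [← hγ σ]
  have h0 : (σ : Ω ≃ₐ[K] Ω) γ = (ex z' (kap (c * n) z' γ' (σ : Ω ≃ₐ[K] Ω))) ^ n * γ := by
    rw [← hγ'n, map_pow, kap_spec hζ' hγ'0 (hγ'N σ), mul_pow,
      kap_eq hζ' hγ'0 (kap_spec hζ' hγ'0 (hγ'N σ))]
  rw [h0]
  congr 1
  rw [ex_natCast (hzΩ (Ω := Ω) hζc), map_pow]
  unfold ex
  rw [← pow_mul, ← pow_mul, Nat.mul_comm n]

/-- a homomorphism with open kernel is locally constant -/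
lemma lc_of_open_ker {G A : Type*} [Group G] [TopologicalSpace G] [IsTopologicalGroup G]
    [Group A] (φ : G →* A) (h : IsOpen (φ.ker : Set G)) : IsLocallyConstant φ := by
  rw [IsLocallyConstant.iff_exists_open]
  intro σ
  refine ⟨(fun τ => σ⁻¹ * τ) ⁻¹' (φ.ker : Set G), h.preimage (continuous_const.mul continuous_id),
    ?_, ?_⟩
  · change σ⁻¹ * σ ∈ φ.ker
    rw [inv_mul_cancel]
    exact φ.ker.one_mem
  · intro τ hτ
    have : σ⁻¹ * τ ∈ φ.ker := hτ
    rw [MonoidHom.mem_ker, map_mul, map_inv, inv_mul_eq_one] at this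
    exact this.symm

lemma open_ker_of_lc {G A : Type*} [Group G] [TopologicalSpace G]
    [Group A] (φ : G →* A) (h : IsLocallyConstant φ) : IsOpen (φ.ker : Set G) :=
  h.isOpen_fiber 1

/-- powers of an element of `P` fix a given finite extension pointwise -/
lemma exists_pow_fix {ℓ : ℕ} {g : Ω ≃ₐ[K] Ω} (hsp : ∀ x : Ω, ∃ n, (g ^ (ℓ ^ n)) x = x)
    (E : IntermediateField K Ω) [FiniteDimensional K E] :
    ∃ n, ∀ x ∈ E, (g ^ (ℓ ^ n)) x = x := by
  classical
  -- a finite set of generators of the vector space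
  obtain ⟨S, hS⟩ := (Module.Finite.fg_top : (⊤ : Submodule K E).FG)
  choose f hf using hsp
  set n : ℕ := ∑ x ∈ S, f (x : Ω) with hn
  refine ⟨n, ?_⟩
  have hmono : ∀ (x : Ω) (m : ℕ), f x ≤ m → (g ^ (ℓ ^ m)) x = x := by
    intro x m hm
    obtain ⟨k, rfl⟩ := Nat.exists_eq_add_of_le hm
    rw [pow_add, pow_mul]
    have h1 : g ^ ℓ ^ f x ∈ MulAction.stabilizer (Ω ≃ₐ[K] Ω) x := hf x
    exact Subgroup.pow_mem _ h1 _
  intro x hx
  have hspan : (⟨x, hx⟩ : E) ∈ Submodule.span K (S : Set E) := by rw [hS]; trivial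
  have hfix : ∀ y ∈ Submodule.span K (S : Set E), (g ^ (ℓ ^ n)) (y : Ω) = y := by
    intro y hy
    induction hy using Submodule.span_induction with
    | mem y hy =>
      apply hmono
      rw [hn]
      exact Finset.single_le_sum (f := fun x : E => f (x : Ω)) (fun _ _ => Nat.zero_le _) hy
    | zero => simp
    | add y z _ _ h1 h2 =>
      change (g ^ (ℓ ^ n)) ((y : Ω) + (z : Ω)) = (y : Ω) + (z : Ω)
      rw [map_add, h1, h2]
    | smul c y _ h1 =>
      change (g ^ (ℓ ^ n)) (c • (y : Ω)) = c • (y : Ω)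
      rw [map_smul, h1]
  exact hfix _ hspan

/-- **Central embedding problems with abelian quotient.** -/
theorem embed_of_cup {ℓ : ℕ} (hℓ : ℓ.Prime) {N U : Subgroup (Ω ≃ₐ[K] Ω)} (hNU : N ≤ U)
    (hsp : ∀ g ∈ U, ∀ x : Ω, ∃ n, (g ^ (ℓ ^ n)) x = x)
    (hroots : ∀ m : ℕ, ∃ ζ : K, IsPrimitiveRoot ζ (ℓ ^ m))
    (hcup : ∀ m : ℕ, Cup hNU (ℓ ^ m))
    {A B : Type*} [CommGroup A] [Group B] [Finite B] (α : B →* A)
    (hsurj : Function.Surjective α) (hα : α.ker ≤ Subgroup.center B)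
    (φ : U →* A) (hφ : IsOpen (φ.ker : Set U)) :
    ∃ ψ : N →* B, IsOpen (ψ.ker : Set N) ∧ ∀ g : N, α (ψ g) = φ (Subgroup.inclusion hNU g) := by
  classical
  haveI hℓn : NeZero ℓ := ⟨hℓ.ne_zero⟩
  haveI : Finite A := Finite.of_surjective α hsurj
  have hφlc := lc_of_open_ker φ hφ
  -- values have `ℓ`-power order
  have hpow : ∀ g : U, ∃ n, φ g ^ (ℓ ^ n) = 1 := by
    intro g
    obtain ⟨E, hE, hEφ⟩ := exists_field_of_lc U (fun σ => Additive.ofMul (φ σ))
      (fun σ τ => by rw [map_mul]; rfl) (hφlc.comp Additive.ofMul)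
    obtain ⟨n, hn⟩ := exists_pow_fix (hsp g g.2) E
    refine ⟨n, ?_⟩
    have := hEφ (g ^ (ℓ ^ n)) (by
      intro x hx
      have := hn x hx
      simpa using this)
    rw [map_pow] at this
    exact Additive.ofMul.injective (by simpa using this)
  -- structure of the image
  obtain ⟨ι, hι, n, h1, ⟨e⟩⟩ := CommGroup.equiv_prod_multiplicative_zmod_of_finite φ.range
  have hn0 : ∀ i, NeZero (n i) := fun i => ⟨by have := h1 i; omega⟩
  have hdiv : ∀ i, ∃ k, n i ∣ ℓ ^ k := by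
    intro i
    obtain ⟨g, hg⟩ := (e.symm (Pi.mulSingle i (Multiplicative.ofAdd (1 : ZMod (n i))))).2
    obtain ⟨k, hk⟩ := hpow g
    refine ⟨k, ?_⟩
    rw [hg] at hk
    have h2 : (e.symm (Pi.mulSingle i (Multiplicative.ofAdd (1 : ZMod (n i))))) ^ (ℓ ^ k) = 1 := by
      apply Subtype.ext
      exact hk
    have h3 : (Pi.mulSingle i (Multiplicative.ofAdd (1 : ZMod (n i))) :
        (i : ι) → Multiplicative (ZMod (n i))) ^ (ℓ ^ k) = 1 := by
      have := congrArg e h2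
      rwa [map_pow, MulEquiv.apply_symm_apply, map_one e] at this
    have h4 := congrFun h3 i
    rw [Pi.pow_apply, Pi.mulSingle_eq_same, Pi.one_apply, ← ofAdd_nsmul, nsmul_eq_mul,
      mul_one, ofAdd_eq_one, ZMod.natCast_eq_zero_iff] at h4
    exact h4
  choose k hk using hdiv
  obtain ⟨s, t, hst, hB⟩ := Nat.exists_eq_pow_mul_and_not_dvd (Nat.card_pos (α := B)).ne' ℓ
    hℓ.ne_one
  set E : ℕ := s + ∑ i, k i + 1 with hE
  haveI hM : NeZero (ℓ ^ E) := inferInstance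
  have hnM : ∀ i, n i ∣ ℓ ^ E := by
    intro i
    refine (hk i).trans (pow_dvd_pow ℓ ?_)
    have := Finset.single_le_sum (f := k) (fun _ _ => Nat.zero_le _) (Finset.mem_univ i)
    omega
  obtain ⟨ζ', hζ'⟩ := hroots E
  -- an inverse of `t` modulo `ℓ ^ E`
  have hcop : Nat.Coprime t (ℓ ^ E) := by
    apply Nat.Coprime.pow_right
    rw [Nat.coprime_comm, Nat.Prime.coprime_iff_not_dvd hℓ]
    exact hst
  obtain ⟨t', -, ht'⟩ := Nat.exists_mul_mod_eq_one_of_coprime hcop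
    (Nat.one_lt_pow (by omega) hℓ.one_lt)
  -- the generators and their lifts
  set a : ι → φ.range := fun i =>
    e.symm (Pi.mulSingle i (Multiplicative.ofAdd (1 : ZMod (n i)))) with ha
  have hapow : ∀ i (j : ℕ), a i ^ j =
      e.symm (Pi.mulSingle i (Multiplicative.ofAdd ((j : ℕ) : ZMod (n i)))) := by
    intro i j
    rw [ha]
    simp only
    rw [← map_pow, ← Pi.mulSingle_pow, ← ofAdd_nsmul, nsmul_eq_mul, mul_one]
  choose b0 hb0 using fun i => hsurj ((a i : φ.range) : A)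
  set b : ι → B := fun i => b0 i ^ (t * t') with hb
  have hbM : ∀ i, b i ^ (ℓ ^ E) = 1 := by
    intro i
    have h2 : b0 i ^ (ℓ ^ s * t) = 1 := by
      rw [← hB]
      exact pow_card_eq_one'
    have h3 : E = s + (∑ i, k i + 1) := by rw [hE]; ring
    rw [hb]
    simp only
    rw [← pow_mul, h3, pow_add, show t * t' * (ℓ ^ s * ℓ ^ (∑ i, k i + 1)) =
      (ℓ ^ s * t) * (t' * ℓ ^ (∑ i, k i + 1)) by ring, pow_mul, h2, one_pow]
  have hαb : ∀ i, α (b i) = ((a i : φ.range) : A) := by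
    intro i
    rw [hb]
    simp only
    rw [map_pow, hb0]
    have h2 : a i ^ (t * t') = a i := by
      rw [hapow, ha]
      simp only
      congr 3
      have h3 : ((t * t' : ℕ) : ZMod (n i)) = ((1 : ℕ) : ZMod (n i)) := by
        rw [ZMod.natCast_eq_natCast_iff]
        apply Nat.ModEq.of_dvd (hnM i)
        have h5 : t * t' % (ℓ ^ E) = 1 := ht'
        unfold Nat.ModEq
        rw [h5, Nat.mod_eq_of_lt (Nat.one_lt_pow (by omega) hℓ.one_lt)]
      rw [h3, Nat.cast_one]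
    have h4 := congrArg (fun x : φ.range => (x : A)) h2
    simpa using h4
  -- the characters
  set χ : (i : ι) → U → ZMod (n i) := fun i g =>
    Multiplicative.toAdd (e (φ.rangeRestrict g) i) with hχ
  have hχc : ∀ i, IsChar (χ i) := by
    intro i
    refine ⟨fun σ τ => ?_, ?_⟩
    · rw [hχ]
      simp only
      rw [map_mul, map_mul, Pi.mul_apply, toAdd_mul]
    · have h2 : IsLocallyConstant (φ.rangeRestrict) := by
        apply lc_of_open_ker
        rw [MonoidHom.ker_rangeRestrict]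
        exact hφ
      exact h2.comp (fun x => Multiplicative.toAdd (e x i))
  choose X hX hXχ using fun i =>
    haveI := hn0 i
    char_lift U (hnM i) hζ' (χ i) (hχc i)
  obtain ⟨ψ, hψ, hψe⟩ := embed_list α hα hNU (hcup E)
    ((Finset.univ : Finset ι).toList.map (fun i => (b i, X i))) (by
      intro p hp
      rw [List.mem_map] at hp
      obtain ⟨i, -, rfl⟩ := hp
      exact ⟨hbM i, hX i⟩)
  refine ⟨ψ, open_ker_of_lc ψ hψ, fun g => ?_⟩
  rw [hψe, List.map_map]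
  have h2 : ((Finset.univ : Finset ι).toList.map ((fun p : B × (U → ZMod (ℓ ^ E)) =>
      (α p.1) ^ (p.2 (Subgroup.inclusion hNU g)).val) ∘ fun i => (b i, X i))).prod =
      ∏ i, (α (b i)) ^ (X i (Subgroup.inclusion hNU g)).val := by
    rw [← Finset.prod_map_toList]
    rfl
  rw [h2]
  have h3 : ∀ i, (α (b i)) ^ (X i (Subgroup.inclusion hNU g)).val =
      ((e.symm (Pi.mulSingle i (Multiplicative.ofAdd (χ i (Subgroup.inclusion hNU g)))) :
        φ.range) : A) := by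
    intro i
    rw [hαb, ← hXχ i, ← hapow]
    rfl
  rw [Finset.prod_congr rfl fun i _ => h3 i]
  have h4 : ∏ i, ((e.symm (Pi.mulSingle i (Multiplicative.ofAdd
      (χ i (Subgroup.inclusion hNU g)))) : φ.range) : A) =
      ((e.symm (∏ i, Pi.mulSingle i (Multiplicative.ofAdd
        (χ i (Subgroup.inclusion hNU g)))) : φ.range) : A) := by
    rw [map_prod]
    simp
  rw [h4, Finset.univ_prod_mulSingle]
  have h5 : (fun i => Multiplicative.ofAdd (χ i (Subgroup.inclusion hNU g))) =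
      e (φ.rangeRestrict (Subgroup.inclusion hNU g)) := by
    funext i
    rw [hχ]
    simp
  rw [h5, MulEquiv.symm_apply_apply]
  rfl

end

end Pool.Agent.Bog
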