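import Pool.Agent.Bog.C4

/-!
Central embedding problems with abelian quotient and kernel of bounded exponent.
-/

set_option autoImplicit false
set_option linter.unusedVariables false
set_option linter.unusedSectionVars false
set_option linter.style.haveILetI false

namespace Pool.Agent.Bog

open IntermediateField

lemma pow_val_cast {C : Type*} [Group C] {M q : ℕ} [NeZero M] [NeZero q] (hqM : q ∣ M) {c : C}
    (hc : c ^ q = 1) (x : ZMod M) : c ^ (ZMod.castHom hqM (ZMod q) x).val = c ^ x.val := by
  have h : ZMod.castHom hqM (ZMod q) x = ((x.val : ℕ) : ZMod q) := by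
    conv_lhs => rw [← ZMod.natCast_zmod_val x]
    rw [map_natCast]
  rw [h, pow_val_natCast hc]

section Emb

variable {G : Type*} [Group G] [TopologicalSpace G] [IsTopologicalGroup G]
  {N U : Subgroup G} {M q : ℕ} [NeZero M] [NeZero q]

/-- the list form of the embedding problem -/
lemma embed_list_q {A B : Type*} [CommGroup A] [Group B] (α : B →* A)
    (hα : α.ker ≤ Subgroup.center B) (hNU : N ≤ U) (hcup : Cup hNU q) (hqM : q ∣ M)
    (hker : ∀ y ∈ α.ker, y ^ q = 1)
    (L : List (B × (U → ZMod M))) (hL : ∀ p ∈ L, p.1 ^ M = 1 ∧ IsChar p.2) :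
    ∃ ψ : N →* B, IsLocallyConstant ψ ∧ ∀ g : N, α (ψ g) =
      (L.map (fun p => (α p.1) ^ (p.2 (Subgroup.inclusion hNU g)).val)).prod := by
  induction L with
  | nil =>
    exact ⟨1, IsLocallyConstant.const 1, fun g => by simp⟩
  | cons p L ih =>
    obtain ⟨ψ', hψ', hψe⟩ := ih (fun q hq => hL q (List.mem_cons_of_mem p hq))
    obtain ⟨hp1, hp2⟩ := hL p List.mem_cons_self
    obtain ⟨b, X⟩ := p
    simp only at hp1 hp2
    -- the list of commutators
    set D : Subgroup (Subgroup.center B) := α.ker.comap (Subgroup.center B).subtype with hD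
    have hcq : ∀ y : B, (cm α hα b y) ^ q = 1 := by
      intro y
      apply Subtype.ext
      exact hker _ (cm_mem_ker α hα b y)
    have hred : ∀ (χ : U → ZMod M), IsChar χ → IsChar (fun u => ZMod.castHom hqM (ZMod q) (χ u)) := by
      intro χ hχ
      refine ⟨fun σ τ => ?_, hχ.2.comp (ZMod.castHom hqM (ZMod q))⟩
      simp only
      rw [hχ.1, map_add]
    set L' : List (Subgroup.center B × (U → ZMod q)) :=
      L.map (fun r => (cm α hα b r.1, fun u => ZMod.castHom hqM (ZMod q) (r.2 u))) with hL'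
    have hLp : ∀ r ∈ L', r.1 ^ q = 1 ∧ IsChar r.2 ∧ r.1 ∈ D := by
      intro r' hr'
      rw [hL', List.mem_map] at hr'
      obtain ⟨r, hr, rfl⟩ := hr'
      obtain ⟨hr1, hr2⟩ := hL r (List.mem_cons_of_mem _ hr)
      exact ⟨hcq r.1, hred _ hr2, cm_mem_ker α hα b r.1⟩
    obtain ⟨z, hz, hzD, hze⟩ := exists_z hNU hcup _ (hred X hp2) D L' hLp
    -- the commutator of `b` with `ψ' h`
    have hγ : ∀ h : N, cm α hα b (ψ' h) =
        (L.map (fun q => (cm α hα b q.1) ^ (q.2 (Subgroup.inclusion hNU h)).val)).prod := by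
      intro h
      have h1 : α (ψ' h) =
          α ((L.map (fun q => q.1 ^ (q.2 (Subgroup.inclusion hNU h)).val)).prod) := by
        rw [hψe, map_list_prod, List.map_map]
        congr 1
        apply List.map_congr_left
        intro q _
        simp
      rw [cm_congr α hα b _ _ h1, map_list_prod, List.map_map]
      congr 1
      apply List.map_congr_left
      intro q _
      simp
    have hkey : ∀ g h : N, z (g * h) = z g * z h *
        (cm α hα b (ψ' h)) ^ (X (Subgroup.inclusion hNU g)).val := by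
      intro g h
      rw [hze, hγ, hL', List.map_map]
      congr 1
      have hgen : ∀ (L0 : List (B × (U → ZMod M))),
          (L0.map ((fun p : Subgroup.center B × (U → ZMod q) =>
            p.1 ^ ((ZMod.castHom hqM (ZMod q) (X (Subgroup.inclusion hNU g))) *
            p.2 (Subgroup.inclusion hNU h)).val) ∘ fun r => (cm α hα b r.1,
              fun u => ZMod.castHom hqM (ZMod q) (r.2 u)))).prod =
          ((L0.map (fun q => (cm α hα b q.1) ^
            (q.2 (Subgroup.inclusion hNU h)).val)).prod) ^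
              (X (Subgroup.inclusion hNU g)).val := by
        intro L0
        induction L0 with
        | nil => simp
        | cons r L0 ih0 =>
          rw [List.map_cons, List.prod_cons, List.map_cons, List.prod_cons, mul_pow, ih0]
          congr 1
          simp only [Function.comp_apply]
          rw [pow_val_mul (hcq r.1), pow_val_cast hqM (by rw [← pow_mul, mul_comm, pow_mul, hcq,
            one_pow]), pow_val_cast hqM (hcq r.1)]
      exact hgen L
    -- the homomorphism
    have hmul : ∀ g h : N,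
        ψ' (g * h) * b ^ (X (Subgroup.inclusion hNU (g * h))).val * (z (g * h) : B) =
        (ψ' g * b ^ (X (Subgroup.inclusion hNU g)).val * (z g : B)) *
        (ψ' h * b ^ (X (Subgroup.inclusion hNU h)).val * (z h : B)) := by
      intro g h
      have hXm : X (Subgroup.inclusion hNU (g * h)) =
          X (Subgroup.inclusion hNU g) + X (Subgroup.inclusion hNU h) := by
        rw [map_mul]
        exact hp2.1 _ _
      rw [hXm, pow_val_add hp1, hkey g h, map_mul]
      have hs := swap α hα (b ^ (X (Subgroup.inclusion hNU g)).val) (ψ' h)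
      rw [cm_pow_left] at hs
      set x := (X (Subgroup.inclusion hNU g)).val with hx
      set y := (X (Subgroup.inclusion hNU h)).val with hy
      set c : Subgroup.center B := cm α hα b (ψ' h) ^ x with hc
      have hcen : ∀ (u : Subgroup.center B) (v : B), v * (u : B) = (u : B) * v := fun u v =>
        (Subgroup.mem_center_iff.mp u.2) v
      calc ψ' g * ψ' h * (b ^ x * b ^ y) * ((z g * z h * c : Subgroup.center B) : B)
          = ψ' g * ((c : B) * ψ' h * b ^ x) * b ^ y * (z g : B) * (z h : B) := by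
            have h1 : ((z g * z h * c : Subgroup.center B) : B) = (z g : B) * (z h : B) * (c : B) :=
              rfl
            rw [h1]
            have h2 : (z g : B) * (z h : B) * (c : B) = (c : B) * ((z g : B) * (z h : B)) :=
              hcen c _
            rw [h2]
            have h3 : ψ' g * ψ' h * (b ^ x * b ^ y) * (c : B) =
                (c : B) * (ψ' g * ψ' h * (b ^ x * b ^ y)) := hcen c _
            have h4 : ψ' g * ((c : B) * ψ' h * b ^ x) * b ^ y =
                (c : B) * (ψ' g * ψ' h * (b ^ x * b ^ y)) := by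
              have := hcen c (ψ' g)
              calc ψ' g * ((c : B) * ψ' h * b ^ x) * b ^ y
                  = (ψ' g * (c : B)) * (ψ' h * (b ^ x * b ^ y)) := by group
                _ = ((c : B) * ψ' g) * (ψ' h * (b ^ x * b ^ y)) := by rw [this]
                _ = _ := by group
            rw [h4, ← h3]
            group
        _ = ψ' g * (b ^ x * ψ' h) * b ^ y * (z g : B) * (z h : B) := by rw [hs]
        _ = (ψ' g * b ^ x * (z g : B)) * (ψ' h * b ^ y * (z h : B)) := by
            have h5 : ψ' h * b ^ y * (z g : B) = (z g : B) * (ψ' h * b ^ y) := hcen _ _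
            calc ψ' g * (b ^ x * ψ' h) * b ^ y * (z g : B) * (z h : B)
                = ψ' g * b ^ x * (ψ' h * b ^ y * (z g : B)) * (z h : B) := by group
              _ = ψ' g * b ^ x * ((z g : B) * (ψ' h * b ^ y)) * (z h : B) := by rw [h5]
              _ = _ := by group
    refine ⟨MonoidHom.mk' (fun g => ψ' g * b ^ (X (Subgroup.inclusion hNU g)).val * (z g : B))
      hmul, ?_, ?_⟩
    · have hXlc : IsLocallyConstant (fun g : N => X (Subgroup.inclusion hNU g)) :=
        hp2.2.comp_continuous (continuous_subtype_val.subtype_mk _)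
      have h1 := hψ'.prodMk (hXlc.prodMk hz)
      exact h1.comp (fun q : B × ZMod M × Subgroup.center B =>
        q.1 * b ^ q.2.1.val * (q.2.2 : B))
    · intro g
      change α (ψ' g * b ^ (X (Subgroup.inclusion hNU g)).val * (z g : B)) = _
      have h1 : α (z g : B) = 1 := hzD g
      rw [map_mul, map_mul, h1, mul_one, map_pow, hψe, List.map_cons, List.prod_cons, mul_comm]

end Emb

section

variable {K Ω : Type*} [Field K] [Field Ω] [Algebra K Ω] [Algebra.IsAlgebraic K Ω]
  [IsAlgClosed Ω]

/-- **Central embedding problems with abelian quotient.** -/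
theorem embed_of_cup_q {ℓ : ℕ} (hℓ : ℓ.Prime) {N U : Subgroup (Ω ≃ₐ[K] Ω)} (hNU : N ≤ U)
    (hsp : ∀ g ∈ U, ∀ x : Ω, ∃ n, (g ^ (ℓ ^ n)) x = x)
    (hroots : ∀ m : ℕ, ∃ ζ : K, IsPrimitiveRoot ζ (ℓ ^ m))
    {m : ℕ} (hcup : Cup hNU (ℓ ^ m))
    {A B : Type*} [CommGroup A] [Group B] [Finite B] (α : B →* A)
    (hsurj : Function.Surjective α) (hα : α.ker ≤ Subgroup.center B)
    (hker : ∀ y ∈ α.ker, y ^ (ℓ ^ m) = 1) (φ : U →* A) (hφ : IsOpen (φ.ker : Set U)) :
    ∃ ψ : N →* B, IsOpen (ψ.ker : Set N) ∧ ∀ g : N, α (ψ g) = φ (Subgroup.inclusion hNU g) := by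
  classical
  haveI hℓn : NeZero ℓ := ⟨hℓ.ne_zero⟩
  haveI : Finite A := Finite.of_surjective α hsurj
  have hφlc := lc_of_open_ker φ hφ
  -- values have `ℓ`-power order
  have hpow : ∀ g : U, ∃ n, φ g ^ (ℓ ^ n) = 1 := by
    intro g
    obtain ⟨E, hE, hEφ⟩ := exists_field_of_lc U (fun σ => Additive.ofMul (φ σ))
      (fun σ τ => by rw [map_mul]; rfl) (hφlc.comp Additive.ofMul)
    obtain ⟨n, hn⟩ := exists_pow_fix (hsp g g.2) E
    refine ⟨n, ?_⟩
    have := hEφ (g ^ (ℓ ^ n)) (by
      intro x hx
      have := hn x hx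
      simpa using this)
    rw [map_pow] at this
    exact Additive.ofMul.injective (by simpa using this)
  -- structure of the image
  obtain ⟨ι, hι, n, h1, ⟨e⟩⟩ := CommGroup.equiv_prod_multiplicative_zmod_of_finite φ.range
  have hn0 : ∀ i, NeZero (n i) := fun i => ⟨by have := h1 i; omega⟩
  have hdiv : ∀ i, ∃ k, n i ∣ ℓ ^ k := by
    intro i
    obtain ⟨g, hg⟩ := (e.symm (Pi.mulSingle i (Multiplicative.ofAdd (1 : ZMod (n i))))).2
    obtain ⟨k, hk⟩ := hpow g
    refine ⟨k, ?_⟩
    rw [hg] at hk
    have h2 : (e.symm (Pi.mulSingle i (Multiplicative.ofAdd (1 : ZMod (n i))))) ^ (ℓ ^ k) = 1 := by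
      apply Subtype.ext
      exact hk
    have h3 : (Pi.mulSingle i (Multiplicative.ofAdd (1 : ZMod (n i))) :
        (i : ι) → Multiplicative (ZMod (n i))) ^ (ℓ ^ k) = 1 := by
      have := congrArg e h2
      rwa [map_pow, MulEquiv.apply_symm_apply, map_one e] at this
    have h4 := congrFun h3 i
    rw [Pi.pow_apply, Pi.mulSingle_eq_same, Pi.one_apply, ← ofAdd_nsmul, nsmul_eq_mul,
      mul_one, ofAdd_eq_one, ZMod.natCast_eq_zero_iff] at h4
    exact h4
  choose k hk using hdiv
  obtain ⟨s, t, hst, hB⟩ := Nat.exists_eq_pow_mul_and_not_dvd (Nat.card_pos (α := B)).ne' ℓ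
    hℓ.ne_one
  set E : ℕ := s + (∑ i, k i + 1 + m) with hE
  haveI hM : NeZero (ℓ ^ E) := inferInstance
  have hnM : ∀ i, n i ∣ ℓ ^ E := by
    intro i
    refine (hk i).trans (pow_dvd_pow ℓ ?_)
    have := Finset.single_le_sum (f := k) (fun _ _ => Nat.zero_le _) (Finset.mem_univ i)
    omega
  obtain ⟨ζ', hζ'⟩ := hroots E
  -- an inverse of `t` modulo `ℓ ^ E`
  have hcop : Nat.Coprime t (ℓ ^ E) := by
    apply Nat.Coprime.pow_right
    rw [Nat.coprime_comm, Nat.Prime.coprime_iff_not_dvd hℓ]
    exact hst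
  obtain ⟨t', -, ht'⟩ := Nat.exists_mul_mod_eq_one_of_coprime hcop
    (Nat.one_lt_pow (by omega) hℓ.one_lt)
  -- the generators and their lifts
  set a : ι → φ.range := fun i =>
    e.symm (Pi.mulSingle i (Multiplicative.ofAdd (1 : ZMod (n i)))) with ha
  have hapow : ∀ i (j : ℕ), a i ^ j =
      e.symm (Pi.mulSingle i (Multiplicative.ofAdd ((j : ℕ) : ZMod (n i)))) := by
    intro i j
    rw [ha]
    simp only
    rw [← map_pow, ← Pi.mulSingle_pow, ← ofAdd_nsmul, nsmul_eq_mul, mul_one]
  choose b0 hb0 using fun i => hsurj ((a i : φ.range) : A)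
  set b : ι → B := fun i => b0 i ^ (t * t') with hb
  have hbM : ∀ i, b i ^ (ℓ ^ E) = 1 := by
    intro i
    have h2 : b0 i ^ (ℓ ^ s * t) = 1 := by
      rw [← hB]
      exact pow_card_eq_one'
    rw [hb]
    simp only
    rw [← pow_mul, hE, pow_add ℓ s, show t * t' * (ℓ ^ s * ℓ ^ (∑ i, k i + 1 + m)) =
      (ℓ ^ s * t) * (t' * ℓ ^ (∑ i, k i + 1 + m)) by ring, pow_mul, h2, one_pow]
  have hαb : ∀ i, α (b i) = ((a i : φ.range) : A) := by
    intro i
    rw [hb]
    simp only
    rw [map_pow, hb0]
    have h2 : a i ^ (t * t') = a i := by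
      rw [hapow, ha]
      simp only
      congr 3
      have h3 : ((t * t' : ℕ) : ZMod (n i)) = ((1 : ℕ) : ZMod (n i)) := by
        rw [ZMod.natCast_eq_natCast_iff]
        apply Nat.ModEq.of_dvd (hnM i)
        have h5 : t * t' % (ℓ ^ E) = 1 := ht'
        unfold Nat.ModEq
        rw [h5, Nat.mod_eq_of_lt (Nat.one_lt_pow (by omega) hℓ.one_lt)]
      rw [h3, Nat.cast_one]
    have h4 := congrArg (fun x : φ.range => (x : A)) h2
    simpa using h4
  -- the characters
  set χ : (i : ι) → U → ZMod (n i) := fun i g =>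
    Multiplicative.toAdd (e (φ.rangeRestrict g) i) with hχ
  have hχc : ∀ i, IsChar (χ i) := by
    intro i
    refine ⟨fun σ τ => ?_, ?_⟩
    · rw [hχ]
      simp only
      rw [map_mul, map_mul, Pi.mul_apply, toAdd_mul]
    · have h2 : IsLocallyConstant (φ.rangeRestrict) := by
        apply lc_of_open_ker
        rw [MonoidHom.ker_rangeRestrict]
        exact hφ
      exact h2.comp (fun x => Multiplicative.toAdd (e x i))
  choose X hX hXχ using fun i =>
    haveI := hn0 i
    char_lift U (hnM i) hζ' (χ i) (hχc i)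
  obtain ⟨ψ, hψ, hψe⟩ := embed_list_q α hα hNU hcup (pow_dvd_pow ℓ (by omega : m ≤ E)) hker
    ((Finset.univ : Finset ι).toList.map (fun i => (b i, X i))) (by
      intro p hp
      rw [List.mem_map] at hp
      obtain ⟨i, -, rfl⟩ := hp
      exact ⟨hbM i, hX i⟩)
  refine ⟨ψ, open_ker_of_lc ψ hψ, fun g => ?_⟩
  rw [hψe, List.map_map]
  have h2 : ((Finset.univ : Finset ι).toList.map ((fun p : B × (U → ZMod (ℓ ^ E)) =>
      (α p.1) ^ (p.2 (Subgroup.inclusion hNU g)).val) ∘ fun i => (b i, X i))).prod =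
      ∏ i, (α (b i)) ^ (X i (Subgroup.inclusion hNU g)).val := by
    rw [← Finset.prod_map_toList]
    rfl
  rw [h2]
  have h3 : ∀ i, (α (b i)) ^ (X i (Subgroup.inclusion hNU g)).val =
      ((e.symm (Pi.mulSingle i (Multiplicative.ofAdd (χ i (Subgroup.inclusion hNU g)))) :
        φ.range) : A) := by
    intro i
    rw [hαb, ← hXχ i, ← hapow]
    rfl
  rw [Finset.prod_congr rfl fun i _ => h3 i]
  have h4 : ∏ i, ((e.symm (Pi.mulSingle i (Multiplicative.ofAdd
      (χ i (Subgroup.inclusion hNU g)))) : φ.range) : A) =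
      ((e.symm (∏ i, Pi.mulSingle i (Multiplicative.ofAdd
        (χ i (Subgroup.inclusion hNU g)))) : φ.range) : A) := by
    rw [map_prod]
    simp
  rw [h4, Finset.univ_prod_mulSingle]
  have h5 : (fun i => Multiplicative.ofAdd (χ i (Subgroup.inclusion hNU g))) =
      e (φ.rangeRestrict (Subgroup.inclusion hNU g)) := by
    funext i
    rw [hχ]
    simp
  rw [h5, MulEquiv.symm_apply_apply]
  rfl

end

end Pool.Agent.Bog
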