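import Mathlib

/-!
Characters with values in `ℤ/ℓ^m` that vanish on the common kernel of finitely many characters.
-/

set_option autoImplicit false
set_option linter.style.haveILetI false

namespace Pool.Agent.Bog

/-- homomorphism to `ZMod q` -/
def Hm {G : Type*} [Group G] {q : ℕ} (f : G → ZMod q) : Prop := ∀ g h, f (g * h) = f g + f h

section

variable {G : Type*} [Group G] {q : ℕ}

lemma Hm.one {f : G → ZMod q} (hf : Hm f) : f 1 = 0 := by
  have := hf 1 1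
  rw [mul_one] at this
  simpa using this

lemma Hm.inv {f : G → ZMod q} (hf : Hm f) (g : G) : f g⁻¹ = - f g := by
  have := hf g⁻¹ g
  rw [inv_mul_cancel, hf.one] at this
  exact eq_neg_of_add_eq_zero_left this.symm

lemma Hm.pow {f : G → ZMod q} (hf : Hm f) (g : G) (n : ℕ) : f (g ^ n) = (n : ZMod q) * f g := by
  induction n with
  | zero => rw [pow_zero, hf.one]; simp
  | succ n ih =>
    rw [pow_succ, hf, ih]
    push_cast
    ring

end

lemma unit_form {ℓ : ℕ} (hℓ : ℓ.Prime) (m : ℕ) (y : ZMod (ℓ ^ m)) :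
    ∃ a ≤ m, ∃ u : (ZMod (ℓ ^ m))ˣ, y = (ℓ : ZMod (ℓ ^ m)) ^ a * u := by
  haveI : NeZero ℓ := ⟨hℓ.ne_zero⟩
  by_cases hy : y = 0
  · refine ⟨m, le_rfl, 1, ?_⟩
    rw [hy, Units.val_one, mul_one, ← Nat.cast_pow, ZMod.natCast_self]
  · have hv : y.val ≠ 0 := by
      intro h
      exact hy ((ZMod.val_eq_zero y).mp h)
    obtain ⟨a, t, ht, hat⟩ := Nat.exists_eq_pow_mul_and_not_dvd hv ℓ hℓ.ne_one
    have hcop : t.Coprime (ℓ ^ m) := by
      apply Nat.Coprime.pow_right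
      rw [Nat.coprime_comm, Nat.Prime.coprime_iff_not_dvd hℓ]
      exact ht
    refine ⟨a, ?_, ZMod.unitOfCoprime t hcop, ?_⟩
    · by_contra h
      push Not at h
      have h1 : ℓ ^ m ∣ y.val := by
        rw [hat]
        exact (pow_dvd_pow ℓ h.le).mul_right t
      have h2 := Nat.le_of_dvd (Nat.pos_of_ne_zero hv) h1
      exact absurd (ZMod.val_lt y) (not_lt.mpr h2)
    · rw [ZMod.coe_unitOfCoprime, ← Nat.cast_pow, ← Nat.cast_mul, ← hat, ZMod.natCast_zmod_val]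

/-- one character -/
lemma span_one {ℓ : ℕ} (hℓ : ℓ.Prime) (m : ℕ) {G : Type*} [Group G] {f χ : G → ZMod (ℓ ^ m)}
    (hf : Hm f) (hχ : Hm χ) (h : ∀ g, f g = 0 → χ g = 0) : ∃ c, ∀ g, χ g = c * f g := by
  classical
  haveI : NeZero ℓ := ⟨hℓ.ne_zero⟩
  have hex : ∃ a, ∃ g : G, ∃ u : (ZMod (ℓ ^ m))ˣ, f g = (ℓ : ZMod (ℓ ^ m)) ^ a * u ∧ a ≤ m := by
    obtain ⟨a, ha, u, hu⟩ := unit_form hℓ m (f 1)
    exact ⟨a, 1, u, hu, ha⟩
  obtain ⟨g0, u0, hg0, ham⟩ := Nat.find_spec hex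
  set a0 := Nat.find hex with ha0
  have hmin : ∀ g : G, ∃ d : ZMod (ℓ ^ m), f g = d * f g0 := by
    intro g
    obtain ⟨a, ha, u, hu⟩ := unit_form hℓ m (f g)
    have hle : a0 ≤ a := Nat.find_min' hex ⟨g, u, hu, ha⟩
    refine ⟨(ℓ : ZMod (ℓ ^ m)) ^ (a - a0) * u * (u0⁻¹ : (ZMod (ℓ ^ m))ˣ), ?_⟩
    have h1 : (ℓ : ZMod (ℓ ^ m)) ^ a = (ℓ : ZMod (ℓ ^ m)) ^ (a - a0) * ℓ ^ a0 := by
      rw [← pow_add, Nat.sub_add_cancel hle]
    rw [hu, hg0, h1]
    have h2 : ((u0⁻¹ : (ZMod (ℓ ^ m))ˣ) : ZMod (ℓ ^ m)) * (u0 : ZMod (ℓ ^ m)) = 1 :=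
      Units.inv_mul u0
    linear_combination (-(ℓ : ZMod (ℓ ^ m)) ^ (a - a0) * ℓ ^ a0 * u) * h2
  -- the value at `g0`
  have hval : ∃ c, χ g0 = c * f g0 := by
    have h1 : f (g0 ^ (ℓ ^ (m - a0))) = 0 := by
      rw [hf.pow, hg0, ← mul_assoc]
      have : ((ℓ ^ (m - a0) : ℕ) : ZMod (ℓ ^ m)) * (ℓ : ZMod (ℓ ^ m)) ^ a0 = 0 := by
        rw [← Nat.cast_pow, ← Nat.cast_mul, ← pow_add, Nat.sub_add_cancel ham, ZMod.natCast_self]
      rw [this, zero_mul]
    have h2 := h _ h1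
    rw [hχ.pow] at h2
    have h3 : ((ℓ ^ (m - a0) * (χ g0).val : ℕ) : ZMod (ℓ ^ m)) = 0 := by
      rw [Nat.cast_mul, ZMod.natCast_zmod_val]
      exact h2
    rw [ZMod.natCast_eq_zero_iff] at h3
    have h4 : ℓ ^ a0 ∣ (χ g0).val := by
      have h5 : ℓ ^ (m - a0) * ℓ ^ a0 ∣ ℓ ^ (m - a0) * (χ g0).val := by
        rw [← pow_add, Nat.sub_add_cancel ham]
        exact h3
      exact Nat.dvd_of_mul_dvd_mul_left (pow_pos hℓ.pos _) h5
    obtain ⟨t, ht⟩ := h4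
    refine ⟨(t : ZMod (ℓ ^ m)) * (u0⁻¹ : (ZMod (ℓ ^ m))ˣ), ?_⟩
    have h5 : χ g0 = (ℓ : ZMod (ℓ ^ m)) ^ a0 * t := by
      rw [← ZMod.natCast_zmod_val (χ g0), ht]
      push_cast
      ring
    have h2 : ((u0⁻¹ : (ZMod (ℓ ^ m))ˣ) : ZMod (ℓ ^ m)) * (u0 : ZMod (ℓ ^ m)) = 1 :=
      Units.inv_mul u0
    rw [h5, hg0]
    linear_combination (-(ℓ : ZMod (ℓ ^ m)) ^ a0 * t) * h2
  obtain ⟨c, hc⟩ := hval
  refine ⟨c, fun g => ?_⟩
  obtain ⟨d, hd⟩ := hmin g
  have h1 : f (g * (g0 ^ d.val)⁻¹) = 0 := by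
    rw [hf, hf.inv, hf.pow, ZMod.natCast_zmod_val, hd]
    ring
  have h2 := h _ h1
  rw [hχ, hχ.inv, hχ.pow, ZMod.natCast_zmod_val, hc] at h2
  rw [hd]
  linear_combination h2

/-- finitely many characters -/
theorem span_fin {ℓ : ℕ} (hℓ : ℓ.Prime) (m : ℕ) (r : ℕ) : ∀ {G : Type*} [Group G]
    (f : Fin r → G → ZMod (ℓ ^ m)) (χ : G → ZMod (ℓ ^ m)), (∀ i, Hm (f i)) → Hm χ →
    (∀ g, (∀ i, f i g = 0) → χ g = 0) → ∃ b : Fin r → ZMod (ℓ ^ m), ∀ g, χ g = ∑ i, b i * f i g := by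
  induction r with
  | zero =>
    intro G _ f χ hf hχ h
    refine ⟨fun _ => 0, fun g => ?_⟩
    rw [h g (fun i => i.elim0)]
    simp
  | succ r ih =>
    intro G _ f χ hf hχ h
    let G' : Subgroup G :=
      { carrier := {g | f (Fin.last r) g = 0}
        one_mem' := (hf _).one
        mul_mem' := by
          intro a b ha hb
          change f (Fin.last r) (a * b) = 0
          rw [hf, (show f (Fin.last r) a = 0 from ha), (show f (Fin.last r) b = 0 from hb),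
            add_zero]
        inv_mem' := by
          intro a ha
          change f (Fin.last r) a⁻¹ = 0
          rw [(hf _).inv, (show f (Fin.last r) a = 0 from ha), neg_zero] }
    obtain ⟨b, hb⟩ := ih (G := G') (fun i g => f i.castSucc g) (fun g => χ g)
      (fun i g h => hf _ _ _) (fun g h => hχ _ _) (by
        intro g hg
        apply h
        intro i
        refine Fin.lastCases ?_ (fun i => hg i) i
        exact g.2)
    have hχ' : Hm (fun g => χ g - ∑ i : Fin r, b i * f i.castSucc g) := by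
      intro g g'
      simp only
      rw [hχ, Finset.sum_congr rfl (fun i _ => by rw [hf i.castSucc g g', mul_add]),
        Finset.sum_add_distrib]
      ring
    obtain ⟨c, hc⟩ := span_one hℓ m (hf (Fin.last r)) hχ' (by
      intro g hg
      have := hb ⟨g, hg⟩
      simp only at this ⊢
      rw [this, sub_self])
    refine ⟨fun i => Fin.lastCases c (fun i => b i) i, fun g => ?_⟩
    rw [Fin.sum_univ_castSucc]
    simp only [Fin.lastCases_castSucc, Fin.lastCases_last]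
    have := hc g
    rw [← this]
    ring

end Pool.Agent.Bog
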