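import Pool.Agent.Bog.Emb3
import Pool.Agent.Bog.Class
import Pool.Agent.Bog.Span

/-!
Central embedding problems with abelian quotient for homomorphisms that factor through the field
generated by `ℓ`-power roots of classical elements `1 - ξ`.
-/

set_option autoImplicit false
set_option linter.unusedVariables false
set_option linter.unusedSectionVars false
set_option linter.style.haveILetI false

namespace Pool.Agent.Bog

open IntermediateField

/-! ### The list form -/

section Lst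

variable {G : Type*} [Group G] [TopologicalSpace G] {M : ℕ} [NeZero M]

/-- character of a topological group -/
def IsCh (χ : G → ZMod M) : Prop := (∀ σ τ, χ (σ * τ) = χ σ + χ τ) ∧ IsLocallyConstant χ

/-- the cup product of two functions is a coboundary -/
def Cz (χ χ' : G → ZMod M) : Prop := ∃ ψ : G → ZMod M, IsLocallyConstant ψ ∧
  ∀ σ τ : G, χ σ * χ' τ = ψ σ + ψ τ - ψ (σ * τ)

lemma exists_zz {C : Type*} [CommGroup C] (X : G → ZMod M) (D : Subgroup C)
    (L : List (C × (G → ZMod M)))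
    (hL : ∀ p ∈ L, p.1 ^ M = 1 ∧ p.1 ∈ D ∧ Cz X p.2) :
    ∃ z : G → C, IsLocallyConstant z ∧ (∀ g, z g ∈ D) ∧ ∀ g h : G, z (g * h) = z g * z h *
      (L.map (fun p => p.1 ^ (X g * p.2 h).val)).prod := by
  induction L with
  | nil =>
    exact ⟨fun _ => 1, IsLocallyConstant.const 1, fun _ => D.one_mem, fun g h => by simp⟩
  | cons p L ih =>
    obtain ⟨z, hz, hzD, hze⟩ := ih (fun q hq => hL q (List.mem_cons_of_mem p hq))
    obtain ⟨hp1, hp3, ψ, hψ, hψe⟩ := hL p List.mem_cons_self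
    refine ⟨fun g => z g * p.1 ^ (- ψ g).val, ?_, fun g => D.mul_mem (hzD g) (D.pow_mem hp3 _),
      fun g h => ?_⟩
    · exact hz.mul (hψ.comp (fun y => p.1 ^ (-y).val))
    · simp only [List.map_cons, List.prod_cons]
      rw [hze, hψe g h, sub_eq_add_neg, pow_val_add hp1, pow_val_add hp1, pow_val_neg hp1,
        pow_val_neg hp1, pow_val_neg hp1]
      have e : ∀ a b c u v w r : C, a * b * r * w⁻¹ = a * u⁻¹ * (b * v⁻¹) * (u * v * w⁻¹ * r) := by
        intro a b c u v w r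
        rw [mul_comm (a * u⁻¹ * (b * v⁻¹))]
        have : u * v * w⁻¹ * r * (a * u⁻¹ * (b * v⁻¹)) =
            (u * u⁻¹) * (v * v⁻¹) * (a * b * r * w⁻¹) := by
          ac_rfl
        rw [this, mul_inv_cancel, mul_inv_cancel, one_mul, one_mul]
      exact e _ _ 1 _ _ _ _

/-- the list form of the embedding problem -/
lemma embed_listz {A B : Type*} [CommGroup A] [Group B] (α : B →* A)
    (hα : α.ker ≤ Subgroup.center B)
    (L : List (B × (G → ZMod M))) (hL : ∀ p ∈ L, p.1 ^ M = 1 ∧ IsCh p.2)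
    (hcup : ∀ p ∈ L, ∀ p' ∈ L, Cz p.2 p'.2) :
    ∃ ψ : G →* B, IsLocallyConstant ψ ∧ ∀ g : G, α (ψ g) =
      (L.map (fun p => (α p.1) ^ (p.2 g).val)).prod := by
  induction L with
  | nil =>
    exact ⟨1, IsLocallyConstant.const 1, fun g => by simp⟩
  | cons p L ih =>
    obtain ⟨ψ', hψ', hψe⟩ := ih (fun q hq => hL q (List.mem_cons_of_mem p hq))
      (fun q hq q' hq' => hcup q (List.mem_cons_of_mem p hq) q' (List.mem_cons_of_mem p hq'))
    obtain ⟨hp1, hp2⟩ := hL p List.mem_cons_self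
    have hpc := fun q (hq : q ∈ L) => hcup p List.mem_cons_self q (List.mem_cons_of_mem p hq)
    obtain ⟨b, X⟩ := p
    simp only at hp1 hp2 hpc
    -- the list of commutators
    set D : Subgroup (Subgroup.center B) := α.ker.comap (Subgroup.center B).subtype with hD
    set L' : List (Subgroup.center B × (G → ZMod M)) :=
      L.map (fun q => (cm α hα b q.1, q.2)) with hL'
    have hLp : ∀ q ∈ L', q.1 ^ M = 1 ∧ q.1 ∈ D ∧ Cz X q.2 := by
      intro q hq
      rw [hL', List.mem_map] at hq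
      obtain ⟨r, hr, rfl⟩ := hq
      obtain ⟨hr1, hr2⟩ := hL r (List.mem_cons_of_mem _ hr)
      refine ⟨?_, cm_mem_ker α hα b r.1, hpc r hr⟩
      rw [← map_pow, hr1, map_one]
    obtain ⟨z, hz, hzD, hze⟩ := exists_zz X D L' hLp
    -- the commutator of `b` with `ψ' h`
    have hγ : ∀ h : G, cm α hα b (ψ' h) =
        (L.map (fun q => (cm α hα b q.1) ^ (q.2 h).val)).prod := by
      intro h
      have h1 : α (ψ' h) =
          α ((L.map (fun q => q.1 ^ (q.2 h).val)).prod) := by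
        rw [hψe, map_list_prod, List.map_map]
        congr 1
        apply List.map_congr_left
        intro q _
        simp
      rw [cm_congr α hα b _ _ h1, map_list_prod, List.map_map]
      congr 1
      apply List.map_congr_left
      intro q _
      simp
    have hkey : ∀ g h : G, z (g * h) = z g * z h *
        (cm α hα b (ψ' h)) ^ (X g).val := by
      intro g h
      rw [hze, hγ, hL', List.map_map]
      congr 1
      have hgen : ∀ (L0 : List (B × (G → ZMod M))) (hL0 : ∀ q ∈ L0, q.1 ^ M = 1),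
          (L0.map ((fun p : Subgroup.center B × (G → ZMod M) =>
            p.1 ^ (X g * p.2 h).val) ∘ fun q => (cm α hα b q.1, q.2))).prod =
          ((L0.map (fun q => (cm α hα b q.1) ^ (q.2 h).val)).prod) ^ (X g).val := by
        intro L0
        induction L0 with
        | nil => intro _; simp
        | cons q L0 ih0 =>
          intro hL0
          rw [List.map_cons, List.prod_cons, List.map_cons, List.prod_cons, mul_pow,
            ih0 (fun r hr => hL0 r (List.mem_cons_of_mem _ hr))]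
          congr 1
          simp only [Function.comp_apply]
          apply pow_val_mul
          rw [← map_pow, hL0 q List.mem_cons_self, map_one]
      exact hgen L (fun q hq => (hL q (List.mem_cons_of_mem _ hq)).1)
    -- the homomorphism
    have hmul : ∀ g h : G,
        ψ' (g * h) * b ^ (X (g * h)).val * (z (g * h) : B) =
        (ψ' g * b ^ (X g).val * (z g : B)) *
        (ψ' h * b ^ (X h).val * (z h : B)) := by
      intro g h
      rw [hp2.1 g h, pow_val_add hp1, hkey g h, map_mul]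
      have hs := swap α hα (b ^ (X g).val) (ψ' h)
      rw [cm_pow_left] at hs
      set x := (X g).val with hx
      set y := (X h).val with hy
      set c : Subgroup.center B := cm α hα b (ψ' h) ^ x with hc
      have hcen : ∀ (u : Subgroup.center B) (v : B), v * (u : B) = (u : B) * v := fun u v =>
        (Subgroup.mem_center_iff.mp u.2) v
      calc ψ' g * ψ' h * (b ^ x * b ^ y) * ((z g * z h * c : Subgroup.center B) : B)
          = ψ' g * ((c : B) * ψ' h * b ^ x) * b ^ y * (z g : B) * (z h : B) := by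
            have h1 : ((z g * z h * c : Subgroup.center B) : B) = (z g : B) * (z h : B) * (c : B) :=
              rfl
            rw [h1]
            have h2 : (z g : B) * (z h : B) * (c : B) = (c : B) * ((z g : B) * (z h : B)) :=
              hcen c _
            rw [h2]
            have h3 : ψ' g * ψ' h * (b ^ x * b ^ y) * (c : B) =
                (c : B) * (ψ' g * ψ' h * (b ^ x * b ^ y)) := hcen c _
            have h4 : ψ' g * ((c : B) * ψ' h * b ^ x) * b ^ y =
                (c : B) * (ψ' g * ψ' h * (b ^ x * b ^ y)) := by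
              have := hcen c (ψ' g)
              calc ψ' g * ((c : B) * ψ' h * b ^ x) * b ^ y
                  = (ψ' g * (c : B)) * (ψ' h * (b ^ x * b ^ y)) := by group
                _ = ((c : B) * ψ' g) * (ψ' h * (b ^ x * b ^ y)) := by rw [this]
                _ = _ := by group
            rw [h4, ← h3]
            group
        _ = ψ' g * (b ^ x * ψ' h) * b ^ y * (z g : B) * (z h : B) := by rw [hs]
        _ = (ψ' g * b ^ x * (z g : B)) * (ψ' h * b ^ y * (z h : B)) := by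
            have h5 : ψ' h * b ^ y * (z g : B) = (z g : B) * (ψ' h * b ^ y) := hcen _ _
            calc ψ' g * (b ^ x * ψ' h) * b ^ y * (z g : B) * (z h : B)
                = ψ' g * b ^ x * (ψ' h * b ^ y * (z g : B)) * (z h : B) := by group
              _ = ψ' g * b ^ x * ((z g : B) * (ψ' h * b ^ y)) * (z h : B) := by rw [h5]
              _ = _ := by group
    refine ⟨MonoidHom.mk' (fun g => ψ' g * b ^ (X g).val * (z g : B)) hmul, ?_, ?_⟩
    · have h1 := hψ'.prodMk (hp2.2.prodMk hz)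
      exact h1.comp (fun q : B × ZMod M × Subgroup.center B =>
        q.1 * b ^ q.2.1.val * (q.2.2 : B))
    · intro g
      change α (ψ' g * b ^ (X g).val * (z g : B)) = _
      have h1 : α (z g : B) = 1 := hzD g
      rw [map_mul, map_mul, h1, mul_one, map_pow, hψe, List.map_cons, List.prod_cons, mul_comm]

end Lst

/-! ### Classical elements up to `ℓ`-powers -/

section RC

variable {K Ω : Type*} [Field K] [Field Ω] [Algebra K Ω] [Algebra.IsAlgebraic K Ω]
  [IsAlgClosed Ω]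

/-- the monoid generated by the elements `1 - ξ`, `ξ ≠ 1` an `ℓ`-power root of a nonzero element
of the fixed field of `P` -/
def Cl (P : Subgroup (Ω ≃ₐ[K] Ω)) (ℓ : ℕ) : Submonoid Ω :=
  Submonoid.closure {x | ∃ ξ, IsD P ℓ ξ ∧ ξ ≠ 1 ∧ x = 1 - ξ}

/-- the standing hypotheses -/
structure Ctx (ℓ : ℕ) (P N : Subgroup (Ω ≃ₐ[K] Ω)) (c : ℕ → ℕ) : Prop where
  hℓ : ℓ.Prime
  hroots : ∀ m : ℕ, ∃ ζ : K, IsPrimitiveRoot ζ (ℓ ^ m)
  hN : N ≤ (⁅P, P⁆).topologicalClosure
  hsp : ∀ g ∈ P, ∀ x : Ω, ∃ n, (g ^ (ℓ ^ n)) x = x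
  hNP : N ≤ P
  hc : Function.Injective c
  hcop : ∀ j, (c j).Coprime ℓ
  hcω : ∀ j, ∃ ω : K, IsPrimitiveRoot ω (c j)

variable {N P : Subgroup (Ω ≃ₐ[K] Ω)} {ℓ : ℕ} {c : ℕ → ℕ}

lemma Cl.mem_fixed (hX : Ctx ℓ P N c) {x : Ω} (hx : x ∈ Cl P ℓ) :
    x ∈ fixedField N ∧ x ≠ 0 := by
  haveI : NeZero ℓ := ⟨hX.hℓ.ne_zero⟩
  unfold Cl at hx
  induction hx using Submonoid.closure_induction with
  | mem x hx =>
    obtain ⟨ξ, hξ, hξ1, rfl⟩ := hx
    exact ⟨(fixedField N).sub_mem (fixedField N).one_mem (hξ.fixed hX.hroots hX.hN),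
      sub_ne_zero.mpr (Ne.symm hξ1)⟩
  | one => exact ⟨(fixedField N).one_mem, one_ne_zero⟩
  | mul x y _ _ h1 h2 => exact ⟨(fixedField N).mul_mem h1.1 h2.1, mul_ne_zero h1.2 h2.2⟩

lemma Cl.symbol_zero (hX : Ctx ℓ P N c) (m : ℕ) [NeZero (ℓ ^ m)] {ζ : K}
    (hζ : IsPrimitiveRoot ζ (ℓ ^ m)) {x y : Ω} (hx : x ∈ Cl P ℓ) (hy : y ∈ Cl P ℓ) :
    sN N (ℓ ^ m) ζ x y = 0 := by
  have hs := sN_symb (Ω := Ω) N hζ
  have hy' := Cl.mem_fixed hX hy
  unfold Cl at hx
  induction hx using Submonoid.closure_induction with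
  | mem x hx =>
    obtain ⟨ξ, hξ, hξ1, rfl⟩ := hx
    have hx' := Cl.mem_fixed hX (Submonoid.subset_closure ⟨ξ, hξ, hξ1, rfl⟩ : (1 - ξ) ∈ Cl P ℓ)
    clear hy'
    unfold Cl at hy
    induction hy using Submonoid.closure_induction with
    | mem y hy =>
      obtain ⟨η, hη, hη1, rfl⟩ := hy
      exact classical_symbol hX.hℓ hX.hroots hX.hN hX.hsp hX.hc hX.hcop hX.hcω hξ hη hξ1 hη1 m hζ
    | one => exact hs.one_right hx'.1 hx'.2
    | mul y y' hy hy' h1 h2 =>
      have h3 := Cl.mem_fixed hX (show y ∈ Cl P ℓ from hy)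
      have h4 := Cl.mem_fixed hX (show y' ∈ Cl P ℓ from hy')
      rw [hs.mul_right _ _ _ hx'.1 h3.1 h4.1 hx'.2 h3.2 h4.2, h1, h2, add_zero]
  | one => exact hs.one_left hy'.1 hy'.2
  | mul x x' hx hx' h1 h2 =>
    have h3 := Cl.mem_fixed hX (show x ∈ Cl P ℓ from hx)
    have h4 := Cl.mem_fixed hX (show x' ∈ Cl P ℓ from hx')
    rw [hs.mul_left _ _ _ h3.1 h4.1 hy'.1 h3.2 h4.2 hy'.2, h1, h2, add_zero]

/-- symbols of elements that are classical up to `ℓ`-powers vanish -/
lemma rc_zero (hX : Ctx ℓ P N c) (E : ℕ) [NeZero (ℓ ^ E)] {ζ : K}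
    (hζ : IsPrimitiveRoot ζ (ℓ ^ E)) {u u' : Ω} (hu : u ∈ fixedField N) (hu' : u' ∈ fixedField N)
    (hu0 : u ≠ 0) (hu0' : u' ≠ 0) {e e' : ℕ} (he : u ^ (ℓ ^ e) ∈ Cl P ℓ)
    (he' : u' ^ (ℓ ^ e') ∈ Cl P ℓ) : sN N (ℓ ^ E) ζ u u' = 0 := by
  haveI : NeZero ℓ := ⟨hX.hℓ.ne_zero⟩
  haveI i1 : NeZero (ℓ ^ (e + e')) := inferInstance
  haveI i2 : NeZero (ℓ ^ (e + e' + E)) := inferInstance
  haveI i3 : NeZero (ℓ ^ (e + e') * ℓ ^ E) := ⟨mul_ne_zero (NeZero.ne _) (NeZero.ne _)⟩
  obtain ⟨ζ', hζ'⟩ := hX.hroots (e + e' + E)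
  have hs := sN_symb (Ω := Ω) N hζ'
  have hpl : ∀ (n : ℕ) {x y : Ω}, x ∈ fixedField N → y ∈ fixedField N → x ≠ 0 → y ≠ 0 →
      sN N (ℓ ^ (e + e' + E)) ζ' (x ^ n) y = n • sN N (ℓ ^ (e + e' + E)) ζ' x y := by
    intro n x y hx hy hx0 hy0
    induction n with
    | zero => rw [pow_zero, hs.one_left hy hy0, zero_smul]
    | succ n ih =>
      rw [pow_succ, hs.mul_left _ _ _ (pow_mem hx n) hx hy (pow_ne_zero n hx0) hx0 hy0, ih,
        succ_nsmul]
  have hpr : ∀ (n : ℕ) {x y : Ω}, x ∈ fixedField N → y ∈ fixedField N → x ≠ 0 → y ≠ 0 →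
      sN N (ℓ ^ (e + e' + E)) ζ' x (y ^ n) = n • sN N (ℓ ^ (e + e' + E)) ζ' x y := by
    intro n x y hx hy hx0 hy0
    induction n with
    | zero => rw [pow_zero, hs.one_right hx hx0, zero_smul]
    | succ n ih =>
      rw [pow_succ, hs.mul_right _ _ _ hx (pow_mem hy n) hy hx0 (pow_ne_zero n hy0) hy0, ih,
        succ_nsmul]
  have h1 := Cl.symbol_zero hX (e + e' + E) hζ' he he'
  rw [hpl _ hu (pow_mem hu' _) hu0 (pow_ne_zero _ hu0'), hpr _ hu hu' hu0 hu0', smul_smul,
    ← pow_add] at h1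
  have hkm : ∀ (n : ℕ) (hn : n = ℓ ^ (e + e' + E)) [NeZero n],
      ℓ ^ (e + e') • sN N n ζ' u u' = 0 := by
    intro n hn _
    subst hn
    exact h1
  have hζn : IsPrimitiveRoot ζ' (ℓ ^ (e + e') * ℓ ^ E) := by rw [← pow_add]; exact hζ'
  have h2 := lift_symbol N (c := ℓ ^ (e + e')) (n := ℓ ^ E) (ζ' := ζ') hζn hu hu' hu0 hu0'
    (hkm _ (pow_add ℓ (e + e') E).symm)
  have hζ₂ : IsPrimitiveRoot (ζ' ^ (ℓ ^ (e + e'))) (ℓ ^ E) :=
    hζ'.pow (Nat.pos_of_ne_zero (NeZero.ne _)) (pow_add ℓ (e + e') E)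
  exact sN_root_indep N hζ hζ₂ hu hu' hu0 hu0' h2

end RC

end Pool.Agent.Bog
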