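import Pool.Agent.Bog.Emb5

/-!
The standing hypotheses for a Sylow subgroup over an algebraically closed field.
-/

set_option autoImplicit false
set_option linter.unusedVariables false
set_option linter.unusedSectionVars false
set_option linter.style.haveILetI false

namespace Pool.Agent.Bog

open IntermediateField

/-- integers prime to `ℓ` and to the characteristic -/
def cseq (ℓ p : ℕ) (j : ℕ) : ℕ := 1 + ℓ * (if p = 0 then 1 else p) * j

lemma cseq_inj {ℓ p : ℕ} (hℓ : 0 < ℓ) : Function.Injective (cseq ℓ p) := by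
  intro a b h
  unfold cseq at h
  have h1 : ℓ * (if p = 0 then 1 else p) * a = ℓ * (if p = 0 then 1 else p) * b := by omega
  have h2 : 0 < ℓ * (if p = 0 then 1 else p) := by
    apply Nat.mul_pos hℓ
    split_ifs
    · exact one_pos
    · omega
  exact Nat.eq_of_mul_eq_mul_left h2 h1

lemma cseq_coprime (ℓ p j : ℕ) : (cseq ℓ p j).Coprime ℓ := by
  unfold cseq
  rw [mul_assoc, Nat.coprime_add_mul_left_left]
  exact Nat.coprime_one_left ℓ

lemma cseq_root {k K : Type*} [Field k] [IsAlgClosed k] [Field K] [Algebra k K] (ℓ j : ℕ) :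
    ∃ ω : K, IsPrimitiveRoot ω (cseq ℓ (ringChar k) j) := by
  haveI : NeZero ((cseq ℓ (ringChar k) j : ℕ) : k) := by
    refine ⟨fun h => ?_⟩
    have h1 : ringChar k ∣ cseq ℓ (ringChar k) j := ringChar.dvd h
    by_cases h0 : ringChar k = 0
    · rw [h0, zero_dvd_iff] at h1
      unfold cseq at h1
      omega
    · unfold cseq at h1
      rw [if_neg h0] at h1
      have h2 : ringChar k ∣ ℓ * ringChar k * j := ⟨ℓ * j, by ring⟩
      have h3 : ringChar k ∣ 1 := (Nat.dvd_add_left h2).mp h1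
      exact CharP.ringChar_ne_one (Nat.dvd_one.mp h3)
  haveI := IsSepClosed.hasEnoughRootsOfUnity k (cseq ℓ (ringChar k) j)
  obtain ⟨ζ, hζ⟩ := HasEnoughRootsOfUnity.exists_primitiveRoot k (cseq ℓ (ringChar k) j)
  exact ⟨algebraMap k K ζ, hζ.map_of_injective (algebraMap k K).injective⟩

lemma ctx_of_syl {k K Ω : Type*} [Field k] [IsAlgClosed k] [Field K] [Algebra k K] [Field Ω]
    [Algebra K Ω] [Algebra.IsAlgebraic K Ω] [IsAlgClosed Ω] {ℓ : ℕ} (hℓ : ℓ.Prime)
    (hk : ringChar k ≠ ℓ) {P : Subgroup (Ω ≃ₐ[K] Ω)} (hPc : IsClosed (P : Set (Ω ≃ₐ[K] Ω)))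
    (hP : IsSyl ℓ P) : Ctx ℓ P (dP P) (cseq ℓ (ringChar k)) where
  hℓ := hℓ
  hroots := roots_of_algClosed (k := k) hℓ hk
  hN := le_rfl
  hsp := sp_of_syl hP
  hNP := dP_le hPc
  hc := cseq_inj hℓ.pos
  hcop := cseq_coprime ℓ (ringChar k)
  hcω := cseq_root (k := k) ℓ

/-- the theorem in terms of roots of `1 - ξ` -/
theorem embed_roots {K Ω : Type*} [Field K] [Field Ω] [Algebra K Ω] [Algebra.IsAlgebraic K Ω]
    [IsAlgClosed Ω] {N P : Subgroup (Ω ≃ₐ[K] Ω)} {ℓ : ℕ} {c : ℕ → ℕ} (hX : Ctx ℓ P N c)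
    {A B : Type*} [CommGroup A] [Group B] [Finite B]
    (α : B →* A) (hsurj : Function.Surjective α) (hα : α.ker ≤ Subgroup.center B) {r : ℕ}
    (ξ ρ : Fin r → Ω) {n m : ℕ} (hξ : ∀ i, ∀ g ∈ P, g (ξ i ^ ℓ ^ n) = ξ i ^ ℓ ^ n)
    (hρ : ∀ i, ρ i ^ ℓ ^ m = 1 - ξ i)
    (φ : N →* A) (hφ : ∀ g : N, (∀ i, (g : Ω ≃ₐ[K] Ω) (ρ i) = ρ i) → φ g = 1) :
    ∃ ψ : N →* B, IsOpen (ψ.ker : Set N) ∧ ∀ g : N, α (ψ g) = φ g := by
  classical
  haveI : NeZero ℓ := ⟨hX.hℓ.ne_zero⟩
  set ρ' : Fin r → Ω := fun i => if ξ i = 0 ∨ ξ i = 1 then 1 else ρ i with hρ'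
  apply embed_classical hX α hsurj hα ρ' (m := m) _ _ φ
  · intro g hg
    apply hφ
    intro i
    have h1 := hg i
    rw [hρ'] at h1
    simp only at h1
    split_ifs at h1 with h2
    · rcases h2 with h2 | h2
      · have h3 : ρ i ^ ℓ ^ m = 1 := by rw [hρ, h2, sub_zero]
        obtain ⟨ζ, hζ⟩ := hX.hroots m
        exact (mem_fx.mp (root_one_mem hζ h3 N)) g g.2
      · have h3 : ρ i ^ ℓ ^ m = 0 := by rw [hρ, h2, sub_self]
        have h4 : ρ i = 0 := (pow_eq_zero_iff (NeZero.ne _)).mp h3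
        rw [h4, map_zero]
    · exact h1
  · intro i
    rw [hρ']
    simp only
    split_ifs with h2
    · exact one_ne_zero
    · intro h3
      have h4 := hρ i
      rw [h3, zero_pow (NeZero.ne _)] at h4
      apply h2
      right
      exact (sub_eq_zero.mp h4.symm).symm
  · intro i
    rw [hρ']
    simp only
    split_ifs with h2
    · rw [one_pow]
      exact Submonoid.one_mem _
    · push Not at h2
      rw [hρ]
      apply Submonoid.subset_closure
      exact ⟨ξ i, ⟨h2.1, n, mem_fx.mpr (hξ i)⟩, h2.2, rfl⟩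

end Pool.Agent.Bog
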