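import Pool.Agent.Bog.Fin

/-!
Cyclic layers of order four, `ℓ = 2`, odd characteristic.
-/

set_option autoImplicit false
set_option linter.unusedVariables false
set_option linter.unusedSectionVars false
set_option linter.style.haveILetI false

namespace Pool.Agent.Bog

open IntermediateField

section Gd

variable {K Ω : Type*} [Field K] [Field Ω] [Algebra K Ω]

/-- the elements generated by the `ℓ`-power roots `ξ` of elements fixed by `P` and the `1 - ξ` -/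
inductive Gd (P : Subgroup (Ω ≃ₐ[K] Ω)) (ℓ : ℕ) : Ω → Prop
  | root {x : Ω} (h : IsD P ℓ x) : Gd P ℓ x
  | one_sub {x : Ω} (h : IsD P ℓ x) (h1 : x ≠ 1) : Gd P ℓ (1 - x)
  | mul {x y : Ω} (hx : Gd P ℓ x) (hy : Gd P ℓ y) : Gd P ℓ (x * y)
  | inv {x : Ω} (hx : Gd P ℓ x) : Gd P ℓ x⁻¹

variable [Algebra.IsAlgebraic K Ω] [IsAlgClosed Ω] {N P : Subgroup (Ω ≃ₐ[K] Ω)} {ℓ : ℕ} {c : ℕ → ℕ}

lemma IsD.ground {b : Ω} (hb : b ∈ fixedField P) (hb0 : b ≠ 0) : IsD P ℓ b :=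
  ⟨hb0, 0, by rw [pow_zero, pow_one]; exact hb⟩

lemma Gd.mem_fixed (hX : Ctx ℓ P N c) {x : Ω} (hx : Gd P ℓ x) : x ∈ fixedField N ∧ x ≠ 0 := by
  haveI : NeZero ℓ := ⟨hX.hℓ.ne_zero⟩
  induction hx with
  | root h => exact ⟨h.fixed hX.hroots hX.hN, h.1⟩
  | one_sub h h1 => exact ⟨(fixedField N).sub_mem (fixedField N).one_mem (h.fixed hX.hroots hX.hN),
      sub_ne_zero.mpr (Ne.symm h1)⟩
  | mul _ _ h1 h2 => exact ⟨(fixedField N).mul_mem h1.1 h2.1, mul_ne_zero h1.2 h2.2⟩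
  | inv _ h => exact ⟨(fixedField N).inv_mem h.1, inv_ne_zero h.2⟩

lemma Gd.symbol_zero (hX : Ctx ℓ P N c) (m : ℕ) [NeZero (ℓ ^ m)] {ζ : K}
    (hζ : IsPrimitiveRoot ζ (ℓ ^ m)) {x y : Ω} (hx : Gd P ℓ x) (hy : Gd P ℓ y) :
    sN N (ℓ ^ m) ζ x y = 0 := by
  haveI : NeZero ℓ := ⟨hX.hℓ.ne_zero⟩
  have hs := sN_symb (Ω := Ω) N hζ
  have hy' := Gd.mem_fixed hX hy
  induction hx with
  | root h => exact h.symbol_zero hX.hroots hX.hN rfl hζ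
  | one_sub h h1 =>
    rename_i ξ
    have hx' := Gd.mem_fixed hX (Gd.one_sub h h1)
    clear hy'
    induction hy with
    | root h' =>
      have h2 := Gd.mem_fixed hX (Gd.root h')
      have h3 := hs.skew h2.1 hx'.1 h2.2 hx'.2
      rwa [h'.symbol_zero hX.hroots hX.hN rfl hζ, zero_add] at h3
    | one_sub h' h1' =>
      exact classical_symbol hX.hℓ hX.hroots hX.hN hX.hsp hX.hc hX.hcop hX.hcω h h' h1 h1' m hζ
    | mul hy hy' h2 h3 =>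
      have h4 := Gd.mem_fixed hX hy
      have h5 := Gd.mem_fixed hX hy'
      rw [hs.mul_right _ _ _ hx'.1 h4.1 h5.1 hx'.2 h4.2 h5.2, h2, h3, add_zero]
    | inv hy h2 =>
      have h4 := Gd.mem_fixed hX hy
      rw [hs.inv_right h4.1 hx'.1 h4.2 hx'.2, h2, neg_zero]
  | mul hx hx' h1 h2 =>
    have h3 := Gd.mem_fixed hX hx
    have h4 := Gd.mem_fixed hX hx'
    rw [hs.mul_left _ _ _ h3.1 h4.1 hy'.1 h3.2 h4.2 hy'.2, h1, h2, add_zero]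
  | inv hx h1 =>
    have h3 := Gd.mem_fixed hX hx
    rw [hs.inv_left h3.1 hy'.1 h3.2 hy'.2, h1, neg_zero]

lemma Gd.sub {ξ b : Ω} (hξ : IsD P ℓ ξ) (hb : b ∈ fixedField P) (h : ξ - b ≠ 0) :
    Gd P ℓ (ξ - b) := by
  by_cases hb0 : b = 0
  · subst hb0
    rw [sub_zero]
    exact Gd.root hξ
  · have e : ξ - b = (-b) * (1 - ξ * b⁻¹) := by
      field_simp
      ring
    rw [e]
    refine Gd.mul (Gd.root (IsD.ground ((fixedField P).neg_mem hb) (neg_ne_zero.mpr hb0)))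
      (Gd.one_sub ?_ ?_)
    · obtain ⟨h0, n, hn⟩ := hξ
      refine ⟨mul_ne_zero h0 (inv_ne_zero hb0), n, ?_⟩
      rw [mul_pow]
      exact (fixedField P).mul_mem hn (pow_mem ((fixedField P).inv_mem hb) _)
    · intro h1
      apply h
      rw [e, h1, sub_self, mul_zero]

lemma Gd.prod {ι : Type*} (R : Multiset ι) (f : ι → Ω) (h : ∀ r ∈ R, Gd P ℓ (f r)) :
    Gd P ℓ (R.map f).prod := by
  induction R using Multiset.induction_on with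
  | empty =>
    rw [Multiset.map_zero, Multiset.prod_zero]
    exact Gd.root (IsD.ground (fixedField P).one_mem one_ne_zero)
  | cons r R ih =>
    rw [Multiset.map_cons, Multiset.prod_cons]
    exact Gd.mul (h r (Multiset.mem_cons_self r R))
      (ih (fun a ha => h a (Multiset.mem_cons_of_mem ha)))

end Gd

section Symb

variable {K Ω : Type*} [Field K] [Field Ω] [Algebra K Ω] {A : Type*} [AddCommGroup A]
  {E : IntermediateField K Ω} {s : Ω → Ω → A}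

/-- the Steinberg relation for `x`, `y`, `x - y`, modulo `-1` -/
lemma IsSymb.sub_rel (hs : IsSymb E s) (hm : ∀ b, b ∈ E → b ≠ 0 → s b (-1) = 0) {x y : Ω}
    (hx : x ∈ E) (hy : y ∈ E) (hx0 : x ≠ 0) (hy0 : y ≠ 0) (hxy : x - y ≠ 0) :
    s x y = s x (x - y) + s (x - y) y := by
  set d : Ω := x - y with hd
  have hdE : d ∈ E := E.sub_mem hx hy
  have hm1 : (-1 : Ω) ∈ E := E.neg_mem E.one_mem
  have hm0 : (-1 : Ω) ≠ 0 := by simp
  have hneg : ∀ a b : Ω, a ∈ E → b ∈ E → a ≠ 0 → b ≠ 0 → s a (-b) = s a b := by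
    intro a b ha hb ha0 hb0
    have e : -b = (-1) * b := by ring
    rw [e, hs.mul_right _ _ _ ha hm1 hb ha0 hm0 hb0, hm a ha ha0, zero_add]
  have hdi : d⁻¹ ∈ E := E.inv_mem hdE
  have hdi0 : d⁻¹ ≠ 0 := inv_ne_zero hxy
  have h1 : 1 - x * d⁻¹ = (-y) * d⁻¹ := by
    rw [eq_mul_inv_iff_mul_eq₀ hxy, sub_mul, mul_assoc, inv_mul_cancel₀ hxy, hd]
    ring
  have hne : x * d⁻¹ ≠ 1 := by
    intro h
    rw [h, sub_self] at h1
    exact mul_ne_zero (neg_ne_zero.mpr hy0) hdi0 h1.symm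
  have hyE : -y ∈ E := E.neg_mem hy
  have hy0' : -y ≠ 0 := neg_ne_zero.mpr hy0
  have hst := hs.st (x * d⁻¹) (E.mul_mem hx hdi) (mul_ne_zero hx0 hdi0) hne
  rw [h1, hs.mul_left _ _ _ hx hdi (E.mul_mem hyE hdi) hx0 hdi0 (mul_ne_zero hy0' hdi0),
    hs.inv_left hdE (E.mul_mem hyE hdi) hxy (mul_ne_zero hy0' hdi0),
    hs.mul_right _ _ _ hx hyE hdi hx0 hy0' hdi0, hs.inv_right hdE hx hxy hx0,
    hs.mul_right _ _ _ hdE hyE hdi hxy hy0' hdi0, hs.inv_right hdE hdE hxy hxy,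
    hneg _ _ hx hy hx0 hy0, hneg _ _ hdE hy hxy hy0] at hst
  have hdd : s d d = 0 := by
    rw [← hneg d d hdE hdE hxy hxy]
    exact hs.self_neg hdE hxy
  rw [hdd] at hst
  have h3 : s x y - (s x d + s d y) = 0 := by
    rw [← hst]
    abel
  exact sub_eq_zero.mp h3

end Symb

section Main

variable {K Ω : Type*} [Field K] [Field Ω] [Algebra K Ω] [Algebra.IsAlgebraic K Ω]
  [IsAlgClosed Ω] {N P : Subgroup (Ω ≃ₐ[K] Ω)} {c : ℕ → ℕ}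

/-- the layer data of a cyclic layer of order four -/
structure Lay (P N V : Subgroup (Ω ≃ₐ[K] Ω)) (ρ : Ω ≃ₐ[K] Ω) (ξ I : Ω) : Prop where
  hNV : N ≤ V
  hVP : V ≤ P
  hρ : ρ ∈ P
  hPρ : P ≤ V ⊔ Subgroup.zpowers ρ
  hρ4 : ρ ^ 4 ∈ V
  hI : I * I = -1
  hIf : ρ I = I
  hξ : ξ ∈ fixedField V
  hξ0 : ξ ≠ 0
  hρξ : ρ ξ = I * ξ

/-- the middle group -/
def V1 (V : Subgroup (Ω ≃ₐ[K] Ω)) (ρ : Ω ≃ₐ[K] Ω) : Subgroup (Ω ≃ₐ[K] Ω) :=
  V ⊔ Subgroup.zpowers (ρ ^ 2)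

namespace Lay

variable {V : Subgroup (Ω ≃ₐ[K] Ω)} {ρ : Ω ≃ₐ[K] Ω} {ξ I : Ω}

lemma ρ2ξ (L : Lay P N V ρ ξ I) : (ρ ^ 2) ξ = -ξ := by
  rw [pow_two]
  change ρ (ρ ξ) = -ξ
  rw [L.hρξ, map_mul, L.hIf, L.hρξ, ← mul_assoc, L.hI]
  ring

lemma V1P (L : Lay P N V ρ ξ I) : V1 V ρ ≤ P := by
  unfold V1
  rw [sup_le_iff, Subgroup.zpowers_le]
  exact ⟨L.hVP, P.pow_mem L.hρ 2⟩

lemma NV1 (L : Lay P N V ρ ξ I) : N ≤ V1 V ρ := L.hNV.trans le_sup_left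

lemma ρ2V1 (L : Lay P N V ρ ξ I) : ρ ^ 2 ∈ V1 V ρ :=
  (le_sup_right : Subgroup.zpowers (ρ ^ 2) ≤ _) (Subgroup.mem_zpowers (ρ ^ 2))

lemma PV1 (L : Lay P N V ρ ξ I) : P ≤ V1 V ρ ⊔ Subgroup.zpowers ρ :=
  L.hPρ.trans (sup_le_sup_right le_sup_left _)

lemma memP (L : Lay P N V ρ ξ I) {x : Ω} (hx : x ∈ fixedField V) (h : ρ x = x) :
    x ∈ fixedField P :=
  fx_anti L.hPρ (mem_fx_sup_zpowers.mpr ⟨hx, h⟩)

lemma mem1 (L : Lay P N V ρ ξ I) {x : Ω} : x ∈ fixedField (V1 V ρ) ↔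
    x ∈ fixedField V ∧ (ρ ^ 2) x = x := mem_fx_sup_zpowers

lemma memP1 (L : Lay P N V ρ ξ I) {x : Ω} (hx : x ∈ fixedField (V1 V ρ)) (h : ρ x = x) :
    x ∈ fixedField P := L.memP (L.mem1.mp hx).1 h

lemma FV (L : Lay P N V ρ ξ I) {b : Ω} (hb : b ∈ fixedField P) : b ∈ fixedField (V1 V ρ) :=
  fx_anti L.V1P hb

lemma sp1 (L : Lay P N V ρ ξ I) (hS : Std 2 P N) : ∀ g ∈ V1 V ρ ⊔ Subgroup.zpowers ρ, ∀ x : Ω,
    ∃ n, (g ^ (2 ^ n)) x = x := fun g hg x =>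
  hS.sp g ((sup_le L.V1P (by rw [Subgroup.zpowers_le]; exact L.hρ)) hg) x

/-- elements of the middle field are classical -/
lemma gd (L : Lay P N V ρ ξ I) (hS : Std 2 P N) (h2 : (2 : Ω) ≠ 0) {θ : Ω}
    (hθ : θ ∈ fixedField (V1 V ρ)) (hθ0 : θ ≠ 0) : Gd P 2 θ := by
  have hξ1 : ξ ^ 2 ∈ fixedField (V1 V ρ) := by
    rw [L.mem1]
    refine ⟨pow_mem L.hξ 2, ?_⟩
    rw [map_pow, L.ρ2ξ, neg_sq]
  have hρη : ρ (ξ ^ 2) = -ξ ^ 2 := by
    rw [map_pow, L.hρξ, mul_pow, pow_two I, L.hI]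
    ring
  have hne : ρ (ξ ^ 2) ≠ ξ ^ 2 := by
    rw [hρη]
    intro h
    have h3 : (2 : Ω) * ξ ^ 2 = 0 := by linear_combination -h
    rcases mul_eq_zero.mp h3 with h4 | h4
    · exact h2 h4
    · exact pow_ne_zero 2 L.hξ0 h4
  obtain ⟨b, R, hb, hR, rfl⟩ := gen_of_sp 2 Nat.prime_two (V1 V ρ) ρ
    (fun x hx => hS.act_mem L.NV1 L.V1P L.hρ hx)
    (fun x hx => (mem_fx.mp hx) _ L.ρ2V1) (L.sp1 hS) (ξ ^ 2) hξ1 hne θ hθ hθ0
  have hb0 : b ≠ 0 := left_ne_zero_of_mul hθ0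
  have hR0 : (R.map (fun r => ξ ^ 2 - r)).prod ≠ 0 := right_ne_zero_of_mul hθ0
  refine Gd.mul (Gd.root (IsD.ground (fx_anti L.PV1 hb) hb0)) (Gd.prod R _ fun r hr => ?_)
  apply Gd.sub _ (fx_anti L.PV1 (hR r hr))
  · intro h
    apply hR0
    apply Multiset.prod_eq_zero
    rw [Multiset.mem_map]
    exact ⟨r, hr, h⟩
  · refine ⟨pow_ne_zero 2 L.hξ0, 1, ?_⟩
    rw [pow_one]
    apply L.memP1 (pow_mem hξ1 2)
    rw [map_pow, hρη, neg_sq]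

lemma dξ (L : Lay P N V ρ ξ I) : IsD P 2 ξ := by
  refine ⟨L.hξ0, 2, ?_⟩
  apply L.memP (pow_mem L.hξ _)
  rw [map_pow, L.hρξ, mul_pow]
  have : I ^ 2 ^ 2 = 1 := by
    have : I ^ 2 ^ 2 = (I * I) * (I * I) := by ring
    rw [this, L.hI]
    ring
  rw [this, one_mul]

lemma ξw (L : Lay P N V ρ ξ I) (h2 : (2 : Ω) ≠ 0) {w : Ω} (hw : w ∈ fixedField (V1 V ρ)) :
    ξ - w ≠ 0 := by
  intro h
  have h1 : ξ = w := sub_eq_zero.mp h
  have h3 := L.ρ2ξ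
  rw [h1, (L.mem1.mp hw).2] at h3
  have h4 : (2 : Ω) * w = 0 := by linear_combination h3
  rcases mul_eq_zero.mp h4 with h5 | h5
  · exact h2 h5
  · apply L.hξ0
    rw [h1, h5]

/-- the key identity `f (b - j t) = (-1)^j f b` -/
lemma shift (L : Lay P N V ρ ξ I) (hX : Ctx 2 P N c) (hS : Std 2 P N) (h2 : (2 : Ω) ≠ 0) (m : ℕ)
    {ζ : K} (hζ : IsPrimitiveRoot ζ (2 ^ m)) {w : Ω} (hw : w ∈ fixedField (V1 V ρ))
    (hwρ : ρ w ≠ w) (b : Ω) (hb : b ∈ fixedField P) :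
    sN N (2 ^ m) ζ (w - b) (ξ - w) = sN N (2 ^ m) ζ (ξ - b) (ξ - w) ∧
    sN N (2 ^ m) ζ (ξ - (b - (w + ρ w))) (ξ - w) = - sN N (2 ^ m) ζ (ξ - b) (ξ - w) := by
  have hs := sN_symb (Ω := Ω) N hζ
  have hkill : Kills (fixedField (V1 V ρ)) (sN N (2 ^ m) ζ) :=
    kills_small hS _ hs (fun a b ha hb ha0 hb0 => sN_zero_of_ground N hζ hX.hN ha ha0)
      (V1 V ρ) L.NV1 L.V1P ρ L.hρ L.PV1 L.ρ2V1
  have hPN : ∀ {x : Ω}, x ∈ fixedField P → x ∈ fixedField N := fun hx => fx_anti hS.hNP hx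
  have hVN : ∀ {x : Ω}, x ∈ fixedField V → x ∈ fixedField N := fun hx => fx_anti L.hNV hx
  have h1N : ∀ {x : Ω}, x ∈ fixedField (V1 V ρ) → x ∈ fixedField N := fun hx =>
    fx_anti L.NV1 hx
  have h1V : ∀ {x : Ω}, x ∈ fixedField (V1 V ρ) → x ∈ fixedField V := fun hx =>
    (L.mem1.mp hx).1
  have hgl : ∀ {x : Ω}, x ∈ fixedField P → x ≠ 0 → ∀ y, sN N (2 ^ m) ζ x y = 0 := fun hx hx0 y =>
    sN_zero_of_ground N hζ hX.hN hx hx0
  have hgr : ∀ {x y : Ω}, x ∈ fixedField P → x ≠ 0 → y ∈ fixedField N → y ≠ 0 →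
      sN N (2 ^ m) ζ y x = 0 := by
    intro x y hx hx0 hy hy0
    have := hs.skew (hPN hx) hy hx0 hy0
    rwa [hgl hx hx0, zero_add] at this
  have hm1P : (-1 : Ω) ∈ fixedField P := (fixedField P).neg_mem (fixedField P).one_mem
  have hm10 : (-1 : Ω) ≠ 0 := by simp
  have hm : ∀ y, y ∈ fixedField N → y ≠ 0 → sN N (2 ^ m) ζ y (-1) = 0 := fun y hy hy0 =>
    hgr hm1P hm10 hy hy0
  have hnl : ∀ {x y : Ω}, x ∈ fixedField N → y ∈ fixedField N → x ≠ 0 → y ≠ 0 →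
      sN N (2 ^ m) ζ (-x) y = sN N (2 ^ m) ζ x y := by
    intro x y hx hy hx0 hy0
    have e : -x = (-1) * x := by ring
    rw [e, hs.mul_left _ _ _ (hPN hm1P) hx hy hm10 hx0 hy0, hgl hm1P hm10, zero_add]
  have hnr : ∀ {x y : Ω}, x ∈ fixedField N → y ∈ fixedField N → x ≠ 0 → y ≠ 0 →
      sN N (2 ^ m) ζ x (-y) = sN N (2 ^ m) ζ x y := by
    intro x y hx hy hx0 hy0
    have e : -y = (-1) * y := by ring
    rw [e, hs.mul_right _ _ _ hx (hPN hm1P) hy hx0 hm10 hy0, hm x hx hx0, zero_add]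
  have hξw := L.ξw h2 hw
  have hξN : ξ ∈ fixedField N := hVN L.hξ
  have hwN : w ∈ fixedField N := h1N hw
  have hξwN : ξ - w ∈ fixedField N := (fixedField N).sub_mem hξN hwN
  -- the triangle
  have htri : ∀ b, b ∈ fixedField P →
      sN N (2 ^ m) ζ (w - b) (ξ - w) = sN N (2 ^ m) ζ (ξ - b) (ξ - w) := by
    intro b hb
    have hξb := L.ξw h2 (L.FV hb)
    have hwb : w - b ≠ 0 := by
      intro h
      apply hwρ
      rw [sub_eq_zero.mp h]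
      exact (mem_fx.mp hb) ρ L.hρ
    have hwb1 : w - b ∈ fixedField (V1 V ρ) := sub_mem hw (L.FV hb)
    have e1 : (ξ - b) - (ξ - w) = w - b := by ring
    have h1 := hs.sub_rel hm (x := ξ - b) (y := ξ - w) (sub_mem hξN (hPN hb)) hξwN hξb hξw
      (by rw [e1]; exact hwb)
    rw [e1, Gd.symbol_zero hX m hζ (Gd.sub L.dξ hb hξb) (L.gd hS h2 hwb1 hwb), zero_add] at h1
    exact h1.symm
  -- the action of `ρ ^ 2`
  have hanti : ∀ x y, x ∈ fixedField V → y ∈ fixedField V → x ≠ 0 → y ≠ 0 →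
      sN N (2 ^ m) ζ ((ρ ^ 2) x) ((ρ ^ 2) y) = - sN N (2 ^ m) ζ x y := by
    intro x y hx hy hx0 hy0
    have h1 := trS_kills hS L.hNV L.hVP 1 (sN N (2 ^ m) ζ) hs (P.pow_mem L.hρ 2)
      (fun x hx => by
        rw [← pow_mul]
        exact (mem_fx.mp hx) _ L.hρ4)
      (fun a b ha hb ha0 hb0 => by
        rw [one_smul]
        exact hkill a b ha hb ha0 hb0) x y hx hy hx0 hy0
    simp only [trS, one_smul, Finset.sum_range_succ, Finset.sum_range_zero, zero_add, pow_zero,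
      pow_one, AlgEquiv.one_apply] at h1
    exact eq_neg_of_add_eq_zero_right h1
  -- evenness
  have heven : ∀ b, b ∈ fixedField P →
      sN N (2 ^ m) ζ (ξ - (-b)) (ξ - w) = sN N (2 ^ m) ζ (ξ - b) (ξ - w) := by
    intro b hb
    have hnb : -b ∈ fixedField P := neg_mem hb
    have hξb := L.ξw h2 (L.FV hb)
    have hξnb := L.ξw h2 (L.FV hnb)
    have hnw : -w ∈ fixedField (V1 V ρ) := neg_mem hw
    have hξnw := L.ξw h2 hnw
    have hξnwN : ξ - (-w) ∈ fixedField N := sub_mem hξN (h1N hnw)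
    have hξnbN : ξ - (-b) ∈ fixedField N := sub_mem hξN (hPN hnb)
    have h1 := hanti (ξ - b) (ξ - w) (sub_mem L.hξ (h1V (L.FV hb))) (sub_mem L.hξ (h1V hw)) hξb hξw
    have e1 : (ρ ^ 2) (ξ - b) = -(ξ - (-b)) := by
      rw [map_sub, L.ρ2ξ, (mem_fx.mp hb) _ (P.pow_mem L.hρ 2)]
      ring
    have e2 : (ρ ^ 2) (ξ - w) = -(ξ - (-w)) := by
      rw [map_sub, L.ρ2ξ, (L.mem1.mp hw).2]
      ring
    rw [e1, e2, hnl hξnbN (neg_mem hξnwN) hξnb (neg_ne_zero.mpr hξnw),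
      hnr hξnbN hξnwN hξnb hξnw] at h1
    have e3 : (ξ - w) * (ξ - (-w)) = ξ ^ 2 - w ^ 2 := by ring
    have hz1 : ξ ^ 2 - w ^ 2 ∈ fixedField (V1 V ρ) := by
      apply sub_mem _ (pow_mem hw 2)
      rw [L.mem1]
      refine ⟨pow_mem L.hξ 2, ?_⟩
      rw [map_pow, L.ρ2ξ, neg_sq]
    have hz0 : ξ ^ 2 - w ^ 2 ≠ 0 := by rw [← e3]; exact mul_ne_zero hξw hξnw
    have h3 := hs.mul_right (ξ - (-b)) (ξ - w) (ξ - (-w)) hξnbN hξwN hξnwN hξnb hξw hξnw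
    rw [e3, Gd.symbol_zero hX m hζ (Gd.sub L.dξ hnb hξnb) (L.gd hS h2 hz1 hz0), h1] at h3
    exact (add_neg_eq_zero.mp h3.symm)
  refine ⟨htri b hb, ?_⟩
  -- conjugation
  set t : Ω := w + ρ w with ht
  have hρw1 : ρ w ∈ fixedField (V1 V ρ) := hS.act_mem L.NV1 L.V1P L.hρ hw
  have hρρw : ρ (ρ w) = w := by
    have := (L.mem1.mp hw).2
    rw [pow_two] at this
    exact this
  have htP : t ∈ fixedField P := by
    apply L.memP1 (add_mem hw hρw1)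
    rw [map_add, hρρw, add_comm]
  have hwb : w - b ≠ 0 := by
    intro h
    apply hwρ
    rw [sub_eq_zero.mp h]
    exact (mem_fx.mp hb) ρ L.hρ
  have hwbN : w - b ∈ fixedField N := sub_mem hwN (hPN hb)
  have hρwb : ρ w - b ≠ 0 := by
    have e : ρ w - b = ρ (w - b) := by rw [map_sub, (mem_fx.mp hb) ρ L.hρ]
    rw [e]
    exact act_ne_zero _ hwb
  have hρwbN : ρ w - b ∈ fixedField N := sub_mem (h1N hρw1) (hPN hb)
  have hnP : (w - b) * (ρ w - b) ∈ fixedField P := by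
    apply L.memP1 (mul_mem (sub_mem hw (L.FV hb)) (sub_mem hρw1 (L.FV hb)))
    rw [map_mul, map_sub, map_sub, hρρw, (mem_fx.mp hb) ρ L.hρ, mul_comm]
  have h4 := hs.mul_left (w - b) (ρ w - b) (ξ - w) hwbN hρwbN hξwN hwb hρwb hξw
  rw [hgl hnP (mul_ne_zero hwb hρwb)] at h4
  have htb : t - b ∈ fixedField P := sub_mem htP hb
  have e5 : ρ w - b = -(w - (t - b)) := by rw [ht]; ring
  have hwt0 : w - (t - b) ≠ 0 := by
    intro h
    rw [e5, h, neg_zero] at hρwb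
    exact hρwb rfl
  have hwtN : w - (t - b) ∈ fixedField N := sub_mem hwN (hPN htb)
  rw [e5, hnl hwtN hξwN hwt0 hξw, htri b hb, htri (t - b) htb] at h4
  have h6 := heven (t - b) htb
  have e7 : -(t - b) = b - t := by ring
  rw [e7] at h6
  rw [h6]
  exact (neg_eq_of_add_eq_zero_right h4.symm).symm

lemma shift_pow (L : Lay P N V ρ ξ I) (hX : Ctx 2 P N c) (hS : Std 2 P N) (h2 : (2 : Ω) ≠ 0)
    (m : ℕ) {ζ : K} (hζ : IsPrimitiveRoot ζ (2 ^ m)) {w : Ω} (hw : w ∈ fixedField (V1 V ρ))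
    (hwρ : ρ w ≠ w) (b : Ω) (hb : b ∈ fixedField P) (j : ℕ) :
    sN N (2 ^ m) ζ (ξ - (b - (j : Ω) * (w + ρ w))) (ξ - w) =
      (-1 : ℤ) ^ j • sN N (2 ^ m) ζ (ξ - b) (ξ - w) := by
  have hρρw : ρ (ρ w) = w := by
    have := (L.mem1.mp hw).2
    rw [pow_two] at this
    exact this
  have htP : w + ρ w ∈ fixedField P := by
    apply L.memP1 (add_mem hw (hS.act_mem L.NV1 L.V1P L.hρ hw))
    rw [map_add, hρρw, add_comm]
  induction j with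
  | zero => rw [Nat.cast_zero, zero_mul, sub_zero, pow_zero, one_smul]
  | succ j ih =>
    have hb' : b - (j : Ω) * (w + ρ w) ∈ fixedField P :=
      sub_mem hb (mul_mem (_root_.natCast_mem _ j) htP)
    have h1 := (L.shift hX hS h2 m hζ hw hwρ _ hb').2
    have e : b - (j : Ω) * (w + ρ w) - (w + ρ w) = b - ((j + 1 : ℕ) : Ω) * (w + ρ w) := by
      push_cast
      ring
    rw [e, ih] at h1
    rw [h1, pow_succ, mul_neg_one, neg_smul]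

/-- in odd characteristic the symbols `(ξ - b, ξ - w)` vanish -/
lemma charp (L : Lay P N V ρ ξ I) (hX : Ctx 2 P N c) (hS : Std 2 P N) (h2 : (2 : Ω) ≠ 0)
    {p : ℕ} (hp : Odd p) (hp0 : (p : Ω) = 0)
    (m : ℕ) {ζ : K} (hζ : IsPrimitiveRoot ζ (2 ^ m)) {w : Ω} (hw : w ∈ fixedField (V1 V ρ))
    (hwρ : ρ w ≠ w) (b : Ω) (hb : b ∈ fixedField P) :
    sN N (2 ^ m) ζ (ξ - b) (ξ - w) = 0 := by
  obtain ⟨ζ', hζ'⟩ := hX.hroots (1 + m)
  have h1 := L.shift_pow hX hS h2 (1 + m) hζ' hw hwρ b hb p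
  rw [hp0, zero_mul, sub_zero, hp.neg_one_pow, neg_smul, one_smul] at h1
  have h3 : 2 • sN N (2 ^ (1 + m)) ζ' (ξ - b) (ξ - w) = 0 := by
    rw [two_nsmul]
    nth_rewrite 2 [h1]
    rw [add_neg_cancel]
  haveI i1 : NeZero (2 ^ m) := inferInstance
  haveI i2 : NeZero (2 * 2 ^ m) := ⟨mul_ne_zero (NeZero.ne _) (NeZero.ne _)⟩
  have hkm : ∀ (n : ℕ) (hn : n = 2 ^ (1 + m)) [NeZero n],
      2 • sN N n ζ' (ξ - b) (ξ - w) = 0 := by
    intro n hn _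
    subst hn
    exact h3
  have e : 2 * 2 ^ m = 2 ^ (1 + m) := by rw [pow_add, pow_one]
  have hζn : IsPrimitiveRoot ζ' (2 * 2 ^ m) := by rw [e]; exact hζ'
  have hVN : ∀ {x : Ω}, x ∈ fixedField V → x ∈ fixedField N := fun hx => fx_anti L.hNV hx
  have hx1 : ξ - b ∈ fixedField N := hVN (sub_mem L.hξ (L.mem1.mp (L.FV hb)).1)
  have hx2 : ξ - w ∈ fixedField N := hVN (sub_mem L.hξ (L.mem1.mp hw).1)
  have h4 := lift_symbol N (c := 2) (n := 2 ^ m) (ζ' := ζ') hζn hx1 hx2 (L.ξw h2 (L.FV hb))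
    (L.ξw h2 hw) (hkm _ e)
  have hζ₂ : IsPrimitiveRoot (ζ' ^ 2) (2 ^ m) := hζn.pow (Nat.pos_of_ne_zero (NeZero.ne _)) rfl
  exact sN_root_indep N hζ hζ₂ hx1 hx2 (L.ξw h2 (L.FV hb)) (L.ξw h2 hw) h4

/-- elements of the middle field against `ξ - w` -/
lemma middle (L : Lay P N V ρ ξ I) (hX : Ctx 2 P N c) (hS : Std 2 P N) (h2 : (2 : Ω) ≠ 0)
    {p : ℕ} (hp : Odd p) (hp0 : (p : Ω) = 0)
    (m : ℕ) {ζ : K} (hζ : IsPrimitiveRoot ζ (2 ^ m)) {w θ : Ω} (hw : w ∈ fixedField (V1 V ρ))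
    (hθ : θ ∈ fixedField (V1 V ρ)) (hθ0 : θ ≠ 0) :
    sN N (2 ^ m) ζ θ (ξ - w) = 0 := by
  have hs := sN_symb (Ω := Ω) N hζ
  by_cases hwρ : ρ w = w
  · exact Gd.symbol_zero hX m hζ (L.gd hS h2 hθ hθ0)
      (Gd.sub L.dξ (L.memP1 hw hwρ) (L.ξw h2 hw))
  · obtain ⟨b, R, hb, hR, rfl⟩ := gen_of_sp 2 Nat.prime_two (V1 V ρ) ρ
      (fun x hx => hS.act_mem L.NV1 L.V1P L.hρ hx)
      (fun x hx => (mem_fx.mp hx) _ L.ρ2V1) (L.sp1 hS) w hw hwρ θ hθ hθ0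
    have hb0 : b ≠ 0 := left_ne_zero_of_mul hθ0
    have hR0 : (R.map (fun r => w - r)).prod ≠ 0 := right_ne_zero_of_mul hθ0
    have hξwN : ξ - w ∈ fixedField N := fx_anti L.hNV (sub_mem L.hξ (L.mem1.mp hw).1)
    have hbN : b ∈ fixedField N := fx_anti (hS.hNP) (fx_anti L.PV1 hb)
    have hrN : ∀ r ∈ R, w - r ∈ fixedField N := fun r hr =>
      fx_anti L.NV1 (sub_mem hw (L.FV (fx_anti L.PV1 (hR r hr))))
    have hr0 : ∀ r ∈ R, w - r ≠ 0 := by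
      intro r hr h
      apply hR0
      apply Multiset.prod_eq_zero
      rw [Multiset.mem_map]
      exact ⟨r, hr, h⟩
    have hpN : (R.map (fun r => w - r)).prod ∈ fixedField N := by
      apply Subring.multiset_prod_mem (fixedField N).toSubring
      intro c hc
      rw [Multiset.mem_map] at hc
      obtain ⟨a, ha, rfl⟩ := hc
      exact hrN a ha
    rw [hs.mul_left _ _ _ hbN hpN hξwN hb0 hR0 (L.ξw h2 hw),
      sN_zero_of_ground N hζ hX.hN (fx_anti L.PV1 hb) hb0, zero_add]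
    apply hs.prod_left R _ hξwN (L.ξw h2 hw) hrN hr0
    intro r hr
    have hrP := fx_anti L.PV1 (hR r hr)
    rw [(L.shift hX hS h2 m hζ hw hwρ r hrP).1]
    exact L.charp hX hS h2 hp hp0 m hζ hw hwρ r hrP

theorem kills (L : Lay P N V ρ ξ I) (hX : Ctx 2 P N c) (hS : Std 2 P N) (h2 : (2 : Ω) ≠ 0)
    {p : ℕ} (hp : Odd p) (hp0 : (p : Ω) = 0)
    (m : ℕ) {ζ : K} (hζ : IsPrimitiveRoot ζ (2 ^ m)) :
    Kills (fixedField V) (sN N (2 ^ m) ζ) := by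
  have hs := sN_symb (Ω := Ω) N hζ
  have hρ2P : ρ ^ 2 ∈ P := P.pow_mem L.hρ 2
  have h22 : ∀ x ∈ fixedField V, ((ρ ^ 2) ^ 2) x = x := by
    intro x hx
    rw [← pow_mul]
    exact (mem_fx.mp hx) _ L.hρ4
  have hkill : Kills (fixedField (V1 V ρ)) (sN N (2 ^ m) ζ) :=
    kills_small hS _ hs (fun a b ha hb ha0 hb0 => sN_zero_of_ground N hζ hX.hN ha ha0)
      (V1 V ρ) L.NV1 L.V1P ρ L.hρ L.PV1 L.ρ2V1
  have hne : (ρ ^ 2) ξ ≠ ξ := by
    rw [L.ρ2ξ]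
    intro h
    have h3 : (2 : Ω) * ξ = 0 := by linear_combination -h
    rcases mul_eq_zero.mp h3 with h4 | h4
    · exact h2 h4
    · exact L.hξ0 h4
  have hgen := gen_of_sp 2 Nat.prime_two V (ρ ^ 2)
    (fun x hx => hS.act_mem L.hNV L.hVP hρ2P hx) h22 (fun g hg x => hS.sp g (L.V1P hg) x) ξ L.hξ hne
  apply (hs.mono (fx_anti L.hNV)).bass_tate (fixedField (V ⊔ Subgroup.zpowers (ρ ^ 2)))
    (fx_anti le_sup_left) ξ L.hξ hgen
  intro θ y hθ hy hθ0 hy0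
  have hθ1 : θ ∈ fixedField (V1 V ρ) := hθ
  have hθN : θ ∈ fixedField N := fx_anti L.NV1 hθ1
  obtain ⟨b, R, hb, hR, rfl⟩ := hgen y hy hy0
  have hb0 : b ≠ 0 := left_ne_zero_of_mul hy0
  have hR0 : (R.map (fun r => ξ - r)).prod ≠ 0 := right_ne_zero_of_mul hy0
  have hrN : ∀ r ∈ R, ξ - r ∈ fixedField N := fun r hr =>
    fx_anti L.hNV (sub_mem L.hξ (L.mem1.mp (hR r hr)).1)
  have hr0 : ∀ r ∈ R, ξ - r ≠ 0 := fun r hr => L.ξw h2 (hR r hr)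
  have hpN : (R.map (fun r => ξ - r)).prod ∈ fixedField N := by
    apply Subring.multiset_prod_mem (fixedField N).toSubring
    intro c hc
    rw [Multiset.mem_map] at hc
    obtain ⟨a, ha, rfl⟩ := hc
    exact hrN a ha
  rw [hs.mul_right _ _ _ hθN (fx_anti L.NV1 hb) hpN hθ0 hb0 hR0, hkill θ b hθ1 hb hθ0 hb0,
    zero_add]
  have h1 : sN N (2 ^ m) ζ (R.map (fun r => ξ - r)).prod θ = 0 := by
    apply hs.prod_left R _ hθN hθ0 hrN hr0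
    intro r hr
    have h3 := hs.skew hθN (hrN r hr) hθ0 (hr0 r hr)
    rwa [L.middle hX hS h2 hp hp0 m hζ (hR r hr) hθ1 hθ0, zero_add] at h3
  have h3 := hs.skew hθN hpN hθ0 hR0
  rwa [h1, add_zero] at h3

end Lay

/-- a cyclic layer of order four has a Kummer generator -/
lemma exists_lay {V : Subgroup (Ω ≃ₐ[K] Ω)} {ρ : Ω ≃ₐ[K] Ω} (hX : Ctx 2 P N c) (hS : Std 2 P N)
    (h2 : (2 : Ω) ≠ 0) (hNV : N ≤ V) (hVP : V ≤ P) (hρ : ρ ∈ P)
    (hPρ : P ≤ V ⊔ Subgroup.zpowers ρ) (hρ4 : ρ ^ 4 ∈ V) {θ : Ω} (hθ : θ ∈ fixedField V)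
    (hθ' : (ρ ^ 2) θ ≠ θ) : ∃ ξ I : Ω, Lay P N V ρ ξ I := by
  obtain ⟨ι, hι⟩ := hX.hroots 2
  set I : Ω := algebraMap K Ω ι with hI
  have hI4 : IsPrimitiveRoot I (2 ^ 2) := hι.map_of_injective (algebraMap K Ω).injective
  have hII : I * I = -1 := by
    have h1 : IsPrimitiveRoot (I ^ 2) 2 := hI4.pow (by norm_num) (by norm_num)
    rw [← pow_two]
    exact h1.eq_neg_one_of_two_right
  have hIf : ρ I = I := by rw [hI]; exact AlgEquiv.commutes ρ ι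
  set δ : Ω := θ - (ρ ^ 2) θ with hδ
  have hδ0 : δ ≠ 0 := sub_ne_zero.mpr (Ne.symm hθ')
  have hδV : δ ∈ fixedField V := sub_mem hθ (hS.act_mem hNV hVP (P.pow_mem hρ 2) hθ)
  have hρδV : ρ δ ∈ fixedField V := hS.act_mem hNV hVP hρ hδV
  have hIV : I ∈ fixedField V := base_mem V ι
  have hρρδ : ρ (ρ δ) = -δ := by
    have e1 : ρ (ρ δ) = (ρ ^ 2) δ := by rw [pow_two]; rfl
    have e2 : (ρ ^ 2) ((ρ ^ 2) θ) = θ := by
      have e3 : (ρ ^ 2) ((ρ ^ 2) θ) = (ρ ^ 4) θ := by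
        have : ρ ^ 4 = ρ ^ 2 * ρ ^ 2 := by rw [← pow_add]
        rw [this]
        rfl
      rw [e3]
      exact (mem_fx.mp hθ) _ hρ4
    rw [e1, hδ, map_sub, e2]
    ring
  by_cases h : δ - I * ρ δ = 0
  · -- `ρ δ = -I δ`
    have h1 : ρ δ = -I * δ := by linear_combination I * h + (ρ δ) * hII
    have hIδ0 : -I * δ ≠ 0 := by rw [← h1]; exact act_ne_zero _ hδ0
    refine ⟨δ⁻¹, I, ⟨hNV, hVP, hρ, hPρ, hρ4, hII, hIf, inv_mem hδV, inv_ne_zero hδ0, ?_⟩⟩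
    rw [map_inv₀, h1]
    have hI0 : I ≠ 0 := by
      intro h0
      rw [h0, mul_zero] at hII
      exact one_ne_zero (α := Ω) (by linear_combination hII)
    rw [inv_eq_iff_eq_inv, mul_inv, inv_inv]
    have hIi : I⁻¹ = -I := by
      rw [inv_eq_iff_eq_inv, eq_comm, inv_eq_of_mul_eq_one_right]
      linear_combination -hII
    rw [hIi]
  · refine ⟨δ - I * ρ δ, I, ⟨hNV, hVP, hρ, hPρ, hρ4, hII, hIf, sub_mem hδV (mul_mem hIV hρδV), h,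
      ?_⟩⟩
    rw [map_sub, map_mul, hIf, hρρδ]
    linear_combination (ρ δ) * hII

/-- **Cyclic layers of order dividing four, odd characteristic.** -/
theorem kills_four {V : Subgroup (Ω ≃ₐ[K] Ω)} {ρ : Ω ≃ₐ[K] Ω} (hX : Ctx 2 P N c)
    (hS : Std 2 P N) (h2 : (2 : Ω) ≠ 0) {p : ℕ} (hp : Odd p) (hp0 : (p : Ω) = 0)
    (hNV : N ≤ V) (hVP : V ≤ P) (hρ : ρ ∈ P) (hPρ : P ≤ V ⊔ Subgroup.zpowers ρ)
    (hρ4 : ρ ^ 4 ∈ V) (m : ℕ) {ζ : K} (hζ : IsPrimitiveRoot ζ (2 ^ m)) :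
    Kills (fixedField V) (sN N (2 ^ m) ζ) := by
  by_cases hall : ∀ θ ∈ fixedField V, (ρ ^ 2) θ = θ
  · have hs := sN_symb (Ω := Ω) N hζ
    have hV1P : V ⊔ Subgroup.zpowers (ρ ^ 2) ≤ P := by
      rw [sup_le_iff, Subgroup.zpowers_le]
      exact ⟨hVP, P.pow_mem hρ 2⟩
    have hkill : Kills (fixedField (V ⊔ Subgroup.zpowers (ρ ^ 2))) (sN N (2 ^ m) ζ) :=
      kills_small hS _ hs (fun a b ha hb ha0 hb0 => sN_zero_of_ground N hζ hX.hN ha ha0)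
        _ (hNV.trans le_sup_left) hV1P ρ hρ (hPρ.trans (sup_le_sup_right le_sup_left _))
        ((le_sup_right : Subgroup.zpowers (ρ ^ 2) ≤ _) (Subgroup.mem_zpowers (ρ ^ 2)))
    intro a b ha hb ha0 hb0
    exact hkill a b (mem_fx_sup_zpowers.mpr ⟨ha, hall a ha⟩)
      (mem_fx_sup_zpowers.mpr ⟨hb, hall b hb⟩) ha0 hb0
  · push Not at hall
    obtain ⟨θ, hθ, hθ'⟩ := hall
    obtain ⟨ξ, I, L⟩ := exists_lay hX hS h2 hNV hVP hρ hPρ hρ4 hθ hθ'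
    exact L.kills hX hS h2 hp hp0 m hζ

end Main

section Top

variable {K Ω : Type*} [Field K] [Field Ω] [Algebra K Ω] [Algebra.IsAlgebraic K Ω]
  [IsAlgClosed Ω]

/-- the closed subgroup generated by commutators and `n`-th powers -/
def frn {G : Type*} [Group G] [TopologicalSpace G] [IsTopologicalGroup G] (n : ℕ)
    (P : Subgroup G) : Subgroup G :=
  (⁅P, P⁆ ⊔ Subgroup.closure {x | ∃ g ∈ P, x = g ^ n}).topologicalClosure

/-- the layer of exponent four in odd characteristic -/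
theorem classTwo_frn {P : Subgroup (Ω ≃ₐ[K] Ω)} {c : ℕ → ℕ} (hX : Ctx 2 P (dP P) c)
    (h2 : (2 : Ω) ≠ 0) {p : ℕ} (hp : Odd p) (hp0 : (p : Ω) = 0)
    (hPc : IsClosed (P : Set (Ω ≃ₐ[K] Ω))) (hP : IsSyl 2 P) :
    ClassTwo (dP P) (frn 4 P) (Subgroup.topologicalClosure_mono le_sup_left) := by
  have hS := std_of_syl Nat.prime_two hPc hP
  apply classTwo_reduction Nat.prime_two hX.hroots hPc hP
    (Subgroup.topologicalClosure_mono le_sup_left)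
  · apply Subgroup.topologicalClosure_minimal _ _ hPc
    rw [sup_le_iff]
    refine ⟨Subgroup.commutator_le_self P, ?_⟩
    rw [Subgroup.closure_le]
    rintro _ ⟨g, hg, rfl⟩
    exact P.pow_mem hg 4
  · rintro V hNV hUV hVP ho ⟨ρ, hρ, hPρ, hρV⟩
    have hρ4 : ρ ^ 4 ∈ V := by
      apply hUV
      apply Subgroup.le_topologicalClosure
      exact (le_sup_right : Subgroup.closure {x | ∃ g ∈ P, x = g ^ 4} ≤ _)
        (Subgroup.subset_closure ⟨ρ, hρ, rfl⟩)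
    have hcup : ∀ m : ℕ, Cup hNV (2 ^ m) := by
      intro m
      obtain ⟨ζ, hζ⟩ := hX.hroots m
      exact cup_of_kills hζ hNV (kills_four hX hS h2 hp hp0 hNV hVP hρ hPρ hρ4 m hζ)
    intro A B _ _ _ α hsurj hα φ hφ
    exact embed_of_cup Nat.prime_two hNV (fun g hg => hS.sp g (hVP hg)) hX.hroots hcup α hsurj hα
      φ hφ

end Top

end Pool.Agent.Bog
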