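import Pool.Agent.Bog.Four

/-!
Elements fixed by the Frattini subgroup are classical up to `ℓ`-powers.
-/

set_option autoImplicit false
set_option linter.unusedVariables false
set_option linter.unusedSectionVars false
set_option linter.style.haveILetI false

namespace Pool.Agent.Bog

open IntermediateField

section

variable {K Ω : Type*} [Field K] [Field Ω] [Algebra K Ω] [Algebra.IsAlgebraic K Ω]
  [IsAlgClosed Ω] {N P : Subgroup (Ω ≃ₐ[K] Ω)} {ℓ : ℕ} {c : ℕ → ℕ}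

lemma Gd.pow {x : Ω} (hx : Gd P ℓ x) (n : ℕ) : Gd P ℓ (x ^ n) := by
  induction n with
  | zero =>
    rw [pow_zero]
    exact Gd.root (IsD.ground (fixedField P).one_mem one_ne_zero)
  | succ n ih =>
    rw [pow_succ]
    exact Gd.mul ih hx

/-- a Kummer generator of a cyclic layer of degree `ℓ` -/
lemma exists_kummer_gen (hℓ : ℓ.Prime) {ι : K} (hι : IsPrimitiveRoot ι ℓ)
    {V : Subgroup (Ω ≃ₐ[K] Ω)} {ρ : Ω ≃ₐ[K] Ω}
    (hact : ∀ x ∈ fixedField V, ρ x ∈ fixedField V) (hρℓ : ∀ x ∈ fixedField V, (ρ ^ ℓ) x = x)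
    {θ : Ω} (hθ : θ ∈ fixedField V) (hθ' : ρ θ ≠ θ) :
    ∃ ξ ∈ fixedField V, ξ ≠ 0 ∧ ρ ξ ≠ ξ ∧ ρ (ξ ^ ℓ) = ξ ^ ℓ := by
  classical
  set z : Ω := algebraMap K Ω ι with hz
  have hzp : IsPrimitiveRoot z ℓ := hι.map_of_injective (algebraMap K Ω).injective
  have hz0 : z ≠ 0 := hzp.ne_zero hℓ.ne_zero
  have hρz : ρ z = z := AlgEquiv.commutes ρ ι
  have hactj : ∀ (j : ℕ) (x : Ω), x ∈ fixedField V → (ρ ^ j) x ∈ fixedField V := by
    intro j
    induction j with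
    | zero => intro x hx; exact hx
    | succ j ih =>
      intro x hx
      rw [pow_succ']
      exact hact _ (ih x hx)
  set R : ℕ → Ω := fun i => ∑ j ∈ Finset.range ℓ, (z ^ i) ^ j * (ρ ^ j) θ with hR
  have hRV : ∀ i, R i ∈ fixedField V := by
    intro i
    apply sum_mem
    intro j _
    exact mul_mem (pow_mem (pow_mem (base_mem V ι) i) j) (hactj j θ hθ)
  have hρR : ∀ i, z ^ i * ρ (R i) = R i := by
    intro i
    rw [hR]
    simp only
    rw [map_sum, Finset.mul_sum]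
    have h1 : ∀ j ∈ Finset.range ℓ, z ^ i * ρ ((z ^ i) ^ j * (ρ ^ j) θ) =
        (z ^ i) ^ (j + 1) * (ρ ^ (j + 1)) θ := by
      intro j _
      rw [map_mul, map_pow, map_pow, hρz, pow_succ' ρ]
      change z ^ i * ((z ^ i) ^ j * ρ ((ρ ^ j) θ)) = (z ^ i) ^ (j + 1) * ρ ((ρ ^ j) θ)
      ring
    rw [Finset.sum_congr rfl h1]
    have h2 := Finset.sum_range_succ' (fun j => (z ^ i) ^ j * (ρ ^ j) θ) ℓ
    have h3 := Finset.sum_range_succ (fun j => (z ^ i) ^ j * (ρ ^ j) θ) ℓ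
    rw [h3] at h2
    have h4 : (z ^ i) ^ ℓ * (ρ ^ ℓ) θ = θ := by
      rw [hρℓ θ hθ, ← pow_mul, mul_comm i ℓ, pow_mul, hzp.pow_eq_one, one_pow, one_mul]
    have h5 : (z ^ i) ^ 0 * (ρ ^ 0) θ = θ := by rw [pow_zero, one_mul]; rfl
    simp only [h4, h5] at h2
    exact (add_right_cancel h2).symm
  have hsum : ∑ i ∈ Finset.range ℓ, R i = (ℓ : Ω) * θ := by
    rw [hR]
    simp only
    rw [Finset.sum_comm]
    have h1 : ∀ j ∈ Finset.range ℓ, ∑ i ∈ Finset.range ℓ, (z ^ i) ^ j * (ρ ^ j) θ =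
        if j = 0 then (ℓ : Ω) * θ else 0 := by
      intro j hj
      rw [← Finset.sum_mul]
      split_ifs with hj0
      · subst hj0
        simp
      · have h2 : ∑ i ∈ Finset.range ℓ, (z ^ i) ^ j = ∑ i ∈ Finset.range ℓ, (z ^ j) ^ i := by
          apply Finset.sum_congr rfl
          intro i _
          rw [← pow_mul, ← pow_mul, mul_comm]
        have h3 : z ^ j ≠ 1 := by
          intro h
          have := hzp.dvd_of_pow_eq_one j h
          have := Nat.le_of_dvd (Nat.pos_of_ne_zero hj0) this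
          rw [Finset.mem_range] at hj
          omega
        have h4 : (z ^ j - 1) * ∑ i ∈ Finset.range ℓ, (z ^ j) ^ i = 0 := by
          rw [mul_comm, geom_sum_mul, ← pow_mul, mul_comm j ℓ, pow_mul, hzp.pow_eq_one, one_pow,
            sub_self]
        have h5 := (mul_eq_zero.mp h4).resolve_left (sub_ne_zero.mpr h3)
        rw [h2, h5, zero_mul]
    rw [Finset.sum_congr rfl h1, Finset.sum_ite_eq' (Finset.range ℓ) 0, if_pos]
    rw [Finset.mem_range]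
    exact hℓ.pos
  have hℓ0 : (ℓ : Ω) ≠ 0 := by
    haveI : NeZero ℓ := ⟨hℓ.ne_zero⟩
    exact hzp.neZero'.ne
  have hex : ∃ i, ρ (R i) ≠ R i := by
    by_contra hcon
    push Not at hcon
    apply hθ'
    have h1 : ρ (∑ i ∈ Finset.range ℓ, R i) = ∑ i ∈ Finset.range ℓ, R i := by
      rw [map_sum]
      exact Finset.sum_congr rfl fun i _ => hcon i
    rw [hsum, map_mul, map_natCast] at h1
    exact mul_left_cancel₀ hℓ0 h1
  obtain ⟨i, hi⟩ := hex
  refine ⟨R i, hRV i, ?_, hi, ?_⟩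
  · intro h
    rw [h, map_zero] at hi
    exact hi rfl
  · have h1 : (z ^ i * ρ (R i)) ^ ℓ = R i ^ ℓ := by rw [hρR i]
    rw [mul_pow, ← pow_mul, mul_comm i ℓ, pow_mul, hzp.pow_eq_one, one_pow, one_mul] at h1
    rw [map_pow, h1]

/-- cyclic layers of degree `ℓ` consist of classical elements -/
lemma gd_cyclic (hX : Ctx ℓ P N c) (hS : Std ℓ P N) {V : Subgroup (Ω ≃ₐ[K] Ω)} (hNV : N ≤ V)
    (hVP : V ≤ P) {ρ : Ω ≃ₐ[K] Ω} (hρ : ρ ∈ P) (hPρ : P ≤ V ⊔ Subgroup.zpowers ρ)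
    (hρℓ : ρ ^ ℓ ∈ V) {u : Ω} (hu : u ∈ fixedField V) (hu0 : u ≠ 0) : Gd P ℓ u := by
  have hact : ∀ x ∈ fixedField V, ρ x ∈ fixedField V := fun x hx => hS.act_mem hNV hVP hρ hx
  have hρℓ' : ∀ x ∈ fixedField V, (ρ ^ ℓ) x = x := fun x hx => (mem_fx.mp hx) _ hρℓ
  have hle : V ⊔ Subgroup.zpowers ρ ≤ P := by
    rw [sup_le_iff, Subgroup.zpowers_le]
    exact ⟨hVP, hρ⟩
  by_cases hall : ∀ θ ∈ fixedField V, ρ θ = θ
  · exact Gd.root (IsD.ground (fx_anti hPρ (mem_fx_sup_zpowers.mpr ⟨hu, hall u hu⟩)) hu0)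
  · push Not at hall
    obtain ⟨θ, hθ, hθ'⟩ := hall
    obtain ⟨ι, hι⟩ := hX.hroots 1
    rw [pow_one] at hι
    obtain ⟨ξ, hξ, hξ0, hξρ, hξℓ⟩ := exists_kummer_gen hX.hℓ hι hact hρℓ' hθ hθ'
    obtain ⟨b, R, hb, hR, rfl⟩ := gen_of_sp ℓ hX.hℓ V ρ hact hρℓ' (fun g hg x => hS.sp g (hle hg) x)
      ξ hξ hξρ u hu hu0
    have hb0 : b ≠ 0 := left_ne_zero_of_mul hu0
    have hR0 : (R.map (fun r => ξ - r)).prod ≠ 0 := right_ne_zero_of_mul hu0
    refine Gd.mul (Gd.root (IsD.ground (fx_anti hPρ hb) hb0)) (Gd.prod R _ fun r hr => ?_)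
    apply Gd.sub _ (fx_anti hPρ (hR r hr))
    · intro h
      apply hR0
      apply Multiset.prod_eq_zero
      rw [Multiset.mem_map]
      exact ⟨r, hr, h⟩
    · refine ⟨hξ0, 1, ?_⟩
      rw [pow_one]
      exact fx_anti hPρ (mem_fx_sup_zpowers.mpr ⟨pow_mem hξ ℓ, hξℓ⟩)

/-- the norm for a cyclic layer -/
lemma norm_mem (hS : Std ℓ P N) {V : Subgroup (Ω ≃ₐ[K] Ω)} (hNV : N ≤ V)
    (hVP : V ≤ P) {ρ : Ω ≃ₐ[K] Ω} (hρ : ρ ∈ P) (hρℓ : ∀ x ∈ fixedField V, (ρ ^ ℓ) x = x) {y : Ω}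
    (hy : y ∈ fixedField V) (hy0 : y ≠ 0) :
    (∏ j ∈ Finset.range ℓ, (ρ ^ j) y) ∈ fixedField (V ⊔ Subgroup.zpowers ρ) := by
  rw [mem_fx_sup_zpowers]
  refine ⟨prod_mem fun j _ => hS.pow_mem_fx hNV hVP hρ hy j, ?_⟩
  rw [map_prod]
  have h1 : ∀ j ∈ Finset.range ℓ, ρ ((ρ ^ j) y) = (ρ ^ (j + 1)) y := by
    intro j _
    rw [pow_succ']
    rfl
  rw [Finset.prod_congr rfl h1]
  have h2 := Finset.prod_range_succ' (fun j => (ρ ^ j) y) ℓ
  have h3 := Finset.prod_range_succ (fun j => (ρ ^ j) y) ℓ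
  rw [h3] at h2
  have h4 : (ρ ^ ℓ) y = y := hρℓ y hy
  have h5 : (ρ ^ 0) y = y := rfl
  simp only [h4, h5] at h2
  exact (mul_right_cancel₀ hy0 h2).symm

lemma prod_identity {M : Type*} [CommGroup M] (ℓ : ℕ) (hℓ : ℓ.Prime) (F : ℕ → ℕ → M)
    (hF : ∀ j, Function.Periodic (F j) ℓ) :
    (∏ i ∈ Finset.range ℓ, ∏ j ∈ Finset.range ℓ, F j (i * j)) * ∏ m ∈ Finset.range ℓ, F 0 m =
      F 0 0 ^ ℓ * ∏ j ∈ Finset.range ℓ, ∏ m ∈ Finset.range ℓ, F j m := by
  have h := sum_identity (A := Additive M) ℓ hℓ (fun j m => Additive.ofMul (F j m))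
    (fun j m => congrArg Additive.ofMul (hF j m))
  simp only [← ofMul_prod, ← ofMul_mul, ← ofMul_pow] at h
  exact Additive.ofMul.injective h

/-- **Elements of layers of exponent `ℓ` are classical up to `ℓ`-powers.** -/
theorem gd_layer (hX : Ctx ℓ P N c) (hS : Std ℓ P N) (d : ℕ) :
    ∀ V : Subgroup (Ω ≃ₐ[K] Ω), N ≤ V → V ≤ P → V.relIndex P = d → d ≠ 0 →
      (∀ g ∈ P, g ^ ℓ ∈ V) → ∀ u, u ∈ fixedField V → u ≠ 0 → Gd P ℓ (u ^ (ℓ ^ d)) := by
  induction d using Nat.strong_induction_on with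
  | _ d ih =>
    intro V hNV hVP hd hd0 htor u hu hu0
    by_cases hc : ∃ ρ ∈ P, P ≤ V ⊔ Subgroup.zpowers ρ
    · obtain ⟨ρ, hρ, hPρ⟩ := hc
      exact Gd.pow (gd_cyclic hX hS hNV hVP hρ hPρ (htor ρ hρ) hu hu0) _
    · obtain ⟨σ, hσ, τ, hτ, hσℓ, hτℓ, hτV, hστ⟩ :=
        pair_of_noncyclic hS hNV hVP (by rw [hd]; exact hd0)
          (fun g hg => ⟨1, by rw [pow_one]; exact htor g hg⟩) hc
      have key : ∀ ρ ∈ P, ρ ∉ V → ∀ a, a ∈ fixedField (V ⊔ Subgroup.zpowers ρ) → a ≠ 0 →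
          Gd P ℓ (a ^ (ℓ ^ (d - 1))) := by
        intro ρ hρ hρV a ha ha0
        have hle : V ⊔ Subgroup.zpowers ρ ≤ P := by
          rw [sup_le_iff, Subgroup.zpowers_le]
          exact ⟨hVP, hρ⟩
        have hmul := Subgroup.relIndex_mul_relIndex V (V ⊔ Subgroup.zpowers ρ) P le_sup_left hle
        rw [hd] at hmul
        have hd1 : (V ⊔ Subgroup.zpowers ρ).relIndex P ≠ 0 := by
          intro h0
          rw [h0, mul_zero] at hmul
          exact hd0 hmul.symm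
        have hi1 : V.relIndex (V ⊔ Subgroup.zpowers ρ) ≠ 1 := by
          intro h0
          rw [Subgroup.relIndex_eq_one] at h0
          exact hρV (h0 ((le_sup_right : Subgroup.zpowers ρ ≤ _) (Subgroup.mem_zpowers ρ)))
        have hi0 : V.relIndex (V ⊔ Subgroup.zpowers ρ) ≠ 0 := by
          intro h0
          rw [h0, zero_mul] at hmul
          exact hd0 hmul.symm
        have hlt : (V ⊔ Subgroup.zpowers ρ).relIndex P < d := by
          have h2 : 2 ≤ V.relIndex (V ⊔ Subgroup.zpowers ρ) := by omega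
          have h3 : 0 < (V ⊔ Subgroup.zpowers ρ).relIndex P := Nat.pos_of_ne_zero hd1
          nlinarith
        have := ih _ hlt (V ⊔ Subgroup.zpowers ρ) (hNV.trans le_sup_left) hle rfl hd1
          (fun g hg => (le_sup_left : V ≤ _) (htor g hg)) a ha ha0
        obtain ⟨k, hk⟩ : ∃ k, d - 1 = (V ⊔ Subgroup.zpowers ρ).relIndex P + k :=
          ⟨d - 1 - (V ⊔ Subgroup.zpowers ρ).relIndex P, by omega⟩
        rw [hk, pow_add, pow_mul]
        exact Gd.pow this _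
      have hτact : ∀ x ∈ fixedField V, (τ ^ ℓ) x = x := fun x hx => (mem_fx.mp hx) _ hτℓ
      have hσact : ∀ x ∈ fixedField V, (σ ^ ℓ) x = x := fun x hx => (mem_fx.mp hx) _ hσℓ
      have hρact : ∀ i : ℕ, ∀ x ∈ fixedField V, ((σ * τ ^ i) ^ ℓ) x = x := by
        intro i x hx
        rw [hS.mul_pow_act hNV hVP hσ hτ i ℓ hx, mul_comm i ℓ, pow_mul]
        have h1 : ((τ ^ ℓ) ^ i) x = x := (mem_fx.mp hx) _ (V.pow_mem hτℓ i)
        rw [h1, hσact x hx]
      -- the norms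
      set nτ : Ω := ∏ m ∈ Finset.range ℓ, (τ ^ m) u with hnτ
      set nσ : ℕ → Ω := fun i => ∏ j ∈ Finset.range ℓ, ((σ * τ ^ i) ^ j) u with hnσ
      have hnτ0 : nτ ≠ 0 := Finset.prod_ne_zero_iff.mpr fun m _ => act_ne_zero _ hu0
      have hnσ0 : ∀ i, nσ i ≠ 0 := fun i => Finset.prod_ne_zero_iff.mpr fun m _ =>
        act_ne_zero _ hu0
      have hnτm : nτ ∈ fixedField (V ⊔ Subgroup.zpowers τ) := norm_mem hS hNV hVP hτ hτact hu hu0
      have hnσm : ∀ i, nσ i ∈ fixedField (V ⊔ Subgroup.zpowers (σ * τ ^ i)) := fun i =>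
        norm_mem hS hNV hVP (P.mul_mem hσ (P.pow_mem hτ i)) (hρact i) hu hu0
      have hle : V ⊔ Subgroup.zpowers τ ≤ P := by
        rw [sup_le_iff, Subgroup.zpowers_le]
        exact ⟨hVP, hτ⟩
      have hσn : ∀ j : ℕ, (σ ^ j) nτ ∈ fixedField (V ⊔ Subgroup.zpowers τ) := fun j =>
        hS.pow_mem_fx (hNV.trans le_sup_left) hle hσ hnτm j
      -- the identity
      have hun : ∀ g : Ω ≃ₐ[K] Ω, g u ≠ 0 := fun g => act_ne_zero g hu0
      set F : ℕ → ℕ → Ωˣ := fun j m => Units.mk0 ((σ ^ j) ((τ ^ m) u))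
        (act_ne_zero _ (act_ne_zero _ hu0)) with hF
      have hper : ∀ j, Function.Periodic (F j) ℓ := by
        intro j m
        apply Units.ext
        simp only [hF, Units.val_mk0]
        congr 1
        rw [pow_add]
        change (τ ^ m) ((τ ^ ℓ) u) = _
        rw [hτact u hu]
      have hid := congrArg Units.val (prod_identity ℓ hX.hℓ F hper)
      simp only [Units.val_mul, Units.val_pow_eq_pow_val, Units.coe_prod] at hid
      have e1 : ∀ i, ∏ j ∈ Finset.range ℓ, ((F j (i * j) : Ωˣ) : Ω) = nσ i := by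
        intro i
        rw [hnσ]
        simp only
        apply Finset.prod_congr rfl
        intro j _
        rw [hS.mul_pow_act hNV hVP hσ hτ i j hu]
        rfl
      have e2 : ∏ m ∈ Finset.range ℓ, ((F 0 m : Ωˣ) : Ω) = nτ := rfl
      have e3 : ∀ j, ∏ m ∈ Finset.range ℓ, ((F j m : Ωˣ) : Ω) = (σ ^ j) nτ := by
        intro j
        rw [hnτ, map_prod]
        rfl
      have e4 : ((F 0 0 : Ωˣ) : Ω) = u := rfl
      rw [Finset.prod_congr rfl fun i _ => e1 i, e2, e4, Finset.prod_congr rfl fun j _ => e3 j]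
        at hid
      have hden0 : ∏ j ∈ Finset.range ℓ, (σ ^ j) nτ ≠ 0 :=
        Finset.prod_ne_zero_iff.mpr fun j _ => act_ne_zero _ hnτ0
      have hul : u ^ ℓ = (∏ i ∈ Finset.range ℓ, nσ i) * nτ *
          (∏ j ∈ Finset.range ℓ, (σ ^ j) nτ)⁻¹ := by
        rw [eq_mul_inv_iff_mul_eq₀ hden0]
        exact hid.symm
      have hdd : d = 1 + (d - 1) := by omega
      have hfin : ∀ (f : ℕ → Ω), (∀ i, Gd P ℓ ((f i) ^ (ℓ ^ (d - 1)))) → ∀ n,
          Gd P ℓ ((∏ i ∈ Finset.range n, f i) ^ (ℓ ^ (d - 1))) := by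
        intro f hf n
        induction n with
        | zero =>
          rw [Finset.range_zero, Finset.prod_empty, one_pow]
          exact Gd.root (IsD.ground (fixedField P).one_mem one_ne_zero)
        | succ n ih =>
          rw [Finset.prod_range_succ, mul_pow]
          exact Gd.mul ih (hf n)
      rw [hdd, pow_add, pow_one, pow_mul, hul, mul_pow, mul_pow, inv_pow]
      refine Gd.mul (Gd.mul (hfin nσ (fun i => ?_) ℓ) (key τ hτ hτV nτ hnτm hnτ0))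
        (Gd.inv (hfin (fun j => (σ ^ j) nτ) (fun j => ?_) ℓ))
      · exact key (σ * τ ^ i) (P.mul_mem hσ (P.pow_mem hτ i)) (hστ i) _ (hnσm i) (hnσ0 i)
      · exact key τ hτ hτV _ (hσn j) (act_ne_zero _ hnτ0)

/-- elements fixed by the Frattini subgroup are classical up to `ℓ`-powers -/
theorem gd_frat (hX : Ctx ℓ P N c) (hS : Std ℓ P N) (hN : N ≤ frat ℓ P) {u : Ω}
    (hu : u ∈ fixedField (frat ℓ P)) (hu0 : u ≠ 0) : ∃ d, Gd P ℓ (u ^ (ℓ ^ d)) := by
  set S : Subgroup (Ω ≃ₐ[K] Ω) := MulAction.stabilizer (Ω ≃ₐ[K] Ω) u with hSd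
  set V : Subgroup (Ω ≃ₐ[K] Ω) := P ⊓ S with hV
  have hd0 : V.relIndex P ≠ 0 := by
    have h1 : S.relIndex ⊤ ≠ 0 := by rw [Subgroup.relIndex_top_right]; exact index_stab_ne_zero u
    have h2 := Subgroup.relIndex_inter_ne_zero h1 P
    rw [top_inf_eq, Subgroup.inf_relIndex_right] at h2
    rw [hV, Subgroup.inf_relIndex_left]
    exact h2
  refine ⟨V.relIndex P, gd_layer hX hS _ V (le_inf hS.hNP fun g hg => (mem_fx.mp hu) g (hN hg))
    inf_le_left rfl hd0 (fun g hg => ⟨P.pow_mem hg ℓ, (mem_fx.mp hu) _ (pow_mem_frat ℓ hg)⟩) u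
    (mem_fx.mpr fun g hg => hg.2) hu0⟩

end

end Pool.Agent.Bog
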