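import Pool.Agent.Bog.Symb

/-!
Generation of `E^*` by `F₁^*` and `θ - c` for a cyclic layer of prime degree whose group acts with
orbits of `ℓ`-power length.
-/

set_option autoImplicit false

namespace Pool.Agent.Bog

open IntermediateField Polynomial

variable {K Ω : Type*} [Field K] [Field Ω] [Algebra K Ω]

lemma mem_fx {U : Subgroup (Ω ≃ₐ[K] Ω)} {x : Ω} :
    x ∈ fixedField U ↔ ∀ g ∈ U, g x = x :=
  mem_fixedField_iff U x

lemma fx_anti {U V : Subgroup (Ω ≃ₐ[K] Ω)} (h : U ≤ V) : fixedField V ≤ fixedField U := by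
  intro x hx
  rw [mem_fx] at hx ⊢
  exact fun g hg => hx g (h hg)

lemma mem_fx_sup_zpowers {U : Subgroup (Ω ≃ₐ[K] Ω)} {ρ : Ω ≃ₐ[K] Ω} {x : Ω} :
    x ∈ fixedField (U ⊔ Subgroup.zpowers ρ) ↔ x ∈ fixedField U ∧ ρ x = x := by
  constructor
  · intro h
    rw [mem_fx] at h
    refine ⟨mem_fx.mpr fun g hg => h g ((le_sup_left : U ≤ _) hg), h ρ ?_⟩
    exact (le_sup_right : Subgroup.zpowers ρ ≤ _) (Subgroup.mem_zpowers ρ)
  · rintro ⟨h1, h2⟩
    rw [mem_fx] at h1
    have hst : U ⊔ Subgroup.zpowers ρ ≤ MulAction.stabilizer (Ω ≃ₐ[K] Ω) x := by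
      rw [sup_le_iff]
      constructor
      · intro g hg
        exact h1 g hg
      · rw [Subgroup.zpowers_le]
        exact h2
    rw [mem_fx]
    intro g hg
    exact hst hg

lemma pow_apply_iter (g : Ω ≃ₐ[K] Ω) (n : ℕ) (x : Ω) : (g ^ n) x = (fun y => g y)^[n] x := by
  induction n generalizing x with
  | zero => rfl
  | succ n ih =>
    rw [pow_succ, Function.iterate_succ_apply]
    exact ih (g x)

theorem gen_of_sp [IsAlgClosed Ω] (ℓ : ℕ) (hℓ : ℓ.Prime) (U : Subgroup (Ω ≃ₐ[K] Ω))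
    (ρ : Ω ≃ₐ[K] Ω) (hnorm : ∀ x ∈ fixedField U, ρ x ∈ fixedField U)
    (hρ : ∀ x ∈ fixedField U, (ρ ^ ℓ) x = x)
    (sp : ∀ g ∈ U ⊔ Subgroup.zpowers ρ, ∀ x : Ω, ∃ n, (g ^ (ℓ ^ n)) x = x)
    (θ : Ω) (hθ : θ ∈ fixedField U) (hθ' : ρ θ ≠ θ) :
    ∀ y, y ∈ fixedField U → y ≠ 0 → ∃ (c : Ω) (R : Multiset Ω),
      c ∈ fixedField (U ⊔ Subgroup.zpowers ρ) ∧
      (∀ r ∈ R, r ∈ fixedField (U ⊔ Subgroup.zpowers ρ)) ∧
      y = c * (R.map (fun r => θ - r)).prod := by
  classical
  intro y hy hy0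
  have hpowmem : ∀ (x : Ω), x ∈ fixedField U → ∀ i : ℕ, (ρ ^ i) x ∈ fixedField U := by
    intro x hx i
    induction i with
    | zero => exact hx
    | succ i ih =>
      have : (ρ ^ (i+1)) x = ρ ((ρ ^ i) x) := by rw [pow_succ']; rfl
      rw [this]
      exact hnorm _ ih
  -- injectivity of the nodes
  have hmp : Function.minimalPeriod (fun y => ρ y) θ = ℓ := by
    have h1 : Function.IsPeriodicPt (fun y => ρ y) ℓ θ := by
      unfold Function.IsPeriodicPt Function.IsFixedPt
      rw [← pow_apply_iter]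
      exact hρ θ hθ
    have h2 := h1.minimalPeriod_dvd
    rcases (Nat.dvd_prime hℓ).mp h2 with h3 | h3
    · exfalso
      apply hθ'
      have := Function.isPeriodicPt_minimalPeriod (fun y => ρ y) θ
      rw [h3] at this
      exact this
    · exact h3
  set v : ℕ → Ω := fun i => (ρ ^ i) θ with hv
  set r : ℕ → Ω := fun i => (ρ ^ i) y with hr
  have hinj : Set.InjOn v (Finset.range ℓ : Set ℕ) := by
    intro i hi j hj hij
    have := Function.iterate_injOn_Iio_minimalPeriod (f := fun y => ρ y) (x := θ)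
    rw [hmp] at this
    apply this
    · simpa using hi
    · simpa using hj
    · simp only [hv, pow_apply_iter] at hij
      exact hij
  set g : Polynomial Ω := Lagrange.interpolate (Finset.range ℓ) v r with hg
  have hdeg : g.degree < ((Finset.range ℓ).card : WithBot ℕ) :=
    Lagrange.degree_interpolate_lt _ hinj
  have heval : ∀ i ∈ Finset.range ℓ, g.eval (v i) = r i := fun i hi =>
    Lagrange.eval_interpolate_at_node _ hinj hi
  have hmapeval : ∀ (h : Ω ≃ₐ[K] Ω) (x : Ω),
      (g.map ((h : Ω →ₐ[K] Ω) : Ω →+* Ω)).eval (h x) = h (g.eval x) := by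
    intro h x
    rw [eval_map]
    exact eval₂_at_apply ((h : Ω →ₐ[K] Ω) : Ω →+* Ω) x
  have hmapdeg : ∀ h : Ω ≃ₐ[K] Ω,
      (g.map ((h : Ω →ₐ[K] Ω) : Ω →+* Ω)).degree < ((Finset.range ℓ).card : WithBot ℕ) := by
    intro h
    exact lt_of_le_of_lt degree_map_le hdeg
  -- invariance
  have hinvU : ∀ h ∈ U, g.map ((h : Ω →ₐ[K] Ω) : Ω →+* Ω) = g := by
    intro h hh
    apply Polynomial.eq_of_degrees_lt_of_eval_index_eq (Finset.range ℓ) hinj (hmapdeg h) hdeg
    intro i hi
    have h1 : h (v i) = v i := (mem_fx.mp (hpowmem θ hθ i)) h hh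
    have h2 : h (r i) = r i := (mem_fx.mp (hpowmem y hy i)) h hh
    have h3 := hmapeval h (v i)
    rw [h1, heval i hi, h2] at h3
    rw [h3, heval i hi]
  have hinvρ : g.map ((ρ : Ω →ₐ[K] Ω) : Ω →+* Ω) = g := by
    apply Polynomial.eq_of_degrees_lt_of_eval_index_eq (Finset.range ℓ) hinj (hmapdeg ρ) hdeg
    intro i hi
    rw [heval i hi]
    by_cases h0 : i = 0
    · subst h0
      have hℓ1 : ℓ - 1 ∈ Finset.range ℓ := by
        rw [Finset.mem_range]; have := hℓ.pos; omega
      have hs : ∀ x : Ω, ρ ((ρ ^ (ℓ - 1)) x) = (ρ ^ ℓ) x := by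
        intro x
        have : ρ ^ ℓ = ρ * ρ ^ (ℓ - 1) := by
          rw [← pow_succ']
          congr 1
          have := hℓ.pos; omega
        rw [this]
        rfl
      have h3 := hmapeval ρ (v (ℓ - 1))
      rw [heval _ hℓ1] at h3
      simp only [hv, hr] at h3 ⊢
      rw [hs θ, hs y, hρ θ hθ, hρ y hy] at h3
      simpa using h3
    · obtain ⟨j, rfl⟩ : ∃ j, i = j + 1 := ⟨i - 1, by omega⟩
      have hj : j ∈ Finset.range ℓ := by
        rw [Finset.mem_range] at hi ⊢; omega
      have hs : ∀ x : Ω, ρ ((ρ ^ j) x) = (ρ ^ (j + 1)) x := by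
        intro x
        rw [pow_succ']
        rfl
      have h3 := hmapeval ρ (v j)
      rw [heval _ hj] at h3
      simp only [hv, hr] at h3 ⊢
      rw [hs θ, hs y] at h3
      exact h3
  have hcoeff : ∀ n, g.coeff n ∈ fixedField (U ⊔ Subgroup.zpowers ρ) := by
    intro n
    rw [mem_fx_sup_zpowers]
    constructor
    · rw [mem_fx]
      intro h hh
      have := congrArg (fun q => q.coeff n) (hinvU h hh)
      simpa [coeff_map] using this
    · have := congrArg (fun q => q.coeff n) hinvρ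
      simpa [coeff_map] using this
  have hinv : ∀ h ∈ U ⊔ Subgroup.zpowers ρ, g.map ((h : Ω →ₐ[K] Ω) : Ω →+* Ω) = g := by
    intro h hh
    ext n
    rw [coeff_map]
    exact (mem_fx.mp (hcoeff n)) h hh
  have hθ0 : (0 : ℕ) ∈ Finset.range ℓ := by
    rw [Finset.mem_range]; exact hℓ.pos
  have hgθ : g.eval θ = y := by
    have := heval 0 hθ0
    simpa [hv, hr] using this
  have hg0 : g ≠ 0 := by
    intro h
    rw [h] at hgθ
    apply hy0
    rw [← hgθ]
    simp
  have hnat : g.natDegree < ℓ := by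
    rw [Finset.card_range] at hdeg
    rwa [Polynomial.natDegree_lt_iff_degree_lt hg0]
  have hspl : g.Splits := IsAlgClosed.splits g
  refine ⟨g.leadingCoeff, g.roots, hcoeff _, ?_, ?_⟩
  · intro x hx
    rw [mem_fx]
    intro h hh
    have hroot : g.eval x = 0 := by
      rw [mem_roots hg0] at hx
      exact hx
    have hroots : ∀ i : ℕ, (h ^ i) x ∈ g.roots.toFinset := by
      intro i
      rw [Multiset.mem_toFinset, mem_roots hg0]
      have hi : h ^ i ∈ U ⊔ Subgroup.zpowers ρ := Subgroup.pow_mem _ hh i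
      have h3 := hmapeval (h ^ i) x
      rw [hinv _ hi, hroot, map_zero] at h3
      exact h3
    obtain ⟨n, hn⟩ := sp h hh x
    have hper : Function.IsPeriodicPt (fun y => h y) (ℓ ^ n) x := by
      unfold Function.IsPeriodicPt Function.IsFixedPt
      rw [← pow_apply_iter]
      exact hn
    have hdvd := hper.minimalPeriod_dvd
    set m := Function.minimalPeriod (fun y => h y) x with hm
    have hle : m ≤ g.natDegree := by
      have hinj2 : Set.InjOn (fun i => (h ^ i) x) (Finset.range m : Set ℕ) := by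
        intro i hi j hj hij
        have := Function.iterate_injOn_Iio_minimalPeriod (f := fun y => h y) (x := x)
        rw [← hm] at this
        apply this
        · simpa using hi
        · simpa using hj
        · simp only [pow_apply_iter] at hij
          exact hij
      have hcard : (Finset.range m).card ≤ g.roots.toFinset.card := by
        apply Finset.card_le_card_of_injOn (fun i => (h ^ i) x)
        · intro i _
          exact hroots i
        · exact hinj2
      rw [Finset.card_range] at hcard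
      exact hcard.trans ((Multiset.toFinset_card_le _).trans (card_roots' g))
    have hm1 : m = 1 := by
      obtain ⟨k, hk, hmk⟩ := (Nat.dvd_prime_pow hℓ).mp hdvd
      rcases Nat.eq_zero_or_pos k with h0 | h0
      · rw [h0] at hmk; simpa using hmk
      · exfalso
        have : ℓ ≤ m := by
          rw [hmk]
          exact Nat.le_self_pow (by omega) ℓ
        omega
    have := Function.isPeriodicPt_minimalPeriod (fun y => h y) x
    rw [← hm, hm1] at this
    exact this
  · rw [← hgθ]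
    exact hspl.eval_eq_prod_roots θ

/-- Bass–Tate for a cyclic layer of degree dividing `ℓ`. -/
theorem kills_of_layer [IsAlgClosed Ω] {A : Type*} [AddCommGroup A] (ℓ : ℕ) (hℓ : ℓ.Prime)
    (U : Subgroup (Ω ≃ₐ[K] Ω))
    (ρ : Ω ≃ₐ[K] Ω) (hnorm : ∀ x ∈ fixedField U, ρ x ∈ fixedField U)
    (hρ : ∀ x ∈ fixedField U, (ρ ^ ℓ) x = x)
    (sp : ∀ g ∈ U ⊔ Subgroup.zpowers ρ, ∀ x : Ω, ∃ n, (g ^ (ℓ ^ n)) x = x)
    (s : Ω → Ω → A) (hs : IsSymb (fixedField U) s)
    (h0 : ∀ c y, c ∈ fixedField (U ⊔ Subgroup.zpowers ρ) → y ∈ fixedField U → c ≠ 0 → y ≠ 0 →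
      s c y = 0) :
    Kills (fixedField U) s := by
  by_cases hall : ∀ θ ∈ fixedField U, ρ θ = θ
  · intro a b ha hb ha0 hb0
    exact h0 a b (mem_fx_sup_zpowers.mpr ⟨ha, hall a ha⟩) hb ha0 hb0
  · push Not at hall
    obtain ⟨θ, hθ, hθ'⟩ := hall
    exact hs.bass_tate _ (fx_anti le_sup_left) θ hθ
      (gen_of_sp ℓ hℓ U ρ hnorm hρ sp θ hθ hθ') h0

end Pool.Agent.Bog
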