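import Pool.Agent.Bog.Emb2

/-!
The class-two embedding property and cup products.
-/

set_option autoImplicit false
set_option linter.unusedVariables false
set_option linter.unusedSectionVars false
set_option linter.style.haveILetI false

namespace Pool.Agent.Bog

open IntermediateField

/-- For subgroups `N ≤ U` of a topological group: for every central extension `α : B → A` of a
finite abelian group `A` by a finite group and every homomorphism `φ : U → A` with open kernel
there is a homomorphism `ψ : N → B` with open kernel and `α ∘ ψ = φ|_N`. -/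
def ClassTwo {G : Type*} [Group G] [TopologicalSpace G] (N U : Subgroup G) (h : N ≤ U) : Prop :=
  ∀ (A B : Type) [CommGroup A] [Group B] [Finite B] (α : B →* A), Function.Surjective α →
    α.ker ≤ Subgroup.center B → ∀ φ : U →* A, IsOpen (φ.ker : Set U) →
      ∃ ψ : N →* B, IsOpen (ψ.ker : Set N) ∧ ∀ g : N, α (ψ g) = φ (Subgroup.inclusion h g)

/-- the Heisenberg group over `ℤ/n` -/
@[ext] structure Heis (n : ℕ) where
  x : ZMod n
  y : ZMod n
  z : ZMod n

namespace Heis

variable {n : ℕ}

instance : Mul (Heis n) := ⟨fun a b => ⟨a.x + b.x, a.y + b.y, a.z + b.z + a.x * b.y⟩⟩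
instance : One (Heis n) := ⟨⟨0, 0, 0⟩⟩
instance : Inv (Heis n) := ⟨fun a => ⟨-a.x, -a.y, -a.z + a.x * a.y⟩⟩

@[simp] lemma mul_x (a b : Heis n) : (a * b).x = a.x + b.x := rfl
@[simp] lemma mul_y (a b : Heis n) : (a * b).y = a.y + b.y := rfl
@[simp] lemma mul_z (a b : Heis n) : (a * b).z = a.z + b.z + a.x * b.y := rfl
@[simp] lemma one_x : (1 : Heis n).x = 0 := rfl
@[simp] lemma one_y : (1 : Heis n).y = 0 := rfl
@[simp] lemma one_z : (1 : Heis n).z = 0 := rfl
@[simp] lemma inv_x (a : Heis n) : (a⁻¹).x = -a.x := rfl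
@[simp] lemma inv_y (a : Heis n) : (a⁻¹).y = -a.y := rfl
@[simp] lemma inv_z (a : Heis n) : (a⁻¹).z = -a.z + a.x * a.y := rfl

instance : Group (Heis n) where
  mul_assoc a b c := by
    ext <;> simp <;> ring
  one_mul a := by
    ext <;> simp
  mul_one a := by
    ext <;> simp
  inv_mul_cancel a := by
    ext <;> simp

/-- the abelian quotient -/
def pr : Heis n →* Multiplicative (ZMod n × ZMod n) where
  toFun a := Multiplicative.ofAdd (a.x, a.y)
  map_one' := rfl
  map_mul' a b := rfl

lemma pr_surj : Function.Surjective (pr (n := n)) := fun a =>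
  ⟨⟨(Multiplicative.toAdd a).1, (Multiplicative.toAdd a).2, 0⟩, rfl⟩

lemma ker_le : (pr (n := n)).ker ≤ Subgroup.center (Heis n) := by
  intro a ha
  rw [MonoidHom.mem_ker] at ha
  have h1 : (a.x, a.y) = (0 : ZMod n × ZMod n) := ha
  have hx : a.x = 0 := congrArg Prod.fst h1
  have hy : a.y = 0 := congrArg Prod.snd h1
  rw [Subgroup.mem_center_iff]
  intro g
  ext
  · simp [hx]
  · simp [hy]
  · simp [hx, hy, add_comm]

instance [NeZero n] : Finite (Heis n) := by
  haveI : Finite (ZMod n × ZMod n × ZMod n) := inferInstance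
  exact Finite.of_injective (fun a : Heis n => (a.x, a.y, a.z)) (by
    intro a b h
    simp only [Prod.mk.injEq] at h
    ext
    · exact h.1
    · exact h.2.1
    · exact h.2.2)

end Heis

/-- the class-two property gives the vanishing of the cup products -/
theorem cup_of_classTwo {G : Type*} [Group G] [TopologicalSpace G] [IsTopologicalGroup G]
    {N U : Subgroup G} {h : N ≤ U} (hc : ClassTwo N U h) (n : ℕ) [NeZero n] : Cup h n := by
  intro χ χ' hχ hχ'
  let φ : U →* Multiplicative (ZMod n × ZMod n) :=
    { toFun := fun u => Multiplicative.ofAdd (χ u, χ' u)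
      map_one' := by
        have h1 : χ 1 = 0 := by
          have := hχ.1 1 1
          rw [mul_one] at this
          simpa using this
        have h2 : χ' 1 = 0 := by
          have := hχ'.1 1 1
          rw [mul_one] at this
          simpa using this
        rw [h1, h2]
        rfl
      map_mul' := fun a b => by
        rw [hχ.1, hχ'.1]
        rfl }
  have hφ : IsOpen (φ.ker : Set U) := by
    apply open_ker_of_lc
    exact (hχ.2.prodMk hχ'.2).comp Multiplicative.ofAdd
  obtain ⟨ψ, hψ, hψe⟩ := hc _ _ Heis.pr Heis.pr_surj Heis.ker_le φ hφ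
  have hlc := lc_of_open_ker ψ hψ
  refine ⟨fun g => -(ψ g).z, hlc.comp (fun a => -a.z), fun σ τ => ?_⟩
  have h1 : ∀ g : N, (ψ g).x = χ (Subgroup.inclusion h g) ∧
      (ψ g).y = χ' (Subgroup.inclusion h g) := by
    intro g
    have h2 : ((ψ g).x, (ψ g).y) = (χ (Subgroup.inclusion h g), χ' (Subgroup.inclusion h g)) :=
      hψe g
    exact ⟨congrArg Prod.fst h2, congrArg Prod.snd h2⟩
  change _ = -(ψ σ).z + -(ψ τ).z - -(ψ (σ * τ)).z
  rw [map_mul, Heis.mul_z, (h1 σ).1, (h1 τ).2]
  ring

end Pool.Agent.Bog
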