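import Pool.Agent.Bog.Layer

/-!
Reduction of the vanishing of a Steinberg symbol to the cyclic layers.
-/

set_option autoImplicit false
set_option linter.style.haveILetI false
set_option linter.unusedVariables false

namespace Pool.Agent.Bog

open IntermediateField

lemma noncyclic_pair {Q : Type*} [CommGroup Q] [Finite Q] {ℓ : ℕ} (hℓ : ℓ.Prime)
    (hQ : ∀ q : Q, ∃ n, q ^ (ℓ ^ n) = 1) (hn : ¬ IsCyclic Q) :
    ∃ σ τ : Q, σ ^ ℓ = 1 ∧ τ ^ ℓ = 1 ∧ τ ≠ 1 ∧ ∀ i : ℕ, σ * τ ^ i ≠ 1 := by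
  classical
  obtain ⟨ι, hι, n, h1, ⟨e⟩⟩ := CommGroup.equiv_prod_multiplicative_zmod_of_finite Q
  by_cases hsub : Subsingleton ι
  · exfalso
    apply hn
    rcases isEmpty_or_nonempty ι with h | h
    · haveI : Subsingleton ((i : ι) → Multiplicative (ZMod (n i))) := ⟨fun a b => by
        funext i; exact h.elim i⟩
      exact (e.isCyclic).mpr inferInstance
    · obtain ⟨i0⟩ := h
      letI : Unique ι := ⟨⟨i0⟩, fun a => Subsingleton.elim a i0⟩
      have e2 := e.trans (MulEquiv.piUnique (fun i => Multiplicative (ZMod (n i))))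
      exact (e2.isCyclic).mpr inferInstance
  · rw [not_subsingleton_iff_nontrivial] at hsub
    obtain ⟨i, j, hij⟩ := exists_pair_ne ι
    -- the element of order `ℓ` in component `i`
    have hdiv : ∀ i, ℓ ∣ n i := by
      intro i
      obtain ⟨k, hk⟩ := hQ (e.symm (Pi.mulSingle i (Multiplicative.ofAdd (1 : ZMod (n i)))))
      have h2 : (Pi.mulSingle i (Multiplicative.ofAdd (1 : ZMod (n i))) :
          (i : ι) → Multiplicative (ZMod (n i))) ^ (ℓ ^ k) = 1 := by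
        have := congrArg e hk
        rwa [map_pow, MulEquiv.apply_symm_apply, map_one e] at this
      have h3 := congrFun h2 i
      rw [Pi.pow_apply, Pi.mulSingle_eq_same, Pi.one_apply, ← ofAdd_nsmul, nsmul_eq_mul,
        mul_one, ofAdd_eq_one, ZMod.natCast_eq_zero_iff] at h3
      obtain ⟨m, hm, hnm⟩ := (Nat.dvd_prime_pow hℓ).mp h3
      rw [hnm]
      apply dvd_pow_self
      intro h0
      rw [h0, pow_zero] at hnm
      have := h1 i
      omega
    set el : (i : ι) → Multiplicative (ZMod (n i)) := fun i =>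
      Multiplicative.ofAdd ((n i / ℓ : ℕ) : ZMod (n i)) with hel
    have hel1 : ∀ i, el i ^ ℓ = 1 := by
      intro i
      rw [hel]
      simp only
      rw [← ofAdd_nsmul, ofAdd_eq_one, nsmul_eq_mul, ← Nat.cast_mul, Nat.mul_div_cancel' (hdiv i),
        ZMod.natCast_self]
    have hel2 : ∀ i, el i ≠ 1 := by
      intro i h
      rw [hel] at h
      simp only [ofAdd_eq_one] at h
      rw [ZMod.natCast_eq_zero_iff] at h
      have hpos : 0 < n i / ℓ := Nat.div_pos (Nat.le_of_dvd (by have := h1 i; omega) (hdiv i)) hℓ.pos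
      have hlt : n i / ℓ < n i := Nat.div_lt_self (by have := h1 i; omega) hℓ.one_lt
      have := Nat.le_of_dvd hpos h
      omega
    have hcomp : ∀ (f : (i : ι) → Multiplicative (ZMod (n i))), e (e.symm f) = f := fun f =>
      e.apply_symm_apply f
    refine ⟨e.symm (Pi.mulSingle i (el i)), e.symm (Pi.mulSingle j (el j)), ?_, ?_, ?_, ?_⟩
    · rw [← map_pow, ← Pi.mulSingle_pow, hel1, Pi.mulSingle_one, map_one]
    · rw [← map_pow, ← Pi.mulSingle_pow, hel1, Pi.mulSingle_one, map_one]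
    · intro h
      have h2 := congrArg e h
      rw [hcomp, map_one] at h2
      have h3 := congrFun h2 j
      rw [Pi.mulSingle_eq_same] at h3
      exact hel2 j h3
    · intro k h
      have h2 := congrArg e h
      rw [map_mul, map_pow, hcomp, hcomp, map_one] at h2
      have h3 := congrFun h2 i
      rw [Pi.mul_apply, Pi.pow_apply, Pi.mulSingle_eq_same, Pi.mulSingle_eq_of_ne hij, one_pow,
        mul_one] at h3
      exact hel2 i h3

variable {K Ω : Type*} [Field K] [Field Ω] [Algebra K Ω]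
variable {ℓ : ℕ} {P N : Subgroup (Ω ≃ₐ[K] Ω)}

lemma Std.normal (hS : Std ℓ P N) {U : Subgroup (Ω ≃ₐ[K] Ω)} (hNU : N ≤ U) (hUP : U ≤ P) :
    (U.subgroupOf P).Normal := by
  refine ⟨fun n hn g => ?_⟩
  rw [Subgroup.mem_subgroupOf] at hn ⊢
  have hc : (g : Ω ≃ₐ[K] Ω) * n * (g : Ω ≃ₐ[K] Ω)⁻¹ * (n : Ω ≃ₐ[K] Ω)⁻¹ ∈ U := by
    apply hNU
    apply hS.hcomm
    have := Subgroup.commutator_mem_commutator g.2 n.2
    rwa [commutatorElement_def] at this
  have := U.mul_mem hc hn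
  simpa using this

lemma pair_of_noncyclic (hS : Std ℓ P N) {U : Subgroup (Ω ≃ₐ[K] Ω)} (hNU : N ≤ U) (hUP : U ≤ P)
    (hfin : U.relIndex P ≠ 0) (htor : ∀ g ∈ P, ∃ n, g ^ (ℓ ^ n) ∈ U)
    (hn : ¬ ∃ ρ ∈ P, P ≤ U ⊔ Subgroup.zpowers ρ) :
    ∃ σ ∈ P, ∃ τ ∈ P, σ ^ ℓ ∈ U ∧ τ ^ ℓ ∈ U ∧ τ ∉ U ∧ ∀ i : ℕ, σ * τ ^ i ∉ U := by
  haveI hnorm := hS.normal hNU hUP
  have hcm : ∀ a b : ↥P ⧸ U.subgroupOf P, a * b = b * a := by
    intro a b
    induction a using QuotientGroup.induction_on with | _ a => ?_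
    induction b using QuotientGroup.induction_on with | _ b => ?_
    rw [← QuotientGroup.mk_mul, ← QuotientGroup.mk_mul, QuotientGroup.eq,
      Subgroup.mem_subgroupOf]
    apply hNU
    apply hS.hcomm
    have := Subgroup.commutator_mem_commutator (P.inv_mem b.2) (P.inv_mem a.2)
    rw [commutatorElement_def] at this
    simpa [mul_assoc] using this
  letI : CommGroup (↥P ⧸ U.subgroupOf P) :=
    { (inferInstance : Group (↥P ⧸ U.subgroupOf P)) with mul_comm := hcm }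
  haveI : Finite (↥P ⧸ U.subgroupOf P) := by
    apply Nat.finite_of_card_ne_zero
    exact hfin
  have hone : ∀ x : ↥P, (QuotientGroup.mk x : ↥P ⧸ U.subgroupOf P) = 1 ↔ (x : Ω ≃ₐ[K] Ω) ∈ U := by
    intro x
    rw [QuotientGroup.eq_one_iff, Subgroup.mem_subgroupOf]
  have h1 : ∀ q : ↥P ⧸ U.subgroupOf P, ∃ n, q ^ (ℓ ^ n) = 1 := by
    intro q
    induction q using QuotientGroup.induction_on with | _ a => ?_
    obtain ⟨n, hn⟩ := htor a a.2
    refine ⟨n, ?_⟩
    rw [← QuotientGroup.mk_pow, hone]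
    simpa using hn
  have h2 : ¬ IsCyclic (↥P ⧸ U.subgroupOf P) := by
    intro hc
    apply hn
    obtain ⟨q, hq⟩ := hc
    induction q using QuotientGroup.induction_on with | _ ρ => ?_
    refine ⟨ρ, ρ.2, fun g hg => ?_⟩
    obtain ⟨k, hk⟩ := Subgroup.mem_zpowers_iff.mp (hq (QuotientGroup.mk ⟨g, hg⟩))
    rw [← QuotientGroup.mk_zpow, QuotientGroup.eq, Subgroup.mem_subgroupOf] at hk
    have h3 : g = (ρ : Ω ≃ₐ[K] Ω) ^ k * (((ρ : Ω ≃ₐ[K] Ω) ^ k)⁻¹ * g) := by group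
    rw [h3]
    apply Subgroup.mul_mem
    · exact (le_sup_right : Subgroup.zpowers _ ≤ _) (Subgroup.zpow_mem_zpowers _ k)
    · exact (le_sup_left : U ≤ _) (by simpa using hk)
  obtain ⟨σ, τ, h3, h4, h5, h6⟩ := noncyclic_pair hS.hℓ h1 h2
  induction σ using QuotientGroup.induction_on with | _ σ => ?_
  induction τ using QuotientGroup.induction_on with | _ τ => ?_
  rw [← QuotientGroup.mk_pow, hone] at h3 h4
  rw [ne_eq, hone] at h5
  refine ⟨σ, σ.2, τ, τ.2, by simpa using h3, by simpa using h4, h5, fun i => ?_⟩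
  have h7 := h6 i
  rw [← QuotientGroup.mk_pow, ← QuotientGroup.mk_mul, ne_eq, hone] at h7
  simpa using h7

variable {A : Type*} [AddCommGroup A]

/-- **Reduction to the cyclic layers.** -/
theorem kills_of_cyclic [IsAlgClosed Ω] (hS : Std ℓ P N) (s : Ω → Ω → A)
    (hs : IsSymb (fixedField N) s) (U0 : Subgroup (Ω ≃ₐ[K] Ω)) (hNU0 : N ≤ U0)
    (hcyc : ∀ V, U0 ≤ V → V ≤ P → (∃ ρ ∈ P, P ≤ V ⊔ Subgroup.zpowers ρ) →
      Kills (fixedField V) s) (d : ℕ) :
    ∀ U : Subgroup (Ω ≃ₐ[K] Ω), U0 ≤ U → U ≤ P → U.relIndex P = d → d ≠ 0 →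
      (∀ g ∈ P, ∃ n, g ^ (ℓ ^ n) ∈ U) →
      ∀ a b, a ∈ fixedField U → b ∈ fixedField U → a ≠ 0 → b ≠ 0 → (ℓ ^ d) • s a b = 0 := by
  induction d using Nat.strong_induction_on with
  | _ d ih =>
    intro U hU hUP hd hd0 htor a b ha hb ha0 hb0
    by_cases hc : ∃ ρ ∈ P, P ≤ U ⊔ Subgroup.zpowers ρ
    · rw [hcyc U hU hUP hc a b ha hb ha0 hb0, smul_zero]
    · have hNU : N ≤ U := hNU0.trans hU
      obtain ⟨σ, hσ, τ, hτ, hσℓ, hτℓ, hτU, hστ⟩ :=
        pair_of_noncyclic hS hNU hUP (by rw [hd]; exact hd0) htor hc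
      have key : ∀ ρ ∈ P, ρ ∉ U → ∀ a b, a ∈ fixedField (U ⊔ Subgroup.zpowers ρ) →
          b ∈ fixedField (U ⊔ Subgroup.zpowers ρ) → a ≠ 0 → b ≠ 0 →
          (ℓ ^ (d - 1)) • s a b = 0 := by
        intro ρ hρ hρU a b ha hb ha0 hb0
        have hle : U ⊔ Subgroup.zpowers ρ ≤ P := by
          rw [sup_le_iff, Subgroup.zpowers_le]
          exact ⟨hUP, hρ⟩
        have hmul := Subgroup.relIndex_mul_relIndex U (U ⊔ Subgroup.zpowers ρ) P le_sup_left hle
        rw [hd] at hmul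
        have hd1 : (U ⊔ Subgroup.zpowers ρ).relIndex P ≠ 0 := by
          intro h0
          rw [h0, mul_zero] at hmul
          exact hd0 hmul.symm
        have hi1 : U.relIndex (U ⊔ Subgroup.zpowers ρ) ≠ 1 := by
          intro h0
          rw [Subgroup.relIndex_eq_one] at h0
          exact hρU (h0 ((le_sup_right : Subgroup.zpowers ρ ≤ _) (Subgroup.mem_zpowers ρ)))
        have hi0 : U.relIndex (U ⊔ Subgroup.zpowers ρ) ≠ 0 := by
          intro h0
          rw [h0, zero_mul] at hmul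
          exact hd0 hmul.symm
        have hlt : (U ⊔ Subgroup.zpowers ρ).relIndex P < d := by
          have h2 : 2 ≤ U.relIndex (U ⊔ Subgroup.zpowers ρ) := by omega
          have h3 : 0 < (U ⊔ Subgroup.zpowers ρ).relIndex P := Nat.pos_of_ne_zero hd1
          nlinarith
        have := ih _ hlt (U ⊔ Subgroup.zpowers ρ) (hU.trans le_sup_left) hle rfl hd1
          (fun g hg => by
            obtain ⟨n, hn⟩ := htor g hg
            exact ⟨n, (le_sup_left : U ≤ _) hn⟩) a b ha hb ha0 hb0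
        obtain ⟨k, hk⟩ : ∃ k, d - 1 = k + (U ⊔ Subgroup.zpowers ρ).relIndex P :=
          ⟨d - 1 - (U ⊔ Subgroup.zpowers ρ).relIndex P, by omega⟩
        rw [hk, pow_add, mul_smul, this, smul_zero]
      have := layer_step hS hNU hUP (ℓ ^ (d - 1)) s hs hσ hτ hσℓ hτℓ (key τ hτ hτU)
        (fun i _ => key (σ * τ ^ i) (P.mul_mem hσ (P.pow_mem hτ i)) (hστ i)) a b ha hb ha0 hb0
      have hdd : d = (d - 1) + 1 := by omega
      rw [hdd, pow_succ, mul_comm]
      exact this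

/-- cyclic layers of order dividing `ℓ` are killed by Bass–Tate -/
theorem kills_small [IsAlgClosed Ω] (hS : Std ℓ P N) (s : Ω → Ω → A)
    (hs : IsSymb (fixedField N) s)
    (h0 : ∀ a b, a ∈ fixedField P → b ∈ fixedField N → a ≠ 0 → b ≠ 0 → s a b = 0)
    (V : Subgroup (Ω ≃ₐ[K] Ω)) (hNV : N ≤ V) (hVP : V ≤ P) (ρ : Ω ≃ₐ[K] Ω) (hρ : ρ ∈ P)
    (hc : P ≤ V ⊔ Subgroup.zpowers ρ) (hρℓ : ρ ^ ℓ ∈ V) : Kills (fixedField V) s := by
  have hle : V ⊔ Subgroup.zpowers ρ ≤ P := by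
    rw [sup_le_iff, Subgroup.zpowers_le]
    exact ⟨hVP, hρ⟩
  apply kills_of_layer ℓ hS.hℓ V ρ (fun x hx => hS.act_mem hNV hVP hρ hx)
    (fun x hx => (mem_fx.mp hx) _ hρℓ) (fun g hg x => hS.sp g (hle hg) x) s
    (hs.mono (fx_anti hNV))
  intro c y hc' hy hc0 hy0
  exact h0 c y (fx_anti hc hc') (fx_anti hNV hy) hc0 hy0

end Pool.Agent.Bog
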