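import Pool.Agent.Bog.Emb5
import Pool.Agent.Bog.Frat

/-!
Central embedding problems with abelian quotient for homomorphisms that factor through the field
generated by `ℓ`-power roots of the elements of an isotropic set.
-/

set_option autoImplicit false
set_option linter.unusedVariables false
set_option linter.unusedSectionVars false
set_option linter.style.haveILetI false

namespace Pool.Agent.Bog

open IntermediateField

variable {K Ω : Type*} [Field K] [Field Ω] [Algebra K Ω] [Algebra.IsAlgebraic K Ω]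
  [IsAlgClosed Ω] {N P : Subgroup (Ω ≃ₐ[K] Ω)} {ℓ : ℕ} {c : ℕ → ℕ}

/-- an isotropic submonoid -/
structure Iso (ℓ : ℕ) (N : Subgroup (Ω ≃ₐ[K] Ω)) (C : Submonoid Ω) : Prop where
  mem : ∀ {x : Ω}, x ∈ C → x ∈ fixedField N ∧ x ≠ 0
  zero : ∀ (m : ℕ) [NeZero (ℓ ^ m)] {ζ : K}, IsPrimitiveRoot ζ (ℓ ^ m) → ∀ {x y : Ω},
    x ∈ C → y ∈ C → sN N (ℓ ^ m) ζ x y = 0

/-- symbols of elements that are classical up to `ℓ`-powers vanish -/
lemma rc_zero' (hX : Ctx ℓ P N c) {C : Submonoid Ω} (hC : Iso ℓ N C) (E : ℕ) [NeZero (ℓ ^ E)] {ζ : K}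
    (hζ : IsPrimitiveRoot ζ (ℓ ^ E)) {u u' : Ω} (hu : u ∈ fixedField N) (hu' : u' ∈ fixedField N)
    (hu0 : u ≠ 0) (hu0' : u' ≠ 0) {e e' : ℕ} (he : u ^ (ℓ ^ e) ∈ C)
    (he' : u' ^ (ℓ ^ e') ∈ C) : sN N (ℓ ^ E) ζ u u' = 0 := by
  haveI : NeZero ℓ := ⟨hX.hℓ.ne_zero⟩
  haveI i1 : NeZero (ℓ ^ (e + e')) := inferInstance
  haveI i2 : NeZero (ℓ ^ (e + e' + E)) := inferInstance
  haveI i3 : NeZero (ℓ ^ (e + e') * ℓ ^ E) := ⟨mul_ne_zero (NeZero.ne _) (NeZero.ne _)⟩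
  obtain ⟨ζ', hζ'⟩ := hX.hroots (e + e' + E)
  have hs := sN_symb (Ω := Ω) N hζ'
  have hpl : ∀ (n : ℕ) {x y : Ω}, x ∈ fixedField N → y ∈ fixedField N → x ≠ 0 → y ≠ 0 →
      sN N (ℓ ^ (e + e' + E)) ζ' (x ^ n) y = n • sN N (ℓ ^ (e + e' + E)) ζ' x y := by
    intro n x y hx hy hx0 hy0
    induction n with
    | zero => rw [pow_zero, hs.one_left hy hy0, zero_smul]
    | succ n ih =>
      rw [pow_succ, hs.mul_left _ _ _ (pow_mem hx n) hx hy (pow_ne_zero n hx0) hx0 hy0, ih,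
        succ_nsmul]
  have hpr : ∀ (n : ℕ) {x y : Ω}, x ∈ fixedField N → y ∈ fixedField N → x ≠ 0 → y ≠ 0 →
      sN N (ℓ ^ (e + e' + E)) ζ' x (y ^ n) = n • sN N (ℓ ^ (e + e' + E)) ζ' x y := by
    intro n x y hx hy hx0 hy0
    induction n with
    | zero => rw [pow_zero, hs.one_right hx hx0, zero_smul]
    | succ n ih =>
      rw [pow_succ, hs.mul_right _ _ _ hx (pow_mem hy n) hy hx0 (pow_ne_zero n hy0) hy0, ih,
        succ_nsmul]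
  have h1 := hC.zero (e + e' + E) hζ' he he'
  rw [hpl _ hu (pow_mem hu' _) hu0 (pow_ne_zero _ hu0'), hpr _ hu hu' hu0 hu0', smul_smul,
    ← pow_add] at h1
  have hkm : ∀ (n : ℕ) (hn : n = ℓ ^ (e + e' + E)) [NeZero n],
      ℓ ^ (e + e') • sN N n ζ' u u' = 0 := by
    intro n hn _
    subst hn
    exact h1
  have hζn : IsPrimitiveRoot ζ' (ℓ ^ (e + e') * ℓ ^ E) := by rw [← pow_add]; exact hζ'
  have h2 := lift_symbol N (c := ℓ ^ (e + e')) (n := ℓ ^ E) (ζ' := ζ') hζn hu hu' hu0 hu0'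
    (hkm _ (pow_add ℓ (e + e') E).symm)
  have hζ₂ : IsPrimitiveRoot (ζ' ^ (ℓ ^ (e + e'))) (ℓ ^ E) :=
    hζ'.pow (Nat.pos_of_ne_zero (NeZero.ne _)) (pow_add ℓ (e + e') E)
  exact sN_root_indep N hζ hζ₂ hu hu' hu0 hu0' h2

lemma kummer_iso (hX : Ctx ℓ P N c) {C : Submonoid Ω} (hC : Iso ℓ N C) [NeZero ℓ] {r : ℕ} (ρ : Fin r → Ω)
    (hρ0 : ∀ i, ρ i ≠ 0)
    {e j : ℕ} (hρ : ∀ i, (ρ i) ^ (ℓ ^ (e + j)) ∈ C) {ζ' : K}
    (hζ' : IsPrimitiveRoot ζ' (ℓ ^ (e + j))) (χ : N → ZMod (ℓ ^ j)) (hχ : Hm χ)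
    (hk : ∀ g : N, (∀ i, (g : Ω ≃ₐ[K] Ω) (ρ i) = ρ i) → χ g = 0) :
    ∃ γ : Ω, γ ≠ 0 ∧ (∀ g : N, (g : Ω ≃ₐ[K] Ω) γ =
      ex (algebraMap K Ω (ζ' ^ (ℓ ^ e))) (χ g) * γ) ∧ (γ ^ (ℓ ^ j)) ^ (ℓ ^ e) ∈ C := by
  set z : Ω := algebraMap K Ω ζ' with hz
  have hzp : IsPrimitiveRoot z (ℓ ^ (e + j)) := hzΩ hζ'
  have hζj : IsPrimitiveRoot (ζ' ^ (ℓ ^ e)) (ℓ ^ j) :=
    hζ'.pow (Nat.pos_of_ne_zero (NeZero.ne _)) (pow_add ℓ e j)
  have hzj : IsPrimitiveRoot (algebraMap K Ω (ζ' ^ (ℓ ^ e))) (ℓ ^ j) := hzΩ hζj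
  have hfix : ∀ (g : N) i, (g : Ω ≃ₐ[K] Ω) ((ρ i) ^ (ℓ ^ (e + j))) = (ρ i) ^ (ℓ ^ (e + j)) :=
    fun g i => (mem_fx.mp (hC.mem (hρ i)).1) g g.2
  set κ : Fin r → N → ZMod (ℓ ^ (e + j)) := fun i g => kap (ℓ ^ (e + j)) z (ρ i) (g : Ω ≃ₐ[K] Ω)
    with hκ
  have hκs : ∀ i (g : N), (g : Ω ≃ₐ[K] Ω) (ρ i) = ex z (κ i g) * ρ i := fun i g =>
    kap_spec hζ' (hρ0 i) (hfix g i)
  have hκh : ∀ i, Hm (κ i) := fun i g h => kap_mul_right hζ' (hρ0 i) (hfix g i) (hfix h i)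
  -- multiplication by `ℓ ^ e`
  set mm : ZMod (ℓ ^ j) → ZMod (ℓ ^ (e + j)) := fun y => ((ℓ ^ e * y.val : ℕ) : ZMod (ℓ ^ (e + j)))
    with hmm
  have hmme : ∀ y : ZMod (ℓ ^ j), ex z (mm y) = ex (algebraMap K Ω (ζ' ^ (ℓ ^ e))) y := by
    intro y
    rw [hmm]
    simp only
    rw [ex_natCast hzp, pow_mul, hz, ← map_pow]
    rfl
  have hχ' : Hm (fun g => mm (χ g)) := by
    intro g h
    apply ex_inj hzp
    simp only
    rw [ex_add hzp, hmme, hmme, hmme, hχ, ex_add hzj]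
  obtain ⟨b, hb⟩ := span_fin hX.hℓ (e + j) r κ (fun g => mm (χ g)) hκh hχ' (by
    intro g hg
    have h1 : χ g = 0 := by
      apply hk
      intro i
      rw [hκs i g, hg i, ex_zero hzp, one_mul]
    rw [h1, hmm]
    simp)
  refine ⟨∏ i, (ρ i) ^ (b i).val, Finset.prod_ne_zero_iff.mpr fun i _ => pow_ne_zero _ (hρ0 i),
    fun g => ?_, ?_⟩
  · rw [← hmme, map_prod]
    have h1 : mm (χ g) = ∑ i, b i * κ i g := hb g
    rw [h1, ex_sum hzp, ← Finset.prod_mul_distrib]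
    apply Finset.prod_congr rfl
    intro i _
    rw [map_pow, hκs i g, mul_pow, ex_pow_nat hzp, ZMod.natCast_zmod_val]
  · rw [← pow_mul, ← pow_add, add_comm j e, ← Finset.prod_pow]
    apply Submonoid.prod_mem
    intro i _
    rw [← pow_mul, mul_comm, pow_mul]
    exact Submonoid.pow_mem _ (hρ i) _

lemma lift_iso (hX : Ctx ℓ P N c) {C : Submonoid Ω} (hC : Iso ℓ N C) [NeZero ℓ] {r : ℕ} (ρ : Fin r → Ω)
    (hρ0 : ∀ i, ρ i ≠ 0)
    {m : ℕ} (hρ : ∀ i, (ρ i) ^ (ℓ ^ m) ∈ C) {n E : ℕ} [NeZero n]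
    (hn : ∃ j ≤ E, n = ℓ ^ j) {ζt : K} (hζt : IsPrimitiveRoot ζt (ℓ ^ (m + E)))
    (χ : N → ZMod n) (hχ : Hm χ)
    (hk : ∀ g : N, (∀ i, (g : Ω ≃ₐ[K] Ω) (ρ i) = ρ i) → χ g = 0) :
    ∃ γ : Ω, γ ≠ 0 ∧ γ ^ (ℓ ^ E) ∈ fixedField N ∧ (∃ e, (γ ^ (ℓ ^ E)) ^ (ℓ ^ e) ∈ C) ∧
      ∀ g : N, (((kap (ℓ ^ E) (algebraMap K Ω (ζt ^ (ℓ ^ m))) γ (g : Ω ≃ₐ[K] Ω)).val : ℕ) :
        ZMod n) = χ g := by
  obtain ⟨j, hjE, rfl⟩ := hn
  obtain ⟨d, rfl⟩ := Nat.exists_eq_add_of_le hjE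
  have hζ' : IsPrimitiveRoot (ζt ^ (ℓ ^ d)) (ℓ ^ (m + j)) :=
    hζt.pow (Nat.pos_of_ne_zero (NeZero.ne _)) (by rw [← pow_add]; congr 1; ring)
  have hζ : IsPrimitiveRoot (ζt ^ (ℓ ^ m)) (ℓ ^ (j + d)) :=
    hζt.pow (Nat.pos_of_ne_zero (NeZero.ne _)) (by rw [← pow_add])
  have hζe : (ζt ^ (ℓ ^ d)) ^ (ℓ ^ m) = (ζt ^ (ℓ ^ m)) ^ (ℓ ^ d) := by
    rw [← pow_mul, ← pow_mul, mul_comm]
  have hζj : IsPrimitiveRoot ((ζt ^ (ℓ ^ m)) ^ (ℓ ^ d)) (ℓ ^ j) :=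
    hζ.pow (Nat.pos_of_ne_zero (NeZero.ne _)) (by rw [← pow_add]; congr 1; ring)
  set ρ' : Fin r → Ω := fun i => rt (ℓ ^ j) (ρ i) with hρ'
  have hρ'p : ∀ i, (ρ' i) ^ (ℓ ^ j) = ρ i := fun i => rt_pow _ _
  obtain ⟨γ0, hγ00, hγ0g, hγ0c⟩ := kummer_iso hX hC (e := m) (j := j) ρ'
    (fun i => rt_ne_zero _ (hρ0 i))
    (by
      intro i
      rw [add_comm m j, pow_add, pow_mul, hρ'p]
      exact hρ i) hζ' χ hχ
    (by
      intro g hg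
      apply hk
      intro i
      rw [← hρ'p i, map_pow, hg i])
  rw [hζe] at hγ0g
  set γ : Ω := rt (ℓ ^ d) γ0 with hγ
  have hγd : γ ^ (ℓ ^ d) = γ0 := rt_pow _ _
  have hγE : γ ^ (ℓ ^ (j + d)) = γ0 ^ (ℓ ^ j) := by
    rw [add_comm j d, pow_add, pow_mul, hγd]
  have hγ0' : γ ≠ 0 := rt_ne_zero _ hγ00
  have hfix : ∀ g : N, (g : Ω ≃ₐ[K] Ω) (γ ^ (ℓ ^ (j + d))) = γ ^ (ℓ ^ (j + d)) := by
    intro g
    rw [hγE]
    exact pow_fixed_iff hζj hγ00 (hγ0g g)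
  refine ⟨γ, hγ0', mem_fx.mpr (fun g hg => hfix ⟨g, hg⟩), ⟨m, by rw [hγE]; exact hγ0c⟩,
    fun g => ?_⟩
  have h1 := kap_spec (Ω := Ω) hζ hγ0' (hfix g)
  set y := kap (ℓ ^ (j + d)) (algebraMap K Ω (ζt ^ (ℓ ^ m))) γ (g : Ω ≃ₐ[K] Ω) with hy
  apply ex_inj (hzΩ (Ω := Ω) hζj)
  apply mul_right_cancel₀ hγ00
  have h2 : (g : Ω ≃ₐ[K] Ω) γ0 =
      (ex (algebraMap K Ω (ζt ^ (ℓ ^ m))) y) ^ (ℓ ^ d) * γ0 := by
    rw [← hγd, map_pow, h1, mul_pow]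
  rw [← hγ0g g, h2]
  congr 1
  rw [ex_natCast (hzΩ (Ω := Ω) hζj), map_pow _ (ζt ^ (ℓ ^ m)) (ℓ ^ d)]
  unfold ex
  rw [← pow_mul, ← pow_mul, mul_comm]

/-- **Central embedding problems over an isotropic part.** -/
theorem embed_iso (hX : Ctx ℓ P N c) {C : Submonoid Ω} (hC : Iso ℓ N C) {A B : Type*} [CommGroup A] [Group B] [Finite B]
    (α : B →* A) (hsurj : Function.Surjective α) (hα : α.ker ≤ Subgroup.center B) {r : ℕ}
    (ρ : Fin r → Ω) (hρ0 : ∀ i, ρ i ≠ 0) {m : ℕ} (hρ : ∀ i, (ρ i) ^ (ℓ ^ m) ∈ C)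
    (φ : N →* A) (hφ : ∀ g : N, (∀ i, (g : Ω ≃ₐ[K] Ω) (ρ i) = ρ i) → φ g = 1) :
    ∃ ψ : N →* B, IsOpen (ψ.ker : Set N) ∧ ∀ g : N, α (ψ g) = φ g := by
  classical
  have hℓ := hX.hℓ
  haveI hℓn : NeZero ℓ := ⟨hℓ.ne_zero⟩
  haveI : Finite A := Finite.of_surjective α hsurj
  have hφo : IsOpen (φ.ker : Set N) := by
    have h1 : IsOpen ((⨅ i : Fin r, (MulAction.stabilizer (Ω ≃ₐ[K] Ω) (ρ i)).subgroupOf N :
        Subgroup N) : Set N) := by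
      rw [Subgroup.coe_iInf]
      apply isOpen_iInter_of_finite
      intro i
      exact (isOpen_stab (K := K) (ρ i)).preimage continuous_subtype_val
    apply Subgroup.isOpen_mono _ h1
    intro g hg
    rw [Subgroup.mem_iInf] at hg
    exact hφ g (fun i => hg i)
  have hφlc := lc_of_open_ker φ hφo
  -- values have `ℓ`-power order
  have hpow : ∀ g : N, ∃ n, φ g ^ (ℓ ^ n) = 1 := by
    intro g
    obtain ⟨E, hE, hEφ⟩ := exists_field_of_lc N (fun σ => Additive.ofMul (φ σ))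
      (fun σ τ => by rw [map_mul]; rfl) (hφlc.comp Additive.ofMul)
    obtain ⟨n, hn⟩ := exists_pow_fix (hX.hsp g (hX.hNP g.2)) E
    refine ⟨n, ?_⟩
    have := hEφ (g ^ (ℓ ^ n)) (by
      intro x hx
      have := hn x hx
      simpa using this)
    rw [map_pow] at this
    exact Additive.ofMul.injective (by simpa using this)
  -- structure of the image
  obtain ⟨ι, hι, n, h1, ⟨e⟩⟩ := CommGroup.equiv_prod_multiplicative_zmod_of_finite φ.range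
  have hn0 : ∀ i, NeZero (n i) := fun i => ⟨by have := h1 i; omega⟩
  have hdiv : ∀ i, ∃ k, n i = ℓ ^ k := by
    intro i
    obtain ⟨g, hg⟩ := (e.symm (Pi.mulSingle i (Multiplicative.ofAdd (1 : ZMod (n i))))).2
    obtain ⟨k, hk⟩ := hpow g
    rw [hg] at hk
    have h2 : (e.symm (Pi.mulSingle i (Multiplicative.ofAdd (1 : ZMod (n i))))) ^ (ℓ ^ k) = 1 := by
      apply Subtype.ext
      exact hk
    have h3 : (Pi.mulSingle i (Multiplicative.ofAdd (1 : ZMod (n i))) :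
        (i : ι) → Multiplicative (ZMod (n i))) ^ (ℓ ^ k) = 1 := by
      have := congrArg e h2
      rwa [map_pow, MulEquiv.apply_symm_apply, map_one e] at this
    have h4 := congrFun h3 i
    rw [Pi.pow_apply, Pi.mulSingle_eq_same, Pi.one_apply, ← ofAdd_nsmul, nsmul_eq_mul,
      mul_one, ofAdd_eq_one, ZMod.natCast_eq_zero_iff] at h4
    obtain ⟨j, -, hj⟩ := (Nat.dvd_prime_pow hℓ).mp h4
    exact ⟨j, hj⟩
  choose k hk using hdiv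
  obtain ⟨s, t, hst, hB⟩ := Nat.exists_eq_pow_mul_and_not_dvd (Nat.card_pos (α := B)).ne' ℓ
    hℓ.ne_one
  set E : ℕ := s + ∑ i, k i + 1 with hE
  haveI hM : NeZero (ℓ ^ E) := inferInstance
  have hkE : ∀ i, k i ≤ E := by
    intro i
    have := Finset.single_le_sum (f := k) (fun _ _ => Nat.zero_le _) (Finset.mem_univ i)
    omega
  have hnM : ∀ i, n i ∣ ℓ ^ E := by
    intro i
    rw [hk i]
    exact pow_dvd_pow ℓ (hkE i)
  obtain ⟨ζt, hζt⟩ := hX.hroots (m + E)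
  have hζ : IsPrimitiveRoot (ζt ^ (ℓ ^ m)) (ℓ ^ E) :=
    hζt.pow (Nat.pos_of_ne_zero (NeZero.ne _)) (by rw [← pow_add])
  -- an inverse of `t` modulo `ℓ ^ E`
  have hcop : Nat.Coprime t (ℓ ^ E) := by
    apply Nat.Coprime.pow_right
    rw [Nat.coprime_comm, Nat.Prime.coprime_iff_not_dvd hℓ]
    exact hst
  obtain ⟨t', -, ht'⟩ := Nat.exists_mul_mod_eq_one_of_coprime hcop
    (Nat.one_lt_pow (by omega) hℓ.one_lt)
  -- the generators and their lifts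
  set a : ι → φ.range := fun i =>
    e.symm (Pi.mulSingle i (Multiplicative.ofAdd (1 : ZMod (n i)))) with ha
  have hapow : ∀ i (j : ℕ), a i ^ j =
      e.symm (Pi.mulSingle i (Multiplicative.ofAdd ((j : ℕ) : ZMod (n i)))) := by
    intro i j
    rw [ha]
    simp only
    rw [← map_pow, ← Pi.mulSingle_pow, ← ofAdd_nsmul, nsmul_eq_mul, mul_one]
  choose b0 hb0 using fun i => hsurj ((a i : φ.range) : A)
  set b : ι → B := fun i => b0 i ^ (t * t') with hb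
  have hbM : ∀ i, b i ^ (ℓ ^ E) = 1 := by
    intro i
    have h2 : b0 i ^ (ℓ ^ s * t) = 1 := by
      rw [← hB]
      exact pow_card_eq_one'
    have h3 : E = s + (∑ i, k i + 1) := by rw [hE]; ring
    rw [hb]
    simp only
    rw [← pow_mul, h3, pow_add, show t * t' * (ℓ ^ s * ℓ ^ (∑ i, k i + 1)) =
      (ℓ ^ s * t) * (t' * ℓ ^ (∑ i, k i + 1)) by ring, pow_mul, h2, one_pow]
  have hαb : ∀ i, α (b i) = ((a i : φ.range) : A) := by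
    intro i
    rw [hb]
    simp only
    rw [map_pow, hb0]
    have h2 : a i ^ (t * t') = a i := by
      rw [hapow, ha]
      simp only
      congr 3
      have h3 : ((t * t' : ℕ) : ZMod (n i)) = ((1 : ℕ) : ZMod (n i)) := by
        rw [ZMod.natCast_eq_natCast_iff]
        apply Nat.ModEq.of_dvd (hnM i)
        have h5 : t * t' % (ℓ ^ E) = 1 := ht'
        unfold Nat.ModEq
        rw [h5, Nat.mod_eq_of_lt (Nat.one_lt_pow (by omega) hℓ.one_lt)]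
      rw [h3, Nat.cast_one]
    have h4 := congrArg (fun x : φ.range => (x : A)) h2
    simpa using h4
  -- the characters
  set χ : (i : ι) → N → ZMod (n i) := fun i g =>
    Multiplicative.toAdd (e (φ.rangeRestrict g) i) with hχ
  have hχc : ∀ i, Hm (χ i) := by
    intro i σ τ
    rw [hχ]
    simp only
    rw [map_mul, map_mul, Pi.mul_apply, toAdd_mul]
  have hχk : ∀ i (g : N), (∀ i, (g : Ω ≃ₐ[K] Ω) (ρ i) = ρ i) → χ i g = 0 := by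
    intro i g hg
    rw [hχ]
    simp only
    have h2 : φ.rangeRestrict g = 1 := Subtype.ext (hφ g hg)
    rw [h2, map_one, Pi.one_apply, toAdd_one]
  choose γ hγ0 hγf hγe hγχ using fun i =>
    haveI := hn0 i
    lift_iso hX hC ρ hρ0 hρ ⟨k i, hkE i, hk i⟩ hζt (χ i) (hχc i) (hχk i)
  set X : ι → N → ZMod (ℓ ^ E) := fun i g =>
    kap (ℓ ^ E) (algebraMap K Ω (ζt ^ (ℓ ^ m))) (γ i) (g : Ω ≃ₐ[K] Ω) with hXd
  have hXc : ∀ i, IsCh (X i) := by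
    intro i
    refine ⟨fun σ τ => kap_mul_right hζ (hγ0 i) ((mem_fx.mp (hγf i)) σ σ.2)
      ((mem_fx.mp (hγf i)) τ τ.2), ?_⟩
    exact (lc_apply N (γ i)).comp (fun y => dl (ℓ ^ E) (algebraMap K Ω (ζt ^ (ℓ ^ m))) (y / γ i))
  have hcz : ∀ i i', Cz (X i) (X i') := by
    intro i i'
    obtain ⟨e1, he1⟩ := hγe i
    obtain ⟨e2, he2⟩ := hγe i'
    have h2 := rc_zero' hX hC E hζ (hγf i) (hγf i') (pow_ne_zero _ (hγ0 i)) (pow_ne_zero _ (hγ0 i'))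
      he1 he2
    rw [sN_roots N hζ (hγ0 i) (hγ0 i') (hγf i) (hγf i'), QuotientAddGroup.eq_zero_iff] at h2
    exact h2
  obtain ⟨ψ, hψ, hψe⟩ := embed_listz α hα
    ((Finset.univ : Finset ι).toList.map (fun i => (b i, X i))) (by
      intro p hp
      rw [List.mem_map] at hp
      obtain ⟨i, -, rfl⟩ := hp
      exact ⟨hbM i, hXc i⟩) (by
      intro p hp p' hp'
      rw [List.mem_map] at hp hp'
      obtain ⟨i, -, rfl⟩ := hp
      obtain ⟨i', -, rfl⟩ := hp'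
      exact hcz i i')
  refine ⟨ψ, open_ker_of_lc ψ hψ, fun g => ?_⟩
  rw [hψe, List.map_map]
  have h2 : ((Finset.univ : Finset ι).toList.map ((fun p : B × (N → ZMod (ℓ ^ E)) =>
      (α p.1) ^ (p.2 g).val) ∘ fun i => (b i, X i))).prod =
      ∏ i, (α (b i)) ^ (X i g).val := by
    rw [← Finset.prod_map_toList]
    rfl
  rw [h2]
  have h3 : ∀ i, (α (b i)) ^ (X i g).val =
      ((e.symm (Pi.mulSingle i (Multiplicative.ofAdd (χ i g))) : φ.range) : A) := by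
    intro i
    rw [hαb, ← hγχ i g, ← hapow]
    rfl
  rw [Finset.prod_congr rfl fun i _ => h3 i]
  have h4 : ∏ i, ((e.symm (Pi.mulSingle i (Multiplicative.ofAdd (χ i g))) : φ.range) : A) =
      ((e.symm (∏ i, Pi.mulSingle i (Multiplicative.ofAdd (χ i g))) : φ.range) : A) := by
    rw [map_prod]
    simp
  rw [h4, Finset.univ_prod_mulSingle]
  have h5 : (fun i => Multiplicative.ofAdd (χ i g)) = e (φ.rangeRestrict g) := by
    funext i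
    rw [hχ]
    simp
  rw [h5, MulEquiv.symm_apply_apply]
  rfl

end Pool.Agent.Bog
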