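import Pool.Agent.Bog.Iso

/-!
The joint statement for classical elements and elements fixed by the Frattini subgroup.
-/

set_option autoImplicit false
set_option linter.unusedVariables false
set_option linter.unusedSectionVars false
set_option linter.style.haveILetI false

namespace Pool.Agent.Bog

open IntermediateField

variable {K Ω : Type*} [Field K] [Field Ω] [Algebra K Ω] [Algebra.IsAlgebraic K Ω]
  [IsAlgClosed Ω] {N P : Subgroup (Ω ≃ₐ[K] Ω)} {ℓ : ℕ} {c : ℕ → ℕ}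

/-- the submonoid of classical elements -/
def GdM (P : Subgroup (Ω ≃ₐ[K] Ω)) (ℓ : ℕ) : Submonoid Ω where
  carrier := {x | Gd P ℓ x}
  one_mem' := Gd.root (IsD.ground (fixedField P).one_mem one_ne_zero)
  mul_mem' := fun hx hy => Gd.mul hx hy

lemma iso_gd (hX : Ctx ℓ P N c) : Iso ℓ N (GdM P ℓ) where
  mem := fun hx => Gd.mem_fixed hX hx
  zero := fun m _ _ hζ _ _ hx hy => Gd.symbol_zero hX m hζ hx hy

/-- the embedding theorem for elements with an `ℓ`-power in an isotropic submonoid -/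
theorem embed_iso_roots (hX : Ctx ℓ P N c) {C : Submonoid Ω} (hC : Iso ℓ N C)
    {A B : Type*} [CommGroup A] [Group B] [Finite B]
    (α : B →* A) (hsurj : Function.Surjective α) (hα : α.ker ≤ Subgroup.center B) {r : ℕ}
    (ρ : Fin r → Ω) {m : ℕ} (hρ : ∀ i, ρ i ≠ 0 → ∃ d, ((ρ i) ^ ℓ ^ m) ^ ℓ ^ d ∈ C)
    (φ : N →* A) (hφ : ∀ g : N, (∀ i, (g : Ω ≃ₐ[K] Ω) (ρ i) = ρ i) → φ g = 1) :
    ∃ ψ : N →* B, IsOpen (ψ.ker : Set N) ∧ ∀ g : N, α (ψ g) = φ g := by
  classical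
  choose! d hd using hρ
  set ρ' : Fin r → Ω := fun i => if ρ i = 0 then 1 else ρ i with hρ'
  apply embed_iso hX hC α hsurj hα ρ' (m := m + ∑ i, d i) _ _ φ
  · intro g hg
    apply hφ
    intro i
    have h1 := hg i
    rw [hρ'] at h1
    simp only at h1
    split_ifs at h1 with h2
    · rw [h2, map_zero]
    · exact h1
  · intro i
    rw [hρ']
    simp only
    split_ifs with h2
    · exact one_ne_zero
    · exact h2
  · intro i
    rw [hρ']
    simp only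
    split_ifs with h2
    · rw [one_pow]
      exact C.one_mem
    · obtain ⟨e, he⟩ := Nat.exists_eq_add_of_le
        (Finset.single_le_sum (f := d) (fun _ _ => Nat.zero_le _) (Finset.mem_univ i))
      rw [he, pow_add, pow_mul, pow_add, pow_mul]
      exact C.pow_mem (hd i h2) _

theorem embed_joint (hX : Ctx ℓ P N c) (hS : Std ℓ P N) (hN : N ≤ frat ℓ P)
    {A B : Type*} [CommGroup A] [Group B] [Finite B]
    (α : B →* A) (hsurj : Function.Surjective α) (hα : α.ker ≤ Subgroup.center B) {r : ℕ}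
    (ρ : Fin r → Ω) {n m : ℕ}
    (hρ : ∀ i, (∀ g ∈ frat ℓ P, g (ρ i ^ ℓ ^ m) = ρ i ^ ℓ ^ m) ∨
      ∃ ξ, (∀ g ∈ P, g (ξ ^ ℓ ^ n) = ξ ^ ℓ ^ n) ∧ ρ i ^ ℓ ^ m = 1 - ξ)
    (φ : N →* A) (hφ : ∀ g : N, (∀ i, (g : Ω ≃ₐ[K] Ω) (ρ i) = ρ i) → φ g = 1) :
    ∃ ψ : N →* B, IsOpen (ψ.ker : Set N) ∧ ∀ g : N, α (ψ g) = φ g := by
  apply embed_iso_roots hX (iso_gd hX) α hsurj hα ρ (m := m) _ φ hφ
  intro i hi
  rcases hρ i with h | ⟨ξ, hξ, h⟩
  · exact gd_frat hX hS hN (mem_fx.mpr h) (pow_ne_zero _ hi)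
  · refine ⟨0, ?_⟩
    rw [pow_zero, pow_one]
    change Gd P ℓ _
    rw [h]
    have h0 : 1 - ξ ≠ 0 := by rw [← h]; exact pow_ne_zero _ hi
    by_cases hξ0 : ξ = 0
    · rw [hξ0, sub_zero]
      exact Gd.root (IsD.ground (fixedField P).one_mem one_ne_zero)
    · exact Gd.one_sub ⟨hξ0, n, mem_fx.mpr hξ⟩ (fun h1 => h0 (by rw [h1, sub_self]))

end Pool.Agent.Bog
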