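import Pool.Agent.Bog.Sym

/-!
Kummer theory for locally constant characters of subgroups of `Gal(Ω/K)`, `μ_n ⊆ K`.
-/

set_option autoImplicit false
set_option linter.unusedVariables false
set_option linter.unusedSectionVars false
set_option linter.style.haveILetI false

namespace Pool.Agent.Bog

open IntermediateField

variable {K Ω : Type*} [Field K] [Field Ω] [Algebra K Ω] [Algebra.IsAlgebraic K Ω]

/-- an open neighbourhood of `1` on which a locally constant homomorphism is trivial comes from a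
finite extension -/
lemma exists_field_of_lc {A : Type*} [AddGroup A] (U : Subgroup (Ω ≃ₐ[K] Ω)) (χ : U → A)
    (h0 : ∀ σ τ : U, χ (σ * τ) = χ σ + χ τ) (hlc : IsLocallyConstant χ) :
    ∃ E : IntermediateField K Ω, FiniteDimensional K E ∧
      ∀ σ : U, (∀ x ∈ E, (σ : Ω ≃ₐ[K] Ω) x = x) → χ σ = 0 := by
  have h1 : χ 1 = 0 := by
    have := h0 1 1
    rw [mul_one] at this
    simpa using this
  obtain ⟨W, hW, hWe⟩ := isOpen_induced_iff.mp (hlc.isOpen_fiber 0)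
  have hW1 : (1 : Ω ≃ₐ[K] Ω) ∈ W := by
    have : (1 : U) ∈ Subtype.val ⁻¹' W := by
      rw [hWe]
      exact h1
    exact this
  have hnh := hW.mem_nhds hW1
  rw [krullTopology_mem_nhds_one_iff] at hnh
  obtain ⟨E, hE, hEW⟩ := hnh
  refine ⟨E, hE, fun σ hσ => ?_⟩
  have h2 : (σ : Ω ≃ₐ[K] Ω) ∈ W := by
    apply hEW
    change (σ : Ω ≃ₐ[K] Ω) ∈ E.fixingSubgroup
    rw [IntermediateField.mem_fixingSubgroup_iff]
    exact hσ
  have h3 : σ ∈ Subtype.val ⁻¹' W := h2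
  rw [hWe] at h3
  exact h3

/-- Kummer theory. -/
theorem kummer {n : ℕ} [NeZero n] {ζ : K} (hζ : IsPrimitiveRoot ζ n)
    (U : Subgroup (Ω ≃ₐ[K] Ω)) (χ : U → ZMod n)
    (h0 : ∀ σ τ : U, χ (σ * τ) = χ σ + χ τ) (hlc : IsLocallyConstant χ) :
    ∃ α : Ω, α ≠ 0 ∧ ∀ σ : U, (σ : Ω ≃ₐ[K] Ω) α = ex (algebraMap K Ω ζ) (χ σ) * α := by
  classical
  obtain ⟨E, hE, hEχ⟩ := exists_field_of_lc U χ h0 hlc
  set z : Ω := algebraMap K Ω ζ with hz
  have hzp : IsPrimitiveRoot z n := hzΩ hζ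
  have hinv : ∀ σ : U, χ σ⁻¹ = - χ σ := by
    intro σ
    have h1 : χ 1 = 0 := by
      have := h0 1 1
      rw [mul_one] at this
      simpa using this
    have := h0 σ⁻¹ σ
    rw [inv_mul_cancel, h1] at this
    exact eq_neg_of_add_eq_zero_left this.symm
  -- restriction to `E`
  let res : (Ω ≃ₐ[K] Ω) → (E →ₐ[K] Ω) := fun σ => (σ : Ω →ₐ[K] Ω).comp E.val
  have hres : ∀ (σ : Ω ≃ₐ[K] Ω) (x : E), res σ x = σ x := fun σ x => rfl
  have hwd : ∀ σ τ : U, res σ = res τ → χ σ = χ τ := by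
    intro σ τ h
    have h1 : χ (σ⁻¹ * τ) = 0 := by
      apply hEχ
      intro x hx
      have h2 : (σ : Ω ≃ₐ[K] Ω) x = (τ : Ω ≃ₐ[K] Ω) x := by
        have := congrArg (fun f : E →ₐ[K] Ω => f ⟨x, hx⟩) h
        exact this
      change (σ : Ω ≃ₐ[K] Ω)⁻¹ ((τ : Ω ≃ₐ[K] Ω) x) = x
      rw [← h2]
      change ((σ : Ω ≃ₐ[K] Ω)⁻¹ * σ) x = x
      rw [inv_mul_cancel]
      rfl
    rw [h0, hinv] at h1
    rw [← sub_eq_zero]
    have : χ σ - χ τ = -(-χ σ + χ τ) := by ring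
    rw [this, h1, neg_zero]
  let c : (E →ₐ[K] Ω) → Ω := fun r =>
    if h : ∃ σ : U, res σ = r then ex z (- χ h.choose) else 0
  have hc : ∀ σ : U, c (res σ) = ex z (- χ σ) := by
    intro σ
    have h : ∃ τ : U, res τ = res σ := ⟨σ, rfl⟩
    change (if h : ∃ τ : U, res τ = res (σ : Ω ≃ₐ[K] Ω) then ex z (- χ h.choose) else 0) = _
    rw [dif_pos h]
    rw [hwd _ _ h.choose_spec]
  have hc0 : ∀ r, (¬ ∃ σ : U, res σ = r) → c r = 0 := by
    intro r h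
    change (if h : ∃ τ : U, res τ = r then ex z (- χ h.choose) else 0) = _
    rw [dif_neg h]
  -- independence
  have hli := linearIndependent_toLinearMap K E Ω
  haveI : Fintype (E →ₐ[K] Ω) := Fintype.ofFinite _
  have hne : ∃ x : E, ∑ r : E →ₐ[K] Ω, c r * r x ≠ 0 := by
    by_contra hcon
    push Not at hcon
    rw [Fintype.linearIndependent_iff] at hli
    have h1 := hli c (by
      apply LinearMap.ext
      intro x
      rw [LinearMap.zero_apply, LinearMap.sum_apply]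
      simpa using hcon x) (res ((1 : U) : Ω ≃ₐ[K] Ω))
    rw [hc 1] at h1
    exact ex_ne_zero hzp _ h1
  obtain ⟨x, hx⟩ := hne
  refine ⟨∑ r : E →ₐ[K] Ω, c r * r x, hx, fun v => ?_⟩
  -- the action of `v`
  have hcv : ∀ r : E →ₐ[K] Ω, (v : Ω ≃ₐ[K] Ω) (c r) =
      ex z (χ v) * c (((v : Ω ≃ₐ[K] Ω) : Ω →ₐ[K] Ω).comp r) := by
    intro r
    by_cases h : ∃ σ : U, res σ = r
    · obtain ⟨σ, rfl⟩ := h
      have h1 : ((v : Ω ≃ₐ[K] Ω) : Ω →ₐ[K] Ω).comp (res (σ : Ω ≃ₐ[K] Ω)) =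
          res ((v * σ : U) : Ω ≃ₐ[K] Ω) := rfl
      rw [h1, hc, hc, ex_fixed, h0, ← ex_add hzp]
      congr 1
      ring
    · rw [hc0 r h, map_zero]
      have h2 : ¬ ∃ σ : U, res σ = ((v : Ω ≃ₐ[K] Ω) : Ω →ₐ[K] Ω).comp r := by
        rintro ⟨σ, hσ⟩
        apply h
        refine ⟨v⁻¹ * σ, ?_⟩
        apply AlgHom.ext
        intro y
        have h3 := congrArg (fun f : E →ₐ[K] Ω => f y) hσ
        have h4 : (σ : Ω ≃ₐ[K] Ω) y = (v : Ω ≃ₐ[K] Ω) (r y) := h3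
        change (v : Ω ≃ₐ[K] Ω)⁻¹ ((σ : Ω ≃ₐ[K] Ω) y) = r y
        rw [h4]
        change ((v : Ω ≃ₐ[K] Ω)⁻¹ * v) (r y) = r y
        rw [inv_mul_cancel]
        rfl
      rw [hc0 _ h2, mul_zero]
  let eqv : (E →ₐ[K] Ω) ≃ (E →ₐ[K] Ω) :=
    { toFun := fun r => ((v : Ω ≃ₐ[K] Ω) : Ω →ₐ[K] Ω).comp r
      invFun := fun r => (((v : Ω ≃ₐ[K] Ω)⁻¹ : Ω ≃ₐ[K] Ω) : Ω →ₐ[K] Ω).comp r
      left_inv := fun r => by
        apply AlgHom.ext
        intro y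
        change ((v : Ω ≃ₐ[K] Ω)⁻¹ * v) (r y) = r y
        rw [inv_mul_cancel]
        rfl
      right_inv := fun r => by
        apply AlgHom.ext
        intro y
        change ((v : Ω ≃ₐ[K] Ω) * (v : Ω ≃ₐ[K] Ω)⁻¹) (r y) = r y
        rw [mul_inv_cancel]
        rfl }
  rw [map_sum, Finset.mul_sum]
  apply Fintype.sum_equiv eqv
  intro r
  rw [map_mul, hcv]
  have h5 : (eqv r) x = (v : Ω ≃ₐ[K] Ω) (r x) := rfl
  rw [h5]
  change _ = ex z (χ v) * (c (((v : Ω ≃ₐ[K] Ω) : Ω →ₐ[K] Ω).comp r) * _)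
  ring

end Pool.Agent.Bog
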