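import Pool.Agent.Bog.Gen

/-!
The transfer step: from the cyclic layers `U⟨ρ⟩`, `ρ` in a `(ℤ/ℓ)²` of `P/U`, to `U`.
-/

set_option autoImplicit false

namespace Pool.Agent.Bog

open IntermediateField

lemma sum_identity {A : Type*} [AddCommGroup A] (ℓ : ℕ) (hℓ : ℓ.Prime) (F : ℕ → ℕ → A)
    (hF : ∀ j, Function.Periodic (F j) ℓ) :
    (∑ i ∈ Finset.range ℓ, ∑ j ∈ Finset.range ℓ, F j (i * j)) + ∑ m ∈ Finset.range ℓ, F 0 m =
      ℓ • F 0 0 + ∑ j ∈ Finset.range ℓ, ∑ m ∈ Finset.range ℓ, F j m := by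
  have h0 : (0 : ℕ) ∈ Finset.range ℓ := by rw [Finset.mem_range]; exact hℓ.pos
  rw [Finset.sum_comm, ← Finset.add_sum_erase _ _ h0, ← Finset.add_sum_erase (Finset.range ℓ)
    (fun j => ∑ m ∈ Finset.range ℓ, F j m) h0]
  have h1 : ∑ i ∈ Finset.range ℓ, F 0 (i * 0) = ℓ • F 0 0 := by simp
  have h2 : ∑ j ∈ (Finset.range ℓ).erase 0, ∑ i ∈ Finset.range ℓ, F j (i * j) =
      ∑ j ∈ (Finset.range ℓ).erase 0, ∑ m ∈ Finset.range ℓ, F j m := by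
    apply Finset.sum_congr rfl
    intro j hj
    rw [Finset.mem_erase, Finset.mem_range] at hj
    have hinj : Set.InjOn (fun i => (i * j) % ℓ) (Finset.range ℓ : Set ℕ) := by
      intro i hi i' hi' hii
      have hi2 : i < ℓ := by simpa using hi
      have hi2' : i' < ℓ := by simpa using hi'
      have hcop : Nat.Coprime ℓ j := by
        rw [Nat.Prime.coprime_iff_not_dvd hℓ]
        intro hd
        have := Nat.le_of_dvd (Nat.pos_of_ne_zero hj.1) hd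
        omega
      have hm : i * j ≡ i' * j [MOD ℓ] := hii
      have hm2 : i ≡ i' [MOD ℓ] := Nat.ModEq.cancel_right_of_coprime hcop hm
      unfold Nat.ModEq at hm2
      rwa [Nat.mod_eq_of_lt hi2, Nat.mod_eq_of_lt hi2'] at hm2
    have hmaps : ∀ i ∈ Finset.range ℓ, (i * j) % ℓ ∈ Finset.range ℓ := by
      intro i _
      rw [Finset.mem_range]
      exact Nat.mod_lt _ hℓ.pos
    apply Finset.sum_nbij (fun i => (i * j) % ℓ) hmaps hinj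
    · exact Finset.surjOn_of_injOn_of_card_le (fun i => (i * j) % ℓ) hmaps hinj le_rfl
    · intro i _
      exact ((hF j).map_mod_nat (i * j)).symm
  rw [h2, h1]
  abel

variable {K Ω : Type*} [Field K] [Field Ω] [Algebra K Ω]

lemma act_ne_zero (g : Ω ≃ₐ[K] Ω) {x : Ω} (hx : x ≠ 0) : g x ≠ 0 := by
  intro h
  apply hx
  have : g x = g 0 := by rw [h, map_zero]
  exact g.injective this

/-- the standing data: `⁅P,P⁆ ≤ N ≤ P`, orbits of elements of `P` of `ℓ`-power length -/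
structure Std (ℓ : ℕ) (P N : Subgroup (Ω ≃ₐ[K] Ω)) : Prop where
  hℓ : ℓ.Prime
  hNP : N ≤ P
  hcomm : ⁅P, P⁆ ≤ N
  sp : ∀ g ∈ P, ∀ x : Ω, ∃ n, (g ^ (ℓ ^ n)) x = x

namespace Std

variable {ℓ : ℕ} {P N : Subgroup (Ω ≃ₐ[K] Ω)}

lemma comm_act (hS : Std ℓ P N) {U : Subgroup (Ω ≃ₐ[K] Ω)} (hNU : N ≤ U)
    {g h : Ω ≃ₐ[K] Ω} (hg : g ∈ P) (hh : h ∈ P) {x : Ω} (hx : x ∈ fixedField U) :
    g (h x) = h (g x) := by
  have hc : h⁻¹ * g⁻¹ * h * g ∈ U := by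
    apply hNU
    apply hS.hcomm
    have := Subgroup.commutator_mem_commutator (P.inv_mem hh) (P.inv_mem hg)
    rw [commutatorElement_def] at this
    simpa using this
  have h1 := (mem_fx.mp hx) _ hc
  have h2 : g (h ((h⁻¹ * g⁻¹ * h * g) x)) = g (h x) := by rw [h1]
  rw [← h2]
  have h3 : (g * (h * (h⁻¹ * g⁻¹ * h * g))) x = (h * g) x := by
    congr 1
    group
  exact h3

lemma act_mem (hS : Std ℓ P N) {U : Subgroup (Ω ≃ₐ[K] Ω)} (hNU : N ≤ U) (hUP : U ≤ P)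
    {g : Ω ≃ₐ[K] Ω} (hg : g ∈ P) {x : Ω} (hx : x ∈ fixedField U) :
    g x ∈ fixedField U := by
  rw [mem_fx]
  intro u hu
  rw [hS.comm_act hNU (hUP hu) hg hx, (mem_fx.mp hx) u hu]

lemma pow_mem_fx (hS : Std ℓ P N) {U : Subgroup (Ω ≃ₐ[K] Ω)} (hNU : N ≤ U) (hUP : U ≤ P)
    {g : Ω ≃ₐ[K] Ω} (hg : g ∈ P) {x : Ω} (hx : x ∈ fixedField U) (i : ℕ) :
    (g ^ i) x ∈ fixedField U :=
  hS.act_mem hNU hUP (P.pow_mem hg i) hx

/-- on `E`, `(σ τ^i)^j` acts as `σ^j τ^{ij}` -/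
lemma mul_pow_act (hS : Std ℓ P N) {U : Subgroup (Ω ≃ₐ[K] Ω)} (hNU : N ≤ U) (hUP : U ≤ P)
    {σ τ : Ω ≃ₐ[K] Ω} (hσ : σ ∈ P) (hτ : τ ∈ P) (i j : ℕ) {x : Ω} (hx : x ∈ fixedField U) :
    ((σ * τ ^ i) ^ j) x = (σ ^ j) ((τ ^ (i * j)) x) := by
  induction j with
  | zero => simp
  | succ j ih =>
    have h1 : ((σ * τ ^ i) ^ (j + 1)) x = σ ((τ ^ i) (((σ * τ ^ i) ^ j) x)) := by
      rw [pow_succ']
      rfl
    rw [h1, ih, hS.comm_act hNU (P.pow_mem hτ i) (P.pow_mem hσ j)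
      (hS.pow_mem_fx hNU hUP hτ hx (i * j))]
    have h2 : (τ ^ i) ((τ ^ (i * j)) x) = (τ ^ (i * (j + 1))) x := by
      rw [show i * (j + 1) = i + i * j by ring, pow_add]
      rfl
    rw [h2, pow_succ']
    rfl

end Std

variable {A : Type*} [AddCommGroup A]

/-- the `ρ`-trace of a symbol -/
def trS (ℓ M : ℕ) (s : Ω → Ω → A) (ρ : Ω ≃ₐ[K] Ω) : Ω → Ω → A := fun a b =>
  M • ∑ j ∈ Finset.range ℓ, s ((ρ ^ j) a) ((ρ ^ j) b)

lemma trS_symb {ℓ : ℕ} {P N : Subgroup (Ω ≃ₐ[K] Ω)} (hS : Std ℓ P N)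
    {U : Subgroup (Ω ≃ₐ[K] Ω)} (hNU : N ≤ U) (hUP : U ≤ P) (M : ℕ) (s : Ω → Ω → A)
    (hs : IsSymb (fixedField U) s) {ρ : Ω ≃ₐ[K] Ω} (hρ : ρ ∈ P) :
    IsSymb (fixedField U) (trS ℓ M s ρ) := by
  refine ⟨?_, ?_, ?_⟩
  · intro a b c ha hb hc ha0 hb0 hc0
    simp only [trS]
    rw [← smul_add, ← Finset.sum_add_distrib]
    congr 1
    apply Finset.sum_congr rfl
    intro j _
    rw [map_mul]
    exact hs.mul_left _ _ _ (hS.pow_mem_fx hNU hUP hρ ha j) (hS.pow_mem_fx hNU hUP hρ hb j)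
      (hS.pow_mem_fx hNU hUP hρ hc j) (act_ne_zero _ ha0) (act_ne_zero _ hb0)
      (act_ne_zero _ hc0)
  · intro a b c ha hb hc ha0 hb0 hc0
    simp only [trS]
    rw [← smul_add, ← Finset.sum_add_distrib]
    congr 1
    apply Finset.sum_congr rfl
    intro j _
    rw [map_mul]
    exact hs.mul_right _ _ _ (hS.pow_mem_fx hNU hUP hρ ha j) (hS.pow_mem_fx hNU hUP hρ hb j)
      (hS.pow_mem_fx hNU hUP hρ hc j) (act_ne_zero _ ha0) (act_ne_zero _ hb0)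
      (act_ne_zero _ hc0)
  · intro a ha ha0 ha1
    simp only [trS]
    rw [Finset.sum_eq_zero, smul_zero]
    intro j _
    rw [map_sub, map_one]
    apply hs.st _ (hS.pow_mem_fx hNU hUP hρ ha j) (act_ne_zero _ ha0)
    intro h
    apply ha1
    have : (ρ ^ j) a = (ρ ^ j) 1 := by rw [h, map_one]
    exact (ρ ^ j).injective this

lemma trS_kills [IsAlgClosed Ω] {ℓ : ℕ} {P N : Subgroup (Ω ≃ₐ[K] Ω)} (hS : Std ℓ P N)
    {U : Subgroup (Ω ≃ₐ[K] Ω)} (hNU : N ≤ U) (hUP : U ≤ P) (M : ℕ) (s : Ω → Ω → A)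
    (hs : IsSymb (fixedField N) s) {ρ : Ω ≃ₐ[K] Ω} (hρ : ρ ∈ P)
    (hρℓ : ∀ x ∈ fixedField U, (ρ ^ ℓ) x = x)
    (h : ∀ a b, a ∈ fixedField (U ⊔ Subgroup.zpowers ρ) →
      b ∈ fixedField (U ⊔ Subgroup.zpowers ρ) → a ≠ 0 → b ≠ 0 → M • s a b = 0) :
    Kills (fixedField U) (trS ℓ M s ρ) := by
  have hsU : IsSymb (fixedField U) s := hs.mono (fx_anti hNU)
  have hle : U ⊔ Subgroup.zpowers ρ ≤ P := by
    rw [sup_le_iff, Subgroup.zpowers_le]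
    exact ⟨hUP, hρ⟩
  apply kills_of_layer ℓ hS.hℓ U ρ (fun x hx => hS.act_mem hNU hUP hρ hx) hρℓ
    (fun g hg x => hS.sp g (hle hg) x) _ (trS_symb hS hNU hUP M s hsU hρ)
  intro c y hc hy hc0 hy0
  have hc' := mem_fx_sup_zpowers.mp hc
  have hcj : ∀ j : ℕ, (ρ ^ j) c = c := by
    intro j
    exact (mem_fx.mp hc) _ (Subgroup.pow_mem _
      ((le_sup_right : Subgroup.zpowers ρ ≤ _) (Subgroup.mem_zpowers ρ)) j)
  -- the norm
  have hyE : ∀ j : ℕ, (ρ ^ j) y ∈ fixedField U := fun j => hS.pow_mem_fx hNU hUP hρ hy j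
  have hy0' : ∀ j : ℕ, (ρ ^ j) y ≠ 0 := fun j => act_ne_zero _ hy0
  have hprod : ∀ n : ℕ, ∑ j ∈ Finset.range n, s c ((ρ ^ j) y) =
      s c (∏ j ∈ Finset.range n, (ρ ^ j) y) := by
    intro n
    induction n with
    | zero => simpa using (hsU.one_right hc'.1 hc0).symm
    | succ n ih =>
      rw [Finset.sum_range_succ, Finset.prod_range_succ, ih, hsU.mul_right _ _ _ hc'.1
        (prod_mem fun j _ => hyE j) (hyE n) hc0 (Finset.prod_ne_zero_iff.mpr fun j _ => hy0' j)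
        (hy0' n)]
  have hnF : (∏ j ∈ Finset.range ℓ, (ρ ^ j) y) ∈ fixedField (U ⊔ Subgroup.zpowers ρ) := by
    rw [mem_fx_sup_zpowers]
    refine ⟨prod_mem fun j _ => hyE j, ?_⟩
    rw [map_prod]
    have h1 : ∀ j ∈ Finset.range ℓ, ρ ((ρ ^ j) y) = (ρ ^ (j + 1)) y := by
      intro j _
      rw [pow_succ']
      rfl
    rw [Finset.prod_congr rfl h1]
    have h2 := Finset.prod_range_succ' (fun j => (ρ ^ j) y) ℓ
    have h3 := Finset.prod_range_succ (fun j => (ρ ^ j) y) ℓ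
    rw [h3] at h2
    have h4 : (ρ ^ ℓ) y = y := hρℓ y hy
    have h5 : (ρ ^ 0) y = y := rfl
    simp only [h4, h5] at h2
    exact (mul_right_cancel₀ hy0 h2).symm
  simp only [trS]
  have h6 : ∑ j ∈ Finset.range ℓ, s ((ρ ^ j) c) ((ρ ^ j) y) =
      ∑ j ∈ Finset.range ℓ, s c ((ρ ^ j) y) := by
    apply Finset.sum_congr rfl
    intro j _
    rw [hcj j]
  rw [h6, hprod ℓ]
  exact h c _ hc hnF hc0 (Finset.prod_ne_zero_iff.mpr fun j _ => hy0' j)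

/-- The transfer step. -/
theorem layer_step [IsAlgClosed Ω] {ℓ : ℕ} {P N : Subgroup (Ω ≃ₐ[K] Ω)} (hS : Std ℓ P N)
    {U : Subgroup (Ω ≃ₐ[K] Ω)} (hNU : N ≤ U) (hUP : U ≤ P) (M : ℕ) (s : Ω → Ω → A)
    (hs : IsSymb (fixedField N) s) {σ τ : Ω ≃ₐ[K] Ω} (hσ : σ ∈ P) (hτ : τ ∈ P)
    (hσℓ : σ ^ ℓ ∈ U) (hτℓ : τ ^ ℓ ∈ U)
    (hτk : ∀ a b, a ∈ fixedField (U ⊔ Subgroup.zpowers τ) →
      b ∈ fixedField (U ⊔ Subgroup.zpowers τ) → a ≠ 0 → b ≠ 0 → M • s a b = 0)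
    (hσk : ∀ i < ℓ, ∀ a b, a ∈ fixedField (U ⊔ Subgroup.zpowers (σ * τ ^ i)) →
      b ∈ fixedField (U ⊔ Subgroup.zpowers (σ * τ ^ i)) → a ≠ 0 → b ≠ 0 → M • s a b = 0) :
    ∀ a b, a ∈ fixedField U → b ∈ fixedField U → a ≠ 0 → b ≠ 0 → (ℓ * M) • s a b = 0 := by
  intro a b ha hb ha0 hb0
  have hτact : ∀ x ∈ fixedField U, (τ ^ ℓ) x = x := fun x hx => (mem_fx.mp hx) _ hτℓ
  have hσact : ∀ x ∈ fixedField U, (σ ^ ℓ) x = x := fun x hx => (mem_fx.mp hx) _ hσℓ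
  have hρact : ∀ i : ℕ, ∀ x ∈ fixedField U, ((σ * τ ^ i) ^ ℓ) x = x := by
    intro i x hx
    rw [hS.mul_pow_act hNU hUP hσ hτ i ℓ hx, mul_comm i ℓ, pow_mul]
    have h1 : ((τ ^ ℓ) ^ i) x = x := (mem_fx.mp hx) _ (U.pow_mem hτℓ i)
    rw [h1, hσact x hx]
  have kτ := trS_kills hS hNU hUP M s hs hτ hτact hτk
  have kσ : ∀ i < ℓ, Kills (fixedField U) (trS ℓ M s (σ * τ ^ i)) := fun i hi =>
    trS_kills hS hNU hUP M s hs (P.mul_mem hσ (P.pow_mem hτ i)) (hρact i) (hσk i hi)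
  set F : ℕ → ℕ → A := fun j m => s ((σ ^ j) ((τ ^ m) a)) ((σ ^ j) ((τ ^ m) b)) with hF
  have hper : ∀ j, Function.Periodic (F j) ℓ := by
    intro j m
    have h1 : ∀ x ∈ fixedField U, (τ ^ (m + ℓ)) x = (τ ^ m) x := by
      intro x hx
      rw [pow_add]
      change (τ ^ m) ((τ ^ ℓ) x) = _
      rw [hτact x hx]
    simp only [hF, h1 a ha, h1 b hb]
  have hid := sum_identity ℓ hS.hℓ F hper
  have e1 : M • (∑ i ∈ Finset.range ℓ, ∑ j ∈ Finset.range ℓ, F j (i * j)) = 0 := by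
    rw [Finset.smul_sum]
    apply Finset.sum_eq_zero
    intro i hi
    have := kσ i (Finset.mem_range.mp hi) a b ha hb ha0 hb0
    simp only [trS] at this
    rw [← this]
    congr 1
    apply Finset.sum_congr rfl
    intro j _
    simp only [hF]
    rw [hS.mul_pow_act hNU hUP hσ hτ i j ha, hS.mul_pow_act hNU hUP hσ hτ i j hb]
  have e2 : ∀ j : ℕ, M • (∑ m ∈ Finset.range ℓ, F j m) = 0 := by
    intro j
    have := kτ ((σ ^ j) a) ((σ ^ j) b) (hS.pow_mem_fx hNU hUP hσ ha j)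
      (hS.pow_mem_fx hNU hUP hσ hb j) (act_ne_zero _ ha0) (act_ne_zero _ hb0)
    simp only [trS] at this
    rw [← this]
    congr 1
    apply Finset.sum_congr rfl
    intro m _
    simp only [hF]
    rw [hS.comm_act hNU (P.pow_mem hσ j) (P.pow_mem hτ m) ha,
      hS.comm_act hNU (P.pow_mem hσ j) (P.pow_mem hτ m) hb]
  have hid2 := congrArg (fun z => M • z) hid
  have e3 : M • ∑ j ∈ Finset.range ℓ, ∑ m ∈ Finset.range ℓ, F j m = 0 := by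
    rw [Finset.smul_sum]
    apply Finset.sum_eq_zero
    intro j _
    exact e2 j
  simp only [smul_add] at hid2
  rw [e1, e2 0, e3, add_zero, add_zero] at hid2
  have h00 : F 0 0 = s a b := rfl
  rw [h00, smul_smul] at hid2
  rw [mul_comm ℓ M]
  exact hid2.symm

end Pool.Agent.Bog
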