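import Pool.Agent.Bog.Kum

/-!
Lifting: if `c • (a, b)_{c n} = 0` then `(a, b)_n = 0`.
-/

set_option autoImplicit false
set_option linter.unusedVariables false
set_option linter.unusedSectionVars false
set_option linter.style.haveILetI false

namespace Pool.Agent.Bog

open IntermediateField

section ZM

variable (c n : ℕ) [NeZero c] [NeZero n]

/-- `ℤ/n → ℤ/(c n)`, `y ↦ c y` -/
def mc : ZMod n →+ ZMod (c * n) :=
  ZMod.lift n ⟨(AddMonoidHom.mulRight ((c : ℕ) : ZMod (c * n))).comp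
    (Int.castAddHom (ZMod (c * n))), by
      simp only [AddMonoidHom.coe_comp, Function.comp_apply, Int.coe_castAddHom,
        AddMonoidHom.mulRight_apply, Int.cast_natCast]
      rw [← Nat.cast_mul, mul_comm n c, ZMod.natCast_self]⟩

lemma mc_natCast (k : ℕ) : mc c n (k : ZMod n) = ((k * c : ℕ) : ZMod (c * n)) := by
  have h : ((k : ℕ) : ZMod n) = ((k : ℤ) : ZMod n) := (Int.cast_natCast k).symm
  rw [h]
  unfold mc
  rw [ZMod.lift_coe]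
  simp

lemma mc_inj : Function.Injective (mc c n) := by
  rw [injective_iff_map_eq_zero]
  intro y hy
  have h1 : mc c n ((y.val : ℕ) : ZMod n) = 0 := by rw [ZMod.natCast_zmod_val]; exact hy
  rw [mc_natCast, ZMod.natCast_eq_zero_iff] at h1
  rw [mul_comm c n] at h1
  have h2 : n ∣ y.val := Nat.dvd_of_mul_dvd_mul_right (Nat.pos_of_ne_zero (NeZero.ne c)) h1
  rw [← ZMod.natCast_zmod_val y, ZMod.natCast_eq_zero_iff]
  exact h2

/-- reduction modulo `c` -/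
def rc : ZMod (c * n) →+* ZMod c := ZMod.castHom (dvd_mul_right c n) (ZMod c)

lemma rc_zero_iff (x : ZMod (c * n)) : rc c n x = 0 ↔ ∃ y : ZMod n, mc c n y = x := by
  haveI : NeZero (c * n) := ⟨mul_ne_zero (NeZero.ne c) (NeZero.ne n)⟩
  constructor
  · intro h
    rw [← ZMod.natCast_zmod_val x, map_natCast, ZMod.natCast_eq_zero_iff] at h
    refine ⟨((x.val / c : ℕ) : ZMod n), ?_⟩
    rw [mc_natCast, Nat.div_mul_cancel h, ZMod.natCast_zmod_val]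
  · rintro ⟨y, rfl⟩
    rw [← ZMod.natCast_zmod_val y, mc_natCast, map_natCast, ZMod.natCast_eq_zero_iff]
    exact dvd_mul_left c _

end ZM

variable {K Ω : Type*} [Field K] [Field Ω] [Algebra K Ω] [Algebra.IsAlgebraic K Ω]
  [IsAlgClosed Ω] (N : Subgroup (Ω ≃ₐ[K] Ω))

/-- The lifting lemma. -/
theorem lift_symbol {c n : ℕ} [NeZero c] [NeZero n] {ζ' : K} (hζ' : IsPrimitiveRoot ζ' (c * n))
    {a b : Ω} (ha : a ∈ fixedField N) (hb : b ∈ fixedField N) (ha0 : a ≠ 0) (hb0 : b ≠ 0)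
    [NeZero (c * n)]
    (h : c • sN N (c * n) ζ' a b = 0) : sN N n (ζ' ^ c) a b = 0 := by
  classical
  have hcn : 0 < c * n := Nat.pos_of_ne_zero (NeZero.ne _)
  have hζ : IsPrimitiveRoot (ζ' ^ c) n := hζ'.pow hcn rfl
  have hζc : IsPrimitiveRoot (ζ' ^ n) c := hζ'.pow hcn (mul_comm c n)
  set z' : Ω := algebraMap K Ω ζ' with hz'
  have hz'p : IsPrimitiveRoot z' (c * n) := hzΩ hζ'
  set α' : Ω := rt (c * n) a with hα'
  set β' : Ω := rt (c * n) b with hβ'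
  have hα'0 : α' ≠ 0 := rt_ne_zero _ ha0
  have hβ'0 : β' ≠ 0 := rt_ne_zero _ hb0
  have hα'N : ∀ σ : N, (σ : Ω ≃ₐ[K] Ω) (α' ^ (c * n)) = α' ^ (c * n) := fun σ => by
    rw [hα', rt_pow]; exact (mem_fx.mp ha) σ σ.2
  have hβ'N : ∀ σ : N, (σ : Ω ≃ₐ[K] Ω) (β' ^ (c * n)) = β' ^ (c * n) := fun σ => by
    rw [hβ', rt_pow]; exact (mem_fx.mp hb) σ σ.2
  -- unfold the hypothesis
  unfold sN at h
  rw [← QuotientAddGroup.mk_nsmul, QuotientAddGroup.eq_zero_iff] at h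
  obtain ⟨ψ, hψ, hψe⟩ := h
  simp only [Pi.smul_apply] at hψe
  -- the reduction of `ψ` modulo `c` is a homomorphism
  have hbar : ∀ σ τ : N, rc c n (ψ (σ * τ)) = rc c n (ψ σ) + rc c n (ψ τ) := by
    intro σ τ
    have h1 := congrArg (rc c n) (hψe σ τ)
    rw [map_nsmul, nsmul_eq_mul, ZMod.natCast_self, zero_mul, map_sub, map_add] at h1
    exact (sub_eq_zero.mp h1.symm).symm
  obtain ⟨γ, hγ0, hγ⟩ := kummer (Ω := Ω) hζc N (fun σ => rc c n (ψ σ)) hbar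
    (hψ.comp (rc c n))
  set γ' : Ω := rt n γ with hγ'
  have hγ'n : γ' ^ n = γ := rt_pow n γ
  have hγ'0 : γ' ≠ 0 := rt_ne_zero n hγ0
  have hγ'N : ∀ σ : N, (σ : Ω ≃ₐ[K] Ω) (γ' ^ (c * n)) = γ' ^ (c * n) := by
    intro σ
    rw [mul_comm c n, pow_mul, hγ'n, map_pow, hγ σ, mul_pow, ex_pow (hzΩ (Ω := Ω) hζc), one_mul]
  set Ψ : N → ZMod (c * n) := fun σ => kap (c * n) z' γ' (σ : Ω ≃ₐ[K] Ω) with hΨ
  have hΨhom : ∀ σ τ : N, Ψ (σ * τ) = Ψ σ + Ψ τ := fun σ τ =>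
    kap_mul_right hζ' hγ'0 (hγ'N σ) (hγ'N τ)
  have hΨlc : IsLocallyConstant Ψ :=
    (lc_apply N γ').comp (fun y => dl (c * n) z' (y / γ'))
  have hΨbar : ∀ σ : N, rc c n (Ψ σ) = rc c n (ψ σ) := by
    intro σ
    apply ex_inj (hzΩ (Ω := Ω) hζc)
    apply mul_right_cancel₀ hγ0
    rw [← hγ σ]
    have h0 : (σ : Ω ≃ₐ[K] Ω) γ = (ex z' (Ψ σ)) ^ n * γ := by
      rw [← hγ'n, map_pow, kap_spec hζ' hγ'0 (hγ'N σ), mul_pow,
        kap_eq hζ' hγ'0 (kap_spec hζ' hγ'0 (hγ'N σ))]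
    rw [h0]
    congr 1
    have h1 : Ψ σ = (((Ψ σ).val : ℕ) : ZMod (c * n)) := (ZMod.natCast_zmod_val _).symm
    conv_lhs => rw [h1]
    rw [map_natCast, ex_natCast (hzΩ (Ω := Ω) hζc), map_pow]
    unfold ex
    rw [← pow_mul, ← pow_mul, Nat.mul_comm n]
  -- the difference is divisible by `c`
  have hD : ∀ σ : N, ∃ y : ZMod n, mc c n y = ψ σ - Ψ σ := by
    intro σ
    rw [← rc_zero_iff, map_sub, hΨbar, sub_self]
  let q : ZMod (c * n) → ZMod n := fun x => if h : ∃ y : ZMod n, mc c n y = x then h.choose else 0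
  have hq : ∀ x, (∃ y : ZMod n, mc c n y = x) → mc c n (q x) = x := by
    intro x hx
    change mc c n (if h : ∃ y : ZMod n, mc c n y = x then h.choose else 0) = x
    rw [dif_pos hx]
    exact hx.choose_spec
  -- characters at level `n`
  have hα : (α' ^ c) ^ n = a := by rw [← pow_mul, hα', rt_pow]
  have hβ : (β' ^ c) ^ n = b := by rw [← pow_mul, hβ', rt_pow]
  have hkα : ∀ (δ : Ω), δ ≠ 0 → ∀ σ : Ω ≃ₐ[K] Ω, σ (δ ^ (c * n)) = δ ^ (c * n) →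
      kap n (algebraMap K Ω (ζ' ^ c)) (δ ^ c) σ = (((kap (c * n) z' δ σ).val : ℕ) : ZMod n) := by
    intro δ hδ σ hσ
    apply kap_eq hζ (pow_ne_zero c hδ)
    rw [map_pow, kap_spec hζ' hδ hσ, mul_pow, ex_natCast (hzΩ (Ω := Ω) hζ),
      kap_eq hζ' hδ (kap_spec hζ' hδ hσ), map_pow]
    congr 1
    unfold ex
    rw [← pow_mul, ← pow_mul, Nat.mul_comm _ c]
  have hres := sN_roots N hζ (α := α' ^ c) (β := β' ^ c) (pow_ne_zero c hα'0)
    (pow_ne_zero c hβ'0) (by rw [hα]; exact ha) (by rw [hβ]; exact hb)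
  rw [hα, hβ] at hres
  rw [hres, QuotientAddGroup.eq_zero_iff]
  refine ⟨fun σ => q (ψ σ - Ψ σ), (hψ.sub hΨlc).comp q, fun σ τ => ?_⟩
  apply mc_inj c n
  simp only
  rw [map_sub, map_add, hq _ (hD σ), hq _ (hD τ), hq _ (hD (σ * τ)), hΨhom,
    hkα α' hα'0 σ (hα'N σ), hkα β' hβ'0 τ (hβ'N τ), ← Nat.cast_mul, mc_natCast]
  have h2 := hψe σ τ
  rw [nsmul_eq_mul] at h2
  have h3 : ((((kap (c * n) z' α' (σ : Ω ≃ₐ[K] Ω)).val *
      (kap (c * n) z' β' (τ : Ω ≃ₐ[K] Ω)).val * c : ℕ)) : ZMod (c * n)) =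
      (c : ZMod (c * n)) * (kap (c * n) z' α' (σ : Ω ≃ₐ[K] Ω) *
        kap (c * n) z' β' (τ : Ω ≃ₐ[K] Ω)) := by
    rw [Nat.cast_mul, Nat.cast_mul, ZMod.natCast_zmod_val, ZMod.natCast_zmod_val]
    ring
  rw [h3, h2]
  ring

/-- the vanishing does not depend on the choice of the root of unity -/
theorem sN_root_indep {n : ℕ} [NeZero n] {ζ ζ₂ : K} (hζ : IsPrimitiveRoot ζ n)
    (hζ₂ : IsPrimitiveRoot ζ₂ n)
    {a b : Ω} (ha : a ∈ fixedField N) (hb : b ∈ fixedField N) (ha0 : a ≠ 0) (hb0 : b ≠ 0)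
    (h : sN N n ζ₂ a b = 0) : sN N n ζ a b = 0 := by
  obtain ⟨i, hi, hi2⟩ := hζ.eq_pow_of_pow_eq_one hζ₂.pow_eq_one
  have hk : ∀ δ : Ω, δ ≠ 0 → ∀ σ : Ω ≃ₐ[K] Ω, σ (δ ^ n) = δ ^ n →
      kap n (algebraMap K Ω ζ) δ σ = (i : ZMod n) * kap n (algebraMap K Ω ζ₂) δ σ := by
    intro δ hδ σ hσ
    apply kap_eq hζ hδ
    have h1 := kap_spec hζ₂ hδ hσ
    rw [h1]
    congr 1
    have h2 : (i : ZMod n) * kap n (algebraMap K Ω ζ₂) δ σ =
        ((i * (kap n (algebraMap K Ω ζ₂) δ σ).val : ℕ) : ZMod n) := by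
      rw [Nat.cast_mul, ZMod.natCast_zmod_val]
    have h3 : kap n (algebraMap K Ω ζ₂) (δ) σ = kap n (algebraMap K Ω ζ₂) δ σ := rfl
    have h4 := kap_eq hζ₂ hδ h1
    rw [h2, ex_natCast (hzΩ (Ω := Ω) hζ), pow_mul, ← map_pow, hi2]
    unfold ex
    rfl
  rw [sN_eq_zero] at h ⊢
  obtain ⟨ψ, hψ, hψe⟩ := h
  refine ⟨fun σ => (i : ZMod n) * (i : ZMod n) * ψ σ, hψ.comp (fun y => (i : ZMod n) * i * y),
    fun σ τ => ?_⟩
  have hr1 := hk (rt n a) (rt_ne_zero n ha0) σ (by rw [rt_pow]; exact (mem_fx.mp ha) σ σ.2)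
  have hr2 := hk (rt n b) (rt_ne_zero n hb0) τ (by rw [rt_pow]; exact (mem_fx.mp hb) τ τ.2)
  have h3 := hψe σ τ
  simp only at h3 ⊢
  rw [hr1, hr2]
  have h4 : (i : ZMod n) * i * ψ σ + (i : ZMod n) * i * ψ τ - (i : ZMod n) * i * ψ (σ * τ) =
      (i : ZMod n) * i * (ψ σ + ψ τ - ψ (σ * τ)) := by ring
  rw [h4, ← h3]
  ring

end Pool.Agent.Bog
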