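import Mathlib

/-!
An inversion formula on `(ℤ/q)²`, `q` a power of a prime `ℓ`: a function whose sums over the lines
`s + c t = r` vanish for infinitely many integers `c` is zero up to bounded torsion on the residue
classes of level `ℓ ^ k`.
-/

set_option autoImplicit false
set_option linter.style.haveILetI false

namespace Pool.Agent.Bog

open Finset Polynomial

section Line

variable {q : ℕ} [NeZero q] {H : Type*} [AddCommGroup H] [Module (ZMod q) H]

lemma line_sum (S : ZMod q → ZMod q → H) (c : ZMod q) (f : ZMod q → ZMod q)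
    (h : ∀ r, ∑ t, S (r - c * t) t = 0) :
    ∑ s, ∑ t, f (s + c * t) • S s t = 0 := by
  rw [Finset.sum_comm]
  have h1 : ∀ t, ∑ s, f (s + c * t) • S s t = ∑ r, f r • S (r - c * t) t := by
    intro t
    exact Fintype.sum_equiv (Equiv.addRight (c * t)) _ _ (fun s => by simp)
  rw [Finset.sum_congr rfl fun t _ => h1 t, Finset.sum_comm]
  apply Finset.sum_eq_zero
  intro r _
  rw [← Finset.smul_sum, h r, smul_zero]

end Line

lemma det_smul_eq_zero {n : ℕ} {H : Type*} [AddCommGroup H] (A : Matrix (Fin n) (Fin n) ℤ)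
    (x : Fin n → H) (h : ∀ r, ∑ j, A r j • x j = 0) (j : Fin n) : A.det • x j = 0 := by
  have h1 : ∑ r, A.adjugate j r • ∑ j', A r j' • x j' = 0 := by
    apply Finset.sum_eq_zero
    intro r _
    rw [h r, smul_zero]
  rw [Finset.sum_congr rfl (fun r _ => Finset.smul_sum), Finset.sum_comm] at h1
  have h2 : ∀ j', ∑ r, A.adjugate j r • A r j' • x j' = (if j = j' then A.det else 0) • x j' := by
    intro j'
    simp_rw [smul_smul, ← Finset.sum_smul]
    congr 1
    have := congrFun (congrFun (Matrix.adjugate_mul A) j) j'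
    rw [Matrix.mul_apply] at this
    rw [this, Matrix.smul_apply, Matrix.one_apply]
    split_ifs <;> simp
  rw [Finset.sum_congr rfl (fun j' _ => h2 j')] at h1
  simpa using h1

/-- the moments -/
def mom {q : ℕ} [NeZero q] {H : Type*} [AddCommGroup H] [Module (ZMod q) H]
    (S : ZMod q → ZMod q → H) (i j : ℕ) : H := ∑ s, ∑ t, (s ^ i * t ^ j) • S s t

/-- the universal constants -/
def Dc (c : ℕ → ℕ) (i j : ℕ) : ℤ :=
  (Matrix.vandermonde (fun r : Fin (i + j + 1) => (c r : ℤ))).det * ((i + j).choose j : ℤ)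

lemma Dc_ne_zero {c : ℕ → ℕ} (hc : Function.Injective c) (i j : ℕ) : Dc c i j ≠ 0 := by
  unfold Dc
  apply mul_ne_zero
  · rw [Matrix.det_vandermonde_ne_zero_iff]
    intro a b hab
    have h1 : (c a : ℤ) = c b := hab
    have h2 := hc (by exact_mod_cast h1 : c a = c b)
    exact Fin.ext h2
  · have : 0 < (i + j).choose j := Nat.choose_pos (Nat.le_add_left j i)
    exact_mod_cast this.ne'

section Mom

variable {q : ℕ} [NeZero q] {H : Type*} [AddCommGroup H] [Module (ZMod q) H]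

lemma mom_kill (c : ℕ → ℕ) (S : ZMod q → ZMod q → H)
    (hS : ∀ k r, ∑ t, S (r - (c k : ZMod q) * t) t = 0) (i j : ℕ) :
    Dc c i j • mom S i j = 0 := by
  set e := i + j with he
  have hexp : ∀ r : Fin (e + 1), ∑ b : Fin (e + 1),
      (Matrix.vandermonde (fun r : Fin (e + 1) => (c r : ℤ))) r b •
        ((e.choose b : ℤ) • mom S (e - b) b) = 0 := by
    intro r
    have h1 : ∑ s, ∑ t, (s + (c r : ZMod q) * t) ^ e • S s t = 0 :=
      line_sum S (c r : ZMod q) (fun x => x ^ e) (hS r)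
    have h2 : ∀ s t : ZMod q, (s + (c r : ZMod q) * t) ^ e • S s t =
        ∑ b : Fin (e + 1), ((c r : ℤ) ^ (b : ℕ)) • ((e.choose b : ℤ) •
          ((s ^ (e - b) * t ^ (b : ℕ)) • S s t)) := by
      intro s t
      rw [add_comm s, add_pow, ← Fin.sum_univ_eq_sum_range (fun b =>
        ((c r : ZMod q) * t) ^ b * s ^ (e - b) * (e.choose b : ZMod q)), Finset.sum_smul]
      apply Finset.sum_congr rfl
      intro b _
      rw [← Int.cast_smul_eq_zsmul (ZMod q), ← Int.cast_smul_eq_zsmul (ZMod q), smul_smul,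
        smul_smul]
      congr 1
      push_cast
      ring
    rw [Finset.sum_congr rfl (fun s _ => Finset.sum_congr rfl (fun t _ => h2 s t))] at h1
    have h3 : ∑ b : Fin (e + 1), (Matrix.vandermonde (fun r : Fin (e + 1) => (c r : ℤ))) r b •
        ((e.choose b : ℤ) • mom S (e - b) b) = ∑ s : ZMod q, ∑ t : ZMod q, ∑ b : Fin (e + 1),
          ((c r : ℤ) ^ (b : ℕ)) • ((e.choose b : ℤ) • ((s ^ (e - b) * t ^ (b : ℕ)) • S s t)) := by
      have h4 : ∀ s : ZMod q, ∑ t : ZMod q, ∑ b : Fin (e + 1),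
          ((c r : ℤ) ^ (b : ℕ)) • ((e.choose b : ℤ) • ((s ^ (e - b) * t ^ (b : ℕ)) • S s t)) =
          ∑ b : Fin (e + 1), ∑ t : ZMod q,
          ((c r : ℤ) ^ (b : ℕ)) • ((e.choose b : ℤ) • ((s ^ (e - b) * t ^ (b : ℕ)) • S s t)) :=
        fun s => Finset.sum_comm
      rw [Finset.sum_congr rfl (fun s _ => h4 s), Finset.sum_comm]
      apply Finset.sum_congr rfl
      intro b _
      rw [Matrix.vandermonde_apply]
      unfold mom
      rw [Finset.smul_sum, Finset.smul_sum]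
      apply Finset.sum_congr rfl
      intro s _
      rw [Finset.smul_sum, Finset.smul_sum]
    rw [h3]
    exact h1
  have h5 := det_smul_eq_zero _ _ hexp ⟨j, by omega⟩
  simp only at h5
  rw [show e - j = i by omega, smul_smul] at h5
  exact h5

/-- the universal constant of a polynomial -/
def Dp (c : ℕ → ℕ) (n : ℕ) : ℤ := ∏ i ∈ range (n + 1), ∏ j ∈ range (n + 1), Dc c i j

lemma Dp_ne_zero {c : ℕ → ℕ} (hc : Function.Injective c) (n : ℕ) : Dp c n ≠ 0 := by
  unfold Dp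
  exact Finset.prod_ne_zero_iff.mpr fun i _ => Finset.prod_ne_zero_iff.mpr fun j _ =>
    Dc_ne_zero hc i j

lemma poly_kill (c : ℕ → ℕ) (S : ZMod q → ZMod q → H)
    (hS : ∀ k r, ∑ t, S (r - (c k : ZMod q) * t) t = 0) (P : ℤ[X]) :
    Dp c P.natDegree • ∑ s, ∑ t, (aeval s P * aeval t P : ZMod q) • S s t = 0 := by
  have h1 : ∑ s, ∑ t, (aeval s P * aeval t P : ZMod q) • S s t =
      ∑ i ∈ range (P.natDegree + 1), ∑ j ∈ range (P.natDegree + 1),
        (P.coeff i * P.coeff j) • mom S i j := by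
    have h2 : ∀ s t : ZMod q, (aeval s P * aeval t P : ZMod q) • S s t =
        ∑ i ∈ range (P.natDegree + 1), ∑ j ∈ range (P.natDegree + 1),
          (P.coeff i * P.coeff j) • ((s ^ i * t ^ j) • S s t) := by
      intro s t
      rw [aeval_eq_sum_range, aeval_eq_sum_range, Finset.sum_mul_sum, Finset.sum_smul]
      apply Finset.sum_congr rfl
      intro i _
      rw [Finset.sum_smul]
      apply Finset.sum_congr rfl
      intro j _
      rw [← Int.cast_smul_eq_zsmul (ZMod q) (P.coeff i * P.coeff j), smul_smul]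
      congr 1
      rw [zsmul_eq_mul, zsmul_eq_mul]
      push_cast
      ring
    rw [Finset.sum_congr rfl (fun s _ => Finset.sum_congr rfl (fun t _ => h2 s t))]
    unfold mom
    simp_rw [Finset.smul_sum]
    rw [Finset.sum_congr rfl (fun s _ => Finset.sum_comm), Finset.sum_comm]
    apply Finset.sum_congr rfl
    intro i _
    rw [Finset.sum_congr rfl (fun s _ => Finset.sum_comm), Finset.sum_comm]
  rw [h1, Finset.smul_sum]
  apply Finset.sum_eq_zero
  intro i hi
  rw [Finset.smul_sum]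
  apply Finset.sum_eq_zero
  intro j hj
  have h3 : Dc c i j ∣ Dp c P.natDegree := by
    unfold Dp
    exact (Finset.dvd_prod_of_mem _ hj).trans
      (Finset.dvd_prod_of_mem (fun i => ∏ j ∈ range (P.natDegree + 1), Dc c i j) hi)
  obtain ⟨d, hd⟩ := h3
  rw [hd, smul_smul, show Dc c i j * d * (P.coeff i * P.coeff j) =
    (d * (P.coeff i * P.coeff j)) * Dc c i j by ring, mul_smul, mom_kill c S hS, smul_zero]

end Mom

/-! ### The indicator of a residue class as a limit of polynomials -/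

lemma choose_ind {ℓ : ℕ} (hℓ : ℓ.Prime) (k : ℕ) : ∀ n : ℕ, (ℓ : ℤ) ∣
    ((n.choose (ℓ ^ k - 1) : ℕ) : ℤ) - (if n % ℓ ^ k = ℓ ^ k - 1 then 1 else 0) := by
  haveI : Fact ℓ.Prime := ⟨hℓ⟩
  induction k with
  | zero => intro n; simp [Nat.mod_one]
  | succ k ih =>
    intro n
    have hp := hℓ.pos
    have hpk : 0 < ℓ ^ k := pow_pos hp k
    have e1 : ℓ ^ (k + 1) - 1 = ℓ * (ℓ ^ k - 1) + (ℓ - 1) := by
      rw [pow_succ, mul_comm, Nat.mul_sub, mul_one]
      have : ℓ ≤ ℓ * ℓ ^ k := Nat.le_mul_of_pos_right ℓ hpk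
      omega
    have e2 : (ℓ ^ (k + 1) - 1) % ℓ = ℓ - 1 := by
      rw [e1, Nat.mul_add_mod]
      exact Nat.mod_eq_of_lt (by omega)
    have e3 : (ℓ ^ (k + 1) - 1) / ℓ = ℓ ^ k - 1 := by
      rw [e1, Nat.mul_add_div hp, Nat.div_eq_of_lt (by omega), add_zero]
    have h1 := Choose.choose_modEq_choose_mod_mul_choose_div (n := n) (k := ℓ ^ (k + 1) - 1)
      (p := ℓ)
    rw [e2, e3] at h1
    have h3 : ((n % ℓ).choose (ℓ - 1) : ℕ) = if n % ℓ = ℓ - 1 then 1 else 0 := by
      have hlt : n % ℓ < ℓ := Nat.mod_lt n hp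
      split_ifs with h
      · rw [h, Nat.choose_self]
      · exact Nat.choose_eq_zero_of_lt (by omega)
    have h4 : (n % ℓ ^ (k + 1) = ℓ ^ (k + 1) - 1) ↔
        (n % ℓ = ℓ - 1 ∧ n / ℓ % ℓ ^ k = ℓ ^ k - 1) := by
      rw [e1, pow_succ, mul_comm (ℓ ^ k) ℓ, Nat.mod_mul]
      have hlt : n % ℓ < ℓ := Nat.mod_lt n hp
      have hlt2 : n / ℓ % ℓ ^ k < ℓ ^ k := Nat.mod_lt _ hpk
      constructor
      · intro h
        have h5 : n / ℓ % ℓ ^ k = ℓ ^ k - 1 := by
          by_contra hne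
          have h6 : n / ℓ % ℓ ^ k + 1 ≤ ℓ ^ k - 1 := by omega
          have h7 := Nat.mul_le_mul_left ℓ h6
          rw [Nat.mul_add, mul_one] at h7
          omega
        rw [h5] at h
        exact ⟨by omega, h5⟩
      · rintro ⟨h5, h6⟩
        rw [h5, h6]
        omega
    have h5 := (Int.modEq_iff_dvd.mp h1.symm)
    obtain ⟨a, ha⟩ := ih (n / ℓ)
    obtain ⟨b, hb⟩ := h5
    rw [h3] at hb
    by_cases hA : n % ℓ = ℓ - 1
    · by_cases hB : n / ℓ % ℓ ^ k = ℓ ^ k - 1
      · rw [if_pos (h4.mpr ⟨hA, hB⟩)]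
        rw [if_pos hA] at hb
        rw [if_pos hB] at ha
        refine ⟨b + a, ?_⟩
        push_cast at hb ha ⊢
        linear_combination hb + ha
      · rw [if_neg (fun h => hB (h4.mp h).2)]
        rw [if_pos hA] at hb
        rw [if_neg hB] at ha
        refine ⟨b + a, ?_⟩
        push_cast at hb ha ⊢
        linear_combination hb + ha
    · rw [if_neg (fun h => hA (h4.mp h).1)]
      rw [if_neg hA] at hb
      refine ⟨b, ?_⟩
      push_cast at hb ⊢
      linear_combination hb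

lemma exists_poly {ℓ : ℕ} (hℓ : ℓ.Prime) (k m : ℕ) : ∃ (D : ℕ) (P : ℤ[X]), D ≠ 0 ∧
    ∀ n : ℕ, ∃ h : ℤ, P.eval (n : ℤ) =
      D * ((if n % ℓ ^ k = ℓ ^ k - 1 then 1 else 0) + ℓ ^ m * h) := by
  refine ⟨((ℓ ^ k - 1).factorial) ^ (ℓ ^ m), (descPochhammer ℤ (ℓ ^ k - 1)) ^ (ℓ ^ m),
    pow_ne_zero _ (Nat.factorial_ne_zero _), fun n => ?_⟩
  have h1 := dvd_sub_pow_of_dvd_sub (choose_ind hℓ k n) m
  obtain ⟨b, hb⟩ := h1
  refine ⟨ℓ * b, ?_⟩
  rw [eval_pow, descPochhammer_eval_eq_descFactorial, Nat.descFactorial_eq_factorial_mul_choose]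
  push_cast
  rw [mul_pow]
  have h2 : (if n % ℓ ^ k = ℓ ^ k - 1 then (1 : ℤ) else 0) ^ (ℓ ^ m) =
      if n % ℓ ^ k = ℓ ^ k - 1 then 1 else 0 := by
    split_ifs
    · rw [one_pow]
    · rw [zero_pow (pow_ne_zero m hℓ.ne_zero)]
  rw [h2] at hb
  rw [eq_add_of_sub_eq hb]
  ring

/-- **Inversion.** -/
theorem radon {ℓ : ℕ} (hℓ : ℓ.Prime) {c : ℕ → ℕ} (hc : Function.Injective c) (k m : ℕ) :
    ∃ D : ℕ, D ≠ 0 ∧ ∀ (q : ℕ) [NeZero q] (H : Type*) [AddCommGroup H] [Module (ZMod q) H]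
      (S : ZMod q → ZMod q → H), q ∣ D * ℓ ^ m →
      (∀ k r, ∑ t, S (r - (c k : ZMod q) * t) t = 0) →
      D • ∑ s ∈ univ.filter (fun s : ZMod q => s.val % ℓ ^ k = ℓ ^ k - 1),
        ∑ t ∈ univ.filter (fun t : ZMod q => t.val % ℓ ^ k = ℓ ^ k - 1), S s t = 0 := by
  obtain ⟨D1, P, hD1, hP⟩ := exists_poly hℓ k m
  choose h hh using hP
  refine ⟨(Dp c P.natDegree).natAbs * D1 ^ 2, mul_ne_zero
    (Int.natAbs_ne_zero.mpr (Dp_ne_zero hc _)) (pow_ne_zero 2 hD1), ?_⟩
  intro q _ H _ _ S hq hS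
  have key := poly_kill c S hS P
  set ind : ZMod q → ZMod q := fun s => if s.val % ℓ ^ k = ℓ ^ k - 1 then 1 else 0 with hind
  have hPe : ∀ s : ZMod q, (aeval s P : ZMod q) =
      (D1 : ZMod q) * (ind s + (ℓ : ZMod q) ^ m * (h s.val : ZMod q)) := by
    intro s
    have e1 : (aeval s P : ZMod q) = ((P.eval ((s.val : ℕ) : ℤ) : ℤ) : ZMod q) := by
      have e2 : algebraMap ℤ (ZMod q) ((s.val : ℕ) : ℤ) = s := by
        rw [eq_intCast, Int.cast_natCast, ZMod.natCast_zmod_val]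
      have e3 := aeval_algebraMap_apply (ZMod q) ((s.val : ℕ) : ℤ) P
      rw [e2, eq_intCast, Polynomial.coe_aeval_eq_eval] at e3
      exact e3
    rw [e1, hh]
    push_cast
    congr 2
  have hmul : ∀ s t : ZMod q, ((Dp c P.natDegree : ℤ) : ZMod q) *
      (aeval s P * aeval t P : ZMod q) = ((Dp c P.natDegree : ℤ) : ZMod q) * (D1 : ZMod q) ^ 2 *
        (ind s * ind t) := by
    intro s t
    have h0 : ((Dp c P.natDegree : ℤ) : ZMod q) * (D1 : ZMod q) ^ 2 * (ℓ : ZMod q) ^ m = 0 := by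
      have h1 : ((((Dp c P.natDegree) * D1 ^ 2 * ℓ ^ m : ℤ)) : ZMod q) = 0 := by
        rw [ZMod.intCast_zmod_eq_zero_iff_dvd]
        have h2 : (q : ℤ) ∣ (((Dp c P.natDegree).natAbs * D1 ^ 2 * ℓ ^ m : ℕ) : ℤ) := by
          exact_mod_cast hq
        push_cast at h2
        rw [mul_assoc] at h2 ⊢
        have h3 : (|Dp c P.natDegree| * ((D1 : ℤ) ^ 2 * (ℓ : ℤ) ^ m)).natAbs =
            ((Dp c P.natDegree) * ((D1 : ℤ) ^ 2 * (ℓ : ℤ) ^ m)).natAbs := by
          rw [Int.natAbs_mul, Int.natAbs_mul (Dp c P.natDegree), Int.natAbs_abs]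
        rw [← Int.natAbs_dvd_natAbs] at h2 ⊢
        rw [← h3]
        exact h2
      push_cast at h1
      exact h1
    rw [hPe, hPe]
    linear_combination (ind s * (h t.val : ZMod q) + ind t * (h s.val : ZMod q) +
      (ℓ : ZMod q) ^ m * (h s.val : ZMod q) * (h t.val : ZMod q)) * h0
  rw [← Int.cast_smul_eq_zsmul (ZMod q), Finset.smul_sum] at key
  have h4 : ∀ s : ZMod q, ((Dp c P.natDegree : ℤ) : ZMod q) •
      ∑ t, (aeval s P * aeval t P : ZMod q) • S s t =
      (((Dp c P.natDegree : ℤ) : ZMod q) * (D1 : ZMod q) ^ 2) • ∑ t, (ind s * ind t) • S s t := by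
    intro s
    rw [Finset.smul_sum, Finset.smul_sum]
    apply Finset.sum_congr rfl
    intro t _
    rw [smul_smul, hmul, mul_smul]
  rw [Finset.sum_congr rfl (fun s _ => h4 s), ← Finset.smul_sum] at key
  have h5 : ∑ s, ∑ t, (ind s * ind t) • S s t =
      ∑ s ∈ univ.filter (fun s : ZMod q => s.val % ℓ ^ k = ℓ ^ k - 1),
        ∑ t ∈ univ.filter (fun t : ZMod q => t.val % ℓ ^ k = ℓ ^ k - 1), S s t := by
    rw [Finset.sum_filter]
    apply Finset.sum_congr rfl
    intro s _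
    rw [hind]
    simp only
    split_ifs with hs
    · rw [Finset.sum_filter]
      apply Finset.sum_congr rfl
      intro t _
      split_ifs <;> simp
    · simp
  rw [h5] at key
  set x := ∑ s ∈ univ.filter (fun s : ZMod q => s.val % ℓ ^ k = ℓ ^ k - 1),
        ∑ t ∈ univ.filter (fun t : ZMod q => t.val % ℓ ^ k = ℓ ^ k - 1), S s t with hx
  have h6 : ((Dp c P.natDegree) * (D1 : ℤ) ^ 2) • x = 0 := by
    rw [← Int.cast_smul_eq_zsmul (ZMod q)]
    push_cast
    exact key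
  have h7 : (((Dp c P.natDegree).natAbs * D1 ^ 2 : ℕ) : ℤ) • x = 0 := by
    rcases Int.natAbs_eq (Dp c P.natDegree) with h8 | h8
    · push_cast
      rw [← Int.natCast_natAbs, ← h8]
      exact h6
    · push_cast
      rw [← Int.natCast_natAbs]
      have h9 : (((Dp c P.natDegree).natAbs : ℕ) : ℤ) = - Dp c P.natDegree := by
        rw [h8]; simp
      rw [h9, neg_mul, neg_smul, h6, neg_zero]
  rw [natCast_zsmul] at h7
  exact h7

end Pool.Agent.Bog
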