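import Pool.Agent.Bog.Lift
import Pool.Agent.Bog.Induct

/-!
Cup products of characters, and the reduction to the cyclic layers.
-/

set_option autoImplicit false
set_option linter.unusedVariables false
set_option linter.unusedSectionVars false
set_option linter.style.haveILetI false

namespace Pool.Agent.Bog

open IntermediateField

section Def

variable {G : Type*} [Group G] [TopologicalSpace G]

/-- continuous homomorphism to `ℤ/n` -/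
def IsChar {n : ℕ} {U : Subgroup G} (χ : U → ZMod n) : Prop :=
  (∀ σ τ, χ (σ * τ) = χ σ + χ τ) ∧ IsLocallyConstant χ

/-- all cup products of two continuous characters `U → ℤ/n` vanish in `H²(N, ℤ/n)` -/
def Cup {N U : Subgroup G} (h : N ≤ U) (n : ℕ) : Prop :=
  ∀ χ χ' : U → ZMod n, IsChar χ → IsChar χ' → ∃ ψ : N → ZMod n, IsLocallyConstant ψ ∧
    ∀ σ τ : N, χ (Subgroup.inclusion h σ) * χ' (Subgroup.inclusion h τ) =
      ψ σ + ψ τ - ψ (σ * τ)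

end Def

variable {K Ω : Type*} [Field K] [Field Ω] [Algebra K Ω] [Algebra.IsAlgebraic K Ω]
  [IsAlgClosed Ω] {N U P : Subgroup (Ω ≃ₐ[K] Ω)} {ℓ : ℕ}

theorem cup_of_kills {n : ℕ} [NeZero n] {ζ : K} (hζ : IsPrimitiveRoot ζ n) (h : N ≤ U)
    (hk : Kills (fixedField U) (sN N n ζ)) : Cup h n := by
  intro χ χ' hχ hχ'
  obtain ⟨α, hα0, hα⟩ := kummer (Ω := Ω) hζ U χ hχ.1 hχ.2
  obtain ⟨β, hβ0, hβ⟩ := kummer (Ω := Ω) hζ U χ' hχ'.1 hχ'.2
  have hαU : α ^ n ∈ fixedField U := mem_fx.mpr fun g hg => pow_fixed_iff hζ hα0 (hα ⟨g, hg⟩)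
  have hβU : β ^ n ∈ fixedField U := mem_fx.mpr fun g hg => pow_fixed_iff hζ hβ0 (hβ ⟨g, hg⟩)
  have h1 := hk _ _ hαU hβU (pow_ne_zero n hα0) (pow_ne_zero n hβ0)
  rw [sN_roots N hζ hα0 hβ0 (fx_anti h hαU) (fx_anti h hβU), QuotientAddGroup.eq_zero_iff] at h1
  obtain ⟨ψ, hψ, hψe⟩ := h1
  refine ⟨ψ, hψ, fun σ τ => ?_⟩
  rw [← hψe σ τ]
  congr 1
  · exact (kap_eq hζ hα0 (hα (Subgroup.inclusion h σ))).symm
  · exact (kap_eq hζ hβ0 (hβ (Subgroup.inclusion h τ))).symm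

theorem kills_of_cup {n : ℕ} [NeZero n] {ζ : K} (hζ : IsPrimitiveRoot ζ n) (h : N ≤ U)
    (hc : Cup h n) : Kills (fixedField U) (sN N n ζ) := by
  intro a b ha hb ha0 hb0
  have hfix : ∀ x ∈ fixedField U, ∀ σ : U, (σ : Ω ≃ₐ[K] Ω) (rt n x ^ n) = rt n x ^ n := by
    intro x hx σ
    rw [rt_pow]
    exact (mem_fx.mp hx) σ σ.2
  have hch : ∀ x ∈ fixedField U, x ≠ 0 →
      IsChar (fun σ : U => kap n (algebraMap K Ω ζ) (rt n x) (σ : Ω ≃ₐ[K] Ω)) := by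
    intro x hx hx0
    refine ⟨fun σ τ => kap_mul_right hζ (rt_ne_zero n hx0) (hfix x hx σ) (hfix x hx τ), ?_⟩
    exact (lc_apply U (rt n x)).comp (fun y => dl n (algebraMap K Ω ζ) (y / rt n x))
  obtain ⟨ψ, hψ, hψe⟩ := hc _ _ (hch a ha ha0) (hch b hb hb0)
  rw [sN_eq_zero]
  exact ⟨ψ, hψ, hψe⟩

/-- the orbit of an algebraic element is finite -/
lemma index_stab_ne_zero (x : Ω) : (MulAction.stabilizer (Ω ≃ₐ[K] Ω) x).index ≠ 0 := by
  classical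
  rw [MulAction.index_stabilizer]
  have hint : IsIntegral K x := Algebra.IsIntegral.isIntegral x
  have hfin : (MulAction.orbit (Ω ≃ₐ[K] Ω) x).Finite := by
    apply Set.Finite.subset ((minpoly K x).rootSet_finite Ω)
    rintro _ ⟨g, rfl⟩
    rw [Polynomial.mem_rootSet]
    refine ⟨minpoly.ne_zero hint, ?_⟩
    change Polynomial.aeval (g x) (minpoly K x) = 0
    have h1 := Polynomial.aeval_algHom_apply (g : Ω →ₐ[K] Ω) x (minpoly K x)
    rw [minpoly.aeval, map_zero] at h1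
    exact h1
  exact Set.ncard_ne_zero_of_mem (MulAction.mem_orbit_self x) hfin

/-- **Reduction.** -/
theorem kills_reduction (hS : Std ℓ P N) (hN : N ≤ (⁅P, P⁆).topologicalClosure)
    (hroots : ∀ m : ℕ, ∃ ζ : K, IsPrimitiveRoot ζ (ℓ ^ m)) (hNU : N ≤ U) (hUP : U ≤ P)
    (hcyc : ∀ V : Subgroup (Ω ≃ₐ[K] Ω), ∀ hNV : N ≤ V, U ≤ V → V ≤ P →
      IsOpen ((V.subgroupOf P : Subgroup P) : Set P) →
      (∃ ρ ∈ P, P ≤ V ⊔ Subgroup.zpowers ρ ∧ ρ ^ ℓ ∉ V) → ∀ m : ℕ, Cup hNV (ℓ ^ m))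
    (m : ℕ) : Cup hNU (ℓ ^ m) := by
  haveI hℓn : NeZero ℓ := ⟨hS.hℓ.ne_zero⟩
  obtain ⟨ζ, hζ⟩ := hroots m
  apply cup_of_kills hζ hNU
  intro a b ha hb ha0 hb0
  set S : Subgroup (Ω ≃ₐ[K] Ω) := MulAction.stabilizer (Ω ≃ₐ[K] Ω) a ⊓
    MulAction.stabilizer (Ω ≃ₐ[K] Ω) b with hSd
  have hSo : IsOpen (S : Set (Ω ≃ₐ[K] Ω)) := (isOpen_stab (K := K) a).inter (isOpen_stab b)
  have hSi : S.index ≠ 0 := Subgroup.index_inf_ne_zero (index_stab_ne_zero a)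
    (index_stab_ne_zero b)
  set U' : Subgroup (Ω ≃ₐ[K] Ω) := P ⊓ S with hU'
  have hUU' : U ≤ U' := by
    refine le_inf hUP (le_inf ?_ ?_)
    · exact fun g hg => (mem_fx.mp ha) g hg
    · exact fun g hg => (mem_fx.mp hb) g hg
  have hU'P : U' ≤ P := inf_le_left
  have hd0 : U'.relIndex P ≠ 0 := by
    have h1 : S.relIndex ⊤ ≠ 0 := by rw [Subgroup.relIndex_top_right]; exact hSi
    have h2 := Subgroup.relIndex_inter_ne_zero h1 P
    rw [top_inf_eq, Subgroup.inf_relIndex_right] at h2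
    rw [hU', Subgroup.inf_relIndex_left]
    exact h2
  set d : ℕ := U'.relIndex P with hd
  have hNU' : N ≤ U' := hNU.trans hUU'
  have htor : ∀ g ∈ P, ∃ k, g ^ (ℓ ^ k) ∈ U' := by
    intro g hg
    obtain ⟨k1, hk1⟩ := hS.sp g hg a
    obtain ⟨k2, hk2⟩ := hS.sp g hg b
    refine ⟨k1 + k2, ?_⟩
    refine ⟨P.pow_mem hg _, ?_, ?_⟩
    · rw [pow_add, pow_mul]
      exact Subgroup.pow_mem _ (show g ^ ℓ ^ k1 ∈ MulAction.stabilizer (Ω ≃ₐ[K] Ω) a from hk1) _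
    · rw [pow_add, mul_comm, pow_mul]
      exact Subgroup.pow_mem _ (show g ^ ℓ ^ k2 ∈ MulAction.stabilizer (Ω ≃ₐ[K] Ω) b from hk2) _
  obtain ⟨ζ', hζ'⟩ := hroots (d + m)
  rw [pow_add] at hζ'
  haveI hn1 : NeZero (ℓ ^ d) := inferInstance
  haveI hn2 : NeZero (ℓ ^ m) := inferInstance
  haveI hn3 : NeZero (ℓ ^ d * ℓ ^ m) := ⟨mul_ne_zero (NeZero.ne _) (NeZero.ne _)⟩
  have hs := sN_symb (Ω := Ω) N hζ'
  -- the cyclic layers
  have hcyc' : ∀ V, U' ≤ V → V ≤ P → (∃ ρ ∈ P, P ≤ V ⊔ Subgroup.zpowers ρ) →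
      Kills (fixedField V) (sN N (ℓ ^ d * ℓ ^ m) ζ') := by
    rintro V hU'V hVP ⟨ρ, hρ, hPρ⟩
    have hNV : N ≤ V := hNU'.trans hU'V
    by_cases hρℓ : ρ ^ ℓ ∈ V
    · exact kills_small hS _ hs (fun a b ha hb ha0 hb0 => sN_zero_of_ground N hζ' hN ha ha0)
        V hNV hVP ρ hρ hPρ hρℓ
    · have hopen : IsOpen ((V.subgroupOf P : Subgroup P) : Set P) := by
        apply Subgroup.isOpen_mono (H₁ := S.subgroupOf P)
        · intro x hx
          rw [Subgroup.mem_subgroupOf] at hx ⊢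
          exact hU'V ⟨x.2, hx⟩
        · exact hSo.preimage continuous_subtype_val
      have hC := hcyc V hNV (hUU'.trans hU'V) hVP hopen ⟨ρ, hρ, hPρ, hρℓ⟩ (d + m)
      have hC2 : Cup hNV (ℓ ^ d * ℓ ^ m) := by rw [← pow_add]; exact hC
      exact kills_of_cup hζ' hNV hC2
  have ha' : a ∈ fixedField U' := mem_fx.mpr fun g hg => hg.2.1
  have hb' : b ∈ fixedField U' := mem_fx.mpr fun g hg => hg.2.2
  have hkey := kills_of_cyclic hS _ hs U' hNU' hcyc' d U' le_rfl hU'P hd.symm hd0 htor a b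
    ha' hb' ha0 hb0
  have haN : a ∈ fixedField N := fx_anti hNU ha
  have hbN : b ∈ fixedField N := fx_anti hNU hb
  have h1 := lift_symbol N hζ' haN hbN ha0 hb0 hkey
  have hζ2 : IsPrimitiveRoot (ζ' ^ (ℓ ^ d)) (ℓ ^ m) :=
    hζ'.pow (Nat.pos_of_ne_zero (NeZero.ne _)) rfl
  exact sN_root_indep N hζ hζ2 haN hbN ha0 hb0 h1

end Pool.Agent.Bog
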