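import Pool.Agent.Bog.Coch
import Pool.Agent.Bog.Layer

/-!
The Galois symbol is a Steinberg symbol; it vanishes when one entry comes from the ground field.
-/

set_option autoImplicit false
set_option linter.unusedVariables false
set_option linter.unusedSectionVars false

namespace Pool.Agent.Bog

open IntermediateField
open scoped commutatorElement

variable {K Ω : Type*} [Field K] [Field Ω] [Algebra K Ω]

/-- an `n`-th root -/
noncomputable def rt [IsAlgClosed Ω] (n : ℕ) [NeZero n] (a : Ω) : Ω :=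
  (IsAlgClosed.exists_pow_nat_eq a (Nat.pos_of_ne_zero (NeZero.ne n))).choose

lemma rt_pow [IsAlgClosed Ω] (n : ℕ) [NeZero n] (a : Ω) : rt n a ^ n = a :=
  (IsAlgClosed.exists_pow_nat_eq a (Nat.pos_of_ne_zero (NeZero.ne n))).choose_spec

lemma rt_ne_zero [IsAlgClosed Ω] (n : ℕ) [NeZero n] {a : Ω} (ha : a ≠ 0) : rt n a ≠ 0 := by
  intro h
  apply ha
  rw [← rt_pow n a, h, zero_pow (NeZero.ne n)]

variable [Algebra.IsAlgebraic K Ω] (N : Subgroup (Ω ≃ₐ[K] Ω)) {n : ℕ} [NeZero n]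

/-- the Galois symbol -/
noncomputable def sN [IsAlgClosed Ω] (n : ℕ) [NeZero n] (ζ : K) (a b : Ω) :
    (N → N → ZMod n) ⧸ cob N n :=
  QuotientAddGroup.mk (fun σ τ : N =>
    kap n (algebraMap K Ω ζ) (rt n a) (σ : Ω ≃ₐ[K] Ω) *
      kap n (algebraMap K Ω ζ) (rt n b) (τ : Ω ≃ₐ[K] Ω))

lemma sN_eq_zero [IsAlgClosed Ω] (ζ : K) (a b : Ω) :
    sN N n ζ a b = 0 ↔ (fun σ τ : N =>
      kap n (algebraMap K Ω ζ) (rt n a) (σ : Ω ≃ₐ[K] Ω) *
      kap n (algebraMap K Ω ζ) (rt n b) (τ : Ω ≃ₐ[K] Ω)) ∈ cob N n := by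
  unfold sN
  rw [QuotientAddGroup.eq_zero_iff]

/-- the cochain only depends on the `n`-th powers -/
lemma sN_roots [IsAlgClosed Ω] {ζ : K} (hζ : IsPrimitiveRoot ζ n) {α β : Ω} (hα : α ≠ 0)
    (hβ : β ≠ 0) (hαN : α ^ n ∈ fixedField N) (hβN : β ^ n ∈ fixedField N) :
    sN N n ζ (α ^ n) (β ^ n) = QuotientAddGroup.mk (fun σ τ : N =>
      kap n (algebraMap K Ω ζ) α (σ : Ω ≃ₐ[K] Ω) *
      kap n (algebraMap K Ω ζ) β (τ : Ω ≃ₐ[K] Ω)) := by
  unfold sN
  congr 1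
  funext σ τ
  rw [kap_congr hζ (rt_ne_zero n (pow_ne_zero n hα)) hα (rt_pow n _)
      (by rw [rt_pow]; exact (mem_fx.mp hαN) σ σ.2),
    kap_congr hζ (rt_ne_zero n (pow_ne_zero n hβ)) hβ (rt_pow n _)
      (by rw [rt_pow]; exact (mem_fx.mp hβN) τ τ.2)]

theorem sN_symb [IsAlgClosed Ω] {ζ : K} (hζ : IsPrimitiveRoot ζ n) :
    IsSymb (fixedField N) (sN N n ζ) := by
  have hfix : ∀ a ∈ fixedField N, ∀ σ : N, (σ : Ω ≃ₐ[K] Ω) (rt n a ^ n) = rt n a ^ n := by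
    intro a ha σ
    rw [rt_pow]
    exact (mem_fx.mp ha) σ σ.2
  refine ⟨?_, ?_, ?_⟩
  · intro a b c ha hb hc ha0 hb0 hc0
    have h1 : a * b = (rt n a * rt n b) ^ n := by rw [mul_pow, rt_pow, rt_pow]
    have h2 : sN N n ζ (a * b) c = QuotientAddGroup.mk (fun σ τ : N =>
        kap n (algebraMap K Ω ζ) (rt n a * rt n b) (σ : Ω ≃ₐ[K] Ω) *
        kap n (algebraMap K Ω ζ) (rt n c) (τ : Ω ≃ₐ[K] Ω)) := by
      have := sN_roots N hζ (α := rt n a * rt n b) (β := rt n c)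
        (mul_ne_zero (rt_ne_zero n ha0) (rt_ne_zero n hb0)) (rt_ne_zero n hc0)
        (by rw [← h1]; exact mul_mem ha hb) (by rw [rt_pow]; exact hc)
      rw [← h1, rt_pow] at this
      exact this
    rw [h2]
    unfold sN
    rw [← QuotientAddGroup.mk_add]
    congr 1
    funext σ τ
    simp only [Pi.add_apply]
    rw [kap_mul hζ (rt_ne_zero n ha0) (rt_ne_zero n hb0) (hfix a ha σ) (hfix b hb σ)]
    ring
  · intro a b c ha hb hc ha0 hb0 hc0
    have h1 : b * c = (rt n b * rt n c) ^ n := by rw [mul_pow, rt_pow, rt_pow]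
    have h2 : sN N n ζ a (b * c) = QuotientAddGroup.mk (fun σ τ : N =>
        kap n (algebraMap K Ω ζ) (rt n a) (σ : Ω ≃ₐ[K] Ω) *
        kap n (algebraMap K Ω ζ) (rt n b * rt n c) (τ : Ω ≃ₐ[K] Ω)) := by
      have := sN_roots N hζ (α := rt n a) (β := rt n b * rt n c) (rt_ne_zero n ha0)
        (mul_ne_zero (rt_ne_zero n hb0) (rt_ne_zero n hc0))
        (by rw [rt_pow]; exact ha) (by rw [← h1]; exact mul_mem hb hc)
      rw [← h1, rt_pow] at this
      exact this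
    rw [h2]
    unfold sN
    rw [← QuotientAddGroup.mk_add]
    congr 1
    funext σ τ
    simp only [Pi.add_apply]
    rw [kap_mul hζ (rt_ne_zero n hb0) (rt_ne_zero n hc0) (hfix b hb τ) (hfix c hc τ)]
    ring
  · intro a ha ha0 ha1
    rw [sN_eq_zero]
    have h1a : (1 : Ω) - a ≠ 0 := sub_ne_zero.mpr (Ne.symm ha1)
    set α : Ω := rt n (1 - a) with hα
    have hα0 : α ≠ 0 := rt_ne_zero n h1a
    have hαn : α ^ n = 1 - a := rt_pow n _
    have hzp : IsPrimitiveRoot (algebraMap K Ω ζ) n := hzΩ hζ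
    have hαN : ∀ σ ∈ N, σ (α ^ n) = α ^ n := by
      intro σ hσ
      rw [hαn, map_sub, map_one, (mem_fx.mp ha) σ hσ]
    apply norm_cob N hζ hα0 hαN (fun i => 1 - ex (algebraMap K Ω ζ) i * α)
    · intro i h
      have h2 : ∏ i : ZMod n, (1 - ex (algebraMap K Ω ζ) i * α) = 0 :=
        Finset.prod_eq_zero (Finset.mem_univ i) h
      rw [prod_sub hzp, one_pow, hαn] at h2
      apply ha0
      linear_combination h2
    · intro σ hσ i
      rw [map_sub, map_one, map_mul, ex_fixed, kap_spec hζ hα0 (hαN σ hσ), ex_add hzp,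
        kap_eq hζ hα0 (kap_spec hζ hα0 (hαN σ hσ))]
      ring
    · rw [prod_sub hzp, one_pow, hαn, rt_pow]
      ring

/-- `σ ↦ σ x` is locally constant on the whole group -/
lemma lc_apply' (x : Ω) : IsLocallyConstant (fun σ : Ω ≃ₐ[K] Ω => σ x) := by
  have h := lc_apply (⊤ : Subgroup (Ω ≃ₐ[K] Ω)) x
  have hc : Continuous (fun σ : Ω ≃ₐ[K] Ω => (⟨σ, Subgroup.mem_top σ⟩ :
      (⊤ : Subgroup (Ω ≃ₐ[K] Ω)))) := continuous_id.subtype_mk _
  exact h.comp_continuous hc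

lemma isClosed_stab (x : Ω) :
    IsClosed ((MulAction.stabilizer (Ω ≃ₐ[K] Ω) x : Subgroup (Ω ≃ₐ[K] Ω)) :
      Set (Ω ≃ₐ[K] Ω)) :=
  (lc_apply' (K := K) x).isClosed_fiber x

lemma isOpen_stab (x : Ω) :
    IsOpen ((MulAction.stabilizer (Ω ≃ₐ[K] Ω) x : Subgroup (Ω ≃ₐ[K] Ω)) :
      Set (Ω ≃ₐ[K] Ω)) :=
  (lc_apply' (K := K) x).isOpen_fiber x

/-- roots of elements of `F = Ω^P` are fixed by the closed commutator subgroup -/
lemma root_fixed {ζ : K} (hζ : IsPrimitiveRoot ζ n) {P : Subgroup (Ω ≃ₐ[K] Ω)}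
    {α : Ω} (hα : α ≠ 0) (hαP : α ^ n ∈ fixedField P) :
    ∀ σ ∈ (⁅P, P⁆).topologicalClosure, σ α = α := by
  have hfix : ∀ g ∈ P, g (α ^ n) = α ^ n := fun g hg => (mem_fx.mp hαP) g hg
  have h1 : ⁅P, P⁆ ≤ MulAction.stabilizer (Ω ≃ₐ[K] Ω) α := by
    rw [Subgroup.commutator_le]
    intro g hg h hh
    rw [MulAction.mem_stabilizer_iff]
    have hcm : (g * h) α = (h * g) α := by
      change g (h α) = h (g α)
      rw [kap_spec hζ hα (hfix h hh), kap_spec hζ hα (hfix g hg), map_mul, map_mul, ex_fixed,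
        ex_fixed, kap_spec hζ hα (hfix g hg), kap_spec hζ hα (hfix h hh),
        kap_eq hζ hα (kap_spec hζ hα (hfix g hg)), kap_eq hζ hα (kap_spec hζ hα (hfix h hh))]
      ring
    -- `α = (h g) β` with `β` a multiple of `α`
    have h2 : ⁅g, h⁆ * (h * g) = g * h := by
      rw [commutatorElement_def]
      group
    set c := kap n (algebraMap K Ω ζ) α (h * g) with hc
    have hhg : (h * g) α = ex (algebraMap K Ω ζ) c * α := by
      apply kap_spec hζ hα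
      change h (g (α ^ n)) = α ^ n
      rw [hfix g hg, hfix h hh]
    have h3 : ⁅g, h⁆ ((h * g) α) = (g * h) α := by
      rw [← h2]
      rfl
    rw [hcm, hhg, map_mul, ex_fixed] at h3
    exact mul_left_cancel₀ (ex_ne_zero (hzΩ hζ) c) h3
  have h2 := Subgroup.topologicalClosure_minimal _ h1 (isClosed_stab (K := K) α)
  intro σ hσ
  exact h2 hσ

theorem sN_zero_of_ground [IsAlgClosed Ω] {ζ : K} (hζ : IsPrimitiveRoot ζ n)
    {P : Subgroup (Ω ≃ₐ[K] Ω)} (hN : N ≤ (⁅P, P⁆).topologicalClosure) {a b : Ω}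
    (ha : a ∈ fixedField P) (ha0 : a ≠ 0) : sN N n ζ a b = 0 := by
  rw [sN_eq_zero]
  refine ⟨fun _ => 0, IsLocallyConstant.const 0, fun σ τ => ?_⟩
  have h1 : (σ : Ω ≃ₐ[K] Ω) (rt n a) = rt n a :=
    root_fixed hζ (rt_ne_zero n ha0) (by rw [rt_pow]; exact ha) σ (hN σ.2)
  have h2 : kap n (algebraMap K Ω ζ) (rt n a) (σ : Ω ≃ₐ[K] Ω) = 0 := by
    apply kap_eq hζ (rt_ne_zero n ha0)
    rw [h1, ex_zero (hzΩ (Ω := Ω) hζ), one_mul]
  simp only [h2, zero_mul]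
  ring

end Pool.Agent.Bog
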