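import Mathlib

/-!
Steinberg symbols on a subfield of `Ω` and the Bass–Tate argument.
-/

set_option autoImplicit false

namespace Pool.Agent.Bog

variable {K Ω : Type*} [Field K] [Field Ω] [Algebra K Ω] {A : Type*} [AddCommGroup A]

/-- `s` is a Steinberg symbol on the multiplicative group of `E`. -/
structure IsSymb (E : IntermediateField K Ω) (s : Ω → Ω → A) : Prop where
  mul_left : ∀ a b c, a ∈ E → b ∈ E → c ∈ E → a ≠ 0 → b ≠ 0 → c ≠ 0 →
    s (a * b) c = s a c + s b c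
  mul_right : ∀ a b c, a ∈ E → b ∈ E → c ∈ E → a ≠ 0 → b ≠ 0 → c ≠ 0 →
    s a (b * c) = s a b + s a c
  st : ∀ a, a ∈ E → a ≠ 0 → a ≠ 1 → s a (1 - a) = 0

/-- `s` vanishes on `E^* × E^*`. -/
def Kills (E : IntermediateField K Ω) (s : Ω → Ω → A) : Prop :=
  ∀ a b, a ∈ E → b ∈ E → a ≠ 0 → b ≠ 0 → s a b = 0

namespace IsSymb

variable {E : IntermediateField K Ω} {s : Ω → Ω → A}

lemma mono {E' : IntermediateField K Ω} (hs : IsSymb E s) (h : E' ≤ E) : IsSymb E' s :=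
  ⟨fun a b c ha hb hc => hs.mul_left a b c (h ha) (h hb) (h hc),
   fun a b c ha hb hc => hs.mul_right a b c (h ha) (h hb) (h hc),
   fun a ha => hs.st a (h ha)⟩

lemma one_left (hs : IsSymb E s) {c : Ω} (hc : c ∈ E) (hc0 : c ≠ 0) : s 1 c = 0 := by
  have h := hs.mul_left 1 1 c E.one_mem E.one_mem hc one_ne_zero one_ne_zero hc0
  rw [mul_one] at h
  simpa using h

lemma inv_left (hs : IsSymb E s) {a c : Ω} (ha : a ∈ E) (hc : c ∈ E) (ha0 : a ≠ 0)
    (hc0 : c ≠ 0) : s a⁻¹ c = - s a c := by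
  have h := hs.mul_left a a⁻¹ c ha (E.inv_mem ha) hc ha0 (inv_ne_zero ha0) hc0
  rw [mul_inv_cancel₀ ha0, hs.one_left hc hc0] at h
  exact (neg_eq_of_add_eq_zero_right h.symm).symm

lemma one_right (hs : IsSymb E s) {c : Ω} (hc : c ∈ E) (hc0 : c ≠ 0) : s c 1 = 0 := by
  have h := hs.mul_right c 1 1 hc E.one_mem E.one_mem hc0 one_ne_zero one_ne_zero
  rw [mul_one] at h
  simpa using h

lemma inv_right (hs : IsSymb E s) {a c : Ω} (ha : a ∈ E) (hc : c ∈ E) (ha0 : a ≠ 0)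
    (hc0 : c ≠ 0) : s c a⁻¹ = - s c a := by
  have h := hs.mul_right c a a⁻¹ hc ha (E.inv_mem ha) hc0 ha0 (inv_ne_zero ha0)
  rw [mul_inv_cancel₀ ha0, hs.one_right hc hc0] at h
  exact (neg_eq_of_add_eq_zero_right h.symm).symm

lemma self_neg (hs : IsSymb E s) {a : Ω} (ha : a ∈ E) (ha0 : a ≠ 0) : s a (-a) = 0 := by
  by_cases h1 : a = 1
  · subst h1
    exact hs.one_left (E.neg_mem E.one_mem) (by simp)
  · have h1i : a⁻¹ ≠ 1 := by
      intro h; apply h1; rw [inv_eq_one] at h; exact h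
    have hs1 : 1 - a ≠ 0 := sub_ne_zero.mpr (Ne.symm h1)
    have hs2 : 1 - a⁻¹ ≠ 0 := sub_ne_zero.mpr (Ne.symm h1i)
    have hm1 : 1 - a ∈ E := E.sub_mem E.one_mem ha
    have hm2 : 1 - a⁻¹ ∈ E := E.sub_mem E.one_mem (E.inv_mem ha)
    have e : -a = (1 - a) * (1 - a⁻¹)⁻¹ := by
      rw [eq_mul_inv_iff_mul_eq₀ hs2]
      field_simp
      ring
    rw [e, hs.mul_right a _ _ ha hm1 (E.inv_mem hm2) ha0 hs1 (inv_ne_zero hs2),
      hs.st a ha ha0 h1, hs.inv_right hm2 ha hs2 ha0, zero_add,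
      ← hs.inv_left ha hm2 ha0 hs2]
    exact hs.st _ (E.inv_mem ha) (inv_ne_zero ha0) h1i

lemma skew (hs : IsSymb E s) {a b : Ω} (ha : a ∈ E) (hb : b ∈ E) (ha0 : a ≠ 0) (hb0 : b ≠ 0) :
    s a b + s b a = 0 := by
  have h := hs.self_neg (E.mul_mem ha hb) (mul_ne_zero ha0 hb0)
  rw [hs.mul_left a b _ ha hb (E.neg_mem (E.mul_mem ha hb)) ha0 hb0
    (neg_ne_zero.mpr (mul_ne_zero ha0 hb0))] at h
  have e1 : -(a * b) = (-a) * b := by ring
  have e2 : -(a * b) = (-b) * a := by ring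
  have h1 : s a (-(a * b)) = s a b := by
    rw [e1, hs.mul_right a _ _ ha (E.neg_mem ha) hb ha0 (neg_ne_zero.mpr ha0) hb0,
      hs.self_neg ha ha0, zero_add]
  have h2 : s b (-(a * b)) = s b a := by
    rw [e2, hs.mul_right b _ _ hb (E.neg_mem hb) ha hb0 (neg_ne_zero.mpr hb0) ha0,
      hs.self_neg hb hb0, zero_add]
  rw [h1, h2] at h
  exact h

/-- the set of `x ∈ E^*` with `s x E^* = 0` is closed under products of a multiset -/
lemma prod_left (hs : IsSymb E s) {ι : Type*} (R : Multiset ι) (f : ι → Ω) {y : Ω} (hy : y ∈ E)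
    (hy0 : y ≠ 0) (hf : ∀ r ∈ R, f r ∈ E) (hf0 : ∀ r ∈ R, f r ≠ 0) :
    (∀ r ∈ R, s (f r) y = 0) → s (R.map f).prod y = 0 := by
  induction R using Multiset.induction_on with
  | empty => intro _; simpa using hs.one_left hy hy0
  | cons r R ih =>
    intro h
    rw [Multiset.map_cons, Multiset.prod_cons]
    have hp : (R.map f).prod ∈ E := by
      apply Subring.multiset_prod_mem E.toSubring
      intro c hc
      rw [Multiset.mem_map] at hc
      obtain ⟨a, ha, rfl⟩ := hc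
      exact hf a (Multiset.mem_cons_of_mem ha)
    have hp0 : (R.map f).prod ≠ 0 := by
      apply Multiset.prod_ne_zero
      intro h0
      rw [Multiset.mem_map] at h0
      obtain ⟨a, ha, h0⟩ := h0
      exact hf0 a (Multiset.mem_cons_of_mem ha) h0
    rw [hs.mul_left _ _ _ (hf r (Multiset.mem_cons_self r R)) hp hy
      (hf0 r (Multiset.mem_cons_self r R)) hp0 hy0, h r (Multiset.mem_cons_self r R),
      ih (fun a ha => hf a (Multiset.mem_cons_of_mem ha))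
        (fun a ha => hf0 a (Multiset.mem_cons_of_mem ha))
        (fun a ha => h a (Multiset.mem_cons_of_mem ha)), add_zero]

/-- Bass–Tate: if `E^*` is generated by `F₁^*` and the elements `θ - c`, `c ∈ F₁`, then a Steinberg
symbol on `E` that vanishes on `F₁^* × E^*` vanishes. -/
theorem bass_tate (hs : IsSymb E s) (F₁ : IntermediateField K Ω) (hF : F₁ ≤ E) (θ : Ω)
    (hθ : θ ∈ E)
    (gen : ∀ y, y ∈ E → y ≠ 0 → ∃ (c : Ω) (R : Multiset Ω), c ∈ F₁ ∧ (∀ r ∈ R, r ∈ F₁) ∧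
      y = c * (R.map (fun r => θ - r)).prod)
    (h0 : ∀ c y, c ∈ F₁ → y ∈ E → c ≠ 0 → y ≠ 0 → s c y = 0) :
    Kills E s := by
  have h0' : ∀ c y, c ∈ F₁ → y ∈ E → c ≠ 0 → y ≠ 0 → s y c = 0 := by
    intro c y hc hy hc0 hy0
    have := hs.skew (hF hc) hy hc0 hy0
    rw [h0 c y hc hy hc0 hy0, zero_add] at this
    exact this
  have key : ∀ c d, c ∈ F₁ → d ∈ F₁ → θ - c ≠ 0 → θ - d ≠ 0 → s (θ - c) (θ - d) = 0 := by
    intro c d hc hd hc0 hd0
    have hcE : θ - c ∈ E := E.sub_mem hθ (hF hc)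
    have hdE : θ - d ∈ E := E.sub_mem hθ (hF hd)
    by_cases hcd : c = d
    · subst hcd
      have h := hs.self_neg hcE hc0
      have e : -(θ - c) = (-1) * (θ - c) := by ring
      have hm1 : (-1 : Ω) ∈ F₁ := F₁.neg_mem F₁.one_mem
      have hm1' : (-1 : Ω) ≠ 0 := by simp
      rw [e, hs.mul_right _ _ _ hcE (hF hm1) hcE hc0 hm1' hc0,
        h0' _ _ hm1 hcE hm1' hc0, zero_add] at h
      exact h
    · have hdc : d - c ≠ 0 := sub_ne_zero.mpr (Ne.symm hcd)
      have hcd' : c - d ≠ 0 := sub_ne_zero.mpr hcd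
      have hdcF : d - c ∈ F₁ := F₁.sub_mem hd hc
      have hcdF : c - d ∈ F₁ := F₁.sub_mem hc hd
      set u : Ω := (θ - c) * (d - c)⁻¹ with hu
      have hu0 : u ≠ 0 := mul_ne_zero hc0 (inv_ne_zero hdc)
      have huE : u ∈ E := E.mul_mem hcE (E.inv_mem (hF hdcF))
      have e1 : 1 - u = (θ - d) * (c - d)⁻¹ := by
        rw [hu, eq_mul_inv_iff_mul_eq₀ hcd', sub_mul, one_mul, mul_assoc]
        have : (d - c)⁻¹ * (c - d) = -1 := by
          rw [show c - d = -(d - c) by ring, mul_neg, inv_mul_cancel₀ hdc]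
        rw [this]
        ring
      have h1u : 1 - u ≠ 0 := by
        rw [e1]; exact mul_ne_zero hd0 (inv_ne_zero hcd')
      have hu1 : u ≠ 1 := by
        intro h; apply h1u; rw [h]; ring
      have h1uE : 1 - u ∈ E := E.sub_mem E.one_mem huE
      have hst := hs.st u huE hu0 hu1
      rw [hu] at hst
      rw [← hu] at hst
      have e2 : s u (1 - u) = s (θ - c) (1 - u) := by
        rw [hu, hs.mul_left _ _ _ hcE (E.inv_mem (hF hdcF)) (by rw [← hu]; exact h1uE) hc0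
          (inv_ne_zero hdc) (by rw [← hu]; exact h1u), ← hu,
          h0 _ _ (F₁.inv_mem hdcF) h1uE (inv_ne_zero hdc) h1u, add_zero]
      rw [e2, e1, hs.mul_right _ _ _ hcE hdE (E.inv_mem (hF hcdF)) hc0 hd0 (inv_ne_zero hcd'),
        h0' _ _ (F₁.inv_mem hcdF) hcE (inv_ne_zero hcd') hc0, add_zero] at hst
      exact hst
  intro x y hx hy hx0 hy0
  obtain ⟨c, R, hc, hR, rfl⟩ := gen x hx hx0
  obtain ⟨d, S, hd, hS, rfl⟩ := gen y hy hy0
  have hc0 : c ≠ 0 := left_ne_zero_of_mul hx0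
  have hd0 : d ≠ 0 := left_ne_zero_of_mul hy0
  have hRp0 : (R.map (fun r => θ - r)).prod ≠ 0 := right_ne_zero_of_mul hx0
  have hSp0 : (S.map (fun r => θ - r)).prod ≠ 0 := right_ne_zero_of_mul hy0
  have hR0 : ∀ r ∈ R, θ - r ≠ 0 := by
    intro r hr h
    apply hRp0
    apply Multiset.prod_eq_zero
    rw [Multiset.mem_map]
    exact ⟨r, hr, h⟩
  have hS0 : ∀ r ∈ S, θ - r ≠ 0 := by
    intro r hr h
    apply hSp0
    apply Multiset.prod_eq_zero
    rw [Multiset.mem_map]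
    exact ⟨r, hr, h⟩
  have hRE : ∀ r ∈ R, θ - r ∈ E := fun r hr => E.sub_mem hθ (hF (hR r hr))
  have hSE : ∀ r ∈ S, θ - r ∈ E := fun r hr => E.sub_mem hθ (hF (hS r hr))
  have hRpE : (R.map (fun r => θ - r)).prod ∈ E := by
    apply Subring.multiset_prod_mem E.toSubring
    intro c hc
    rw [Multiset.mem_map] at hc
    obtain ⟨a, ha, rfl⟩ := hc
    exact hRE a ha
  have hSpE : (S.map (fun r => θ - r)).prod ∈ E := by
    apply Subring.multiset_prod_mem E.toSubring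
    intro c hc
    rw [Multiset.mem_map] at hc
    obtain ⟨a, ha, rfl⟩ := hc
    exact hSE a ha
  rw [hs.mul_left _ _ _ (hF hc) hRpE hy hc0 hRp0 hy0, h0 _ _ hc hy hc0 hy0, zero_add,
    hs.mul_right _ _ _ hRpE (hF hd) hSpE hRp0 hd0 hSp0, h0' _ _ hd hRpE hd0 hRp0, zero_add]
  apply hs.prod_left R _ hSpE hSp0 hRE hR0
  intro r hr
  have hsk := hs.skew (hRE r hr) hSpE (hR0 r hr) hSp0
  have : s (S.map (fun r => θ - r)).prod (θ - r) = 0 := by
    apply hs.prod_left S _ (hRE r hr) (hR0 r hr) hSE hS0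
    intro q hq
    exact key q r (hS q hq) (hR r hr) (hS0 q hq) (hR0 r hr)
  rw [this, add_zero] at hsk
  exact hsk

end IsSymb

end Pool.Agent.Bog
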